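import Pool.Agent.Leh2.Defs

set_option autoImplicit false
set_option linter.unusedVariables false

namespace Pool.Agent.Leh2

open NumberField Height Module

private theorem he_prod_infinite (K : Type) [Field K] [NumberField K] (F : InfinitePlace K → ℝ) :
    ∏ v : InfinitePlace K, F v ^ v.mult = ∏ σ : K →+* ℂ, F (InfinitePlace.mk σ) := by
  classical
  rw [← Finset.prod_fiberwise Finset.univ InfinitePlace.mk (fun φ => F (InfinitePlace.mk φ))]
  refine Finset.prod_congr rfl fun v _ => ?_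
  have h1 : ∀ φ ∈ ({φ | InfinitePlace.mk φ = v} : Finset (K →+* ℂ)),
      F (InfinitePlace.mk φ) = F v := by
    intro φ hφ
    rw [(Finset.mem_filter.mp hφ).2]
  rw [Finset.prod_congr rfl h1, Finset.prod_const, InfinitePlace.card_filter_mk_eq]

private theorem he_core (K : Type) [Field K] [NumberField K] (a b : 𝓞 K) (hb : b ≠ 0) :
    (Ideal.absNorm (Ideal.span {a, b}) : ℝ) * mulHeight₁ ((a : K) / (b : K)) =
      ∏ σ : K →+* ℂ, max ‖σ (a : K)‖ ‖σ (b : K)‖ := by
  have hbK : (b : K) ≠ 0 := by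
    intro h
    exact hb (by exact_mod_cast h)
  have hne : (![a, b] : Fin 2 → 𝓞 K) ≠ 0 := fun h => hb (congrFun h 1)
  have hfin := absNorm_mul_finprod_finitePlace_eq_one hne
  have hspan : Ideal.span (Set.range ![a, b]) = Ideal.span {a, b} := by
    congr 1
    ext z
    simp only [Matrix.range_cons, Matrix.range_empty, Set.union_empty, Set.mem_union,
      Set.mem_singleton_iff, Set.mem_insert_iff]
  rw [hspan] at hfin
  have hcoe : (fun i => ((![a, b] i : 𝓞 K) : K)) = ![(a : K), (b : K)] := by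
    funext i
    fin_cases i
    · rfl
    · rfl
  have hne' : (![(a : K), (b : K)] : Fin 2 → K) ≠ 0 := fun h => hbK (congrFun h 1)
  have hfin' : (Ideal.absNorm (Ideal.span {a, b}) : ℝ) *
      ∏ᶠ v : FinitePlace K, ⨆ i, v (![(a : K), (b : K)] i) = 1 := by
    rw [← hcoe]
    exact hfin
  rw [mulHeight₁_div_eq_mulHeight, NumberField.mulHeight_eq hne', mul_left_comm, hfin', mul_one]
  rw [he_prod_infinite K (fun v => ⨆ i, v (![(a : K), (b : K)] i))]
  refine Finset.prod_congr rfl fun σ _ => ?_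
  have hbd : BddAbove (Set.range fun i => InfinitePlace.mk σ (![(a : K), (b : K)] i)) :=
    Set.Finite.bddAbove (Set.finite_range _)
  refine le_antisymm (ciSup_le fun i => ?_) (max_le (le_ciSup hbd 0) (le_ciSup hbd 1))
  fin_cases i
  · exact le_max_left _ _
  · exact le_max_right _ _

private theorem he_card {K L : Type} [Field K] [NumberField K] [Field L] [NumberField L]
    [Algebra K L] [DecidableEq (K →+* ℂ)] (ρ : K →+* ℂ) :
    (Finset.univ.filter (fun σ : L →+* ℂ => σ.comp (algebraMap K L) = ρ)).card =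
      finrank K L := by
  let : Algebra K ℂ := ρ.toAlgebra
  have h1 : Fintype.card (L →ₐ[K] ℂ) = finrank K L := AlgHom.card K L ℂ
  rw [← h1, ← Finset.card_univ]
  symm
  refine Finset.card_bij (fun (φ : L →ₐ[K] ℂ) _ => φ.toRingHom) ?_ ?_ ?_
  · intro φ _
    rw [Finset.mem_filter]
    refine ⟨Finset.mem_univ _, ?_⟩
    ext x
    exact φ.commutes x
  · intro φ _ ψ _ h
    ext x
    exact congrArg (fun f : L →+* ℂ => f x) h
  · intro χ hχ
    have h2 := (Finset.mem_filter.1 hχ).2
    refine ⟨{ χ with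
      commutes' := fun x => by
        have := congrArg (fun f : K →+* ℂ => f x) h2
        exact this }, Finset.mem_univ _, rfl⟩

private theorem he_prod {K L : Type} [Field K] [NumberField K] [Field L] [NumberField L]
    [Algebra K L] (F : (K →+* ℂ) → ℝ) :
    ∏ σ : L →+* ℂ, F (σ.comp (algebraMap K L)) = (∏ ρ : K →+* ℂ, F ρ) ^ finrank K L := by
  classical
  rw [← Finset.prod_pow,
    ← Finset.prod_fiberwise Finset.univ (fun σ : L →+* ℂ => σ.comp (algebraMap K L))]
  refine Finset.prod_congr rfl fun ρ _ => ?_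
  rw [← he_card (L := L) ρ, ← Finset.prod_const]
  refine Finset.prod_congr rfl fun σ hσ => ?_
  rw [(Finset.mem_filter.1 hσ).2]

private theorem he_mul {K L : Type} [Field K] [NumberField K] [Field L] [NumberField L]
    [Algebra K L] (x : K) : mulHeight₁ (algebraMap K L x) = mulHeight₁ x ^ finrank K L := by
  obtain ⟨a, b, hb, rfl⟩ := IsFractionRing.div_surjective (A := 𝓞 K) x
  have hb0 : b ≠ 0 := nonZeroDivisors.ne_zero hb
  set a' : 𝓞 L := algebraMap (𝓞 K) (𝓞 L) a with ha'
  set b' : 𝓞 L := algebraMap (𝓞 K) (𝓞 L) b with hb'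
  have hinj : Function.Injective (algebraMap (𝓞 K) (𝓞 L)) :=
    FaithfulSMul.algebraMap_injective _ _
  have hb'0 : b' ≠ 0 := by
    rw [hb', Ne, map_eq_zero_iff _ hinj]
    exact hb0
  have e1 : ((a' : 𝓞 L) : L) = algebraMap K L (a : K) := rfl
  have e2 : ((b' : 𝓞 L) : L) = algebraMap K L (b : K) := rfl
  have h1 := he_core K a b hb0
  have h2 := he_core L a' b' hb'0
  have h3 : Ideal.span {a', b'} = (Ideal.span {a, b}).map (algebraMap (𝓞 K) (𝓞 L)) := by
    rw [Ideal.map_span, Set.image_pair]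
  rw [h3, Ideal.absNorm_algebraMap, ← IsFractionRing.finrank_eq (𝓞 K) K (𝓞 L) L, e1, e2] at h2
  have h4 : ∏ σ : L →+* ℂ, max ‖σ (algebraMap K L (a : K))‖ ‖σ (algebraMap K L (b : K))‖ =
      (∏ ρ : K →+* ℂ, max ‖ρ (a : K)‖ ‖ρ (b : K)‖) ^ finrank K L :=
    he_prod (fun ρ => max ‖ρ (a : K)‖ ‖ρ (b : K)‖)
  rw [h4, ← h1, mul_pow, ← map_div₀, Nat.cast_pow] at h2
  have h5 : ((Ideal.absNorm (Ideal.span {a, b}) : ℝ)) ^ finrank K L ≠ 0 := by
    apply pow_ne_zero
    rw [Nat.cast_ne_zero, Ne, Ideal.absNorm_eq_zero_iff]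
    intro h
    apply hb0
    rw [Ideal.span_eq_bot] at h
    exact h b (by simp)
  exact mul_left_cancel₀ h5 h2

/-- HE. The normalised height does not depend on the field. -/
theorem nh_algebraMap {K L : Type} [Field K] [NumberField K] [Field L] [NumberField L]
    [Algebra K L] (x : K) : nh (algebraMap K L x) = nh x := by
  have h1 : (0 : ℝ) < finrank ℚ K := Nat.cast_pos.2 finrank_pos
  have h2 : (0 : ℝ) < finrank K L := Nat.cast_pos.2 finrank_pos
  have h3 : (finrank ℚ L : ℝ) = finrank ℚ K * finrank K L := by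
    exact_mod_cast (finrank_mul_finrank ℚ K L).symm
  unfold nh
  rw [logHeight₁_eq_log_mulHeight₁, logHeight₁_eq_log_mulHeight₁, he_mul, Real.log_pow, h3]
  field_simp

end Pool.Agent.Leh2
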