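import Pool.Agent.Leh2.KForm
import Pool.Agent.CITNF.Basic

set_option autoImplicit false

/-! Few elements of small height in groups of rank at most two. (The counting in an abstract group
is the one of `Pool.Agent.M05Full.Count`.) -/

namespace Pool.Agent.Leh2

open NumberField Height Real Module

/-! ### Abstract groups with a height -/

section Abs

variable {A : Type} [AddCommGroup A]

/-- a height on a commutative group -/
private structure CtH (h : A → ℝ) : Prop where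
  zs : ∀ (n : ℤ) (g : A), h (n • g) = |(n : ℝ)| * h g
  add : ∀ g g', h (g + g') ≤ h g + h g'
  nn : ∀ g, 0 ≤ h g
  tors : ∀ g, h g = 0 → ∃ n : ℤ, 0 < n ∧ n • g = 0
  fin : ∀ B : ℝ, {g | h g ≤ B}.Finite

/-- independent elements -/
private def CtI (g g' : A) : Prop := ∀ m n : ℤ, m • g + n • g' = 0 → m = 0 ∧ n = 0

/-- dependent on `a` and `b` -/
private def CtG (a b g : A) : Prop := ∃ n p q : ℤ, 0 < n ∧ n • g = p • a + q • b

variable {h : A → ℝ}

private theorem CtH.sub (H : CtH h) (g g' : A) : h (g - g') ≤ h g + h g' := by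
  have h1 := H.add g ((-1 : ℤ) • g')
  rw [H.zs] at h1
  have h2 : g + (-1 : ℤ) • g' = g - g' := by module
  rw [h2] at h1
  simpa using h1

private theorem CtH.zero (H : CtH h) {g : A} {n : ℤ} (hn : n ≠ 0) (hg : n • g = 0) : h g = 0 := by
  have h1 := H.zs n g
  have h2 : h (0 : A) = 0 := by
    have := H.zs 0 g
    simpa using this
  rw [hg, h2] at h1
  rcases mul_eq_zero.1 h1.symm with h3 | h3
  · exact absurd (Int.cast_eq_zero.1 (abs_eq_zero.1 h3)) hn
  · exact h3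

private theorem CtH.sum (H : CtH h) {ι : Type} (s : Finset ι) (f : ι → A) :
    h (∑ i ∈ s, f i) ≤ ∑ i ∈ s, h (f i) := by
  classical
  induction s using Finset.induction_on with
  | empty =>
    rw [Finset.sum_empty, Finset.sum_empty]
    have := H.zs 0 (0 : A)
    simp only [Int.cast_zero, abs_zero, zero_mul, smul_zero] at this
    exact this.le
  | insert i s hi ih =>
    rw [Finset.sum_insert hi, Finset.sum_insert hi]
    exact (H.add _ _).trans (by linarith)

private theorem ctG_left (a b : A) : CtG a b a := ⟨1, 1, 0, one_pos, by module⟩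

private theorem ctG_right (a b : A) : CtG a b b := ⟨1, 0, 1, one_pos, by module⟩

private theorem ctG_add {a b g g' : A} (hg : CtG a b g) (hg' : CtG a b g') :
    CtG a b (g + g') := by
  obtain ⟨n, p, q, hn, h1⟩ := hg
  obtain ⟨n', p', q', hn', h2⟩ := hg'
  refine ⟨n * n', p * n' + p' * n, q * n' + q' * n, mul_pos hn hn', ?_⟩
  have h3 : (n * n') • (g + g') = n' • (n • g) + n • (n' • g') := by module
  rw [h3, h1, h2]
  module

private theorem ctG_zsmul {a b g : A} (hg : CtG a b g) (t : ℤ) : CtG a b (t • g) := by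
  obtain ⟨n, p, q, hn, h1⟩ := hg
  refine ⟨n, t * p, t * q, hn, ?_⟩
  have h3 : n • (t • g) = t • (n • g) := by module
  rw [h3, h1]
  module

private theorem ctG_sum {ι : Type} {a b : A} (s : Finset ι) (f : ι → A)
    (hf : ∀ i, CtG a b (f i)) : CtG a b (∑ i ∈ s, f i) := by
  classical
  induction s using Finset.induction_on with
  | empty => exact ⟨1, 0, 0, one_pos, by simp⟩
  | insert i s hi ih =>
    rw [Finset.sum_insert hi]
    exact ctG_add (hf i) ih

/-- a multiple of `g` is a combination -/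
private theorem ctG_of {a b g : A} {n p q : ℤ} (hn : n ≠ 0) (hg : n • g = p • a + q • b) :
    CtG a b g := by
  refine ⟨n * n, n * p, n * q, mul_self_pos.2 hn, ?_⟩
  rw [mul_smul, hg]
  module

private theorem ctI_left (H : CtH h) {g g' : A} (hi : CtI g g') : h g ≠ 0 := by
  intro h0
  obtain ⟨n, hn, h1⟩ := H.tors g h0
  have := (hi n 0 (by rw [h1]; simp)).1
  omega

/-- change of the basis -/
private theorem ctG_change {a b g₁ g₂ g : A} (hi : CtI g₁ g₂) (h1 : CtG a b g₁)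
    (h2 : CtG a b g₂) (hg : CtG a b g) : CtG g₁ g₂ g := by
  obtain ⟨n₁, p₁, q₁, hn₁, e₁⟩ := h1
  obtain ⟨n₂, p₂, q₂, hn₂, e₂⟩ := h2
  obtain ⟨n, p, q, hn, e⟩ := hg
  have ha : (q₂ * n₁) • g₁ - (q₁ * n₂) • g₂ = (p₁ * q₂ - p₂ * q₁) • a := by
    have h3 : (q₂ * n₁) • g₁ - (q₁ * n₂) • g₂ = q₂ • (n₁ • g₁) - q₁ • (n₂ • g₂) := by module
    rw [h3, e₁, e₂]
    module
  have hb : (p₁ * n₂) • g₂ - (p₂ * n₁) • g₁ = (p₁ * q₂ - p₂ * q₁) • b := by
    have h3 : (p₁ * n₂) • g₂ - (p₂ * n₁) • g₁ = p₁ • (n₂ • g₂) - p₂ • (n₁ • g₁) := by module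
    rw [h3, e₁, e₂]
    module
  have hD : p₁ * q₂ - p₂ * q₁ ≠ 0 := by
    intro hD
    rw [hD, zero_smul] at ha hb
    have h3 := hi (q₂ * n₁) (-(q₁ * n₂)) (by rw [← ha]; module)
    have h4 := hi (-(p₂ * n₁)) (p₁ * n₂) (by rw [← hb]; module)
    have hq : q₁ = 0 := by
      have := neg_eq_zero.1 h3.2
      rcases mul_eq_zero.1 this with h5 | h5
      · exact h5
      · omega
    have hp : p₁ = 0 := by
      rcases mul_eq_zero.1 h4.2 with h5 | h5
      · exact h5
      · omega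
    rw [hp, hq] at e₁
    have h6 := (hi n₁ 0 (by rw [e₁]; module)).1
    omega
  refine ctG_of (n := (p₁ * q₂ - p₂ * q₁) * n) (p := p * (q₂ * n₁) - q * (p₂ * n₁))
    (q := q * (p₁ * n₂) - p * (q₁ * n₂)) (mul_ne_zero hD (by omega)) ?_
  rw [mul_smul, e]
  have h5 : (p₁ * q₂ - p₂ * q₁) • (p • a + q • b) =
      p • ((p₁ * q₂ - p₂ * q₁) • a) + q • ((p₁ * q₂ - p₂ * q₁) • b) := by module
  rw [h5, ← ha, ← hb]
  module

private theorem ctI_or (H : CtH h) {a b g : A} (hi : CtI a b) (hg : CtG a b g) (h0 : h g ≠ 0) :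
    CtI g a ∨ CtI g b := by
  obtain ⟨n, p, q, hn, e⟩ := hg
  by_cases hq : q = 0
  · right
    have hp : p ≠ 0 := by
      rintro rfl
      rw [hq] at e
      exact h0 (H.zero (by omega) (e.trans (by module)))
    intro s t hst
    have h1 : (s * p) • a + (s * q + n * t) • b = 0 := by
      have h2 : (s * p) • a + (s * q + n * t) • b = s • (p • a + q • b) + (n * t) • b := by module
      rw [h2, ← e]
      have h3 : s • n • g + (n * t) • b = n • (s • g + t • b) := by module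
      rw [h3, hst, smul_zero]
    have h2 := hi _ _ h1
    have hs : s = 0 := by
      rcases mul_eq_zero.1 h2.1 with h3 | h3
      · exact h3
      · exact absurd h3 hp
    have h3 := h2.2
    rw [hs, zero_mul, zero_add] at h3
    rcases mul_eq_zero.1 h3 with h4 | h4
    · omega
    · exact ⟨hs, h4⟩
  · left
    intro s t hst
    have h1 : (s * p + n * t) • a + (s * q) • b = 0 := by
      have h2 : (s * p + n * t) • a + (s * q) • b = s • (p • a + q • b) + (n * t) • a := by module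
      rw [h2, ← e]
      have h3 : s • n • g + (n * t) • a = n • (s • g + t • a) := by module
      rw [h3, hst, smul_zero]
    have h2 := hi _ _ h1
    have hs : s = 0 := by
      rcases mul_eq_zero.1 h2.2 with h3 | h3
      · exact h3
      · exact absurd h3 hq
    have h3 := h2.1
    rw [hs, zero_mul, zero_add] at h3
    rcases mul_eq_zero.1 h3 with h4 | h4
    · omega
    · exact ⟨hs, h4⟩

private theorem ct_min (H : CtH h) {S : Set A} (hS : S.Nonempty) :
    ∃ g ∈ S, ∀ g' ∈ S, h g ≤ h g' := by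
  obtain ⟨x, hx⟩ := hS
  have hfin : {g | g ∈ S ∧ h g ≤ h x}.Finite := (H.fin (h x)).subset fun g hg => hg.2
  obtain ⟨g, hg, hmin⟩ := Set.exists_min_image _ h hfin ⟨x, hx, le_refl _⟩
  refine ⟨g, hg.1, fun g' hg' => ?_⟩
  by_cases h1 : h g' ≤ h x
  · exact hmin g' ⟨hg', h1⟩
  · exact hg.2.trans (not_le.1 h1).le

/-- the nearest integer -/
private theorem ct_near (p q : ℤ) (hq : q ≠ 0) :
    ∃ t : ℤ, 2 * |((p - q * t : ℤ) : ℝ)| ≤ |(q : ℝ)| := by
  have hq' : (q : ℝ) ≠ 0 := Int.cast_ne_zero.2 hq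
  refine ⟨round ((p : ℝ) / q), ?_⟩
  have h1 := abs_sub_round ((p : ℝ) / q)
  have h2 : ((p - q * round ((p : ℝ) / q) : ℤ) : ℝ) =
      q * ((p : ℝ) / q - round ((p : ℝ) / q)) := by
    push_cast
    field_simp
  rw [h2, abs_mul]
  have h3 : 0 ≤ |(q : ℝ)| := abs_nonneg _
  nlinarith

/-- minimal elements -/
private structure CtM (h : A → ℝ) (g₁ g₂ : A) : Prop where
  ind : CtI g₁ g₂
  m1 : ∀ g, CtG g₁ g₂ g → h g ≠ 0 → h g₁ ≤ h g
  m2 : ∀ g, CtG g₁ g₂ g → CtI g₁ g → h g₂ ≤ h g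

private theorem CtM.p1 (H : CtH h) {g₁ g₂ : A} (M : CtM h g₁ g₂) : 0 < h g₁ :=
  lt_of_le_of_ne (H.nn _) (ctI_left H M.ind).symm

private theorem CtI.symm {g g' : A} (hi : CtI g g') : CtI g' g := fun m n h0 =>
  (hi n m (by rw [add_comm]; exact h0)).symm

private theorem CtM.le (H : CtH h) {g₁ g₂ : A} (M : CtM h g₁ g₂) : h g₁ ≤ h g₂ :=
  M.m1 g₂ (ctG_right _ _) (ctI_left H M.ind.symm)

private theorem CtM.fa (H : CtH h) {g₁ g₂ : A} (M : CtM h g₁ g₂) {u : A} {n p : ℤ} (hn : 0 < n)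
    (hu : n • u = p • g₁) : ∃ t : ℤ, h (u - t • g₁) = 0 := by
  obtain ⟨t, ht⟩ := ct_near p n (by omega)
  refine ⟨t, ?_⟩
  by_contra hne
  have hG : CtG g₁ g₂ (u - t • g₁) := ⟨n, p - n * t, 0, hn, by
    have h1 : n • (u - t • g₁) = n • u - (n * t) • g₁ := by module
    rw [h1, hu]
    module⟩
  have h1 := M.m1 _ hG hne
  have h2 : h (n • (u - t • g₁)) = h ((p - n * t) • g₁) := by
    congr 1
    have h1 : n • (u - t • g₁) = n • u - (n * t) • g₁ := by module
    rw [h1, hu]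
    module
  rw [H.zs, H.zs] at h2
  have hn' : (0 : ℝ) < n := Int.cast_pos.2 hn
  rw [abs_of_pos hn'] at h2 ht
  have h3 := M.p1 H
  nlinarith

private theorem CtM.fb (H : CtH h) {g₁ g₂ : A} (M : CtM h g₁ g₂) {u : A} {n p q : ℤ}
    (hn : 0 < n) (hq : q ≠ 0) (hu : n • u = p • g₁ + q • g₂) : (n : ℝ) ≤ 2 * |(q : ℝ)| := by
  obtain ⟨t, ht⟩ := ct_near p n (by omega)
  have e : n • (u - t • g₁) = (p - n * t) • g₁ + q • g₂ := by
    have h1 : n • (u - t • g₁) = n • u - (n * t) • g₁ := by module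
    rw [h1, hu]
    module
  have hG : CtG g₁ g₂ (u - t • g₁) := ⟨n, p - n * t, q, hn, e⟩
  have hI : CtI g₁ (u - t • g₁) := by
    intro m l hml
    have h1 : (n * m + l * (p - n * t)) • g₁ + (l * q) • g₂ = 0 := by
      have h2 : (n * m + l * (p - n * t)) • g₁ + (l * q) • g₂ =
          (n * m) • g₁ + l • ((p - n * t) • g₁ + q • g₂) := by module
      rw [h2, ← e]
      have h3 : (n * m) • g₁ + l • n • (u - t • g₁) = n • (m • g₁ + l • (u - t • g₁)) := by module
      rw [h3, hml, smul_zero]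
    have h2 := M.ind _ _ h1
    have hl : l = 0 := by
      rcases mul_eq_zero.1 h2.2 with h3 | h3
      · exact h3
      · exact absurd h3 hq
    have h3 := h2.1
    rw [hl, zero_mul, add_zero] at h3
    rcases mul_eq_zero.1 h3 with h4 | h4
    · omega
    · exact ⟨h4, hl⟩
  have h1 := M.m2 _ hG hI
  have h2 := H.zs n (u - t • g₁)
  have h3 := H.add ((p - n * t) • g₁) (q • g₂)
  rw [← e, h2, H.zs, H.zs] at h3
  have hn' : (0 : ℝ) < n := Int.cast_pos.2 hn
  rw [abs_of_pos hn'] at h3 ht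
  have h4 := M.p1 H
  have h5 := M.le H
  have h6 : 0 ≤ |(q : ℝ)| := abs_nonneg _
  have h7 : |((p - n * t : ℤ) : ℝ)| * h g₁ ≤ (n / 2) * h g₂ := by
    have h8 : |((p - n * t : ℤ) : ℝ)| ≤ n / 2 := by linarith
    exact mul_le_mul h8 h5 h4.le (by positivity)
  have h8 : (n : ℝ) * h g₂ ≤ (n / 2 + |(q : ℝ)|) * h g₂ := by nlinarith
  have h9 : (n : ℝ) ≤ n / 2 + |(q : ℝ)| := le_of_mul_le_mul_right h8 (by linarith)
  linarith

private theorem CtM.fc (H : CtH h) {g₁ g₂ : A} (M : CtM h g₁ g₂) {g : A} {n p q : ℤ}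
    (hn : 0 < n) (hg : n • g = p • g₁ + q • g₂) : |(q : ℝ)| * h g₂ ≤ 2 * (n * h g) := by
  have hn' : (0 : ℝ) < n := Int.cast_pos.2 hn
  by_cases hq : q = 0
  · rw [hq]
    simp only [Int.cast_zero, abs_zero, zero_mul]
    have := H.nn g
    positivity
  obtain ⟨t, ht⟩ := ct_near p q hq
  have e : q • (g₂ + t • g₁) = n • g - (p - q * t) • g₁ := by
    rw [hg]
    module
  have hG : CtG g₁ g₂ (g₂ + t • g₁) := ctG_add (ctG_right _ _) (ctG_zsmul (ctG_left _ _) t)
  have hI : CtI g₁ (g₂ + t • g₁) := by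
    intro m l hml
    have h1 : (m + l * t) • g₁ + l • g₂ = 0 := by
      rw [← hml]
      module
    have h2 := M.ind _ _ h1
    refine ⟨?_, h2.2⟩
    have h3 := h2.1
    rw [h2.2, zero_mul, add_zero] at h3
    exact h3
  have h1 := M.m2 _ hG hI
  have h2 := H.zs q (g₂ + t • g₁)
  have h3 := H.sub (n • g) ((p - q * t) • g₁)
  rw [← e, h2, H.zs, H.zs, abs_of_pos hn'] at h3
  have h4 := M.p1 H
  have h5 := M.le H
  have h6 : 0 ≤ |(q : ℝ)| := abs_nonneg _
  have h7 : |((p - q * t : ℤ) : ℝ)| * h g₁ ≤ (|(q : ℝ)| / 2) * h g₂ := by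
    have h8 : |((p - q * t : ℤ) : ℝ)| ≤ |(q : ℝ)| / 2 := by linarith
    exact mul_le_mul h8 h5 h4.le (by positivity)
  have h8 : |(q : ℝ)| * h g₂ ≤ |(q : ℝ)| * h (g₂ + t • g₁) := mul_le_mul_of_nonneg_left h1 h6
  linarith

/-- the elements with almost the same second coordinate -/
private theorem CtM.fiber (H : CtH h) {g₁ g₂ : A} (M : CtM h g₁ g₂) {W : ℕ}
    (hW : Set.ncard {g : A | h g = 0} ≤ W) {X : ℝ} (S : Finset A) (F : A → ℤ)
    (n p q : A → ℤ) (hn : ∀ g ∈ S, 0 < n g) (hg : ∀ g ∈ S, n g • g = p g • g₁ + q g • g₂)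
    (hF : ∀ g ∈ S, F g = ⌊2 * (q g : ℝ) / n g⌋) (hh : ∀ g ∈ S, h g ≤ X) (v : ℤ) :
    ({g ∈ S | F g = v} : Finset A).card ≤ W * (2 * ⌊2 * X / h g₁⌋₊ + 1) := by
  classical
  have hfin : {g : A | h g = 0}.Finite := (H.fin 0).subset fun g hg => (le_of_eq hg)
  have hp1 := M.p1 H
  rcases ({g ∈ S | F g = v} : Finset A).eq_empty_or_nonempty with he | ⟨g₀, hg₀⟩
  · rw [he]
    simp
  rw [Finset.mem_filter] at hg₀
  set R : ℕ := ⌊2 * X / h g₁⌋₊ with hR
  have hsub : ({g ∈ S | F g = v} : Finset A) ⊆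
      (hfin.toFinset ×ˢ Finset.Icc (-(R : ℤ)) R).image fun c => g₀ + c.1 + c.2 • g₁ := by
    intro g hgS
    rw [Finset.mem_filter] at hgS
    have hn1 := hn g hgS.1
    have hn2 := hn g₀ hg₀.1
    have hn1' : (0 : ℝ) < n g := Int.cast_pos.2 hn1
    have hn2' : (0 : ℝ) < n g₀ := Int.cast_pos.2 hn2
    have e : (n g * n g₀) • (g - g₀) = (p g * n g₀ - p g₀ * n g) • g₁ +
        (q g * n g₀ - q g₀ * n g) • g₂ := by
      have h1 : (n g * n g₀) • (g - g₀) = n g₀ • (n g • g) - n g • (n g₀ • g₀) := by module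
      rw [h1, hg g hgS.1, hg g₀ hg₀.1]
      module
    have hq0 : q g * n g₀ - q g₀ * n g = 0 := by
      by_contra hne
      have h1 := M.fb H (mul_pos hn1 hn2) hne e
      have h2 : ⌊2 * (q g : ℝ) / n g⌋ = ⌊2 * (q g₀ : ℝ) / n g₀⌋ := by
        rw [← hF g hgS.1, ← hF g₀ hg₀.1, hgS.2, hg₀.2]
      have h3 := Int.abs_sub_lt_one_of_floor_eq_floor h2
      have h4 : 2 * (q g : ℝ) / n g - 2 * (q g₀ : ℝ) / n g₀ =
          2 * ((q g * n g₀ - q g₀ * n g : ℤ) : ℝ) / (n g * n g₀) := by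
        push_cast
        field_simp
      rw [h4, abs_div, abs_mul, abs_of_pos (mul_pos hn1' hn2'), abs_of_pos (two_pos),
        div_lt_one (mul_pos hn1' hn2')] at h3
      push_cast at h1 h3
      linarith
    rw [hq0, zero_smul, add_zero] at e
    obtain ⟨t, ht⟩ := M.fa H (mul_pos hn1 hn2) e
    rw [Finset.mem_image]
    refine ⟨((g - g₀) - t • g₁, t), ?_, ?_⟩
    · rw [Finset.mem_product]
      refine ⟨hfin.mem_toFinset.2 ht, ?_⟩
      have h1 : h (t • g₁) ≤ 2 * X := by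
        have h2 : t • g₁ = (g - g₀) - ((g - g₀) - t • g₁) := by module
        rw [h2]
        have h3 := H.sub (g - g₀) ((g - g₀) - t • g₁)
        have h4 := H.sub g g₀
        have h5 := hh g hgS.1
        have h6 := hh g₀ hg₀.1
        rw [ht] at h3
        linarith
      rw [H.zs] at h1
      have h2 : |(t : ℝ)| ≤ 2 * X / h g₁ := by
        rw [le_div_iff₀ hp1]
        exact h1
      have h3 : (t.natAbs : ℝ) ≤ 2 * X / h g₁ := by
        rw [Nat.cast_natAbs]
        push_cast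
        exact h2
      have h4 : t.natAbs ≤ R := Nat.le_floor h3
      rw [Finset.mem_Icc]
      omega
    · simp only
      module
  refine (Finset.card_le_card hsub).trans (Finset.card_image_le.trans ?_)
  rw [Finset.card_product, Int.card_Icc]
  have h1 : hfin.toFinset.card ≤ W := by
    rw [← Set.ncard_eq_toFinset_card _ hfin]
    exact hW
  refine Nat.mul_le_mul h1 ?_
  omega

private theorem CtM.count (H : CtH h) {g₁ g₂ : A} (M : CtM h g₁ g₂) {W : ℕ}
    (hW : Set.ncard {g : A | h g = 0} ≤ W) {X : ℝ} (hX : h g₂ ≤ X) :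
    (Set.ncard {g : A | CtG g₁ g₂ g ∧ h g ≤ X} : ℝ) * (h g₁ * h g₂) ≤ 50 * W * X ^ 2 := by
  classical
  have hp1 := M.p1 H
  have hle := M.le H
  have hp2 : 0 < h g₂ := by linarith
  have hX0 : 0 < X := by linarith
  have hfin : {g : A | CtG g₁ g₂ g ∧ h g ≤ X}.Finite := (H.fin X).subset fun g hg => hg.2
  rw [Set.ncard_eq_toFinset_card _ hfin]
  set S := hfin.toFinset with hS
  have hSm : ∀ g ∈ S, CtG g₁ g₂ g ∧ h g ≤ X := fun g hg => hfin.mem_toFinset.1 hg
  have hrep : ∀ g : A, ∃ n p q : ℤ, g ∈ S → 0 < n ∧ n • g = p • g₁ + q • g₂ := by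
    intro g
    by_cases hg : g ∈ S
    · obtain ⟨n, p, q, hn, e⟩ := (hSm g hg).1
      exact ⟨n, p, q, fun _ => ⟨hn, e⟩⟩
    · exact ⟨0, 0, 0, fun h => absurd h hg⟩
  choose n p q hnpq using hrep
  set F : A → ℤ := fun g => ⌊2 * (q g : ℝ) / n g⌋ with hF
  set R : ℕ := ⌊2 * X / h g₁⌋₊ with hR
  set L : ℕ := ⌊4 * X / h g₂⌋₊ with hL
  have h1 : S.card ≤ W * (2 * R + 1) * (S.image F).card := by
    refine Finset.card_le_mul_card_image S _ fun v _ => ?_
    exact M.fiber H hW S F n p q (fun g hg => (hnpq g hg).1) (fun g hg => (hnpq g hg).2)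
      (fun g _ => rfl) (fun g hg => (hSm g hg).2) v
  have h2 : S.image F ⊆ Finset.Icc (-(L : ℤ) - 1) L := by
    intro v hv
    obtain ⟨g, hg, rfl⟩ := Finset.mem_image.1 hv
    have h3 := M.fc H (hnpq g hg).1 (hnpq g hg).2
    have hn' : (0 : ℝ) < n g := Int.cast_pos.2 (hnpq g hg).1
    have h4 := (hSm g hg).2
    have h5 : |2 * (q g : ℝ) / n g| ≤ 4 * X / h g₂ := by
      rw [abs_div, abs_mul, abs_of_pos (two_pos), abs_of_pos hn', div_le_div_iff₀ hn' hp2]
      nlinarith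
    have h6 : 4 * X / h g₂ < L + 1 := Nat.lt_floor_add_one _
    have h7 := abs_le.1 h5
    rw [Finset.mem_Icc]
    constructor
    · rw [hF]
      simp only
      rw [Int.le_floor]
      push_cast
      linarith
    · rw [hF]
      simp only
      rw [← Int.lt_add_one_iff, Int.floor_lt]
      push_cast
      linarith
  have h3 : (S.image F).card ≤ 2 * L + 2 := by
    refine (Finset.card_le_card h2).trans ?_
    rw [Int.card_Icc]
    omega
  have h4 : (S.card : ℝ) ≤ W * (2 * R + 1) * (2 * L + 2) := by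
    have := h1.trans (Nat.mul_le_mul_left _ h3)
    exact_mod_cast this
  have h5 : (R : ℝ) * h g₁ ≤ 2 * X := by
    rw [← le_div_iff₀ hp1]
    exact Nat.floor_le (by positivity)
  have h6 : (L : ℝ) * h g₂ ≤ 4 * X := by
    rw [← le_div_iff₀ hp2]
    exact Nat.floor_le (by positivity)
  have h7 : (2 * (R : ℝ) + 1) * h g₁ ≤ 5 * X := by nlinarith
  have h8 : (2 * (L : ℝ) + 2) * h g₂ ≤ 10 * X := by nlinarith
  have h9 : ((2 * (R : ℝ) + 1) * h g₁) * ((2 * (L : ℝ) + 2) * h g₂) ≤ (5 * X) * (10 * X) :=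
    mul_le_mul h7 h8 (by positivity) (by positivity)
  have h10 : (W : ℝ) * (((2 * (R : ℝ) + 1) * h g₁) * ((2 * (L : ℝ) + 2) * h g₂)) ≤
      W * ((5 * X) * (10 * X)) := mul_le_mul_of_nonneg_left h9 (Nat.cast_nonneg W)
  have h11 : (S.card : ℝ) * (h g₁ * h g₂) ≤
      (W * (2 * R + 1) * (2 * L + 2)) * (h g₁ * h g₂) :=
    mul_le_mul_of_nonneg_right h4 (by positivity)
  nlinarith

/-- the number of elements of small height in a group of rank two -/
private theorem ct_main (H : CtH h) {a b : A} (hab : CtI a b) {W : ℕ}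
    (hW : Set.ncard {g : A | h g = 0} ≤ W) :
    ∃ g₁ g₂ : A, CtI g₁ g₂ ∧ ∀ X : ℝ, h a ≤ X → h b ≤ X →
      (Set.ncard {g : A | CtG a b g ∧ h g ≤ X} : ℝ) * (h g₁ * h g₂) ≤ 50 * W * X ^ 2 := by
  obtain ⟨g₁, ⟨hg1, hg1'⟩, m1⟩ := ct_min H (S := {g | CtG a b g ∧ h g ≠ 0})
    ⟨a, ctG_left a b, ctI_left H hab⟩
  have hor := ctI_or H hab hg1 hg1'
  obtain ⟨g₂, ⟨hg2, hg2'⟩, m2⟩ := ct_min H (S := {g | CtG a b g ∧ CtI g₁ g}) (by
    rcases hor with h1 | h1
    · exact ⟨a, ctG_left a b, h1⟩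
    · exact ⟨b, ctG_right a b, h1⟩)
  have hsub : ∀ g, CtG a b g → CtG g₁ g₂ g := fun g hg => ctG_change hg2' hg1 hg2 hg
  have hsub' : ∀ g, CtG g₁ g₂ g → CtG a b g := by
    rintro g ⟨n, p, q, hn, e⟩
    have h1 := ctG_add (ctG_zsmul hg1 p) (ctG_zsmul hg2 q)
    rw [← e] at h1
    obtain ⟨n', p', q', hn', e'⟩ := h1
    refine ⟨n' * n, p', q', mul_pos hn' hn, ?_⟩
    rw [mul_smul, e']
  have M : CtM h g₁ g₂ := ⟨hg2', fun g hg h0 => m1 g ⟨hsub' g hg, h0⟩,
    fun g hg hi => m2 g ⟨hsub' g hg, hi⟩⟩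
  refine ⟨g₁, g₂, hg2', fun X ha hb => ?_⟩
  have hX : h g₂ ≤ X := by
    rcases hor with h1 | h1
    · exact (m2 a ⟨ctG_left a b, h1⟩).trans ha
    · exact (m2 b ⟨ctG_right a b, h1⟩).trans hb
  have he : {g : A | CtG a b g ∧ h g ≤ X} = {g : A | CtG g₁ g₂ g ∧ h g ≤ X} := by
    ext g
    exact ⟨fun hg => ⟨hsub g hg.1, hg.2⟩, fun hg => ⟨hsub' g hg.1, hg.2⟩⟩
  rw [he]
  exact M.count H hW hX

end Abs

/-! ### Number fields -/

section Fld

private theorem ctI_or' {A : Type} [AddCommGroup A] {h : A → ℝ} (H : CtH h) {a b c : A}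
    (hbc : CtI b c) (ha : h a ≠ 0) : CtI a b ∨ CtI a c := by
  by_contra hcon
  rw [not_or] at hcon
  obtain ⟨h1, h2⟩ := hcon
  unfold CtI at h1 h2
  push Not at h1 h2
  obtain ⟨m, n, e, hmn⟩ := h1
  obtain ⟨m', n', e', hmn'⟩ := h2
  have hm : m ≠ 0 := by
    rintro rfl
    refine hmn rfl (hbc n 0 ?_).1
    rw [← e]
    module
  have hm' : m' ≠ 0 := by
    rintro rfl
    refine hmn' rfl (hbc 0 n' ?_).2
    rw [← e']
    module
  have h3 := hbc (m' * n) (-(m * n')) (by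
    have h4 : (m' * n) • b + (-(m * n')) • c =
        m' • (m • a + n • b) - m • (m' • a + n' • c) := by module
    rw [h4, e, e', smul_zero, smul_zero, sub_zero])
  have hn : n = 0 := by
    rcases mul_eq_zero.1 h3.1 with h4 | h4
    · exact absurd h4 hm'
    · exact h4
  rw [hn, zero_smul, add_zero] at e
  exact ha (H.zero hm e)

variable {K : Type} [Field K] [NumberField K]

private noncomputable def kh (g : Additive Kˣ) : ℝ := logHeight₁ ((Additive.toMul g : Kˣ) : K)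

omit [NumberField K] in
private theorem ki_iff (g g' : Additive Kˣ) (m n : ℤ) : m • g + n • g' = 0 ↔
    ((Additive.toMul g : Kˣ) : K) ^ m * ((Additive.toMul g' : Kˣ) : K) ^ n = 1 := by
  rw [← toMul_eq_one, toMul_add, toMul_zsmul, toMul_zsmul, Units.ext_iff, Units.val_mul,
    Units.val_zpow_eq_zpow_val, Units.val_zpow_eq_zpow_val, Units.val_one]

private theorem kh_H : CtH (kh (K := K)) where
  zs n g := by
    unfold kh
    rw [toMul_zsmul, Units.val_zpow_eq_zpow_val, logHeight₁_zpow, Nat.cast_natAbs, Int.cast_abs]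
  add g g' := by
    unfold kh
    rw [toMul_add, Units.val_mul]
    exact logHeight₁_mul_le _ _
  nn g := zero_le_logHeight₁ _
  tors g h0 := by
    obtain ⟨m, hm, h1⟩ := Pool.Agent.CITNF.torsion_of_height_zero _
      (Units.ne_zero (Additive.toMul g : Kˣ)) h0
    refine ⟨m, by exact_mod_cast hm, ?_⟩
    have h2 := (ki_iff g g (m : ℤ) 0).2 (by
      rw [zpow_zero, mul_one, zpow_natCast]
      exact h1)
    rwa [zero_smul, add_zero] at h2
  fin B := by
    have h1 := NumberField.finite_setOfPred_logHeight₁_le K B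
    refine h1.preimage (f := fun g : Additive Kˣ => ((Additive.toMul g : Kˣ) : K)) ?_
    intro g _ g' _ hgg
    exact Additive.toMul.injective (Units.ext hgg)

private theorem kh_tors : Set.ncard {g : Additive Kˣ | kh g = 0} ≤ Units.torsionOrder K := by
  classical
  have hw : 0 < Units.torsionOrder K := Units.torsionOrder_pos K
  have h1 : Set.ncard {g : Additive Kˣ | kh g = 0} ≤
      Set.ncard (Polynomial.nthRootsFinset (Units.torsionOrder K) (1 : K) : Set K) := by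
    refine Set.ncard_le_ncard_of_injOn
      (fun g : Additive Kˣ => ((Additive.toMul g : Kˣ) : K)) ?_ ?_ (Finset.finite_toSet _)
    · intro g hg
      obtain ⟨m, hm, h2⟩ := Pool.Agent.CITNF.torsion_of_height_zero _
        (Units.ne_zero (Additive.toMul g : Kˣ)) hg
      rw [Finset.mem_coe, Polynomial.mem_nthRootsFinset hw]
      have h3 : 0 < orderOf ((Additive.toMul g : Kˣ) : K) :=
        orderOf_pos_iff.2 (isOfFinOrder_iff_pow_eq_one.2 ⟨m, hm, h2⟩)
      have : NeZero (orderOf ((Additive.toMul g : Kˣ) : K)) := ⟨h3.ne'⟩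
      have h4 := Units.dvd_torsionOrder_of_isPrimitiveRoot
        (IsPrimitiveRoot.orderOf ((Additive.toMul g : Kˣ) : K))
      exact orderOf_dvd_iff_pow_eq_one.1 h4
    · intro g _ g' _ hgg
      exact Additive.toMul.injective (Units.ext hgg)
  refine h1.trans ?_
  rw [Set.ncard_coe_finset]
  unfold Polynomial.nthRootsFinset
  exact (Multiset.toFinset_card_le _).trans (Polynomial.card_nthRoots _ _)

private theorem kh_le (x : Kˣ) (hx : (x : K) = 2 ∨ (x : K) = 3) :
    kh (Additive.ofMul x) ≤ 2 * finrank ℚ K := by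
  have hd : (0 : ℝ) < finrank ℚ K := by exact_mod_cast finrank_pos
  have hlog : Real.log 2 < 1 := by
    have := Real.log_two_lt_d9
    linarith
  have h2 : logHeight₁ (2 : K) ≤ finrank ℚ K * Real.log 2 := by
    have h1 := logHeight₁_add_le (1 : K) 1
    rw [NumberField.totalWeight_eq_finrank, logHeight₁_one, add_zero, add_zero] at h1
    have e : (1 : K) + 1 = 2 := by norm_num
    rwa [e] at h1
  have h3 : logHeight₁ (3 : K) ≤ 2 * (finrank ℚ K * Real.log 2) := by
    have h1 := logHeight₁_add_le (2 : K) 1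
    rw [NumberField.totalWeight_eq_finrank, logHeight₁_one, add_zero] at h1
    have e : (2 : K) + 1 = 3 := by norm_num
    rw [e] at h1
    linarith
  have h4 : (finrank ℚ K : ℝ) * Real.log 2 ≤ finrank ℚ K := by nlinarith
  unfold kh
  rw [toMul_ofMul]
  rcases hx with hx | hx
  · rw [hx]
    linarith
  · rw [hx]
    linarith

private theorem k23 (x y : Kˣ) (hx : (x : K) = 2) (hy : (y : K) = 3) :
    CtI (Additive.ofMul x) (Additive.ofMul y) := by
  intro m n h
  rw [ki_iff, toMul_ofMul, toMul_ofMul, hx, hy] at h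
  have h1 : (2 : ℚ) ^ m * 3 ^ n = 1 := by
    apply (algebraMap ℚ K).injective
    rw [map_mul, map_zpow₀, map_zpow₀, map_one, map_ofNat, map_ofNat]
    exact h
  have p2 : Fact (Nat.Prime 2) := ⟨by norm_num⟩
  have p3 : Fact (Nat.Prime 3) := ⟨by norm_num⟩
  have z2 : (2 : ℚ) ^ m ≠ 0 := zpow_ne_zero _ (by norm_num)
  have z3 : (3 : ℚ) ^ n ≠ 0 := zpow_ne_zero _ (by norm_num)
  have e2 : padicValRat 2 (2 : ℚ) = 1 := by
    have := padicValRat.self (p := 2) (by norm_num)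
    simpa using this
  have e3 : padicValRat 3 (3 : ℚ) = 1 := by
    have := padicValRat.self (p := 3) (by norm_num)
    simpa using this
  have e23 : padicValRat 2 (3 : ℚ) = 0 := by
    have h2 := padicValRat.of_nat (p := 2) (n := 3)
    rw [padicValNat.eq_zero_of_not_dvd (by norm_num)] at h2
    simpa using h2
  have e32 : padicValRat 3 (2 : ℚ) = 0 := by
    have h2 := padicValRat.of_nat (p := 3) (n := 2)
    rw [padicValNat.eq_zero_of_not_dvd (by norm_num)] at h2
    simpa using h2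
  constructor
  · have h2 := congrArg (padicValRat 2) h1
    rw [padicValRat.mul z2 z3, padicValRat.zpow, padicValRat.zpow, e2, e23, padicValRat.one] at h2
    omega
  · have h2 := congrArg (padicValRat 3) h1
    rw [padicValRat.mul z2 z3, padicValRat.zpow, padicValRat.zpow, e3, e32, padicValRat.one] at h2
    omega

/-- two elements which generate, up to finite index and torsion, a group containing `S` -/
private theorem exists_ab' {S : Set (Additive Kˣ)}
    (hS : ∀ g : Fin 3 → Additive Kˣ, (∀ i, g i ∈ S) → ∃ m : Fin 3 → ℤ, m ≠ 0 ∧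
      ∑ i, m i • g i = 0) {B : ℝ}
    (hB : ∀ g ∈ S, kh g ≤ B) (hB2 : 2 * (finrank ℚ K : ℝ) ≤ B) :
    ∃ a b : Additive Kˣ, CtI a b ∧ kh a ≤ B ∧ kh b ≤ B ∧ ∀ g ∈ S, CtG a b g := by
  classical
  have H := kh_H (K := K)
  by_cases hA : ∃ x ∈ S, ∃ y ∈ S, CtI x y
  · obtain ⟨x, hx, y, hy, hij⟩ := hA
    refine ⟨x, y, hij, hB x hx, hB y hy, fun l hl => ?_⟩
    obtain ⟨c, hc, e⟩ := hS ![x, y, l] (by
      intro i
      fin_cases i
      · exact hx
      · exact hy
      · exact hl)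
    rw [Fin.sum_univ_three] at e
    simp only [Matrix.cons_val_zero, Matrix.cons_val_one, Matrix.cons_val] at e
    have h2 : c 2 ≠ 0 := by
      intro h2
      rw [h2, zero_smul, add_zero] at e
      have h3 := hij _ _ e
      apply hc
      funext s
      fin_cases s
      · exact h3.1
      · exact h3.2
      · exact h2
    refine ctG_of (n := c 2) (p := -c 0) (q := -c 1) h2 ?_
    have h3 : c 2 • l = (c 0 • x + c 1 • y + c 2 • l) - c 0 • x - c 1 • y := by module
    rw [h3, e]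
    module
  · push Not at hA
    set u2 : Kˣ := Units.mk0 2 two_ne_zero with hu2
    set u3 : Kˣ := Units.mk0 3 three_ne_zero with hu3
    have h23 : CtI (Additive.ofMul u2) (Additive.ofMul u3) := k23 u2 u3 rfl rfl
    have b2 : kh (Additive.ofMul u2) ≤ B := (kh_le u2 (Or.inl rfl)).trans hB2
    have b3 : kh (Additive.ofMul u3) ≤ B := (kh_le u3 (Or.inr rfl)).trans hB2
    by_cases hT : ∃ x ∈ S, kh x ≠ 0
    · obtain ⟨x, hx, hi⟩ := hT
      have hG : ∀ (b : Additive Kˣ), ∀ l ∈ S, CtG x b l := by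
        intro b l hl
        have h1 := hA x hx l hl
        unfold CtI at h1
        push Not at h1
        obtain ⟨m, n, e, hmn⟩ := h1
        have hn : n ≠ 0 := by
          rintro rfl
          by_cases hm : m = 0
          · exact hmn hm rfl
          · rw [zero_smul, add_zero] at e
            exact hi (H.zero hm e)
        refine ctG_of (n := n) (p := -m) (q := 0) hn ?_
        have h3 : n • l = (m • x + n • l) - m • x := by module
        rw [h3, e]
        module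
      rcases ctI_or' H h23 hi with h1 | h1
      · exact ⟨x, _, h1, hB x hx, b2, hG _⟩
      · exact ⟨x, _, h1, hB x hx, b3, hG _⟩
    · push Not at hT
      refine ⟨_, _, h23, b2, b3, fun l hl => ?_⟩
      obtain ⟨n, hn, e⟩ := H.tors _ (hT l hl)
      exact ⟨n, 0, 0, hn, by rw [e]; module⟩

/-- rank one -/
private theorem ct_one {A : Type} [AddCommGroup A] {h : A → ℝ} (H : CtH h) {a : A} {W : ℕ}
    (hW : Set.ncard {g : A | h g = 0} ≤ W) (ha : h a ≠ 0) :
    ∃ g₁ : A, h g₁ ≠ 0 ∧ ∀ X : ℝ, h a ≤ X → ∀ S : Finset A,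
      (∀ g ∈ S, h g ≤ X ∧ ∃ n p : ℤ, 0 < n ∧ n • g = p • a) →
      (S.card : ℝ) * h g₁ ≤ 3 * W * X := by
  classical
  obtain ⟨g₁, ⟨⟨n₁, p₁, hn₁, e₁⟩, hg1'⟩, m1⟩ := ct_min H
    (S := {g | (∃ n p : ℤ, 0 < n ∧ n • g = p • a) ∧ h g ≠ 0}) ⟨a, ⟨1, 1, one_pos, rfl⟩, ha⟩
  refine ⟨g₁, hg1', fun X hX S hS => ?_⟩
  have hp1 : 0 < h g₁ := lt_of_le_of_ne (H.nn _) hg1'.symm
  have hga : h g₁ ≤ h a := m1 a ⟨⟨1, 1, one_pos, rfl⟩, ha⟩
  have hfin : {g : A | h g = 0}.Finite := (H.fin 0).subset fun g hg => (le_of_eq hg)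
  set R : ℕ := ⌊X / h g₁⌋₊ with hR
  have hp₁ : p₁ ≠ 0 := by
    rintro rfl
    rw [zero_smul] at e₁
    exact hg1' (H.zero hn₁.ne' e₁)
  have hsub : S ⊆ (hfin.toFinset ×ˢ Finset.Icc (-(R : ℤ)) R).image fun c => c.1 + c.2 • g₁ := by
    intro g hgS
    obtain ⟨hgX, n, p, hn, e⟩ := hS g hgS
    -- `(n * p₁) • g = (p * n₁) • g₁`
    have e2 : (n * p₁) • g = (p * n₁) • g₁ := by
      have h1 : (n * p₁) • g = p₁ • (n • g) := by module
      have h2 : (p * n₁) • g₁ = p • (n₁ • g₁) := by module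
      rw [h1, h2, e, e₁]
      module
    have hnp : n * p₁ ≠ 0 := mul_ne_zero hn.ne' hp₁
    obtain ⟨t, ht⟩ := ct_near (p * n₁) (n * p₁) hnp
    have e3 : (n * p₁) • (g - t • g₁) = (p * n₁ - n * p₁ * t) • g₁ := by
      have h1 : (n * p₁) • (g - t • g₁) = (n * p₁) • g - (n * p₁ * t) • g₁ := by module
      rw [h1, e2]
      module
    have h0 : h (g - t • g₁) = 0 := by
      by_contra hne
      have h1 := m1 (g - t • g₁) ⟨?_, hne⟩
      · have h2 := congrArg h e3
        rw [H.zs, H.zs] at h2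
        have h3 : (0 : ℝ) < |((n * p₁ : ℤ) : ℝ)| := abs_pos.2 (Int.cast_ne_zero.2 hnp)
        have h4 : |((n * p₁ : ℤ) : ℝ)| * h (g - t • g₁) ≤ (|((n * p₁ : ℤ) : ℝ)| / 2) * h g₁ := by
          rw [h2]
          exact mul_le_mul_of_nonneg_right (by linarith) hp1.le
        nlinarith
      · refine ⟨n * n₁, p * n₁ - n * p₁ * t, mul_pos hn hn₁, ?_⟩
        have h2 : (n * n₁) • (g - t • g₁) = n₁ • (n • g) - (n * t) • (n₁ • g₁) := by module
        rw [h2, e, e₁]
        module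
    rw [Finset.mem_image]
    refine ⟨(g - t • g₁, t), ?_, by simp⟩
    rw [Finset.mem_product]
    refine ⟨hfin.mem_toFinset.2 h0, ?_⟩
    have h1 : h (t • g₁) ≤ X := by
      have h2 : t • g₁ = g - (g - t • g₁) := by module
      rw [h2]
      have h3 := H.sub g (g - t • g₁)
      rw [h0] at h3
      linarith
    rw [H.zs] at h1
    have h2 : |(t : ℝ)| ≤ X / h g₁ := by
      rw [le_div_iff₀ hp1]
      exact h1
    have h3 : (t.natAbs : ℝ) ≤ X / h g₁ := by
      rw [Nat.cast_natAbs]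
      push_cast
      exact h2
    have h4 : t.natAbs ≤ R := Nat.le_floor h3
    rw [Finset.mem_Icc]
    omega
  have hcard : S.card ≤ W * (2 * R + 1) := by
    refine (Finset.card_le_card hsub).trans (Finset.card_image_le.trans ?_)
    rw [Finset.card_product, Int.card_Icc]
    have h1 : hfin.toFinset.card ≤ W := by
      rw [← Set.ncard_eq_toFinset_card _ hfin]
      exact hW
    refine Nat.mul_le_mul h1 ?_
    omega
  have hX0 : 0 < X := by linarith
  have h5 : (R : ℝ) * h g₁ ≤ X := by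
    rw [← le_div_iff₀ hp1]
    exact Nat.floor_le (by positivity)
  have h6 : (S.card : ℝ) ≤ W * (2 * R + 1) := by exact_mod_cast hcard
  have h7 : (2 * (R : ℝ) + 1) * h g₁ ≤ 3 * X := by nlinarith
  calc (S.card : ℝ) * h g₁ ≤ (W * (2 * R + 1)) * h g₁ :=
        mul_le_mul_of_nonneg_right h6 hp1.le
    _ = W * ((2 * R + 1) * h g₁) := by ring
    _ ≤ W * (3 * X) := mul_le_mul_of_nonneg_left h7 (Nat.cast_nonneg W)
    _ = 3 * W * X := by ring

end Fld

/-- COUNT, rank two: few elements of small height in a set of elements of a number field any three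
of which are multiplicatively dependent. -/
theorem count_two_set : ∀ ε : ℝ, 0 < ε → ∃ C : ℝ, 0 < C ∧ ∀ (K : Type) [Field K] [NumberField K]
    (S : Finset Kˣ) (X : ℝ), 1 ≤ X → (∀ g ∈ S, logHeight₁ (g : K) ≤ X * finrank ℚ K) →
    (∀ g : Fin 3 → Kˣ, (∀ i, g i ∈ S) → ∃ m : Fin 3 → ℤ, m ≠ 0 ∧ ∏ i, g i ^ m i = 1) →
    (S.card : ℝ) ≤ C * X ^ 2 * (finrank ℚ K : ℝ) ^ (1 + ε) := by
  classical
  intro ε hε
  obtain ⟨c, hc, hleh⟩ := leh_two ε hε
  refine ⟨200 / c, by positivity, ?_⟩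
  intro K _ _ S X hX hS h3
  have hd : (0 : ℝ) < finrank ℚ K := by exact_mod_cast finrank_pos
  set D : ℝ := (finrank ℚ K : ℝ) with hD
  set T : Set (Additive Kˣ) := {g | (Additive.toMul g : Kˣ) ∈ S} with hT
  have H := kh_H (K := K)
  have hXD : X * D ≤ (2 * X) * D := by nlinarith
  obtain ⟨a, b, hab, ha, hb, hG⟩ := exists_ab' (K := K) (S := T) (fun g hg => by
      obtain ⟨m, hm, e⟩ := h3 (fun i => Additive.toMul (g i)) hg
      refine ⟨m, hm, ?_⟩
      have h1 := congrArg Additive.ofMul e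
      rw [ofMul_prod, ofMul_one] at h1
      rw [← h1]
      refine Finset.sum_congr rfl fun i _ => ?_
      rw [ofMul_zpow, ofMul_toMul]) (B := (2 * X) * D) (fun g hg => (hS _ hg).trans hXD)
      (by nlinarith)
  obtain ⟨g₁, g₂, hI, hcount⟩ := ct_main H hab (kh_tors (K := K))
  have h1 := hcount _ ha hb
  have h2 : S.card ≤ Set.ncard {g : Additive Kˣ | CtG a b g ∧ kh g ≤ (2 * X) * D} := by
    have hfin : {g : Additive Kˣ | CtG a b g ∧ kh g ≤ (2 * X) * D}.Finite :=
      (H.fin _).subset fun g hg => hg.2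
    rw [← Set.ncard_coe_finset S]
    refine Set.ncard_le_ncard_of_injOn (fun g : Kˣ => Additive.ofMul g) ?_ ?_ hfin
    · intro g hg
      exact ⟨hG _ hg, (hS g hg).trans hXD⟩
    · intro g _ g' _ hgg
      exact Additive.ofMul.injective hgg
  have h4 := hleh K ((Additive.toMul g₁ : Kˣ) : K) ((Additive.toMul g₂ : Kˣ) : K)
    (Units.ne_zero _) (Units.ne_zero _) fun m n hmn => hI m n ((ki_iff g₁ g₂ m n).2 hmn)
  have hw : (0 : ℝ) < Units.torsionOrder K := by exact_mod_cast Units.torsionOrder_pos K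
  set w : ℝ := (Units.torsionOrder K : ℝ) with hwd
  set M : ℝ := (Set.ncard {g : Additive Kˣ | CtG a b g ∧ kh g ≤ (2 * X) * D} : ℝ) with hM
  have hM0 : 0 ≤ M := Nat.cast_nonneg _
  have h5 : M * (c * w * D ^ (1 - ε)) ≤ 50 * w * ((2 * X) * D) ^ 2 :=
    (mul_le_mul_of_nonneg_left h4 hM0).trans h1
  have hp1 : (0 : ℝ) < D ^ (1 - ε) := Real.rpow_pos_of_pos hd _
  have hp2 : D ^ (1 - ε) * D ^ (1 + ε) = D ^ 2 := by
    rw [← Real.rpow_add hd, ← Real.rpow_natCast]
    congr 1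
    push_cast
    ring
  have h6 : M ≤ 200 / c * X ^ 2 * D ^ (1 + ε) := by
    have h7 : M * (c * w * D ^ (1 - ε)) ≤
        (200 / c * X ^ 2 * D ^ (1 + ε)) * (c * w * D ^ (1 - ε)) := by
      refine h5.trans (le_of_eq ?_)
      have h8 : (200 / c * X ^ 2 * D ^ (1 + ε)) * (c * w * D ^ (1 - ε)) =
          200 * X ^ 2 * w * (D ^ (1 - ε) * D ^ (1 + ε)) := by
        field_simp
      rw [h8, hp2]
      ring
    exact le_of_mul_le_mul_right h7 (by positivity)
  refine le_trans ?_ h6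
  rw [hM]
  exact_mod_cast h2

/-- COUNT, rank one. -/
theorem count_one_set : ∀ ε : ℝ, 0 < ε → ∃ C : ℝ, 0 < C ∧ ∀ (K : Type) [Field K] [NumberField K]
    (S : Finset Kˣ) (X : ℝ), 1 ≤ X → (∀ g ∈ S, logHeight₁ (g : K) ≤ X * finrank ℚ K) →
    (∀ g : Fin 2 → Kˣ, (∀ i, g i ∈ S) → ∃ m : Fin 2 → ℤ, m ≠ 0 ∧ ∏ i, g i ^ m i = 1) →
    (S.card : ℝ) ≤ C * X * (finrank ℚ K : ℝ) ^ (1 + ε) := by
  classical
  intro ε hε
  obtain ⟨c, hc, hleh⟩ := leh_one ε hε
  refine ⟨6 / c, by positivity, ?_⟩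
  intro K _ _ S X hX hS h2
  have hd : (0 : ℝ) < finrank ℚ K := by exact_mod_cast finrank_pos
  set D : ℝ := (finrank ℚ K : ℝ) with hD
  have H := kh_H (K := K)
  have hXD : X * D ≤ (2 * X) * D := by nlinarith
  have hdep : ∀ x ∈ S, ∀ y ∈ S, ¬ CtI (Additive.ofMul x) (Additive.ofMul y) := by
    intro x hx y hy hI
    obtain ⟨m, hm, e⟩ := h2 ![x, y] (by
      intro i
      fin_cases i
      · exact hx
      · exact hy)
    rw [Fin.prod_univ_two] at e
    simp only [Matrix.cons_val_zero, Matrix.cons_val_one] at e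
    have h1 := hI (m 0) (m 1) (by
      have h3 := congrArg Additive.ofMul e
      rw [ofMul_mul, ofMul_zpow, ofMul_zpow, ofMul_one] at h3
      exact h3)
    apply hm
    funext s
    fin_cases s
    · exact h1.1
    · exact h1.2
  have hex : ∃ a : Additive Kˣ, kh a ≠ 0 ∧ kh a ≤ (2 * X) * D ∧
      ∀ g ∈ S, ∃ n p : ℤ, 0 < n ∧ n • Additive.ofMul g = p • a := by
    by_cases hT : ∃ x ∈ S, kh (Additive.ofMul x) ≠ 0
    · obtain ⟨x, hx, hi⟩ := hT
      refine ⟨Additive.ofMul x, hi, (hS x hx).trans hXD, fun l hl => ?_⟩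
      have h1 := hdep x hx l hl
      unfold CtI at h1
      push Not at h1
      obtain ⟨m, n, e, hmn⟩ := h1
      have hn : n ≠ 0 := by
        rintro rfl
        by_cases hm : m = 0
        · exact hmn hm rfl
        · rw [zero_smul, add_zero] at e
          exact hi (H.zero hm e)
      refine ⟨n * n, -(n * m), mul_self_pos.2 hn, ?_⟩
      have h3 : (n * n) • Additive.ofMul l = n • (m • Additive.ofMul x + n • Additive.ofMul l) -
          (n * m) • Additive.ofMul x := by module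
      rw [h3, e]
      module
    · push Not at hT
      set u2 : Kˣ := Units.mk0 2 two_ne_zero with hu2
      set u3 : Kˣ := Units.mk0 3 three_ne_zero with hu3
      have h23 : CtI (Additive.ofMul u2) (Additive.ofMul u3) := k23 u2 u3 rfl rfl
      refine ⟨Additive.ofMul u2, ctI_left H h23, (kh_le u2 (Or.inl rfl)).trans (by nlinarith),
        fun l hl => ?_⟩
      obtain ⟨n, hn, e⟩ := H.tors _ (hT l hl)
      exact ⟨n, 0, hn, by rw [e]; module⟩
  obtain ⟨a, ha, haX, hG⟩ := hex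
  obtain ⟨g₁, hg₁, hcount⟩ := ct_one H (kh_tors (K := K)) ha
  have h1 := hcount _ haX (S.map ⟨Additive.ofMul, Additive.ofMul.injective⟩) (by
    intro g hg
    rw [Finset.mem_map] at hg
    obtain ⟨x, hx, rfl⟩ := hg
    exact ⟨(hS x hx).trans hXD, hG x hx⟩)
  rw [Finset.card_map] at h1
  have h4 := hleh K ((Additive.toMul g₁ : Kˣ) : K) (Units.ne_zero _) (by
    intro n hn h5
    apply hg₁
    refine H.zero (n := (n : ℤ)) (by omega) ?_
    have h6 := (ki_iff g₁ g₁ (n : ℤ) 0).2 (by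
      rw [zpow_zero, mul_one, zpow_natCast]
      exact h5)
    rwa [zero_smul, add_zero] at h6)
  have hw : (0 : ℝ) < Units.torsionOrder K := by exact_mod_cast Units.torsionOrder_pos K
  set w : ℝ := (Units.torsionOrder K : ℝ) with hwd
  set M : ℝ := (S.card : ℝ) with hM
  have hM0 : 0 ≤ M := Nat.cast_nonneg _
  have h5 : M * (c * w * D ^ (-ε)) ≤ 3 * w * ((2 * X) * D) :=
    (mul_le_mul_of_nonneg_left h4 hM0).trans h1
  have hp1 : (0 : ℝ) < D ^ (-ε) := Real.rpow_pos_of_pos hd _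
  have hp2 : D ^ (-ε) * D ^ (1 + ε) = D := by
    rw [← Real.rpow_add hd]
    have : -ε + (1 + ε) = 1 := by ring
    rw [this, Real.rpow_one]
  have h7 : M * (c * w * D ^ (-ε)) ≤ (6 / c * X * D ^ (1 + ε)) * (c * w * D ^ (-ε)) := by
    refine h5.trans (le_of_eq ?_)
    have h8 : (6 / c * X * D ^ (1 + ε)) * (c * w * D ^ (-ε)) =
        6 * X * w * (D ^ (-ε) * D ^ (1 + ε)) := by
      field_simp
    rw [h8, hp2]
    ring
  exact le_of_mul_le_mul_right h7 (by positivity)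

/-- COUNT, rank two, for subgroups. -/
theorem count_two : ∀ ε : ℝ, 0 < ε → ∃ C : ℝ, 0 < C ∧ ∀ (K : Type) [Field K] [NumberField K]
    (G : Subgroup Kˣ),
    (∀ g : Fin 3 → Kˣ, (∀ i, g i ∈ G) → ∃ m : Fin 3 → ℤ, m ≠ 0 ∧ ∏ i, g i ^ m i = 1) →
    ∀ X : ℝ, 1 ≤ X → ∀ S : Finset Kˣ, (∀ g ∈ S, g ∈ G) →
    (∀ g ∈ S, nh (g : K) ≤ X) →
    (S.card : ℝ) ≤ C * X ^ 2 * (finrank ℚ K : ℝ) ^ (1 + ε) := by
  intro ε hε
  obtain ⟨C, hC, h⟩ := count_two_set ε hε
  refine ⟨C, hC, fun K _ _ G hG X hX S hSG hSX => h K S X hX (fun g hg => ?_)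
    (fun g hg => hG g fun i => hSG _ (hg i))⟩
  have hd : (0 : ℝ) < finrank ℚ K := by exact_mod_cast finrank_pos
  have h1 := hSX g hg
  rw [nh, div_le_iff₀ hd] at h1
  exact h1

/-- COUNT, rank one, for subgroups. -/
theorem count_one : ∀ ε : ℝ, 0 < ε → ∃ C : ℝ, 0 < C ∧ ∀ (K : Type) [Field K] [NumberField K]
    (G : Subgroup Kˣ),
    (∀ g : Fin 2 → Kˣ, (∀ i, g i ∈ G) → ∃ m : Fin 2 → ℤ, m ≠ 0 ∧ ∏ i, g i ^ m i = 1) →
    ∀ X : ℝ, 1 ≤ X → ∀ S : Finset Kˣ, (∀ g ∈ S, g ∈ G) →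
    (∀ g ∈ S, nh (g : K) ≤ X) →
    (S.card : ℝ) ≤ C * X * (finrank ℚ K : ℝ) ^ (1 + ε) := by
  intro ε hε
  obtain ⟨C, hC, h⟩ := count_one_set ε hε
  refine ⟨C, hC, fun K _ _ G hG X hX S hSG hSX => h K S X hX (fun g hg => ?_)
    (fun g hg => hG g fun i => hSG _ (hg i))⟩
  have hd : (0 : ℝ) < finrank ℚ K := by exact_mod_cast finrank_pos
  have h1 := hSX g hg
  rw [nh, div_le_iff₀ hd] at h1
  exact h1

end Pool.Agent.Leh2
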