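import Pool.Agent.Leh2.Defs

set_option autoImplicit false
set_option linter.unusedVariables false

namespace Pool.Agent.Leh2

open Module

/-- The rows of a matrix of full row rank: some maximal minor is nonzero. -/
private theorem ad_exists_minor {L : Type} [Field L] {J : Type} [Fintype J]
    {m : ℕ} (B : Matrix (Fin m) J L) (hB : LinearIndependent L B.row) :
    ∃ e : Fin m → J, (B.submatrix id e).det ≠ 0 := by
  obtain ⟨κ, a, ha, hspan, hlin⟩ := exists_linearIndependent' L B.col
  have : Finite κ := Finite.of_injective a ha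
  let _ : Fintype κ := Fintype.ofFinite κ
  have h1 : Fintype.card κ = m := by
    rw [← finrank_span_eq_card hlin, hspan, ← Matrix.rank_eq_finrank_span_cols,
      hB.rank_matrix, Fintype.card_fin]
  let ε : Fin m ≃ κ := (Fintype.equivFinOfCardEq h1).symm
  refine ⟨a ∘ ε, ?_⟩
  have h2 : LinearIndependent L (B.submatrix id (a ∘ ε)).col := by
    have h3 := hlin.comp ε ε.injective
    exact h3
  rw [Matrix.linearIndependent_cols_iff_isUnit, Matrix.isUnit_iff_isUnit_det] at h2
  exact h2.ne_zero

private theorem ad_adapt {L : Type} [Field L] (w : AbsoluteValue L ℝ)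
    {J : Type} [Fintype J] [DecidableEq J] (V : Submodule L (J → L)) :
    ∃ (I : Finset J) (F : J → J → L), (∀ j ∉ I, F j ∈ V) ∧
      (∀ j ∉ I, ∀ j' ∉ I, F j j' = if j = j' then 1 else 0) ∧
      (∀ j ∉ I, ∀ i, w (F j i) ≤ 1) ∧ (∀ v ∈ V, (∀ j ∉ I, v j = 0) → v = 0) ∧
      Iᶜ.card = finrank L V := by
  classical
  set m := finrank L V with hm
  let b : Basis (Fin m) L V := finBasis L V
  let B : Matrix (Fin m) J L := fun i => (b i : J → L)
  have hB : LinearIndependent L B.row := by
    have h1 := b.linearIndependent.map' V.subtype (Submodule.ker_subtype V)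
    exact h1
  obtain ⟨e0, he0⟩ := ad_exists_minor B hB
  have : Nonempty (Fin m → J) := ⟨e0⟩
  obtain ⟨e, he⟩ := Finite.exists_max (fun e : Fin m → J => w ((B.submatrix id e).det))
  have hdet : (B.submatrix id e).det ≠ 0 := by
    intro h
    have h1 := he e0
    simp only [h, map_zero] at h1
    have h2 := w.pos he0
    linarith
  have heinj : Function.Injective e := by
    intro i j hij
    by_contra hne
    apply hdet
    refine Matrix.det_zero_of_column_eq hne ?_
    intro k
    simp only [Matrix.submatrix_apply, hij]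
  set A := B.submatrix id e with hA
  have hAu : IsUnit A.det := isUnit_iff_ne_zero.mpr hdet
  let C : Matrix (Fin m) J L := A⁻¹ * B
  have hC1 : ∀ j l, C j (e l) = if j = l then 1 else 0 := by
    intro j l
    have h1 : (C.submatrix id e) = 1 := by
      have h2 : C.submatrix id e = A⁻¹ * A := by
        ext p q
        simp only [C, Matrix.submatrix_apply, Matrix.mul_apply, hA, id]
      rw [h2, Matrix.nonsing_inv_mul _ hAu]
    have h3 := congrFun (congrFun h1 j) l
    rw [Matrix.submatrix_apply, Matrix.one_apply] at h3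
    exact h3
  have hCV : ∀ j, C j ∈ V := by
    intro j
    have h1 : C j = ∑ i, A⁻¹ j i • (b i : J → L) := by
      ext x
      rw [Finset.sum_apply]
      change (A⁻¹ * B) j x = _
      rw [Matrix.mul_apply]
      refine Finset.sum_congr rfl fun i _ => ?_
      rw [Pi.smul_apply, smul_eq_mul]
    rw [h1]
    exact Submodule.sum_mem _ fun i _ => Submodule.smul_mem _ _ (b i).2
  have hCw : ∀ j x, w (C j x) ≤ 1 := by
    intro j x
    have h1 : C j x = (A.det)⁻¹ * (B.submatrix id (Function.update e j x)).det := by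
      have h2 : C j x = (A⁻¹.mulVec (fun i => B i x)) j := by
        simp only [C, Matrix.mul_apply, Matrix.mulVec, dotProduct]
      have h4 : A.updateCol j (fun i => B i x) = B.submatrix id (Function.update e j x) := by
        ext p q
        simp only [Matrix.updateCol_apply, Matrix.submatrix_apply, id, hA, Function.update_apply]
        split_ifs <;> rfl
      rw [h2, Matrix.inv_def, Matrix.smul_mulVec, ← Matrix.cramer_eq_adjugate_mulVec,
        Pi.smul_apply, Matrix.cramer_apply, smul_eq_mul, Ring.inverse_eq_inv', h4]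
    rw [h1, map_mul, map_inv₀]
    have h5 := w.pos hdet
    rw [inv_mul_le_iff₀ h5, mul_one]
    exact he _
  let F : J → J → L := fun j' => if h : ∃ j, e j = j' then C h.choose else 0
  have hF : ∀ j, F (e j) = C j := by
    intro j
    have h1 : ∃ l, e l = e j := ⟨j, rfl⟩
    simp only [F]
    rw [dif_pos h1, heinj h1.choose_spec]
  have hI : ∀ j', j' ∉ (Finset.univ.image e)ᶜ → ∃ j, e j = j' := by
    intro j' h
    rw [Finset.mem_compl, not_not, Finset.mem_image] at h
    obtain ⟨j, _, hj⟩ := h
    exact ⟨j, hj⟩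
  refine ⟨(Finset.univ.image e)ᶜ, F, ?_, ?_, ?_, ?_, ?_⟩
  · intro j' hj'
    obtain ⟨j, rfl⟩ := hI j' hj'
    rw [hF]
    exact hCV j
  · intro j' hj' l' hl'
    obtain ⟨j, rfl⟩ := hI j' hj'
    obtain ⟨l, rfl⟩ := hI l' hl'
    rw [hF, hC1]
    simp only [heinj.eq_iff]
  · intro j' hj' i
    obtain ⟨j, rfl⟩ := hI j' hj'
    rw [hF]
    exact hCw j i
  · intro v hv h0
    have h1 : v = ∑ i, b.repr ⟨v, hv⟩ i • (b i : J → L) := by
      have h2 := congrArg (Subtype.val) (b.sum_repr ⟨v, hv⟩)
      rw [Submodule.coe_sum] at h2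
      simp only [Submodule.coe_smul] at h2
      exact h2.symm
    have h3 : Matrix.vecMul (fun i => b.repr ⟨v, hv⟩ i) A = 0 := by
      ext l
      have h4 := h0 (e l) (by
        rw [Finset.mem_compl, not_not, Finset.mem_image]
        exact ⟨l, Finset.mem_univ _, rfl⟩)
      rw [h1, Finset.sum_apply] at h4
      rw [Pi.zero_apply, ← h4]
      simp only [Matrix.vecMul, dotProduct]
      refine Finset.sum_congr rfl fun i _ => ?_
      rw [Pi.smul_apply, smul_eq_mul]
      rfl
    have h5 := Matrix.eq_zero_of_vecMul_eq_zero hdet h3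
    rw [h1]
    refine Finset.sum_eq_zero fun i _ => ?_
    have h6 := congrFun h5 i
    have h7 : b.repr ⟨v, hv⟩ i = 0 := h6
    rw [h7, zero_smul]
  · rw [compl_compl, Finset.card_image_of_injective _ heinj, Finset.card_univ, Fintype.card_fin]

/-- AD1. A basis of a subspace adapted to a nonarchimedean absolute value. -/
theorem adapt {L : Type} [Field L] (w : AbsoluteValue L ℝ) (hw : IsNonarchimedean w)
    {J : Type} [Fintype J] [DecidableEq J] (V : Submodule L (J → L)) :
    ∃ (I : Finset J) (F : J → J → L), (∀ j ∉ I, F j ∈ V) ∧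
      (∀ j ∉ I, ∀ j' ∉ I, F j j' = if j = j' then 1 else 0) ∧
      (∀ j ∉ I, ∀ i, w (F j i) ≤ 1) ∧ (∀ v ∈ V, (∀ j ∉ I, v j = 0) → v = 0) ∧
      Iᶜ.card = finrank L V :=
  ad_adapt w V

/-- AD2. Galois descent. -/
theorem adapt_rational {k L : Type} [Field k] [Field L] [Algebra k L] [FiniteDimensional k L]
    [IsGalois k L] {J : Type} [Fintype J] [DecidableEq J] (V : Submodule L (J → L))
    (hV : ∀ (σ : L ≃ₐ[k] L), ∀ v ∈ V, (fun j => σ (v j)) ∈ V) (I : Finset J)
    (huniq : ∀ v ∈ V, (∀ j ∉ I, v j = 0) → v = 0) (f : J → L) (hf : f ∈ V)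
    (hfI : ∀ j ∉ I, f j ∈ (algebraMap k L).range) : ∀ j, f j ∈ (algebraMap k L).range := by
  intro j
  have h1 : f j ∈ Set.range (algebraMap k L) := by
    rw [IsGalois.mem_range_algebraMap_iff_fixed]
    intro σ
    have h2 : (fun j => σ (f j)) - f = 0 := by
      refine huniq _ (sub_mem (hV σ f hf) hf) ?_
      intro i hi
      obtain ⟨x, hx⟩ := hfI i hi
      rw [Pi.sub_apply, ← hx, AlgEquiv.commutes, sub_self]
    have h3 := congrFun h2 j
    rw [Pi.sub_apply, Pi.zero_apply, sub_eq_zero] at h3
    exact h3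
  exact h1

/-- AD3. Galois descent for dimensions. -/
theorem finrank_descent {k L : Type} [Field k] [Field L] [Algebra k L] [FiniteDimensional k L]
    [IsGalois k L] {J : Type} [Fintype J] [DecidableEq J] (V : Submodule L (J → L))
    (hV : ∀ (σ : L ≃ₐ[k] L), ∀ v ∈ V, (fun j => σ (v j)) ∈ V) (W : Submodule k (J → k))
    (hW : ∀ c : J → k, c ∈ W ↔ (fun j => algebraMap k L (c j)) ∈ V) :
    finrank k W = finrank L V := by
  classical
  obtain ⟨I, F, h1, h2, _, h3, h4⟩ := ad_adapt (AbsoluteValue.trivial (R := L) (S := ℝ)) V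
  have hG : ∀ j ∉ I, ∀ i, F j i ∈ (algebraMap k L).range := by
    intro j hj
    refine adapt_rational V hV I h3 (F j) (h1 j hj) ?_
    intro j' hj'
    rw [h2 j hj j' hj']
    split_ifs
    · exact ⟨1, map_one _⟩
    · exact ⟨0, map_zero _⟩
  have hG' : ∀ j : {j // j ∉ I}, ∃ g : J → k, ∀ i, algebraMap k L (g i) = F j i := by
    intro j
    choose g hg using hG j.1 j.2
    exact ⟨g, hg⟩
  choose G hGs using hG'
  have hGW : ∀ j, G j ∈ W := by
    intro j
    rw [hW]
    have h5 : (fun i => algebraMap k L (G j i)) = F j := by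
      ext i
      exact hGs j i
    rw [h5]
    exact h1 j.1 j.2
  have hGd : ∀ j j' : {j // j ∉ I}, G j j' = if j = j' then 1 else 0 := by
    intro j j'
    apply (algebraMap k L).injective
    rw [hGs, h2 j.1 j.2 j'.1 j'.2]
    split_ifs with h6 h7 h7
    · rw [map_one]
    · exact absurd (Subtype.ext h6) h7
    · exact absurd (congrArg Subtype.val h7) h6
    · rw [map_zero]
  let φ : W →ₗ[k] ({j // j ∉ I} → k) :=
    { toFun := fun c j => (c : J → k) j
      map_add' := fun c d => rfl
      map_smul' := fun r c => rfl }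
  have hφi : Function.Injective φ := by
    rw [← LinearMap.ker_eq_bot, LinearMap.ker_eq_bot']
    intro c hc
    have h5 := (hW c).mp c.2
    have h6 : (fun j => algebraMap k L ((c : J → k) j)) = 0 := by
      refine h3 _ h5 ?_
      intro j hj
      have h7 := congrFun hc ⟨j, hj⟩
      have h8 : (c : J → k) j = 0 := h7
      simp only [h8, map_zero]
    ext j
    have h9 := congrFun h6 j
    have h10 : algebraMap k L ((c : J → k) j) = 0 := h9
    rw [map_eq_zero] at h10
    exact h10
  have hφs : Function.Surjective φ := by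
    intro t
    refine ⟨⟨∑ j, t j • G j, Submodule.sum_mem _ fun j _ => Submodule.smul_mem _ _ (hGW j)⟩, ?_⟩
    ext l
    change (∑ j, t j • G j) l.1 = t l
    rw [Finset.sum_apply, Finset.sum_eq_single l]
    · rw [Pi.smul_apply, hGd, if_pos rfl, smul_eq_mul, mul_one]
    · intro j _ hj
      rw [Pi.smul_apply, hGd, if_neg hj, smul_zero]
    · intro h
      exact absurd (Finset.mem_univ _) h
  have h5 := (LinearEquiv.ofBijective φ ⟨hφi, hφs⟩).finrank_eq
  rw [h5, finrank_fintype_fun_eq_card, ← h4, Fintype.card_subtype]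
  congr 1
  ext j
  simp only [Finset.mem_filter, Finset.mem_univ, true_and, Finset.mem_compl]

end Pool.Agent.Leh2
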