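import Pool.Agent.Leh2.Defs
import Pool.Agent.M05Full.Bezout

set_option autoImplicit false

namespace Pool.Agent.Leh2

open MvPolynomial

/-- BEZ. Plane Bezout (helper44). -/
theorem bezout {k L : Type} [Field k] [Field L] [Algebra k L] (F G : MvPolynomial (Fin 2) k)
    (h : IsRelPrime F G) (a1 a2 b1 b2 : ℕ) (hF0 : F.degreeOf 0 ≤ a1) (hF1 : F.degreeOf 1 ≤ a2)
    (hG0 : G.degreeOf 0 ≤ b1) (hG1 : G.degreeOf 1 ≤ b2) (S : Finset (Fin 2 → L))
    (hS : ∀ s ∈ S, aeval s F = 0 ∧ aeval s G = 0) : S.card ≤ a1 * b2 + a2 * b1 :=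
  Pool.Agent.M05Full.bezout_card' h hF0 hF1 hG0 hG1 S (fun s hs => (hS s hs).1)
    fun s hs => (hS s hs).2

end Pool.Agent.Leh2
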