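import Pool.Agent.Leh2.Drop

set_option autoImplicit false
set_option linter.unusedVariables false

namespace Pool.Agent.Leh2

open MvPolynomial

private theorem co_od_le {L : Type} [Field L] [NumberField L] (k : IntermediateField ℚ L)
    (α : L) (q : Polynomial k) (hq : q ≠ 0) (h : Polynomial.aeval α q = 0) :
    od k (α, 1) ≤ q.natDegree := by
  classical
  set S : Finset L := (q.aroots L).toFinset with hS
  have h1 : ∀ z : MulAction.orbit (L ≃ₐ[k] L) ((α, 1) : L × L), z.1.1 ∈ S ∧ z.1.2 = 1 := by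
    rintro ⟨z, σ, rfl⟩
    refine ⟨?_, ?_⟩
    · change σ α ∈ S
      rw [hS, Multiset.mem_toFinset, Polynomial.mem_aroots]
      refine ⟨hq, ?_⟩
      have h2 := Polynomial.aeval_algHom_apply (σ : L →ₐ[k] L) α q
      rw [h, map_zero] at h2
      exact h2
    · change σ 1 = 1
      exact map_one σ
  have h2 : Nat.card (MulAction.orbit (L ≃ₐ[k] L) ((α, 1) : L × L)) ≤ Nat.card S := by
    refine Nat.card_le_card_of_injective (fun z => (⟨z.1.1, (h1 z).1⟩ : S)) ?_
    intro z z' hz
    have h3 : z.1.1 = z'.1.1 := congrArg Subtype.val hz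
    apply Subtype.ext
    exact Prod.ext h3 ((h1 z).2.trans (h1 z').2.symm)
  refine h2.trans ?_
  rw [Nat.card_eq_fintype_card, Fintype.card_coe, hS]
  exact (Multiset.toFinset_card_le _).trans
    ((Polynomial.card_roots' _).trans (Polynomial.natDegree_map_le))

/-- CO1. -/
theorem collinear_case {L : Type} [Field L] [NumberField L] [IsGalois ℚ L]
    (k : IntermediateField ℚ L) (f : MvPolynomial (Fin 2) k) (hf : f ≠ 0) (hc : Collinear2 f)
    (x y : L) (hx : x ≠ 0) (hy : y ≠ 0) (hfx : aeval ![x, y] f = 0) :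
    ∃ m1 m2 : ℤ, (m1 ≠ 0 ∨ m2 ≠ 0) ∧
      od k (x ^ m1 * y ^ m2, 1) * m1.natAbs ≤ f.degreeOf 0 ∧
      od k (x ^ m1 * y ^ m2, 1) * m2.natAbs ≤ f.degreeOf 1 := by
  classical
  obtain ⟨u, v, huv, hline⟩ := hc
  -- primitive vector
  obtain ⟨g, u', v', hg, hu, hv, a, b, hab⟩ : ∃ g u' v' : ℤ, g ≠ 0 ∧ u = g * u' ∧ v = g * v' ∧
      ∃ a b : ℤ, u' * a + v' * b = 1 := by
    have hg : (Int.gcd u v : ℤ) ≠ 0 := by
      intro h
      rw [Int.natCast_eq_zero, Int.gcd_eq_zero_iff] at h
      rcases huv with h1 | h1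
      · exact h1 h.1
      · exact h1 h.2
    obtain ⟨u', hu⟩ := Int.gcd_dvd_left u v
    obtain ⟨v', hv⟩ := Int.gcd_dvd_right u v
    refine ⟨_, u', v', hg, hu, hv, Int.gcdA u v, Int.gcdB u v, ?_⟩
    have h1 := Int.gcd_eq_gcd_ab u v
    apply mul_left_cancel₀ hg
    linear_combination (-(Int.gcdA u v)) * hu - (Int.gcdB u v) * hv - h1
  have hline' : ∀ m ∈ f.support, ∀ m' ∈ f.support,
      u' * ((m 0 : ℤ) - m' 0) + v' * ((m 1 : ℤ) - m' 1) = 0 := by
    intro m hm m' hm'
    have h1 := hline m hm m' hm'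
    rw [hu, hv] at h1
    apply mul_left_cancel₀ hg
    linear_combination h1
  let τ : (Fin 2 →₀ ℕ) → ℤ := fun m => a * (m 1 : ℤ) - b * (m 0 : ℤ)
  have ht0 : ∀ m ∈ f.support, ∀ m' ∈ f.support,
      (m 0 : ℤ) - m' 0 = (-v') * (τ m - τ m') := by
    intro m hm m' hm'
    have h1 := hline' m hm m' hm'
    simp only [τ]
    linear_combination (-((m 0 : ℤ) - m' 0)) * hab + a * h1
  have ht1 : ∀ m ∈ f.support, ∀ m' ∈ f.support,
      (m 1 : ℤ) - m' 1 = u' * (τ m - τ m') := by
    intro m hm m' hm'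
    have h1 := hline' m hm m' hm'
    simp only [τ]
    linear_combination (-((m 1 : ℤ) - m' 1)) * hab + b * h1
  have hne : f.support.Nonempty := by
    rw [Finset.nonempty_iff_ne_empty, Ne, MvPolynomial.support_eq_empty]
    exact hf
  obtain ⟨ms, hms, hmin⟩ := Finset.exists_min_image f.support τ hne
  obtain ⟨ml, hml, hmax⟩ := Finset.exists_max_image f.support τ hne
  set α : L := x ^ (-v') * y ^ u' with hα
  have hα0 : α ≠ 0 := mul_ne_zero (zpow_ne_zero _ hx) (zpow_ne_zero _ hy)
  let q : Polynomial k := ∑ m ∈ f.support,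
    Polynomial.monomial (τ m - τ ms).toNat (f.coeff m)
  have hinj : ∀ m ∈ f.support, τ m = τ ms → m = ms := by
    intro m hm h
    have h0 := ht0 m hm ms hms
    have h1 := ht1 m hm ms hms
    rw [h, sub_self, mul_zero] at h0 h1
    ext i
    fin_cases i
    · have : (m 0 : ℤ) = ms 0 := by linarith
      exact_mod_cast this
    · have : (m 1 : ℤ) = ms 1 := by linarith
      exact_mod_cast this
  have hq0 : q ≠ 0 := by
    intro h
    have h1 : q.coeff 0 = f.coeff ms := by
      simp only [q, Polynomial.finsetSum_coeff, Polynomial.coeff_monomial]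
      rw [Finset.sum_eq_single ms]
      · simp only [sub_self, Int.toNat_zero, if_true]
      · intro m hm hne
        rw [if_neg]
        intro h2
        have h3 := hmin m hm
        have h4 : τ m = τ ms := by omega
        exact hne (hinj m hm h4)
      · intro h2
        exact absurd hms h2
    rw [h, Polynomial.coeff_zero] at h1
    rw [mem_support_iff] at hms
    exact hms h1.symm
  have hqd : (q.natDegree : ℤ) ≤ τ ml - τ ms := by
    have h1 : q.natDegree ≤ (τ ml - τ ms).toNat := by
      refine Polynomial.natDegree_sum_le_of_forall_le _ _ ?_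
      intro m hm
      refine (Polynomial.natDegree_monomial_le _).trans ?_
      have := hmax m hm
      omega
    have h2 := hmin ml hml
    omega
  have hqα : Polynomial.aeval α q = 0 := by
    have h1 : x ^ (ms 0) * y ^ (ms 1) * Polynomial.aeval α q = 0 := by
      rw [← hfx]
      rw [MvPolynomial.aeval_def, MvPolynomial.eval₂_eq']
      simp only [q, map_sum, Polynomial.aeval_monomial, Finset.mul_sum, Fin.prod_univ_two,
        Matrix.cons_val_zero, Matrix.cons_val_one]
      refine Finset.sum_congr rfl fun m hm => ?_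
      have h2 : α ^ (τ m - τ ms).toNat = x ^ ((m 0 : ℤ) - ms 0) * y ^ ((m 1 : ℤ) - ms 1) := by
        have h3 : ((τ m - τ ms).toNat : ℤ) = τ m - τ ms := by
          have := hmin m hm
          omega
        rw [← zpow_natCast, h3, hα, mul_zpow, ← zpow_mul, ← zpow_mul, ← ht0 m hm ms hms,
          ← ht1 m hm ms hms]
      rw [h2, zpow_sub₀ hx, zpow_sub₀ hy]
      simp only [zpow_natCast]
      have h4 : x ^ ms 0 ≠ 0 := pow_ne_zero _ hx
      have h5 : y ^ ms 1 ≠ 0 := pow_ne_zero _ hy
      field_simp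
    rcases mul_eq_zero.mp h1 with h2 | h2
    · exact absurd h2 (mul_ne_zero (pow_ne_zero _ hx) (pow_ne_zero _ hy))
    · exact h2
  have hod := co_od_le k α q hq0 hqα
  have hdeg : ∀ i : Fin 2, ∀ m ∈ f.support, (m i : ℤ) ≤ f.degreeOf i := by
    intro i m hm
    exact_mod_cast monomial_le_degreeOf i hm
  refine ⟨-v', u', ?_, ?_, ?_⟩
  · by_contra h
    push Not at h
    have h1 : v' = 0 := by linarith [h.1]
    rw [h1, h.2] at hab
    simp at hab
  · have h1 := ht0 ml hml ms hms
    have h2 := hdeg 0 ml hml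
    have h3 := hdeg 0 ms hms
    have h4 : |(-v') * (τ ml - τ ms)| ≤ f.degreeOf 0 := by
      rw [← h1, abs_le]
      constructor <;> omega
    rw [abs_mul] at h4
    have h5 : (od k (α, 1) : ℤ) ≤ |τ ml - τ ms| := by
      have h6 : (od k (α, 1) : ℤ) ≤ q.natDegree := by exact_mod_cast hod
      exact (h6.trans hqd).trans (le_abs_self _)
    have h7 : (od k (α, 1) : ℤ) * ((-v').natAbs : ℤ) ≤ f.degreeOf 0 := by
      rw [Int.natCast_natAbs, mul_comm]
      exact (mul_le_mul_of_nonneg_left h5 (abs_nonneg _)).trans h4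
    exact_mod_cast h7
  · have h1 := ht1 ml hml ms hms
    have h2 := hdeg 1 ml hml
    have h3 := hdeg 1 ms hms
    have h4 : |u' * (τ ml - τ ms)| ≤ f.degreeOf 1 := by
      rw [← h1, abs_le]
      constructor <;> omega
    rw [abs_mul] at h4
    have h5 : (od k (α, 1) : ℤ) ≤ |τ ml - τ ms| := by
      have h6 : (od k (α, 1) : ℤ) ≤ q.natDegree := by exact_mod_cast hod
      exact (h6.trans hqd).trans (le_abs_self _)
    have h7 : (od k (α, 1) : ℤ) * (u'.natAbs : ℤ) ≤ f.degreeOf 1 := by
      rw [Int.natCast_natAbs, mul_comm]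
      exact (mul_le_mul_of_nonneg_left h5 (abs_nonneg _)).trans h4
    exact_mod_cast h7

private theorem co_deg_zero {K : Type} [Field K] (f : MvPolynomial (Fin 2) K) (i : Fin 2)
    (h : f.degreeOf i = 0) (m : Fin 2 →₀ ℕ) (hm : m ∈ f.support) : m i = 0 := by
  have h1 := monomial_le_degreeOf i hm
  omega

/-- CO2. A polynomial whose support is not contained in a line depends on both variables. -/
theorem degreeOf_pos_of_not_collinear {K : Type} [Field K] (f : MvPolynomial (Fin 2) K)
    (hc : ¬ Collinear2 f) : 0 < f.degreeOf 0 ∧ 0 < f.degreeOf 1 := by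
  constructor
  · rw [Nat.pos_iff_ne_zero]
    intro h
    apply hc
    refine ⟨1, 0, Or.inl one_ne_zero, ?_⟩
    intro m hm m' hm'
    rw [co_deg_zero f 0 h m hm, co_deg_zero f 0 h m' hm']
    ring
  · rw [Nat.pos_iff_ne_zero]
    intro h
    apply hc
    refine ⟨0, 1, Or.inr one_ne_zero, ?_⟩
    intro m hm m' hm'
    rw [co_deg_zero f 1 h m hm, co_deg_zero f 1 h m' hm']
    ring

private theorem co_powSub {K : Type} [Field K] (q : ℕ) (G : MvPolynomial (Fin 2) K) :
    powSub q G = expand q G := rfl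

private theorem co_deg {K : Type} [Field K] (q : ℕ) (hq : 0 < q) (G : MvPolynomial (Fin 2) K)
    (i : Fin 2) : (powSub q G).degreeOf i = q * G.degreeOf i := by
  classical
  rw [co_powSub]
  apply le_antisymm
  · rw [degreeOf_le_iff]
    intro m hm
    rw [support_expand _ hq.ne', Finset.mem_image] at hm
    obtain ⟨m', hm', rfl⟩ := hm
    rw [Finsupp.smul_apply, smul_eq_mul]
    exact Nat.mul_le_mul_left _ (monomial_le_degreeOf i hm')
  · rcases eq_or_ne G 0 with rfl | hG
    · simp
    · have hne : G.support.Nonempty := by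
        rw [Finset.nonempty_iff_ne_empty, Ne, MvPolynomial.support_eq_empty]
        exact hG
      obtain ⟨m, hm, hm'⟩ := Finset.exists_mem_eq_sup G.support hne (fun m => m i)
      rw [degreeOf_eq_sup i G, hm']
      have h1 : q • m ∈ (expand q G).support := by
        rw [support_expand _ hq.ne', Finset.mem_image]
        exact ⟨m, hm, rfl⟩
      have h2 := monomial_le_degreeOf i h1
      rw [Finsupp.smul_apply, smul_eq_mul] at h2
      exact h2

/-- CO3. Degrees of `f (X^q, Y^q)`. -/
theorem degreeOf_powSub {K : Type} [Field K] (q : ℕ) (hq : 0 < q) (G : MvPolynomial (Fin 2) K) :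
    (powSub q G).degreeOf 0 = q * G.degreeOf 0 ∧ (powSub q G).degreeOf 1 = q * G.degreeOf 1 :=
  ⟨co_deg q hq G 0, co_deg q hq G 1⟩

/-- CO4. -/
theorem aeval_powSub {K M : Type} [Field K] [Field M] [Algebra K M] (q : ℕ)
    (G : MvPolynomial (Fin 2) K) (x y : M) :
    aeval ![x, y] (powSub q G) = aeval ![x ^ q, y ^ q] G := by
  rw [co_powSub, aeval_expand]
  congr 2
  ext i
  fin_cases i <;> simp

end Pool.Agent.Leh2
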