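import Pool.Agent.Leh2.Adapt

set_option autoImplicit false
set_option linter.unusedVariables false

namespace Pool.Agent.Leh2

open Module

private theorem ds_select {K V : Type} [Field K] [AddCommGroup V] [Module K V]
    {ι0 ι1 : Type} [Fintype ι0] [Fintype ι1] (E0 : ι0 → V) (E1 : ι1 → V) :
    ∃ (s0 : Finset ι0) (s1 : Finset ι1),
      LinearIndependent K (Sum.elim (fun i : s0 => E0 i) (fun i : s1 => E1 i)) ∧
      (∀ i, E0 i ∈ Submodule.span K (Set.range (fun i : s0 => E0 i))) ∧
      s0.card = finrank K (Submodule.span K (Set.range E0)) ∧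
      s0.card + s1.card = finrank K (Submodule.span K (Set.range E0 ∪ Set.range E1)) := by
  classical
  obtain ⟨b0, -, -, hb0, hi0⟩ := exists_linearIndepOn_extension (K := K) (v := E0)
    (linearIndepOn_empty K E0) (Set.empty_subset Set.univ)
  set W : Submodule K V := Submodule.span K (Set.range E0) with hW
  obtain ⟨b1, -, -, hb1, hi1⟩ := exists_linearIndepOn_extension (K := K)
    (v := fun i => W.mkQ (E1 i))
    (linearIndepOn_empty K _) (Set.empty_subset Set.univ)
  have hmem0 : ∀ i, E0 i ∈ Submodule.span K (E0 '' b0) := fun i => hb0 ⟨i, Set.mem_univ _, rfl⟩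
  have hW0 : Submodule.span K (E0 '' b0) = W := by
    apply le_antisymm
    · exact Submodule.span_mono (Set.image_subset_range _ _)
    · rw [hW, Submodule.span_le]
      rintro _ ⟨i, rfl⟩
      exact hmem0 i
  have hr0 : Set.range (fun i : b0.toFinset => E0 i) = E0 '' b0 := by
    ext x
    constructor
    · rintro ⟨i, rfl⟩
      exact ⟨i, Set.mem_toFinset.mp i.2, rfl⟩
    · rintro ⟨i, hi, rfl⟩
      exact ⟨⟨i, Set.mem_toFinset.mpr hi⟩, rfl⟩
  have hr1 : Set.range (fun i : b1.toFinset => E1 i) = E1 '' b1 := by
    ext x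
    constructor
    · rintro ⟨i, rfl⟩
      exact ⟨i, Set.mem_toFinset.mp i.2, rfl⟩
    · rintro ⟨i, hi, rfl⟩
      exact ⟨⟨i, Set.mem_toFinset.mpr hi⟩, rfl⟩
  have hl0 : LinearIndependent K (fun i : b0.toFinset => E0 i) := by
    have h := hi0.linearIndependent.comp
      (fun i : b0.toFinset => (⟨i, Set.mem_toFinset.mp i.2⟩ : b0))
      (fun a b hab => Subtype.ext (congrArg (fun z : b0 => (z : ι0)) hab))
    exact h
  have hl1 : LinearIndependent K (fun i : b1.toFinset => W.mkQ (E1 i)) := by
    have h := hi1.linearIndependent.comp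
      (fun i : b1.toFinset => (⟨i, Set.mem_toFinset.mp i.2⟩ : b1))
      (fun a b hab => Subtype.ext (congrArg (fun z : b1 => (z : ι1)) hab))
    exact h
  have hl : LinearIndependent K
      (Sum.elim (fun i : b0.toFinset => E0 i) (fun i : b1.toFinset => E1 i)) := by
    have hf : LinearIndependent K (fun i : b0.toFinset =>
        (⟨E0 i, Submodule.subset_span ⟨i, rfl⟩⟩ : W)) := by
      apply LinearIndependent.of_comp W.subtype
      exact hl0
    exact LinearIndependent.sumElim_of_quotient hf (fun i : b1.toFinset => E1 i) hl1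
  refine ⟨b0.toFinset, b1.toFinset, hl, ?_, ?_, ?_⟩
  · intro i
    rw [hr0]
    exact hmem0 i
  · have h := finrank_span_eq_card hl0
    rw [hr0, hW0, Fintype.card_coe] at h
    exact h.symm
  · have h := finrank_span_eq_card hl
    rw [Set.Sum.elim_range, hr0, hr1, Fintype.card_sum, Fintype.card_coe, Fintype.card_coe] at h
    rw [← h]
    suffices hsp : Submodule.span K (E0 '' b0 ∪ E1 '' b1) =
        Submodule.span K (Set.range E0 ∪ Set.range E1) by rw [hsp]
    apply le_antisymm
    · apply Submodule.span_mono
      apply Set.union_subset_union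
      · exact Set.image_subset_range _ _
      · exact Set.image_subset_range _ _
    · rw [Submodule.span_le]
      apply Set.union_subset
      · rintro _ ⟨i, rfl⟩
        exact Submodule.span_mono Set.subset_union_left (hmem0 i)
      · rintro _ ⟨i, rfl⟩
        have h1 : W.mkQ (E1 i) ∈ Submodule.span K ((fun i => W.mkQ (E1 i)) '' b1) :=
          hb1 ⟨i, Set.mem_univ _, rfl⟩
        have h2 : (fun i => W.mkQ (E1 i)) '' b1 = W.mkQ '' (E1 '' b1) := by
          rw [Set.image_image]
        rw [h2, ← Submodule.map_span, Submodule.mem_map] at h1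
        obtain ⟨y, hy, hyx⟩ := h1
        have h3 : E1 i - y ∈ W := by
          have := (Submodule.Quotient.eq W).mp hyx.symm
          exact this
        have h4 : E1 i = (E1 i - y) + y := by abel
        rw [h4]
        apply Submodule.add_mem
        · rw [← hW0] at h3
          exact Submodule.span_mono Set.subset_union_left h3
        · exact Submodule.span_mono Set.subset_union_right hy

private theorem ds_cols {L β J : Type} [Field L] [Fintype β] [DecidableEq β] [Fintype J]
    [DecidableEq J] (A : Matrix β J L) (hA : LinearIndependent L A.row) :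
    ∃ c : β → J, Function.Injective c ∧ (A.submatrix id c).det ≠ 0 := by
  classical
  have hrank : A.rank = Fintype.card β := hA.rank_matrix
  obtain ⟨κ, a, ha, hspan, hlin⟩ := exists_linearIndependent' (K := L) (v := A.col)
  have : Finite κ := Finite.of_injective a ha
  have : Fintype κ := Fintype.ofFinite κ
  have hcard : Fintype.card κ = Fintype.card β := by
    rw [← finrank_span_eq_card hlin, hspan, ← hrank, Matrix.rank_eq_finrank_span_cols]
  let e : β ≃ κ := Fintype.equivOfCardEq hcard.symm
  refine ⟨a ∘ e, ha.comp e.injective, ?_⟩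
  have h2 : LinearIndependent L (A.submatrix id (a ∘ e)).col := by
    exact hlin.comp e e.injective
  rw [Matrix.linearIndependent_cols_iff_isUnit, Matrix.isUnit_iff_isUnit_det] at h2
  exact h2.ne_zero

private theorem ds_arch {L β : Type} [Field L] [Fintype β] [DecidableEq β]
    (v : AbsoluteValue L ℝ) (M : Matrix β β L) (B : β → ℝ) (hB : ∀ i j, v (M i j) ≤ B i) :
    v M.det ≤ ((Fintype.card β).factorial : ℝ) * ∏ i, B i := by
  rw [Matrix.det_apply]
  refine (v.sum_le _ _).trans ?_
  have h : ∀ σ ∈ (Finset.univ : Finset (Equiv.Perm β)),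
      v (Equiv.Perm.sign σ • ∏ i, M (σ i) i) ≤ ∏ i, B i := by
    intro σ _
    have h1 : v (Equiv.Perm.sign σ • ∏ i, M (σ i) i) = ∏ i, v (M (σ i) i) := by
      rw [← map_prod]
      rcases Int.units_eq_one_or (Equiv.Perm.sign σ) with h | h
      · rw [h, one_smul]
      · rw [h, Units.neg_smul, one_smul, v.map_neg]
    rw [h1, ← Equiv.prod_comp σ B]
    exact Finset.prod_le_prod (fun i _ => v.nonneg _) (fun i _ => hB _ _)
  refine (Finset.sum_le_sum h).trans ?_
  rw [Finset.sum_const, Finset.card_univ, Fintype.card_perm, nsmul_eq_mul]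

private theorem ds_sum_le {L κ : Type} [Field L] (w : AbsoluteValue L ℝ)
    (hw : IsNonarchimedean w) (s : Finset κ) (f : κ → L) (C : ℝ) (hC : 0 ≤ C)
    (h : ∀ i ∈ s, w (f i) ≤ C) : w (∑ i ∈ s, f i) ≤ C := by
  classical
  induction s using Finset.induction_on with
  | empty => simpa using hC
  | insert a s ha ih =>
    rw [Finset.sum_insert ha]
    refine (hw _ _).trans (max_le (h a (Finset.mem_insert_self a s)) ?_)
    exact ih (fun i hi => h i (Finset.mem_insert_of_mem hi))

private theorem ds_nonarch {L α0 α1 : Type} [Field L] [Fintype α0] [Fintype α1]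
    [DecidableEq α0] [DecidableEq α1] (w : AbsoluteValue L ℝ) (hw : IsNonarchimedean w)
    (N : Matrix (α0 ⊕ α1) (α0 ⊕ α1) L) (G : α0 ⊕ α1 → ℝ) (hG : ∀ b, 0 ≤ G b)
    (p : α0 ⊕ α1 → Prop) [DecidablePred p]
    (hcard : Fintype.card α1 ≤ (Finset.univ.filter (fun b => ¬ p b)).card)
    (h0 : ∀ i b, ¬ p b → N (Sum.inl i) b = 0)
    (h1 : ∀ i b, p b → w (N (Sum.inl i) b) ≤ G (Sum.inl i))
    (h2 : ∀ i b, ¬ p b → w (N (Sum.inr i) b) ≤ G (Sum.inr i)) :
    w N.det ≤ ∏ b, G b := by
  have hC : 0 ≤ ∏ b, G b := Finset.prod_nonneg (fun b _ => hG b)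
  rw [Matrix.det_apply]
  apply ds_sum_le w hw _ _ _ hC
  intro σ _
  have hs : w (Equiv.Perm.sign σ • ∏ i, N (σ i) i) = ∏ i, w (N (σ i) i) := by
    rw [← map_prod]
    rcases Int.units_eq_one_or (Equiv.Perm.sign σ) with h | h
    · rw [h, one_smul]
    · rw [h, Units.neg_smul, one_smul, w.map_neg]
  rw [hs]
  by_cases hz : ∃ b, ¬ p b ∧ ∃ i, σ b = Sum.inl i
  · obtain ⟨b, hb, i, hi⟩ := hz
    have : ∏ i, w (N (σ i) i) = 0 := by
      apply Finset.prod_eq_zero (Finset.mem_univ b)
      rw [hi, h0 i b hb, w.map_zero]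
    rw [this]
    exact hC
  · push Not at hz
    have hinr : ∀ b, ¬ p b → ∃ i, σ b = Sum.inr i := by
      intro b hb
      rcases hσ : σ b with i | i
      · exact absurd hσ (hz b hb i)
      · exact ⟨i, rfl⟩
    have himg : (Finset.univ.filter (fun b => ¬ p b)).image σ =
        (Finset.univ : Finset α1).map ⟨Sum.inr, Sum.inr_injective⟩ := by
      apply Finset.eq_of_subset_of_card_le
      · intro x hx
        rw [Finset.mem_image] at hx
        obtain ⟨b, hb, rfl⟩ := hx
        obtain ⟨i, hi⟩ := hinr b (Finset.mem_filter.mp hb).2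
        rw [Finset.mem_map]
        exact ⟨i, Finset.mem_univ _, hi.symm⟩
      · rw [Finset.card_map, Finset.card_univ, Finset.card_image_of_injective _ σ.injective]
        exact hcard
    have hinl : ∀ b, p b → ∃ i, σ b = Sum.inl i := by
      intro b hb
      rcases hσ : σ b with i | i
      · exact ⟨i, rfl⟩
      · exfalso
        have : (Sum.inr i : α0 ⊕ α1) ∈ (Finset.univ.filter (fun b => ¬ p b)).image σ := by
          rw [himg, Finset.mem_map]
          exact ⟨i, Finset.mem_univ _, rfl⟩
        rw [Finset.mem_image] at this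
        obtain ⟨b', hb', hσ'⟩ := this
        have : b' = b := σ.injective (hσ'.trans hσ.symm)
        rw [this] at hb'
        exact (Finset.mem_filter.mp hb').2 hb
    rw [← Equiv.prod_comp σ G]
    apply Finset.prod_le_prod (fun i _ => w.nonneg _)
    intro b _
    by_cases hb : p b
    · obtain ⟨i, hi⟩ := hinl b hb
      rw [hi]
      exact h1 i b hb
    · obtain ⟨i, hi⟩ := hinr b hb
      rw [hi]
      exact h2 i b hb

private theorem ds_detU {L β : Type} [Field L] [Fintype β] [DecidableEq β]
    (U : Matrix β β L) (p : β → Prop) [DecidablePred p]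
    (h1 : ∀ b b', p b → U b' b = if b' = b then 1 else 0)
    (h2 : ∀ b b', ¬ p b → ¬ p b' → U b' b = if b' = b then 1 else 0) : U.det = 1 := by
  rw [Matrix.twoBlockTriangular_det U p]
  · have e1 : U.toSquareBlockProp p = 1 := by
      ext i j
      rw [Matrix.toSquareBlockProp_def, Matrix.one_apply]
      simp only [Matrix.of_apply]
      rw [h1 j i j.2]
      simp only [Subtype.ext_iff]
    have e2 : U.toSquareBlockProp (fun i => ¬ p i) = 1 := by
      ext i j
      rw [Matrix.toSquareBlockProp_def, Matrix.one_apply]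
      simp only [Matrix.of_apply]
      rw [h2 j i j.2 i.2]
      simp only [Subtype.ext_iff]
    rw [e1, e2, Matrix.det_one, Matrix.det_one, one_mul]
  · intro i hi j hj
    rw [h1 j i hj, if_neg]
    rintro rfl
    exact hi hj

/-- DS. A nonzero minor of the matrix with rows `E0`, `E1`, with a maximal number of rows `E0`,
and its absolute values. -/
theorem exists_det {k L : Type} [Field k] [Field L] [Algebra k L] [FiniteDimensional k L]
    [IsGalois k L] {J ι0 ι1 : Type} [Fintype J] [DecidableEq J] [Fintype ι0] [Fintype ι1]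
    (E0 : ι0 → J → L) (E1 : ι1 → J → L)
    (hstab : ∀ (σ : L ≃ₐ[k] L) (v : J → L), (∀ i, ∑ j, E0 i j * v j = 0) →
      ∀ i, ∑ j, E0 i j * σ (v j) = 0) :
    ∃ (s0 : Finset ι0) (s1 : Finset ι1) (Δ : L), Δ ≠ 0 ∧
      s0.card = finrank L (Submodule.span L (Set.range E0)) ∧
      s0.card + s1.card = finrank L (Submodule.span L (Set.range E0 ∪ Set.range E1)) ∧
      (∀ (v : AbsoluteValue L ℝ) (B0 : ι0 → ℝ) (B1 : ι1 → ℝ), (∀ i j, v (E0 i j) ≤ B0 i) →
        (∀ i j, v (E1 i j) ≤ B1 i) →
        v Δ ≤ ((s0.card + s1.card).factorial : ℝ) * ((∏ i ∈ s0, B0 i) * ∏ i ∈ s1, B1 i)) ∧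
      (∀ (w : AbsoluteValue L ℝ), IsNonarchimedean w → ∀ (B0 : ι0 → ℝ) (B1 g : ι1 → ℝ),
        (∀ i j, w (E0 i j) ≤ B0 i) → (∀ i j, w (E1 i j) ≤ B1 i) → (∀ i, 0 ≤ g i ∧ g i ≤ 1) →
        (∀ v : J → L, (∀ j, v j ∈ (algebraMap k L).range) → (∀ j, w (v j) ≤ 1) →
          (∀ i, ∑ j, E0 i j * v j = 0) → ∀ i, w (∑ j, E1 i j * v j) ≤ g i * B1 i) →
        w Δ ≤ (∏ i ∈ s0, B0 i) * ∏ i ∈ s1, (g i * B1 i)) := by
  classical
  obtain ⟨s0, s1, hlin, hmem, hc0, hc1⟩ := ds_select (K := L) E0 E1
  set A : Matrix (s0 ⊕ s1) J L := Sum.elim (fun i : s0 => E0 i) (fun i : s1 => E1 i) with hA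
  obtain ⟨c, hc, hdet⟩ := ds_cols A hlin
  refine ⟨s0, s1, (A.submatrix id c).det, hdet, hc0, hc1, ?_, ?_⟩
  · intro v B0 B1 hB0 hB1
    have h := ds_arch v (A.submatrix id c) (Sum.elim (fun i : s0 => B0 i) (fun i : s1 => B1 i)) (by
      rintro (i | i) j
      · exact hB0 i (c j)
      · exact hB1 i (c j))
    rw [Fintype.prod_sum_type, Fintype.card_sum, Fintype.card_coe, Fintype.card_coe] at h
    simp only [Sum.elim_inl, Sum.elim_inr] at h
    rw [Finset.prod_coe_sort s0 B0, Finset.prod_coe_sort s1 B1] at h
    exact h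
  · intro w hw B0 B1 g hB0 hB1 hg hyp
    let V : Submodule L (J → L) :=
      { carrier := {v | (∀ j, j ∉ Set.range c → v j = 0) ∧ ∀ i, ∑ j, E0 i j * v j = 0}
        add_mem' := by
          rintro a b ⟨ha1, ha2⟩ ⟨hb1, hb2⟩
          refine ⟨fun j hj => by rw [Pi.add_apply, ha1 j hj, hb1 j hj, add_zero], fun i => ?_⟩
          simp only [Pi.add_apply, mul_add, Finset.sum_add_distrib, ha2 i, hb2 i, add_zero]
        zero_mem' := ⟨fun j _ => rfl, fun i => by simp⟩
        smul_mem' := by
          rintro r a ⟨ha1, ha2⟩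
          refine ⟨fun j hj => by rw [Pi.smul_apply, ha1 j hj, smul_zero], fun i => ?_⟩
          have : ∑ j, E0 i j * (r • a) j = r * ∑ j, E0 i j * a j := by
            rw [Finset.mul_sum]
            apply Finset.sum_congr rfl
            intro j _
            rw [Pi.smul_apply, smul_eq_mul]
            ring
          rw [this, ha2 i, mul_zero] }
    have hVmem : ∀ v : J → L, v ∈ V ↔
        (∀ j, j ∉ Set.range c → v j = 0) ∧ ∀ i, ∑ j, E0 i j * v j = 0 := fun v => Iff.rfl
    obtain ⟨I, F, hF1, hF2, hF3, huniq, hcard⟩ := adapt w hw V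
    have hVstab : ∀ (σ : L ≃ₐ[k] L), ∀ v ∈ V, (fun j => σ (v j)) ∈ V := by
      intro σ v hv
      rw [hVmem] at hv ⊢
      refine ⟨fun j hj => ?_, hstab σ v hv.2⟩
      show σ (v j) = 0
      rw [hv.1 j hj, map_zero]
    have hrat : ∀ j ∉ I, ∀ i, F j i ∈ (algebraMap k L).range := by
      intro j hj
      apply adapt_rational V hVstab I huniq (F j) (hF1 j hj)
      intro j' hj'
      rw [hF2 j hj j' hj']
      split
      · exact one_mem _
      · exact zero_mem _
    have hrange : ∀ j ∉ I, j ∈ Set.range c := by
      intro j hj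
      by_contra hcon
      have h1 := ((hVmem _).mp (hF1 j hj)).1 j hcon
      rw [hF2 j hj j hj, if_pos rfl] at h1
      exact one_ne_zero h1
    -- the size of the complement of I
    have hVdim : s1.card ≤ finrank L V := by
      let T : ((s0 ⊕ s1) → L) →ₗ[L] (s0 → L) :=
        { toFun := fun x i => ∑ b, E0 i (c b) * x b
          map_add' := by
            intro x y
            funext i
            simp only [Pi.add_apply, mul_add, Finset.sum_add_distrib]
          map_smul' := by
            intro r x
            funext i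
            simp only [Pi.smul_apply, smul_eq_mul, RingHom.id_apply, Finset.mul_sum]
            apply Finset.sum_congr rfl
            intro b _
            ring }
      have hrk := LinearMap.finrank_range_add_finrank_ker T
      rw [Module.finrank_pi, Fintype.card_sum, Fintype.card_coe, Fintype.card_coe] at hrk
      have hle : finrank L (LinearMap.range T) ≤ s0.card := by
        refine (Submodule.finrank_le _).trans ?_
        rw [Module.finrank_pi, Fintype.card_coe]
      have hker : s1.card ≤ finrank L (LinearMap.ker T) := by omega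
      refine hker.trans ?_
      let ext : ((s0 ⊕ s1) → L) →ₗ[L] (J → L) := Function.ExtendByZero.linearMap L c
      have hext : ∀ x, ext x = Function.extend c x 0 := fun x => rfl
      have hinj : Function.Injective ext := by
        intro x y hxy
        funext b
        have := congrFun hxy (c b)
        rw [hext, hext, hc.extend_apply, hc.extend_apply] at this
        exact this
      have hsum : ∀ (r : J → L) (x : (s0 ⊕ s1) → L),
          ∑ j, r j * ext x j = ∑ b, r (c b) * x b := by
        intro r x
        have h1 : ∑ b, r (c b) * x b = ∑ j ∈ Finset.univ.map ⟨c, hc⟩, r j * ext x j := by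
          rw [Finset.sum_map]
          apply Finset.sum_congr rfl
          intro b _
          show _ = r (c b) * ext x (c b)
          rw [hext, hc.extend_apply]
        rw [h1]
        symm
        apply Finset.sum_subset (Finset.subset_univ _)
        intro j _ hj
        have : ¬ ∃ b, c b = j := by
          rintro ⟨b, rfl⟩
          exact hj (Finset.mem_map.mpr ⟨b, Finset.mem_univ _, rfl⟩)
        rw [hext, Function.extend_apply' _ _ _ this, Pi.zero_apply, mul_zero]
      have hle2 : (LinearMap.ker T).map ext ≤ V := by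
        rintro _ ⟨x, hx, rfl⟩
        rw [hVmem]
        refine ⟨fun j hj => ?_, fun i => ?_⟩
        · have : ¬ ∃ b, c b = j := hj
          rw [hext, Function.extend_apply' _ _ _ this, Pi.zero_apply]
        · let φ : (J → L) →ₗ[L] L :=
            { toFun := fun r => ∑ j, r j * ext x j
              map_add' := by
                intro r r'
                simp only [Pi.add_apply, add_mul, Finset.sum_add_distrib]
              map_smul' := by
                intro r r'
                simp only [Pi.smul_apply, smul_eq_mul, RingHom.id_apply, Finset.mul_sum]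
                apply Finset.sum_congr rfl
                intro b _
                ring }
          have hφ : Submodule.span L (Set.range (fun i : s0 => E0 i)) ≤ LinearMap.ker φ := by
            rw [Submodule.span_le]
            rintro _ ⟨i, rfl⟩
            show ∑ j, E0 i j * ext x j = 0
            rw [hsum]
            exact congrFun (LinearMap.mem_ker.mp hx) i
          exact LinearMap.mem_ker.mp (hφ (hmem i))
      calc finrank L (LinearMap.ker T) = finrank L ((LinearMap.ker T).map ext) :=
            (LinearEquiv.finrank_eq (Submodule.equivMapOfInjective ext hinj _))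
        _ ≤ finrank L V := Submodule.finrank_mono hle2
    have hcard2 : Fintype.card s1 ≤
        (Finset.univ.filter (fun b : s0 ⊕ s1 => ¬ (c b ∈ I))).card := by
      rw [Fintype.card_coe]
      refine hVdim.trans ?_
      rw [← hcard, ← Finset.card_image_of_injective _ hc]
      apply Finset.card_le_card
      intro j hj
      rw [Finset.mem_compl] at hj
      obtain ⟨b, rfl⟩ := hrange j hj
      exact Finset.mem_image.mpr ⟨b, Finset.mem_filter.mpr ⟨Finset.mem_univ _, hj⟩, rfl⟩
    let U : Matrix (s0 ⊕ s1) (s0 ⊕ s1) L := Matrix.of fun b' b =>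
      if c b ∈ I then (if b' = b then 1 else 0) else F (c b) (c b')
    have hU : ∀ b' b, U b' b = if c b ∈ I then (if b' = b then 1 else 0) else F (c b) (c b') :=
      fun b' b => rfl
    have hUdet : U.det = 1 := by
      apply ds_detU U (fun b => c b ∈ I)
      · intro b b' hb
        rw [hU, if_pos hb]
      · intro b b' hb hb'
        rw [hU, if_neg hb, hF2 _ hb _ hb']
        by_cases h : b' = b
        · rw [if_pos h, if_pos (by rw [h])]
        · rw [if_neg h, if_neg (fun h' => h (hc h').symm)]
    have hdet2 : (A.submatrix id c).det = ((A.submatrix id c) * U).det := by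
      rw [Matrix.det_mul, hUdet, mul_one]
    have hN1 : ∀ r b, c b ∈ I → ((A.submatrix id c) * U) r b = A r (c b) := by
      intro r b hb
      rw [Matrix.mul_apply, Finset.sum_eq_single b]
      · rw [hU, if_pos hb, if_pos rfl, mul_one, Matrix.submatrix_apply, id]
      · intro b' _ hb'
        rw [hU, if_pos hb, if_neg hb', mul_zero]
      · intro h
        exact absurd (Finset.mem_univ _) h
    have hN2 : ∀ r b, c b ∉ I → ((A.submatrix id c) * U) r b = ∑ j, A r j * F (c b) j := by
      intro r b hb
      rw [Matrix.mul_apply]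
      have h1 : ∑ j ∈ Finset.univ.map ⟨c, hc⟩, A r j * F (c b) j =
          ∑ j, (A.submatrix id c) r j * U j b := by
        rw [Finset.sum_map]
        apply Finset.sum_congr rfl
        intro b' _
        rw [hU, if_neg hb, Matrix.submatrix_apply, id]
        rfl
      rw [← h1]
      apply Finset.sum_subset (Finset.subset_univ _)
      intro j _ hj
      have : j ∉ Set.range c := by
        rintro ⟨b, rfl⟩
        exact hj (Finset.mem_map.mpr ⟨b, Finset.mem_univ _, rfl⟩)
      rw [((hVmem _).mp (hF1 _ hb)).1 j this, mul_zero]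
    have hB0nn : ∀ (b : s0 ⊕ s1) i, 0 ≤ B0 i := fun b i => (w.nonneg _).trans (hB0 i (c b))
    have hB1nn : ∀ (b : s0 ⊕ s1) i, 0 ≤ B1 i := fun b i => (w.nonneg _).trans (hB1 i (c b))
    have hfin := ds_nonarch w hw ((A.submatrix id c) * U)
      (Sum.elim (fun i : s0 => B0 i) (fun i : s1 => g i * B1 i))
      (by
        rintro (i | i)
        · exact hB0nn (Sum.inl i) _
        · exact mul_nonneg (hg _).1 (hB1nn (Sum.inr i) _))
      (fun b => c b ∈ I) hcard2
      (by
        intro i b hb
        rw [hN2 _ _ hb]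
        exact ((hVmem _).mp (hF1 _ hb)).2 i)
      (by
        intro i b hb
        rw [hN1 _ _ hb]
        exact hB0 i (c b))
      (by
        intro i b hb
        rw [hN2 _ _ hb]
        exact hyp (F (c b)) (hrat _ hb) (hF3 _ hb) ((hVmem _).mp (hF1 _ hb)).2 i)
    rw [hdet2]
    rw [Fintype.prod_sum_type] at hfin
    simp only [Sum.elim_inl, Sum.elim_inr] at hfin
    rw [Finset.prod_coe_sort s0 B0, Finset.prod_coe_sort s1 (fun i => g i * B1 i)] at hfin
    exact hfin

end Pool.Agent.Leh2
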