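import Pool.Agent.Leh2.TInt

set_option autoImplicit false
set_option linter.unusedVariables false

namespace Pool.Agent.Leh2

open NumberField IntermediateField

section Van

variable {L : Type} [Field L]

/-- The weights `W` are orthogonal to the monomials of degree less than `T`. -/
private def Van (L1 L2 T : ℕ) (W : ℕ → ℕ → L) : Prop :=
  ∀ a b, a + b < T →
    ∑ i ∈ Finset.range L1, ∑ j ∈ Finset.range L2, W i j * (i : L) ^ a * (j : L) ^ b = 0

private theorem Van.poly {L1 L2 T : ℕ} {W : ℕ → ℕ → L} (h : Van L1 L2 T W)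
    (P Q : Polynomial L) (hd : P.natDegree + Q.natDegree < T) :
    ∑ i ∈ Finset.range L1, ∑ j ∈ Finset.range L2, W i j * P.eval (i : L) * Q.eval (j : L) = 0 := by
  have h1 : ∀ i j, W i j * P.eval (i : L) * Q.eval (j : L) =
      ∑ a ∈ Finset.range (P.natDegree + 1), ∑ b ∈ Finset.range (Q.natDegree + 1),
        P.coeff a * Q.coeff b * (W i j * (i : L) ^ a * (j : L) ^ b) := by
    intro i j
    rw [Polynomial.eval_eq_sum_range, Polynomial.eval_eq_sum_range, mul_assoc,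
      Finset.sum_mul_sum, Finset.mul_sum]
    refine Finset.sum_congr rfl fun a _ => ?_
    rw [Finset.mul_sum]
    refine Finset.sum_congr rfl fun b _ => ?_
    ring
  calc ∑ i ∈ Finset.range L1, ∑ j ∈ Finset.range L2, W i j * P.eval (i : L) * Q.eval (j : L)
      = ∑ i ∈ Finset.range L1, ∑ j ∈ Finset.range L2,
        ∑ a ∈ Finset.range (P.natDegree + 1), ∑ b ∈ Finset.range (Q.natDegree + 1),
          P.coeff a * Q.coeff b * (W i j * (i : L) ^ a * (j : L) ^ b) :=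
        Finset.sum_congr rfl fun i _ => Finset.sum_congr rfl fun j _ => h1 i j
    _ = ∑ i ∈ Finset.range L1, ∑ a ∈ Finset.range (P.natDegree + 1),
        ∑ j ∈ Finset.range L2, ∑ b ∈ Finset.range (Q.natDegree + 1),
          P.coeff a * Q.coeff b * (W i j * (i : L) ^ a * (j : L) ^ b) :=
        Finset.sum_congr rfl fun i _ => Finset.sum_comm
    _ = ∑ a ∈ Finset.range (P.natDegree + 1), ∑ i ∈ Finset.range L1,
        ∑ j ∈ Finset.range L2, ∑ b ∈ Finset.range (Q.natDegree + 1),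
          P.coeff a * Q.coeff b * (W i j * (i : L) ^ a * (j : L) ^ b) := Finset.sum_comm
    _ = ∑ a ∈ Finset.range (P.natDegree + 1), ∑ b ∈ Finset.range (Q.natDegree + 1),
        P.coeff a * Q.coeff b * ∑ i ∈ Finset.range L1,
        ∑ j ∈ Finset.range L2, (W i j * (i : L) ^ a * (j : L) ^ b) := by
        refine Finset.sum_congr rfl fun a _ => ?_
        rw [Finset.sum_congr rfl fun i _ => Finset.sum_comm, Finset.sum_comm]
        refine Finset.sum_congr rfl fun b _ => ?_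
        rw [Finset.mul_sum]
        refine Finset.sum_congr rfl fun i _ => ?_
        rw [Finset.mul_sum]
    _ = 0 := by
        refine Finset.sum_eq_zero fun a ha => Finset.sum_eq_zero fun b hb => ?_
        rw [Finset.mem_range] at ha hb
        rw [h a b (by omega), mul_zero]

private theorem Van.smul {L1 L2 T : ℕ} {W : ℕ → ℕ → L} (h : Van L1 L2 T W) (r : L) :
    Van L1 L2 T (fun i j => r * W i j) := by
  intro a b hab
  have h1 := h a b hab
  rw [← mul_zero r, ← h1, Finset.mul_sum]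
  refine Finset.sum_congr rfl fun i _ => ?_
  rw [Finset.mul_sum]
  refine Finset.sum_congr rfl fun j _ => ?_
  ring

private theorem flip_deg (n a : ℕ) :
    ((Polynomial.C (n : L) - Polynomial.X) ^ a).natDegree ≤ a := by
  refine (Polynomial.natDegree_pow_le).trans ?_
  have h1 : (Polynomial.C (n : L) - Polynomial.X).natDegree ≤ 1 := by
    refine (Polynomial.natDegree_sub_le _ _).trans ?_
    rw [Polynomial.natDegree_C]
    exact max_le (Nat.zero_le _) Polynomial.natDegree_X_le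
  nlinarith

private theorem Van.flipX {L1 L2 T : ℕ} {W : ℕ → ℕ → L} (h : Van L1 L2 T W) :
    Van L1 L2 T (fun i j => W (L1 - 1 - i) j) := by
  intro a b hab
  rw [← Finset.sum_range_reflect]
  have h1 := h.poly ((Polynomial.C ((L1 - 1 : ℕ) : L) - Polynomial.X) ^ a) (Polynomial.X ^ b) (by
    have := flip_deg (L := L) (L1 - 1) a
    rw [Polynomial.natDegree_X_pow]
    omega)
  refine Eq.trans ?_ h1
  refine Finset.sum_congr rfl fun i hi => Finset.sum_congr rfl fun j hj => ?_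
  rw [Finset.mem_range] at hi
  have e1 : L1 - 1 - (L1 - 1 - i) = i := by omega
  have e2 : ((L1 - 1 - i : ℕ) : L) = ((L1 - 1 : ℕ) : L) - (i : L) := by
    rw [Nat.cast_sub (by omega)]
  simp only [Polynomial.eval_pow, Polynomial.eval_sub, Polynomial.eval_C, Polynomial.eval_X]
  rw [e1, e2]

private theorem Van.flipY {L1 L2 T : ℕ} {W : ℕ → ℕ → L} (h : Van L1 L2 T W) :
    Van L1 L2 T (fun i j => W i (L2 - 1 - j)) := by
  intro a b hab
  have h1 := h.poly (Polynomial.X ^ a) ((Polynomial.C ((L2 - 1 : ℕ) : L) - Polynomial.X) ^ b) (by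
    have := flip_deg (L := L) (L2 - 1) b
    rw [Polynomial.natDegree_X_pow]
    omega)
  refine Eq.trans ?_ h1
  refine Finset.sum_congr rfl fun i hi => ?_
  rw [← Finset.sum_range_reflect]
  refine Finset.sum_congr rfl fun j hj => ?_
  rw [Finset.mem_range] at hj
  have e1 : L2 - 1 - (L2 - 1 - j) = j := by omega
  have e2 : ((L2 - 1 - j : ℕ) : L) = ((L2 - 1 : ℕ) : L) - (j : L) := by
    rw [Nat.cast_sub (by omega)]
  simp only [Polynomial.eval_pow, Polynomial.eval_sub, Polynomial.eval_C, Polynomial.eval_X]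
  rw [e1, e2]

private theorem Van.hs_eq [CharZero L] {L1 L2 T : ℕ} {c : ℕ → ℕ → L} {x y : L} (hx : x ≠ 0)
    (hy : y ≠ 0) (h : Van L1 L2 T fun i j => c i j * x ^ i * y ^ j) (a b : ℕ) (hab : a + b < T) :
    hs L1 L2 c a b x y = 0 := by
  have h1 := h.poly (descPochhammer L a) (descPochhammer L b) (by
    rw [descPochhammer_natDegree, descPochhammer_natDegree]
    exact hab)
  have h2 : ((a.factorial : L) * (b.factorial : L) * x ^ a * y ^ b) * hs L1 L2 c a b x y = 0 := by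
    rw [← h1, hs, Finset.mul_sum]
    refine Finset.sum_congr rfl fun i _ => ?_
    rw [Finset.mul_sum]
    refine Finset.sum_congr rfl fun j _ => ?_
    rw [descPochhammer_eval_eq_descFactorial, descPochhammer_eval_eq_descFactorial,
      Nat.descFactorial_eq_factorial_mul_choose, Nat.descFactorial_eq_factorial_mul_choose]
    push_cast
    by_cases hi : a ≤ i
    · by_cases hj : b ≤ j
      · have e1 : x ^ i = x ^ a * x ^ (i - a) := by rw [← pow_add]; congr 1; omega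
        have e2 : y ^ j = y ^ b * y ^ (j - b) := by rw [← pow_add]; congr 1; omega
        rw [e1, e2]
        ring
      · rw [Nat.choose_eq_zero_of_lt (show j < b by omega)]
        simp
    · rw [Nat.choose_eq_zero_of_lt (show i < a by omega)]
      simp
  refine (mul_eq_zero.mp h2).resolve_left ?_
  have h3 : (a.factorial : L) ≠ 0 := by exact_mod_cast a.factorial_ne_zero
  have h4 : (b.factorial : L) ≠ 0 := by exact_mod_cast b.factorial_ne_zero
  exact mul_ne_zero (mul_ne_zero (mul_ne_zero h3 h4) (pow_ne_zero _ hx)) (pow_ne_zero _ hy)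

/-- The value of a polynomial. -/
private noncomputable def Sm (L1 L2 : ℕ) (c : ℕ → ℕ → L) (x y : L) : L :=
  ∑ i ∈ Finset.range L1, ∑ j ∈ Finset.range L2, c i j * x ^ i * y ^ j

private theorem hs_zero (L1 L2 : ℕ) (c : ℕ → ℕ → L) (x y : L) :
    hs L1 L2 c 0 0 x y = Sm L1 L2 c x y := by
  unfold hs Sm
  refine Finset.sum_congr rfl fun i _ => Finset.sum_congr rfl fun j _ => ?_
  simp

private theorem Sm_flipX (L1 L2 : ℕ) (c : ℕ → ℕ → L) {x : L} (hx : x ≠ 0) (y : L) :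
    Sm L1 L2 c x y = x ^ (L1 - 1) * Sm L1 L2 (fun i j => c (L1 - 1 - i) j) x⁻¹ y := by
  unfold Sm
  rw [← Finset.sum_range_reflect, Finset.mul_sum]
  refine Finset.sum_congr rfl fun i hi => ?_
  rw [Finset.mul_sum]
  refine Finset.sum_congr rfl fun j _ => ?_
  rw [Finset.mem_range] at hi
  have e1 : x ^ (L1 - 1) = x ^ (L1 - 1 - i) * x ^ i := by rw [← pow_add]; congr 1; omega
  rw [e1, inv_pow]
  field_simp

private theorem Sm_flipY (L1 L2 : ℕ) (c : ℕ → ℕ → L) (x : L) {y : L} (hy : y ≠ 0) :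
    Sm L1 L2 c x y = y ^ (L2 - 1) * Sm L1 L2 (fun i j => c i (L2 - 1 - j)) x y⁻¹ := by
  unfold Sm
  rw [Finset.mul_sum]
  refine Finset.sum_congr rfl fun i _ => ?_
  rw [← Finset.sum_range_reflect, Finset.mul_sum]
  refine Finset.sum_congr rfl fun j hj => ?_
  rw [Finset.mem_range] at hj
  have e1 : y ^ (L2 - 1) = y ^ (L2 - 1 - j) * y ^ j := by rw [← pow_add]; congr 1; omega
  rw [e1, inv_pow]
  field_simp

private theorem Van.invX {L1 L2 T : ℕ} {c : ℕ → ℕ → L} {x y : L} (hx : x ≠ 0)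
    (h : Van L1 L2 T fun i j => c i j * x ^ i * y ^ j) :
    Van L1 L2 T fun i j => c (L1 - 1 - i) j * x⁻¹ ^ i * y ^ j := by
  have h1 := (h.flipX).smul ((x ^ (L1 - 1))⁻¹)
  intro a b hab
  refine Eq.trans ?_ (h1 a b hab)
  refine Finset.sum_congr rfl fun i hi => Finset.sum_congr rfl fun j _ => ?_
  rw [Finset.mem_range] at hi
  have e1 : x ^ (L1 - 1) = x ^ (L1 - 1 - i) * x ^ i := by rw [← pow_add]; congr 1; omega
  simp only
  rw [e1, inv_pow]
  field_simp

private theorem Van.invY {L1 L2 T : ℕ} {c : ℕ → ℕ → L} {x y : L} (hy : y ≠ 0)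
    (h : Van L1 L2 T fun i j => c i j * x ^ i * y ^ j) :
    Van L1 L2 T fun i j => c i (L2 - 1 - j) * x ^ i * y⁻¹ ^ j := by
  have h1 := (h.flipY).smul ((y ^ (L2 - 1))⁻¹)
  intro a b hab
  refine Eq.trans ?_ (h1 a b hab)
  refine Finset.sum_congr rfl fun i _ => Finset.sum_congr rfl fun j hj => ?_
  rw [Finset.mem_range] at hj
  have e1 : y ^ (L2 - 1) = y ^ (L2 - 1 - j) * y ^ j := by rw [← pow_add]; congr 1; omega
  simp only
  rw [e1, inv_pow]
  field_simp

end Van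

section Charts

variable {L : Type} [Field L] [NumberField L] {ζ : L} {N : ℕ}

private theorem chart0 (hζ : IsPrimitiveRoot ζ N) (hN : 0 < N) {p : ℕ} (hp : p.Prime)
    (hpN : ¬ p ∣ N) (ψ : L ≃ₐ[ℚ] L) (hψ : ψ ζ = ζ ^ p) (w : AbsoluteValue L ℝ)
    (hw : IsNonarchimedean w) (hwp : w (p : L) < 1) (L1 L2 T : ℕ) (c : ℕ → ℕ → L)
    (hck : ∀ i j, c i j ∈ ℚ⟮ζ⟯) (hcw : ∀ i j, w (c i j) ≤ 1) (x y : L) (hx : x ≠ 0) (hy : y ≠ 0)
    (hx1 : w x ≤ 1) (hy1 : w y ≤ 1) (hT : Van L1 L2 T fun i j => c i j * x ^ i * y ^ j) :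
    w (Sm L1 L2 (fun i j => ψ (c i j)) (x ^ p) (y ^ p)) ≤
      w (p : L) ^ T * (max 1 (w x) ^ (p * L1) * max 1 (w y) ^ (p * L2)) := by
  have h1 := t_int hζ hN hp hpN ψ hψ w hw hwp L1 L2 T c hck hcw x y hx1 hy1
    (fun a b hab => hT.hs_eq hx hy a b hab)
  rw [hs_zero] at h1
  refine h1.trans ?_
  rw [max_eq_left hx1, max_eq_left hy1, one_pow, one_pow, mul_one, mul_one]

private theorem chart1 (hζ : IsPrimitiveRoot ζ N) (hN : 0 < N) {p : ℕ} (hp : p.Prime)
    (hpN : ¬ p ∣ N) (ψ : L ≃ₐ[ℚ] L) (hψ : ψ ζ = ζ ^ p) (w : AbsoluteValue L ℝ)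
    (hw : IsNonarchimedean w) (hwp : w (p : L) < 1) (L1 L2 T : ℕ) (c : ℕ → ℕ → L)
    (hck : ∀ i j, c i j ∈ ℚ⟮ζ⟯) (hcw : ∀ i j, w (c i j) ≤ 1) (x y : L) (hx : x ≠ 0) (hy : y ≠ 0)
    (hx1 : w x ≤ 1) (hT : Van L1 L2 T fun i j => c i j * x ^ i * y ^ j) :
    w (Sm L1 L2 (fun i j => ψ (c i j)) (x ^ p) (y ^ p)) ≤
      w (p : L) ^ T * (max 1 (w x) ^ (p * L1) * max 1 (w y) ^ (p * L2)) := by
  rcases le_or_gt (w y) 1 with hy1 | hy1
  · exact chart0 hζ hN hp hpN ψ hψ w hw hwp L1 L2 T c hck hcw x y hx hy hx1 hy1 hT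
  · have hyi : w y⁻¹ ≤ 1 := by
      rw [map_inv₀]
      exact inv_le_one_of_one_le₀ hy1.le
    have h1 := chart0 hζ hN hp hpN ψ hψ w hw hwp L1 L2 T (fun i j => c i (L2 - 1 - j))
      (fun i j => hck _ _) (fun i j => hcw _ _) x y⁻¹ hx (inv_ne_zero hy) hx1 hyi (hT.invY hy)
    rw [Sm_flipY L1 L2 _ _ (pow_ne_zero p hy), map_mul, ← inv_pow]
    rw [max_eq_left hyi, one_pow, mul_one] at h1
    have h2 : w ((y ^ p) ^ (L2 - 1)) ≤ max 1 (w y) ^ (p * L2) := by
      rw [← pow_mul, map_pow, max_eq_right hy1.le]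
      exact pow_le_pow_right₀ hy1.le (Nat.mul_le_mul_left p (Nat.sub_le _ _))
    calc w ((y ^ p) ^ (L2 - 1)) * w (Sm L1 L2 (fun i j => ψ (c i (L2 - 1 - j))) (x ^ p) (y⁻¹ ^ p))
        ≤ max 1 (w y) ^ (p * L2) * (w (p : L) ^ T * max 1 (w x) ^ (p * L1)) :=
          mul_le_mul h2 h1 (apply_nonneg w _) (by positivity)
      _ = _ := by ring

private theorem chart2 (hζ : IsPrimitiveRoot ζ N) (hN : 0 < N) {p : ℕ} (hp : p.Prime)
    (hpN : ¬ p ∣ N) (ψ : L ≃ₐ[ℚ] L) (hψ : ψ ζ = ζ ^ p) (w : AbsoluteValue L ℝ)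
    (hw : IsNonarchimedean w) (hwp : w (p : L) < 1) (L1 L2 T : ℕ) (c : ℕ → ℕ → L)
    (hck : ∀ i j, c i j ∈ ℚ⟮ζ⟯) (hcw : ∀ i j, w (c i j) ≤ 1) (x y : L) (hx : x ≠ 0) (hy : y ≠ 0)
    (hT : Van L1 L2 T fun i j => c i j * x ^ i * y ^ j) :
    w (Sm L1 L2 (fun i j => ψ (c i j)) (x ^ p) (y ^ p)) ≤
      w (p : L) ^ T * (max 1 (w x) ^ (p * L1) * max 1 (w y) ^ (p * L2)) := by
  rcases le_or_gt (w x) 1 with hx1 | hx1
  · exact chart1 hζ hN hp hpN ψ hψ w hw hwp L1 L2 T c hck hcw x y hx hy hx1 hT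
  · have hxi : w x⁻¹ ≤ 1 := by
      rw [map_inv₀]
      exact inv_le_one_of_one_le₀ hx1.le
    have h1 := chart1 hζ hN hp hpN ψ hψ w hw hwp L1 L2 T (fun i j => c (L1 - 1 - i) j)
      (fun i j => hck _ _) (fun i j => hcw _ _) x⁻¹ y (inv_ne_zero hx) hy hxi (hT.invX hx)
    rw [Sm_flipX L1 L2 _ (pow_ne_zero p hx), map_mul, ← inv_pow]
    rw [max_eq_left hxi, one_pow, one_mul] at h1
    have h2 : w ((x ^ p) ^ (L1 - 1)) ≤ max 1 (w x) ^ (p * L1) := by
      rw [← pow_mul, map_pow, max_eq_right hx1.le]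
      exact pow_le_pow_right₀ hx1.le (Nat.mul_le_mul_left p (Nat.sub_le _ _))
    calc w ((x ^ p) ^ (L1 - 1)) * w (Sm L1 L2 (fun i j => ψ (c (L1 - 1 - i) j)) (x⁻¹ ^ p) (y ^ p))
        ≤ max 1 (w x) ^ (p * L1) * (w (p : L) ^ T * max 1 (w y) ^ (p * L2)) :=
          mul_le_mul h2 h1 (apply_nonneg w _) (by positivity)
      _ = _ := by ring

end Charts

/-- TLEM. The `p`-adic gain, general form. -/
theorem t_lemma {L : Type} [Field L] [NumberField L] {ζ : L} {N : ℕ}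
    (hζ : IsPrimitiveRoot ζ N) (hN : 0 < N) {p : ℕ} (hp : p.Prime) (hpN : ¬ p ∣ N)
    (ψ : L ≃ₐ[ℚ] L) (hψ : ψ ζ = ζ ^ p) (w : AbsoluteValue L ℝ) (hw : IsNonarchimedean w)
    (hwp : w (p : L) < 1) {L1 L2 : ℕ} (T : ℕ) (c : Fin L1 × Fin L2 → L)
    (hck : ∀ i, c i ∈ ℚ⟮ζ⟯) (hcw : ∀ i, w (c i) ≤ 1) (x y : L) (hx : x ≠ 0) (hy : y ≠ 0)
    (hT : ∀ a b, a + b < T → ev c a b x y = 0) :
    w (ev (fun i => ψ (c i)) 0 0 (x ^ p) (y ^ p)) ≤
      w (p : L) ^ T * (max 1 (w x) ^ (p * L1) * max 1 (w y) ^ (p * L2)) := by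
  classical
  let C : ℕ → ℕ → L := fun i j =>
    if h : i < L1 ∧ j < L2 then c (⟨i, h.1⟩, ⟨j, h.2⟩) else 0
  have hC : ∀ (i : Fin L1) (j : Fin L2), c (i, j) = C i j := by
    intro i j
    simp [C]
  have hCk : ∀ i j, C i j ∈ ℚ⟮ζ⟯ := by
    intro i j
    by_cases h : i < L1 ∧ j < L2
    · simp only [C, h, and_self, dif_pos]
      exact hck _
    · simp only [C, h, dif_neg, not_false_eq_true]
      exact zero_mem _
  have hCw : ∀ i j, w (C i j) ≤ 1 := by
    intro i j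
    by_cases h : i < L1 ∧ j < L2
    · simp only [C, h, and_self, dif_pos]
      exact hcw _
    · simp only [C, h, dif_neg, not_false_eq_true, map_zero]
      exact zero_le_one
  have hsum : ∀ (φ : L → L) (a b : ℕ) (X Y : L), ev (fun i => φ (c i)) a b X Y =
      ∑ i ∈ Finset.range L1, ∑ j ∈ Finset.range L2,
        φ (C i j) * (i : L) ^ a * (j : L) ^ b * X ^ i * Y ^ j := by
    intro φ a b X Y
    unfold ev
    rw [Fintype.sum_prod_type, ← Fin.sum_univ_eq_sum_range (fun i =>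
      ∑ j ∈ Finset.range L2, φ (C i j) * (i : L) ^ a * (j : L) ^ b * X ^ i * Y ^ j) L1]
    refine Finset.sum_congr rfl fun i _ => ?_
    rw [← Fin.sum_univ_eq_sum_range (fun j =>
      φ (C i j) * ((i : ℕ) : L) ^ a * (j : L) ^ b * X ^ (i : ℕ) * Y ^ j) L2]
    refine Finset.sum_congr rfl fun j _ => ?_
    simp only [hC]
  have hV : Van L1 L2 T fun i j => C i j * x ^ i * y ^ j := by
    intro a b hab
    have h1 := hT a b hab
    have h2 := hsum id a b x y
    simp only [id] at h2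
    rw [h2] at h1
    refine Eq.trans ?_ h1
    refine Finset.sum_congr rfl fun i _ => Finset.sum_congr rfl fun j _ => ?_
    ring
  have h1 := chart2 hζ hN hp hpN ψ hψ w hw hwp L1 L2 T C hCk hCw x y hx hy hV
  rw [hsum (fun z => ψ z) 0 0]
  refine le_trans (le_of_eq ?_) h1
  congr 1
  unfold Sm
  refine Finset.sum_congr rfl fun i _ => Finset.sum_congr rfl fun j _ => ?_
  rw [pow_zero, pow_zero, mul_one, mul_one]

end Pool.Agent.Leh2
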