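import Pool.Agent.Leh2.PG
import Pool.Agent.Leh2.TLem
import Pool.Agent.Leh2.DetSel

set_option autoImplicit false
set_option linter.unusedVariables false

namespace Pool.Agent.Leh2

open NumberField IntermediateField Module Height

/-! ### Linear algebra -/

private theorem finrank_kernel {L : Type} [Field L] {J ι : Type} [Fintype J] [Fintype ι]
    (E : ι → J → L) (V : Submodule L (J → L)) (hV : ∀ v, v ∈ V ↔ ∀ i, ∑ j, E i j * v j = 0) :
    finrank L V + finrank L (Submodule.span L (Set.range E)) = Fintype.card J := by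
  classical
  have h1 : V = LinearMap.ker (Matrix.mulVecLin (Matrix.of E)) := by
    ext v
    rw [hV, LinearMap.mem_ker, funext_iff]
    rfl
  have h2 := Matrix.rank_eq_finrank_span_row (Matrix.of E)
  have h3 : (Matrix.of E).rank = finrank L (LinearMap.range (Matrix.mulVecLin (Matrix.of E))) :=
    rfl
  have h4 := LinearMap.finrank_range_add_finrank_ker (Matrix.mulVecLin (Matrix.of E))
  rw [← h3, h2, ← h1, finrank_fintype_fun_eq_card] at h4
  rw [← h4, add_comm]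
  rfl

private def kerV {L : Type} [Field L] {J ι : Type} [Fintype J] (E : ι → J → L) :
    Submodule L (J → L) where
  carrier := {v | ∀ i, ∑ j, E i j * v j = 0}
  zero_mem' := by
    intro i
    simp
  add_mem' := by
    intro v w hv hw i
    have h1 := hv i
    have h2 := hw i
    simp only [Pi.add_apply, mul_add, Finset.sum_add_distrib, h1, h2, add_zero]
  smul_mem' := by
    intro c v hv i
    have h1 := hv i
    simp only [Pi.smul_apply, smul_eq_mul]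
    have h2 : ∀ j, E i j * (c * v j) = c * (E i j * v j) := fun j => by ring
    rw [Finset.sum_congr rfl fun j _ => h2 j, ← Finset.mul_sum, h1, mul_zero]

private theorem mem_kerV {L : Type} [Field L] {J ι : Type} [Fintype J] (E : ι → J → L)
    (v : J → L) : v ∈ kerV E ↔ ∀ i, ∑ j, E i j * v j = 0 := Iff.rfl

/-! ### The rows -/

section rows

variable {L : Type} [Field L] [NumberField L]

private abbrev R0 (k : IntermediateField ℚ L) (T : ℕ) : Type :=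
  {ab : Fin T × Fin T // (ab.1 : ℕ) + ab.2 < T} × (L ≃ₐ[k] L)

private abbrev R1 (k : IntermediateField ℚ L) (Λ : Finset ℕ) : Type := Λ × (L ≃ₐ[k] L)

private def E0 (k : IntermediateField ℚ L) (L1 L2 T : ℕ) (x y : L) (i : R0 k T)
    (j : Fin L1 × Fin L2) : L :=
  ((j.1 : ℕ) : L) ^ (i.1.1.1 : ℕ) * ((j.2 : ℕ) : L) ^ (i.1.1.2 : ℕ) *
    (i.2 x) ^ (j.1 : ℕ) * (i.2 y) ^ (j.2 : ℕ)

private def E1 (k : IntermediateField ℚ L) (L1 L2 : ℕ) (x y : L) (Λ : Finset ℕ)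
    (ψ : ℕ → (L ≃ₐ[ℚ] L)) (i : R1 k Λ) (j : Fin L1 × Fin L2) : L :=
  (i.2 ((ψ i.1).symm (x ^ (i.1 : ℕ)))) ^ (j.1 : ℕ) *
    (i.2 ((ψ i.1).symm (y ^ (i.1 : ℕ)))) ^ (j.2 : ℕ)

private theorem sum_E0 (k : IntermediateField ℚ L) (L1 L2 T : ℕ) (x y : L) (i : R0 k T)
    (v : Fin L1 × Fin L2 → L) :
    ∑ j, E0 k L1 L2 T x y i j * i.2 (v j) = i.2 (ev v i.1.1.1 i.1.1.2 x y) := by
  unfold ev E0
  rw [map_sum]
  refine Finset.sum_congr rfl fun j _ => ?_
  simp only [map_mul, map_pow, map_natCast]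
  ring

private theorem sum_E1 (k : IntermediateField ℚ L) (L1 L2 : ℕ) (x y : L) (Λ : Finset ℕ)
    (ψ : ℕ → (L ≃ₐ[ℚ] L)) (i : R1 k Λ) (v : Fin L1 × Fin L2 → L) :
    ∑ j, E1 k L1 L2 x y Λ ψ i j * i.2 (v j) =
      i.2 (ev v 0 0 ((ψ i.1).symm (x ^ (i.1 : ℕ))) ((ψ i.1).symm (y ^ (i.1 : ℕ)))) := by
  unfold ev E1
  rw [map_sum]
  refine Finset.sum_congr rfl fun j _ => ?_
  simp only [map_mul, map_pow, pow_zero, mul_one]
  ring

private theorem sum_E1' (k : IntermediateField ℚ L) (L1 L2 : ℕ) (x y : L) (Λ : Finset ℕ)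
    (ψ : ℕ → (L ≃ₐ[ℚ] L)) (i : R1 k Λ) (v : Fin L1 × Fin L2 → L) :
    ∑ j, E1 k L1 L2 x y Λ ψ i j * i.2 (v j) =
      i.2 ((ψ i.1).symm (ev (fun j => ψ i.1 (v j)) 0 0 (x ^ (i.1 : ℕ)) (y ^ (i.1 : ℕ)))) := by
  rw [sum_E1]
  congr 1
  unfold ev
  rw [map_sum]
  refine Finset.sum_congr rfl fun j _ => ?_
  simp only [map_mul, map_pow, pow_zero, mul_one, AlgEquiv.symm_apply_apply]

private theorem stab0 (k : IntermediateField ℚ L) (L1 L2 T : ℕ) (x y : L) (σ : L ≃ₐ[k] L)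
    (v : Fin L1 × Fin L2 → L) (hv : ∀ i, ∑ j, E0 k L1 L2 T x y i j * v j = 0) (i : R0 k T) :
    ∑ j, E0 k L1 L2 T x y i j * σ (v j) = 0 := by
  have h1 := hv (i.1, σ⁻¹ * i.2)
  have h2 := congrArg σ h1
  rw [map_sum, map_zero] at h2
  rw [← h2]
  refine Finset.sum_congr rfl fun j _ => ?_
  have h3 : ∀ z, σ ((σ⁻¹ * i.2) z) = i.2 z := by
    intro z
    rw [← AlgEquiv.mul_apply, mul_inv_cancel_left]
  unfold E0
  simp only [map_mul, map_pow, map_natCast, h3]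

private theorem stab1 (k : IntermediateField ℚ L) (L1 L2 : ℕ) (x y : L) (Λ : Finset ℕ)
    (ψ : ℕ → (L ≃ₐ[ℚ] L)) (σ : L ≃ₐ[k] L)
    (v : Fin L1 × Fin L2 → L) (hv : ∀ i, ∑ j, E1 k L1 L2 x y Λ ψ i j * v j = 0) (i : R1 k Λ) :
    ∑ j, E1 k L1 L2 x y Λ ψ i j * σ (v j) = 0 := by
  have h1 := hv (i.1, σ⁻¹ * i.2)
  have h2 := congrArg σ h1
  rw [map_sum, map_zero] at h2
  rw [← h2]
  refine Finset.sum_congr rfl fun j _ => ?_
  have h3 : ∀ z, σ ((σ⁻¹ * i.2) z) = i.2 z := by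
    intro z
    rw [← AlgEquiv.mul_apply, mul_inv_cancel_left]
  unfold E1
  simp only [map_mul, map_pow, h3]

end rows

/-! ### The dimensions -/

section dims

variable {L : Type} [Field L] [NumberField L] [IsGalois ℚ L]

private theorem finrank_VT (k : IntermediateField ℚ L) (L1 L2 T : ℕ) (x y : L) :
    finrank k (VT k L1 L2 T x y) +
      finrank L (Submodule.span L (Set.range (E0 k L1 L2 T x y))) = L1 * L2 := by
  classical
  have h1 := finrank_kernel (E0 k L1 L2 T x y) (kerV (E0 k L1 L2 T x y)) fun v => Iff.rfl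
  rw [Fintype.card_prod, Fintype.card_fin, Fintype.card_fin] at h1
  rw [← h1]
  congr 1
  refine finrank_descent (kerV (E0 k L1 L2 T x y)) ?_ _ ?_
  · intro σ v hv
    exact stab0 k L1 L2 T x y σ v hv
  · intro c
    have h2 : ∀ i : R0 k T, ∑ j, E0 k L1 L2 T x y i j * algebraMap k L (c j) =
        i.2 (ev (fun j => (c j : L)) i.1.1.1 i.1.1.2 x y) := by
      intro i
      rw [← sum_E0]
      refine Finset.sum_congr rfl fun j _ => ?_
      congr 1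
      exact (i.2.commutes (c j)).symm
    constructor
    · intro hc i
      rw [h2 i, hc _ _ i.1.2, map_zero]
    · intro hc a b hab
      have h3 := hc (⟨(⟨a, by omega⟩, ⟨b, by omega⟩), hab⟩, 1)
      rw [h2] at h3
      exact h3

private theorem finrank_VP (k : IntermediateField ℚ L) (L1 L2 T : ℕ) (x y : L) (Λ : Finset ℕ)
    (ψ : ℕ → (L ≃ₐ[ℚ] L)) :
    finrank k (VP k L1 L2 T x y Λ ψ) +
      finrank L (Submodule.span L (Set.range (E0 k L1 L2 T x y) ∪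
        Set.range (E1 k L1 L2 x y Λ ψ))) = L1 * L2 := by
  classical
  have h1 := finrank_kernel (Sum.elim (E0 k L1 L2 T x y) (E1 k L1 L2 x y Λ ψ))
    (kerV (Sum.elim (E0 k L1 L2 T x y) (E1 k L1 L2 x y Λ ψ))) fun v => Iff.rfl
  rw [Fintype.card_prod, Fintype.card_fin, Fintype.card_fin, Set.Sum.elim_range] at h1
  rw [← h1]
  congr 1
  refine finrank_descent (kerV (Sum.elim (E0 k L1 L2 T x y) (E1 k L1 L2 x y Λ ψ))) ?_ _ ?_
  · intro σ v hv i
    rcases i with i | i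
    · exact stab0 k L1 L2 T x y σ v (fun i => hv (Sum.inl i)) i
    · exact stab1 k L1 L2 x y Λ ψ σ v (fun i => hv (Sum.inr i)) i
  · intro c
    have h2 : ∀ i : R0 k T, ∑ j, E0 k L1 L2 T x y i j * algebraMap k L (c j) =
        i.2 (ev (fun j => (c j : L)) i.1.1.1 i.1.1.2 x y) := by
      intro i
      rw [← sum_E0]
      refine Finset.sum_congr rfl fun j _ => ?_
      congr 1
      exact (i.2.commutes (c j)).symm
    have h3 : ∀ i : R1 k Λ, ∑ j, E1 k L1 L2 x y Λ ψ i j * algebraMap k L (c j) =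
        i.2 (ev (fun j => (c j : L)) 0 0 ((ψ i.1).symm (x ^ (i.1 : ℕ)))
          ((ψ i.1).symm (y ^ (i.1 : ℕ)))) := by
      intro i
      rw [← sum_E1]
      refine Finset.sum_congr rfl fun j _ => ?_
      congr 1
      exact (i.2.commutes (c j)).symm
    constructor
    · rintro ⟨hc, hc'⟩ i
      rcases i with i | i
      · show ∑ j, E0 k L1 L2 T x y i j * algebraMap k L (c j) = 0
        rw [h2 i, hc _ _ i.1.2, map_zero]
      · show ∑ j, E1 k L1 L2 x y Λ ψ i j * algebraMap k L (c j) = 0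
        rw [h3 i, hc' _ i.1.2, map_zero]
    · intro hc
      refine ⟨?_, ?_⟩
      · intro a b hab
        have h4 : ∑ j, E0 k L1 L2 T x y (⟨(⟨a, by omega⟩, ⟨b, by omega⟩), hab⟩, 1) j *
            algebraMap k L (c j) = 0 :=
          hc (Sum.inl (⟨(⟨a, by omega⟩, ⟨b, by omega⟩), hab⟩, 1))
        rw [h2] at h4
        exact h4
      · intro p hp
        have h4 : ∑ j, E1 k L1 L2 x y Λ ψ (⟨p, hp⟩, 1) j * algebraMap k L (c j) = 0 :=
          hc (Sum.inr (⟨p, hp⟩, 1))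
        rw [h3] at h4
        exact h4

end dims

/-! ### Bounds -/

section bounds

variable {L : Type} [Field L] [NumberField L]

private theorem pow_le_max (a : ℝ) (ha : 0 ≤ a) {j n : ℕ} (h : j ≤ n) :
    a ^ j ≤ max 1 a ^ n :=
  (pow_le_pow_left₀ ha (le_max_right _ _) j).trans (pow_le_pow_right₀ (le_max_left _ _) h)

private theorem max_pow_eq (a : ℝ) (ha : 0 ≤ a) (p : ℕ) : max 1 a ^ p = max 1 (a ^ p) := by
  rcases le_total 1 a with h | h
  · rw [max_eq_right h, max_eq_right (one_le_pow₀ h)]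
  · rw [max_eq_left h, max_eq_left (pow_le_one₀ ha h), one_pow]

omit [NumberField L] in
private theorem sum_le_of_nonarch (w : AbsoluteValue L ℝ) (hw : IsNonarchimedean w) {J : Type}
    (s : Finset J) (f : J → L) (B : ℝ) (hB : 0 ≤ B) (hf : ∀ j ∈ s, w (f j) ≤ B) :
    w (∑ j ∈ s, f j) ≤ B := by
  classical
  induction s using Finset.induction_on with
  | empty => simpa using hB
  | insert a s ha ih =>
    rw [Finset.sum_insert ha]
    refine (hw _ _).trans (max_le (hf a (Finset.mem_insert_self a s)) (ih fun j hj => ?_))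
    exact hf j (Finset.mem_insert_of_mem hj)

private theorem E1_le (k : IntermediateField ℚ L) (L1 L2 : ℕ) (x y : L) (Λ : Finset ℕ)
    (ψ : ℕ → (L ≃ₐ[ℚ] L)) (v : AbsoluteValue L ℝ) (i : R1 k Λ) (j : Fin L1 × Fin L2) :
    v (E1 k L1 L2 x y Λ ψ i j) ≤
      max 1 (v (i.2 ((ψ i.1).symm (x ^ (i.1 : ℕ))))) ^ L1 *
        max 1 (v (i.2 ((ψ i.1).symm (y ^ (i.1 : ℕ))))) ^ L2 := by
  unfold E1
  rw [v.map_mul, v.map_pow, v.map_pow]
  refine mul_le_mul (pow_le_max _ (v.nonneg _) j.1.2.le) (pow_le_max _ (v.nonneg _) j.2.2.le)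
    (pow_nonneg (v.nonneg _) _) (by positivity)

private theorem E0_le (k : IntermediateField ℚ L) (L1 L2 T : ℕ) (x y : L)
    (v : AbsoluteValue L ℝ) (c : ℝ) (hc : 0 ≤ c)
    (h : ∀ (a b : ℕ) (j : Fin L1 × Fin L2), a + b < T →
      v ((j.1 : ℕ) : L) ^ a * v ((j.2 : ℕ) : L) ^ b ≤ c) (i : R0 k T) (j : Fin L1 × Fin L2) :
    v (E0 k L1 L2 T x y i j) ≤ c * (max 1 (v (i.2 x)) ^ L1 * max 1 (v (i.2 y)) ^ L2) := by
  unfold E0
  rw [v.map_mul, v.map_mul, v.map_mul, v.map_pow, v.map_pow, v.map_pow, v.map_pow, mul_assoc]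
  refine mul_le_mul (h _ _ j i.1.2) ?_ (by have := v.nonneg; positivity) hc
  refine mul_le_mul (pow_le_max _ (v.nonneg _) j.1.2.le) (pow_le_max _ (v.nonneg _) j.2.2.le)
    (pow_nonneg (v.nonneg _) _) (by positivity)

end bounds

/-! ### The p-adic gain -/

section gain

variable {L : Type} [Field L]

private def absComp (w : AbsoluteValue L ℝ) (f : L ≃+* L) : AbsoluteValue L ℝ where
  toFun z := w (f z)
  map_mul' a b := by rw [map_mul, w.map_mul]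
  nonneg' a := w.nonneg _
  eq_zero' a := by rw [w.eq_zero, map_eq_zero_iff f f.injective]
  add_le' a b := by rw [map_add]; exact w.add_le _ _

private theorem absComp_apply (w : AbsoluteValue L ℝ) (f : L ≃+* L) (z : L) :
    absComp w f z = w (f z) := rfl

variable [NumberField L]

private theorem symm_mem {ζ : L} {p : ℕ} (ψ : L ≃ₐ[ℚ] L) (hψ : ψ ζ = ζ ^ p) {z : L}
    (hz : z ∈ ℚ⟮ζ⟯) : ψ.symm z ∈ ℚ⟮ζ⟯ := by
  have h1 : (ℚ⟮ζ⟯).map (ψ : L →ₐ[ℚ] L) ≤ ℚ⟮ζ⟯ := by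
    rw [adjoin_map, Set.image_singleton, adjoin_simple_le_iff]
    show ψ ζ ∈ ℚ⟮ζ⟯
    rw [hψ]
    exact pow_mem (mem_adjoin_simple_self ℚ ζ) p
  have h2 : finrank ℚ ((ℚ⟮ζ⟯).map (ψ : L →ₐ[ℚ] L)) = finrank ℚ ℚ⟮ζ⟯ :=
    (IntermediateField.equivMap ℚ⟮ζ⟯ (ψ : L →ₐ[ℚ] L)).toLinearEquiv.finrank_eq.symm
  have h3 := IntermediateField.eq_of_le_of_finrank_eq h1 h2
  rw [← h3] at hz
  obtain ⟨y, hy, rfl⟩ := hz
  have h4 : ψ.symm ((ψ : L →ₐ[ℚ] L) y) = y := ψ.symm_apply_apply y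
  change ψ.symm ((ψ : L →ₐ[ℚ] L) y) ∈ _
  rw [h4]
  exact hy

private theorem gain {ζ : L} {N : ℕ} (hζ : IsPrimitiveRoot ζ N) (hN : 0 < N) (x y : L)
    (hx : x ≠ 0) (hy : y ≠ 0) (L1 L2 T : ℕ) (Λ : Finset ℕ) (ψ : ℕ → (L ≃ₐ[ℚ] L))
    (hΛ : ∀ p ∈ Λ, p.Prime ∧ ¬ p ∣ N ∧ ψ p ζ = ζ ^ p) (w : AbsoluteValue L ℝ)
    (hw : IsNonarchimedean w) (v : Fin L1 × Fin L2 → L)
    (hv : ∀ j, v j ∈ (algebraMap ℚ⟮ζ⟯ L).range) (hv1 : ∀ j, w (v j) ≤ 1)
    (h0 : ∀ i, ∑ j, E0 ℚ⟮ζ⟯ L1 L2 T x y i j * v j = 0) (i : R1 ℚ⟮ζ⟯ Λ) :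
    w (∑ j, E1 ℚ⟮ζ⟯ L1 L2 x y Λ ψ i j * v j) ≤ w (((i.1 : ℕ) : ℕ) : L) ^ T *
      (max 1 (w (i.2 ((ψ i.1).symm (x ^ (i.1 : ℕ))))) ^ L1 *
        max 1 (w (i.2 ((ψ i.1).symm (y ^ (i.1 : ℕ))))) ^ L2) := by
  have hfix : ∀ (σ : L ≃ₐ[ℚ⟮ζ⟯] L) (z : L), z ∈ ℚ⟮ζ⟯ → σ z = z := fun σ z hz =>
    σ.commutes (⟨z, hz⟩ : ℚ⟮ζ⟯)
  have hvk : ∀ j, v j ∈ ℚ⟮ζ⟯ := by
    intro j
    obtain ⟨a, ha⟩ := hv j
    rw [← ha]
    exact a.2
  obtain ⟨hp, hpN, hψ⟩ := hΛ _ i.1.2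
  set p : ℕ := (i.1 : ℕ) with hpdef
  have hwp1 : w (p : L) ≤ 1 := hw.apply_natCast_le_one
  rcases hwp1.lt_or_eq with hwp | hwp
  · set f : L ≃+* L := ((ψ p).symm : L ≃+* L).trans (i.2 : L ≃+* L) with hf
    have hfz : ∀ z, f z = i.2 ((ψ p).symm z) := fun z => rfl
    have hw' : IsNonarchimedean (absComp w f) := by
      intro a b
      rw [absComp_apply, absComp_apply, absComp_apply, map_add]
      exact hw _ _
    have h1 : (absComp w f) (p : L) = w (p : L) := by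
      rw [absComp_apply, map_natCast]
    have h2 : ∀ j, (absComp w f) (v j) ≤ 1 := by
      intro j
      rw [absComp_apply, hfz, hfix i.2 _ (symm_mem (ψ p) hψ (hvk j))]
      exact (frob_val hζ hN hp hpN (ψ p) hψ w hw hwp (v j) (hvk j) (hv1 j)).2
    have h3 : ∀ a b, a + b < T → ev v a b x y = 0 := by
      intro a b hab
      have h4 := h0 (⟨(⟨a, by omega⟩, ⟨b, by omega⟩), hab⟩, 1)
      have h5 := sum_E0 ℚ⟮ζ⟯ L1 L2 T x y (⟨(⟨a, by omega⟩, ⟨b, by omega⟩), hab⟩, 1) v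
      have h6 : ∀ z : L, (1 : L ≃ₐ[ℚ⟮ζ⟯] L) z = z := fun z => rfl
      simp only [h6] at h5
      rw [← h5]
      exact h4
    have h4 := t_lemma hζ hN hp hpN (ψ p) hψ (absComp w f) hw' (h1 ▸ hwp) T v hvk h2 x y hx hy h3
    have h5 : ∑ j, E1 ℚ⟮ζ⟯ L1 L2 x y Λ ψ i j * v j =
        f (ev (fun j => ψ p (v j)) 0 0 (x ^ p) (y ^ p)) := by
      rw [hfz, ← sum_E1']
      refine Finset.sum_congr rfl fun j _ => ?_
      rw [hfix i.2 _ (hvk j)]
    rw [h5]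
    refine h4.trans (le_of_eq ?_)
    have h6 : ∀ (z : L) (n : ℕ), max 1 (absComp w f z) ^ (p * n) =
        max 1 (w (i.2 ((ψ p).symm (z ^ p)))) ^ n := by
      intro z n
      rw [pow_mul, max_pow_eq _ ((absComp w f).nonneg _), ← (absComp w f).map_pow]
      rfl
    rw [h6, h6, h1]
  · rw [hwp, one_pow, one_mul]
    refine sum_le_of_nonarch w hw _ _ _ (by positivity) fun j _ => ?_
    rw [w.map_mul]
    have h1 := E1_le ℚ⟮ζ⟯ L1 L2 x y Λ ψ w i j
    calc w (E1 ℚ⟮ζ⟯ L1 L2 x y Λ ψ i j) * w (v j)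
        ≤ w (E1 ℚ⟮ζ⟯ L1 L2 x y Λ ψ i j) * 1 :=
          mul_le_mul_of_nonneg_left (hv1 j) (w.nonneg _)
      _ = w (E1 ℚ⟮ζ⟯ L1 L2 x y Λ ψ i j) := mul_one _
      _ ≤ _ := h1

end gain

/-! ### Sums and products over the rows -/

section sums

variable {L : Type} [Field L] [NumberField L]

private def pv (k : IntermediateField ℚ L) (T : ℕ) (x y : L) (Λ : Finset ℕ)
    (ψ : ℕ → (L ≃ₐ[ℚ] L)) : (R0 k T ⊕ R1 k Λ) × Bool → L
  | (Sum.inl i, false) => i.2 x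
  | (Sum.inl i, true) => i.2 y
  | (Sum.inr i, false) => i.2 ((ψ i.1).symm (x ^ (i.1 : ℕ)))
  | (Sum.inr i, true) => i.2 ((ψ i.1).symm (y ^ (i.1 : ℕ)))

private def ex {S : Type} (L1 L2 : ℕ) (q : S × Bool) : ℕ := if q.2 then L2 else L1

private theorem prod_rows (k : IntermediateField ℚ L) (T : ℕ) (x y : L) (Λ : Finset ℕ)
    (ψ : ℕ → (L ≃ₐ[ℚ] L)) (L1 L2 : ℕ) (s0 : Finset (R0 k T)) (s1 : Finset (R1 k Λ))
    (F : L → ℝ) :
    ∏ q ∈ (s0.disjSum s1) ×ˢ (Finset.univ : Finset Bool),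
        max 1 (F (pv k T x y Λ ψ q)) ^ ex L1 L2 q =
      (∏ i ∈ s0, (max 1 (F (i.2 x)) ^ L1 * max 1 (F (i.2 y)) ^ L2)) *
        ∏ i ∈ s1, (max 1 (F (i.2 ((ψ i.1).symm (x ^ (i.1 : ℕ))))) ^ L1 *
          max 1 (F (i.2 ((ψ i.1).symm (y ^ (i.1 : ℕ))))) ^ L2) := by
  rw [Finset.prod_product, Finset.prod_disjSum]
  congr 1
  · refine Finset.prod_congr rfl fun i _ => ?_
    rw [Fintype.prod_bool, mul_comm]
    rfl
  · refine Finset.prod_congr rfl fun i _ => ?_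
    rw [Fintype.prod_bool, mul_comm]
    rfl

private theorem sum_rows (k : IntermediateField ℚ L) (T : ℕ) (x y : L) (Λ : Finset ℕ)
    (ψ : ℕ → (L ≃ₐ[ℚ] L)) (L1 L2 : ℕ) (s0 : Finset (R0 k T)) (s1 : Finset (R1 k Λ))
    (F : L → ℝ) :
    ∑ q ∈ (s0.disjSum s1) ×ˢ (Finset.univ : Finset Bool),
        (ex L1 L2 q : ℝ) * F (pv k T x y Λ ψ q) =
      (∑ i ∈ s0, ((L1 : ℝ) * F (i.2 x) + L2 * F (i.2 y))) +
        ∑ i ∈ s1, ((L1 : ℝ) * F (i.2 ((ψ i.1).symm (x ^ (i.1 : ℕ)))) +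
          L2 * F (i.2 ((ψ i.1).symm (y ^ (i.1 : ℕ))))) := by
  rw [Finset.sum_product, Finset.sum_disjSum]
  congr 1
  · refine Finset.sum_congr rfl fun i _ => ?_
    rw [Fintype.sum_bool, add_comm]
    rfl
  · refine Finset.sum_congr rfl fun i _ => ?_
    rw [Fintype.sum_bool, add_comm]
    rfl

private theorem lh_eq (x : L) : logHeight₁ x = finrank ℚ L * nh x := by
  unfold nh
  have h : (0 : ℝ) < finrank ℚ L := by exact_mod_cast finrank_pos
  field_simp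

private theorem lh_alg (k : IntermediateField ℚ L) (σ : L ≃ₐ[k] L) (x : L) :
    logHeight₁ (σ x) = finrank ℚ L * nh x := by
  rw [lh_eq]
  congr 1
  exact nh_algEquiv (σ.restrictScalars ℚ) x

private theorem lh_row (k : IntermediateField ℚ L) (σ : L ≃ₐ[k] L) (ψ : L ≃ₐ[ℚ] L) (x : L)
    (p : ℕ) : logHeight₁ (σ (ψ.symm (x ^ p))) = finrank ℚ L * (p * nh x) := by
  rw [lh_alg, nh_algEquiv ψ.symm]
  congr 1
  unfold nh
  rw [logHeight₁_pow]
  ring

end sums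

private theorem fin_ineq (κ l T R0 R1 lA lM : ℝ) (hκ : 1 ≤ κ) (hl : 1 ≤ l) (hT : 2 * κ + 2 ≤ T)
    (hR0 : 0 ≤ R0) (hR1 : 0 ≤ R1) (hM : lM ≤ κ * l) (hA : lA ≤ (R0 + R1) * lM + T * R0 * lM)
    (h : T * R1 * l ≤ lA + (R0 + R1)) : R0 + R1 ≤ (2 * κ + 2) * R0 := by
  have h1 : T * R1 * l ≤ (R0 + R1) * (κ * l) + T * R0 * (κ * l) + (R0 + R1) * l := by
    have e1 : (R0 + R1) * lM ≤ (R0 + R1) * (κ * l) := mul_le_mul_of_nonneg_left hM (by linarith)
    have e2 : T * R0 * lM ≤ T * R0 * (κ * l) :=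
      mul_le_mul_of_nonneg_left hM (mul_nonneg (by linarith) hR0)
    have e3 : (R0 + R1) * 1 ≤ (R0 + R1) * l := mul_le_mul_of_nonneg_left hl (by linarith)
    linarith
  have h2 : T * R1 ≤ (R0 + R1) * κ + T * R0 * κ + (R0 + R1) := by
    have hl0 : 0 < l := by linarith
    have h3 : T * R1 * l ≤ ((R0 + R1) * κ + T * R0 * κ + (R0 + R1)) * l := by
      linarith
    exact le_of_mul_le_mul_right h3 hl0
  -- `(T - κ - 1) (R0 + R1) ≤ T (κ + 1) R0`
  have h3 : (T - κ - 1) * (R0 + R1) ≤ T * (κ + 1) * R0 := by nlinarith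
  have h4 : T / 2 * (R0 + R1) ≤ (T - κ - 1) * (R0 + R1) :=
    mul_le_mul_of_nonneg_right (by linarith) (by linarith)
  have hT0 : 0 < T := by linarith
  have h5 : T * (R0 + R1) ≤ T * ((2 * κ + 2) * R0) := by nlinarith
  exact le_of_mul_le_mul_left h5 hT0

/-- DL. The determinant lemma. -/
theorem det_lemma {L : Type} [Field L] [NumberField L] [IsGalois ℚ L] {ζ : L} {N : ℕ}
    (hζ : IsPrimitiveRoot ζ N) (hN : 0 < N) (x y : L) (hx : x ≠ 0) (hy : y ≠ 0)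
    (L1 L2 T : ℕ) (hL1 : 0 < L1) (hL2 : 0 < L2) (κ P : ℝ) (hκ : 1 ≤ κ) (hP : 1 ≤ Real.log P)
    (hT : 2 * κ + 2 ≤ T) (hM : Real.log (L1 * L2) ≤ κ * Real.log P) (Λ : Finset ℕ)
    (ψ : ℕ → (L ≃ₐ[ℚ] L))
    (hΛ : ∀ p ∈ Λ, p.Prime ∧ ¬ p ∣ N ∧ P ≤ p ∧ ψ p ζ = ζ ^ p ∧
      p * (L1 * nh x + L2 * nh y) ≤ 1)
    (hP0 : 0 < P) :
    (L1 * L2 : ℝ) - finrank ℚ⟮ζ⟯ (VP ℚ⟮ζ⟯ L1 L2 T x y Λ ψ) ≤
      (2 * κ + 2) * (L1 * L2 - finrank ℚ⟮ζ⟯ (VT ℚ⟮ζ⟯ L1 L2 T x y)) := by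
  classical
  obtain ⟨s0, s1, Δ, hΔ, hs0, hs01, harch, hnon⟩ :=
    exists_det (k := ℚ⟮ζ⟯) (E0 ℚ⟮ζ⟯ L1 L2 T x y) (E1 ℚ⟮ζ⟯ L1 L2 x y Λ ψ)
      (stab0 ℚ⟮ζ⟯ L1 L2 T x y)
  have hVT := finrank_VT ℚ⟮ζ⟯ L1 L2 T x y
  have hVP := finrank_VP ℚ⟮ζ⟯ L1 L2 T x y Λ ψ
  rw [← hs0] at hVT
  rw [← hs01] at hVP
  have hVT' : (finrank ℚ⟮ζ⟯ (VT ℚ⟮ζ⟯ L1 L2 T x y) : ℝ) + s0.card = L1 * L2 := by
    exact_mod_cast hVT
  have hVP' : (finrank ℚ⟮ζ⟯ (VP ℚ⟮ζ⟯ L1 L2 T x y Λ ψ) : ℝ) + (s0.card + s1.card) = L1 * L2 := by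
    exact_mod_cast hVP
  have hgoal : (s0.card : ℝ) + s1.card ≤ (2 * κ + 2) * s0.card := by
    rcases s1.eq_empty_or_nonempty with h1 | ⟨i1, hi1⟩
    · rw [h1, Finset.card_empty, Nat.cast_zero, add_zero]
      have h2 : (0 : ℝ) ≤ s0.card := Nat.cast_nonneg _
      nlinarith
    -- constants
    have hn : (0 : ℝ) < finrank ℚ L := by exact_mod_cast finrank_pos
    have hM1 : (1 : ℝ) ≤ L1 * L2 := by exact_mod_cast Nat.mul_pos hL1 hL2
    have hlM : 0 ≤ Real.log (L1 * L2) := Real.log_nonneg hM1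
    have hH : (L1 : ℝ) * nh x + L2 * nh y ≤ 1 := by
      obtain ⟨hp, -, -, -, h5⟩ := hΛ _ i1.1.2
      rcases le_total ((L1 : ℝ) * nh x + L2 * nh y) 0 with h6 | h6
      · linarith
      · have h7 : (1 : ℝ) ≤ ((i1.1 : ℕ) : ℝ) := by exact_mod_cast hp.one_lt.le
        nlinarith
    set A : ℝ := ((s0.card + s1.card).factorial : ℝ) * (((L1 : ℝ) * L2) ^ T) ^ s0.card with hAdef
    have hA1 : 1 ≤ A := by
      have h1 : (1 : ℝ) ≤ ((s0.card + s1.card).factorial : ℝ) := by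
        exact_mod_cast Nat.one_le_iff_ne_zero.2 (Nat.factorial_ne_zero _)
      exact one_le_mul_of_one_le_of_one_le h1 (one_le_pow₀ (one_le_pow₀ hM1))
    have hcount : s0.card + s1.card ≤ L1 * L2 := by omega
    have hlA : Real.log A ≤ ((s0.card : ℝ) + s1.card) * Real.log (L1 * L2) +
        T * s0.card * Real.log (L1 * L2) := by
      have h1 : ((s0.card + s1.card).factorial : ℝ) ≤ ((L1 : ℝ) * L2) ^ (s0.card + s1.card) := by
        have h2 : (s0.card + s1.card).factorial ≤ (L1 * L2) ^ (s0.card + s1.card) :=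
          (Nat.factorial_le_pow _).trans (Nat.pow_le_pow_left hcount _)
        exact_mod_cast h2
      have h2 : (0 : ℝ) < ((s0.card + s1.card).factorial : ℝ) := by
        exact_mod_cast Nat.factorial_pos _
      have h3 : (((L1 : ℝ) * L2) ^ T) ^ s0.card ≠ 0 := by positivity
      rw [hAdef, Real.log_mul h2.ne' h3, Real.log_pow, Real.log_pow]
      have h4 := Real.log_le_log h2 h1
      rw [Real.log_pow] at h4
      push_cast at h4
      have h5 : (s0.card : ℝ) * (T * Real.log (L1 * L2)) = T * s0.card * Real.log (L1 * L2) := by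
        ring
      linarith
    -- the product formula
    have hgain := product_gain Δ hΔ A hA1 ((s0.disjSum s1) ×ˢ (Finset.univ : Finset Bool))
      (pv ℚ⟮ζ⟯ T x y Λ ψ) (ex L1 L2) Λ (fun p hp => (hΛ p hp).1)
      (fun p => T * (s1.filter fun i => (i.1 : ℕ) = p).card) ?_ ?_
    · rw [sum_rows] at hgain
      have h1 : ∑ p ∈ Λ, ((T * (s1.filter fun i => (i.1 : ℕ) = p).card : ℕ) : ℝ) * Real.log p =
          ∑ i ∈ s1, (T : ℝ) * Real.log ((i.1 : ℕ) : ℝ) := by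
        rw [← Finset.sum_fiberwise_of_maps_to (t := Λ) (g := fun i : R1 ℚ⟮ζ⟯ Λ => (i.1 : ℕ))
          (fun i _ => i.1.2)]
        refine Finset.sum_congr rfl fun p _ => ?_
        rw [Finset.sum_congr rfl (g := fun _ => (T : ℝ) * Real.log p) (by
          intro i hi
          rw [(Finset.mem_filter.1 hi).2]), Finset.sum_const, nsmul_eq_mul]
        push_cast
        ring
      have h2 : (T : ℝ) * s1.card * Real.log P ≤ ∑ i ∈ s1, (T : ℝ) * Real.log ((i.1 : ℕ) : ℝ) := by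
        have h3 : ∀ i ∈ s1, (T : ℝ) * Real.log P ≤ (T : ℝ) * Real.log ((i.1 : ℕ) : ℝ) := by
          intro i _
          obtain ⟨hp, -, h4, -, -⟩ := hΛ _ i.1.2
          refine mul_le_mul_of_nonneg_left ?_ (Nat.cast_nonneg _)
          exact Real.log_le_log hP0 h4
        have h4 := Finset.sum_le_sum h3
        rw [Finset.sum_const, nsmul_eq_mul] at h4
        linarith
      have h3 : (∑ i ∈ s0, ((L1 : ℝ) * logHeight₁ (i.2 x) + L2 * logHeight₁ (i.2 y))) ≤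
          finrank ℚ L * s0.card := by
        have h4 : ∀ i ∈ s0, ((L1 : ℝ) * logHeight₁ (i.2 x) + L2 * logHeight₁ (i.2 y)) ≤
            finrank ℚ L := by
          intro i _
          rw [lh_alg, lh_alg]
          nlinarith
        have h5 := Finset.sum_le_sum h4
        rw [Finset.sum_const, nsmul_eq_mul] at h5
        linarith
      have h4 : (∑ i ∈ s1, ((L1 : ℝ) * logHeight₁ (i.2 ((ψ i.1).symm (x ^ (i.1 : ℕ)))) +
          L2 * logHeight₁ (i.2 ((ψ i.1).symm (y ^ (i.1 : ℕ)))))) ≤ finrank ℚ L * s1.card := by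
        have h5 : ∀ i ∈ s1, ((L1 : ℝ) * logHeight₁ (i.2 ((ψ i.1).symm (x ^ (i.1 : ℕ)))) +
            L2 * logHeight₁ (i.2 ((ψ i.1).symm (y ^ (i.1 : ℕ))))) ≤ finrank ℚ L := by
          intro i _
          obtain ⟨-, -, -, -, h6⟩ := hΛ _ i.1.2
          rw [lh_row, lh_row]
          nlinarith
        have h6 := Finset.sum_le_sum h5
        rw [Finset.sum_const, nsmul_eq_mul] at h6
        linarith
      have h5 : (T : ℝ) * s1.card * Real.log P ≤ Real.log A + ((s0.card : ℝ) + s1.card) := by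
        have h6 : (finrank ℚ L : ℝ) * (T * s1.card * Real.log P) ≤
            finrank ℚ L * (Real.log A + ((s0.card : ℝ) + s1.card)) := by
          have h7 := mul_le_mul_of_nonneg_left h2 hn.le
          rw [← h1] at h7
          linarith
        exact le_of_mul_le_mul_left h6 hn
      exact fin_ineq κ (Real.log P) T s0.card s1.card (Real.log A) (Real.log (L1 * L2)) hκ hP hT
        (Nat.cast_nonneg _) (Nat.cast_nonneg _) hM hlA h5
    · intro v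
      rw [prod_rows ℚ⟮ζ⟯ T x y Λ ψ L1 L2 s0 s1 v]
      have hnat : ∀ n : ℕ, v.1 (n : L) = n := by
        intro n
        rw [← InfinitePlace.coe_apply, ← InfinitePlace.norm_embedding_eq, map_natCast,
          Complex.norm_natCast]
      have h1 := harch v.1
        (fun i => ((L1 : ℝ) * L2) ^ T * (max 1 (v.1 (i.2 x)) ^ L1 * max 1 (v.1 (i.2 y)) ^ L2))
        (fun i => max 1 (v.1 (i.2 ((ψ i.1).symm (x ^ (i.1 : ℕ))))) ^ L1 *
          max 1 (v.1 (i.2 ((ψ i.1).symm (y ^ (i.1 : ℕ))))) ^ L2)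
        (fun i j => E0_le ℚ⟮ζ⟯ L1 L2 T x y v.1 _ (by positivity) (by
          intro a b j hab
          rw [hnat, hnat]
          have e1 : ((j.1 : ℕ) : ℝ) ≤ L1 * L2 := by
            have : (j.1 : ℕ) ≤ L1 * L2 := by nlinarith [j.1.2]
            exact_mod_cast this
          have e2 : ((j.2 : ℕ) : ℝ) ≤ L1 * L2 := by
            have : (j.2 : ℕ) ≤ L1 * L2 := by nlinarith [j.2.2]
            exact_mod_cast this
          calc ((j.1 : ℕ) : ℝ) ^ a * ((j.2 : ℕ) : ℝ) ^ b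
              ≤ ((L1 : ℝ) * L2) ^ a * ((L1 : ℝ) * L2) ^ b :=
                mul_le_mul (pow_le_pow_left₀ (Nat.cast_nonneg _) e1 _)
                  (pow_le_pow_left₀ (Nat.cast_nonneg _) e2 _) (by positivity) (by positivity)
            _ = ((L1 : ℝ) * L2) ^ (a + b) := (pow_add _ _ _).symm
            _ ≤ _ := pow_le_pow_right₀ hM1 hab.le) i j)
        (fun i j => E1_le ℚ⟮ζ⟯ L1 L2 x y Λ ψ v.1 i j)
      have h3 := Finset.prod_mul_distrib (s := s0) (f := fun _ : R0 ℚ⟮ζ⟯ T => ((L1 : ℝ) * L2) ^ T)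
        (g := fun i => (max 1 (v.1 (i.2 x)) ^ L1 * max 1 (v.1 (i.2 y)) ^ L2))
      rw [Finset.prod_const] at h3
      rw [h3] at h1
      refine h1.trans (le_of_eq ?_)
      rw [hAdef]
      simp only [InfinitePlace.coe_apply]
      ring
    · intro w
      have hw : IsNonarchimedean w.1 := by
        intro a b
        have h1 := NumberField.HeightOneSpectrum.isNonarchimedean_adicAbv L w.maximalIdeal a b
        rw [← FinitePlace.norm_embedding, ← FinitePlace.norm_embedding,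
          ← FinitePlace.norm_embedding, FinitePlace.norm_embedding_eq,
          FinitePlace.norm_embedding_eq, FinitePlace.norm_embedding_eq] at h1
        exact h1
      rw [prod_rows ℚ⟮ζ⟯ T x y Λ ψ L1 L2 s0 s1 w]
      have h1 := hnon w.1 hw
        (fun i => (max 1 (w.1 (i.2 x)) ^ L1 * max 1 (w.1 (i.2 y)) ^ L2))
        (fun i => max 1 (w.1 (i.2 ((ψ i.1).symm (x ^ (i.1 : ℕ))))) ^ L1 *
          max 1 (w.1 (i.2 ((ψ i.1).symm (y ^ (i.1 : ℕ))))) ^ L2)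
        (fun i => w.1 (((i.1 : ℕ) : ℕ) : L) ^ T)
        (fun i j => by
          have h2 := E0_le ℚ⟮ζ⟯ L1 L2 T x y w.1 1 zero_le_one (by
            intro a b j hab
            exact mul_le_one₀ (pow_le_one₀ (w.1.nonneg _) hw.apply_natCast_le_one)
              (by have := w.1.nonneg; positivity)
              (pow_le_one₀ (w.1.nonneg _) hw.apply_natCast_le_one)) i j
          rwa [one_mul] at h2)
        (fun i j => E1_le ℚ⟮ζ⟯ L1 L2 x y Λ ψ w.1 i j)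
        (fun i => ⟨pow_nonneg (w.1.nonneg _) _,
          pow_le_one₀ (w.1.nonneg _) hw.apply_natCast_le_one⟩)
        (fun v hv hv1 h0 i => gain hζ hN x y hx hy L1 L2 T Λ ψ
          (fun p hp => ⟨(hΛ p hp).1, (hΛ p hp).2.1, (hΛ p hp).2.2.2.1⟩) w.1 hw v hv hv1 h0 i)
      have h2 : ∏ p ∈ Λ, w (p : L) ^ (T * (s1.filter fun i => (i.1 : ℕ) = p).card) =
          ∏ i ∈ s1, w.1 (((i.1 : ℕ) : ℕ) : L) ^ T := by
        rw [← Finset.prod_fiberwise_of_maps_to (t := Λ) (g := fun i : R1 ℚ⟮ζ⟯ Λ => (i.1 : ℕ))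
          (fun i _ => i.1.2)]
        refine Finset.prod_congr rfl fun p _ => ?_
        rw [Finset.prod_congr rfl (g := fun _ => w.1 (p : L) ^ T) (by
          intro i hi
          rw [(Finset.mem_filter.1 hi).2]), Finset.prod_const, pow_mul]
        rfl
      rw [h2]
      have h3 := Finset.prod_mul_distrib (s := s1)
        (f := fun i : R1 ℚ⟮ζ⟯ Λ => w.1 (((i.1 : ℕ) : ℕ) : L) ^ T)
        (g := fun i => max 1 (w.1 (i.2 ((ψ i.1).symm (x ^ (i.1 : ℕ))))) ^ L1 *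
          max 1 (w.1 (i.2 ((ψ i.1).symm (y ^ (i.1 : ℕ))))) ^ L2)
      rw [h3] at h1
      refine h1.trans (le_of_eq ?_)
      simp only [FinitePlace.coe_apply]
      ring
  have h1 : (L1 * L2 : ℝ) - finrank ℚ⟮ζ⟯ (VP ℚ⟮ζ⟯ L1 L2 T x y Λ ψ) = s0.card + s1.card := by
    linarith
  have h2 : (L1 * L2 : ℝ) - finrank ℚ⟮ζ⟯ (VT ℚ⟮ζ⟯ L1 L2 T x y) = s0.card := by
    linarith
  rw [h1, h2]
  exact hgoal

end Pool.Agent.Leh2
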