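import Mathlib

set_option autoImplicit false

/-! Leh2: lower bounds of Lehmer type in dimension one and two, relative to cyclotomic fields.

`L` is a number field, Galois over `ℚ`, `ζ ∈ L` a primitive `N`-th root of unity, `k = ℚ⟮ζ⟯`.
A polynomial in two variables of degree `< L1` in `X`, `< L2` in `Y` is a function
`c : Fin L1 × Fin L2 → L`. -/

namespace Pool.Agent.Leh2

open NumberField Height

/-- `∑ c_ij i^a j^b x^i y^j`. -/
noncomputable def ev {L : Type} [Field L] {L1 L2 : ℕ} (c : Fin L1 × Fin L2 → L) (a b : ℕ)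
    (x y : L) : L :=
  ∑ i, c i * ((i.1 : ℕ) : L) ^ a * ((i.2 : ℕ) : L) ^ b * x ^ (i.1 : ℕ) * y ^ (i.2 : ℕ)

/-- The absolute logarithmic height. -/
noncomputable def nh {L : Type} [Field L] [NumberField L] (x : L) : ℝ :=
  logHeight₁ x / Module.finrank ℚ L

/-- Polynomials over `k` which vanish to order `T` at `(x,y)`. -/
noncomputable def VT {L : Type} [Field L] [NumberField L] (k : IntermediateField ℚ L)
    (L1 L2 T : ℕ) (x y : L) : Submodule k (Fin L1 × Fin L2 → k) where
  carrier := {c | ∀ a b, a + b < T → ev (fun i => (c i : L)) a b x y = 0}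
  zero_mem' := by
    intro a b _
    simp [ev]
  add_mem' := by
    intro c d hc hd a b h
    have h1 := hc a b h
    have h2 := hd a b h
    simp only [ev] at h1 h2 ⊢
    rw [← add_zero (0 : L)]
    nth_rewrite 1 [← h1]
    rw [← h2, ← Finset.sum_add_distrib]
    refine Finset.sum_congr rfl fun i _ => ?_
    simp only [Pi.add_apply, IntermediateField.coe_add]
    ring
  smul_mem' := by
    intro r c hc a b h
    have h1 := hc a b h
    simp only [ev] at h1 ⊢
    rw [← mul_zero (r : L), ← h1, Finset.mul_sum]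
    refine Finset.sum_congr rfl fun i _ => ?_
    simp only [Pi.smul_apply, smul_eq_mul, IntermediateField.coe_mul]
    ring

/-- Those elements of `VT` which vanish also at the points `(ψ p)⁻¹ (x ^ p, y ^ p)`, `p ∈ Λ`. -/
noncomputable def VP {L : Type} [Field L] [NumberField L] (k : IntermediateField ℚ L)
    (L1 L2 T : ℕ) (x y : L) (Λ : Finset ℕ) (ψ : ℕ → (L ≃ₐ[ℚ] L)) :
    Submodule k (Fin L1 × Fin L2 → k) where
  carrier := {c | c ∈ VT k L1 L2 T x y ∧
    ∀ p ∈ Λ, ev (fun i => (c i : L)) 0 0 ((ψ p).symm (x ^ p)) ((ψ p).symm (y ^ p)) = 0}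
  zero_mem' := by
    refine ⟨zero_mem _, fun p _ => ?_⟩
    simp [ev]
  add_mem' := by
    intro c d hc hd
    refine ⟨add_mem hc.1 hd.1, fun p hp => ?_⟩
    have h1 := hc.2 p hp
    have h2 := hd.2 p hp
    simp only [ev] at h1 h2 ⊢
    rw [← add_zero (0 : L)]
    nth_rewrite 1 [← h1]
    rw [← h2, ← Finset.sum_add_distrib]
    refine Finset.sum_congr rfl fun i _ => ?_
    simp only [Pi.add_apply, IntermediateField.coe_add]
    ring
  smul_mem' := by
    intro r c hc
    refine ⟨Submodule.smul_mem _ _ hc.1, fun p hp => ?_⟩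
    have h1 := hc.2 p hp
    simp only [ev] at h1 ⊢
    rw [← mul_zero (r : L), ← h1, Finset.mul_sum]
    refine Finset.sum_congr rfl fun i _ => ?_
    simp only [Pi.smul_apply, smul_eq_mul, IntermediateField.coe_mul]
    ring

/-- The number of conjugates of the point `z` over `k`. -/
noncomputable def od {L : Type} [Field L] [NumberField L] (k : IntermediateField ℚ L)
    (z : L × L) : ℕ :=
  Nat.card (MulAction.orbit (L ≃ₐ[k] L) z)

/-- The polynomial with coefficients `c`. -/
noncomputable def toPoly {K : Type} [Field K] {L1 L2 : ℕ} (c : Fin L1 × Fin L2 → K) :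
    MvPolynomial (Fin 2) K :=
  ∑ i, MvPolynomial.C (c i) * MvPolynomial.X 0 ^ (i.1 : ℕ) * MvPolynomial.X 1 ^ (i.2 : ℕ)

/-- `G (X^q, Y^q)`. -/
noncomputable def powSub {K : Type} [Field K] (q : ℕ) (G : MvPolynomial (Fin 2) K) :
    MvPolynomial (Fin 2) K :=
  MvPolynomial.aeval (fun i => (MvPolynomial.X i : MvPolynomial (Fin 2) K) ^ q) G

/-- Multiplicative independence of two elements of a field. -/
def MI2 {K : Type} [Field K] (x y : K) : Prop :=
  x ≠ 0 ∧ y ≠ 0 ∧ ∀ a b : ℤ, x ^ a * y ^ b = 1 → a = 0 ∧ b = 0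

/-- The support of `f` lies on a line. -/
def Collinear2 {K : Type} [Field K] (f : MvPolynomial (Fin 2) K) : Prop :=
  ∃ u v : ℤ, (u ≠ 0 ∨ v ≠ 0) ∧ ∀ m ∈ f.support, ∀ m' ∈ f.support,
    u * (m 0 : ℤ) + v * (m 1 : ℤ) = u * (m' 0 : ℤ) + v * (m' 1 : ℤ)

end Pool.Agent.Leh2
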