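import Pool.Agent.Leh2.Defs

set_option autoImplicit false
set_option linter.unusedVariables false

namespace Pool.Agent.Leh2

open NumberField IntermediateField Module

private theorem chain {G : Type} [Group G] (H : ℕ → Subgroup G) (h1 : (H 1).index ≠ 0)
    (hmul : ∀ m n, H m ≤ H (m * n)) (hcop : ∀ m n, Nat.Coprime m n → H m ⊓ H n ≤ H 1)
    (S : Finset ℕ) (hS : ∀ p ∈ S, p.Prime) (hd : ∀ p ∈ S, ¬ H p ≤ H 1) :
    2 ^ S.card ≤ (H 1).index := by
  have hle : ∀ m, H 1 ≤ H m := fun m => by simpa using hmul 1 m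
  have hne : ∀ m n, H m ≤ H n → (H m).relIndex (H n) ≠ 0 := by
    intro m n hmn h0
    apply h1
    rw [← Subgroup.relIndex_mul_index (hle n), ← Subgroup.relIndex_mul_relIndex _ _ _ (hle m) hmn,
      h0, mul_zero, zero_mul]
  have key : ∀ T ⊆ S, 2 ^ T.card ≤ (H 1).relIndex (H (∏ p ∈ T, p)) := by
    intro T
    induction T using Finset.induction_on with
    | empty =>
      intro _
      simp
    | insert p T hp ih =>
      intro hT
      have hpS := hT (Finset.mem_insert_self p T)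
      have hTS : T ⊆ S := (Finset.subset_insert p T).trans hT
      rw [Finset.prod_insert hp, Finset.card_insert_of_notMem hp]
      have hle' : H (∏ q ∈ T, q) ≤ H (p * ∏ q ∈ T, q) := by
        rw [mul_comm]
        exact hmul _ _
      have hcp : Nat.Coprime p (∏ q ∈ T, q) := by
        refine Nat.Coprime.prod_right fun q hq => ?_
        refine (Nat.coprime_primes (hS p hpS) (hS q (hTS hq))).2 ?_
        rintro rfl
        exact hp hq
      have h2 : (H (∏ q ∈ T, q)).relIndex (H (p * ∏ q ∈ T, q)) ≠ 1 := by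
        rw [Ne, Subgroup.relIndex_eq_one]
        intro h3
        refine hd p hpS (fun g hg => hcop _ _ hcp ⟨hg, h3 ?_⟩)
        exact hmul p _ hg
      have h3 := hne _ _ hle'
      rw [← Subgroup.relIndex_mul_relIndex _ _ _ (hle _) hle', pow_succ]
      exact Nat.mul_le_mul (ih hTS) (by omega)
  refine (key S subset_rfl).trans ?_
  rw [← Subgroup.relIndex_mul_index (hle (∏ p ∈ S, p))]
  refine Nat.le_mul_of_pos_right _ (Nat.pos_of_ne_zero fun h0 => h1 ?_)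
  rw [← Subgroup.relIndex_mul_index (hle (∏ p ∈ S, p)), h0, mul_zero]

/-- DR1. -/
theorem drop_gen {G A : Type} [Group G] [CommGroup A] [MulDistribMulAction G A] (x : A)
    (hfin : (MulAction.orbit G x).Finite) (S : Finset ℕ) (hS : ∀ p ∈ S, p.Prime)
    (hd : ∀ p ∈ S, ∃ g : G, g • x ^ p = x ^ p ∧ g • x ≠ x) :
    2 ^ S.card ≤ Nat.card (MulAction.orbit G x) := by
  have h := chain (fun n => MulAction.stabilizer G (x ^ n)) ?_ ?_ ?_ S hS ?_
  · simp only [pow_one] at h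
    rwa [MulAction.index_stabilizer, ← Nat.card_coe_set_eq] at h
  · simp only [pow_one]
    rw [MulAction.index_stabilizer]
    exact (Set.ncard_pos hfin).2 ⟨x, MulAction.mem_orbit_self x⟩ |>.ne'
  · intro m n g hg
    rw [MulAction.mem_stabilizer_iff] at hg ⊢
    rw [pow_mul, smul_pow', hg]
  · intro m n hmn g hg
    obtain ⟨h1, h2⟩ := Subgroup.mem_inf.1 hg
    rw [MulAction.mem_stabilizer_iff] at h1 h2 ⊢
    rw [smul_pow'] at h1 h2 ⊢
    have h3 : ((g • x) * x⁻¹) ^ m = 1 := by rw [mul_pow, h1, inv_pow, mul_inv_cancel]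
    have h4 : ((g • x) * x⁻¹) ^ n = 1 := by rw [mul_pow, h2, inv_pow, mul_inv_cancel]
    have h5 := pow_gcd_eq_one.2 ⟨h3, h4⟩
    rw [hmn, pow_one, mul_inv_eq_one] at h5
    rw [h5]
  · intro p hp hle
    obtain ⟨g, h1, h2⟩ := hd p hp
    apply h2
    have h3 := hle (MulAction.mem_stabilizer_iff.2 h1)
    rwa [MulAction.mem_stabilizer_iff, pow_one] at h3

section field

variable {L : Type} [Field L] [NumberField L]

private theorem orbit_finite (k : IntermediateField ℚ L) (z : L × L) :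
    (MulAction.orbit (L ≃ₐ[k] L) z).Finite := by
  have : Finite (L ≃ₐ[k] L) := inferInstance
  exact Set.finite_range _

private theorem od_eq (k : IntermediateField ℚ L) (z : L × L) :
    od k z = (MulAction.stabilizer (L ≃ₐ[k] L) z).index := by
  rw [MulAction.index_stabilizer, od, Nat.card_coe_set_eq]

private theorem od_eq' (k : IntermediateField ℚ L) (z : L × L) :
    od k z = (MulAction.orbit (L ≃ₐ[k] L) z).ncard := by
  rw [od, Nat.card_coe_set_eq]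

private theorem mem_stab (k : IntermediateField ℚ L) (x y : L) (σ : L ≃ₐ[k] L) :
    σ ∈ MulAction.stabilizer (L ≃ₐ[k] L) ((x, y) : L × L) ↔ σ x = x ∧ σ y = y := by
  rw [MulAction.mem_stabilizer_iff, Prod.smul_mk, Prod.mk.injEq]
  rfl

private theorem fix_of_coprime (k : IntermediateField ℚ L) {x : L} (hx : x ≠ 0) {m n : ℕ}
    (hmn : Nat.Coprime m n) {σ : L ≃ₐ[k] L} (h1 : σ (x ^ m) = x ^ m) (h2 : σ (x ^ n) = x ^ n) :
    σ x = x := by
  rw [map_pow] at h1 h2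
  have h3 : (σ x * x⁻¹) ^ m = 1 := by
    rw [mul_pow, h1, inv_pow, mul_inv_cancel₀ (pow_ne_zero _ hx)]
  have h4 : (σ x * x⁻¹) ^ n = 1 := by
    rw [mul_pow, h2, inv_pow, mul_inv_cancel₀ (pow_ne_zero _ hx)]
  have h5 := pow_gcd_eq_one.2 ⟨h3, h4⟩
  rw [hmn, pow_one] at h5
  rwa [mul_inv_eq_one₀ hx] at h5

/-- DR2. -/
theorem drop {L : Type} [Field L] [NumberField L] (k : IntermediateField ℚ L) (x y : L)
    (hx : x ≠ 0) (hy : y ≠ 0) (S : Finset ℕ) (hS : ∀ p ∈ S, p.Prime)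
    (hd : ∀ p ∈ S, od k (x ^ p, y ^ p) ≠ od k (x, y)) : 2 ^ S.card ≤ od k (x, y) := by
  have h := chain (fun n => MulAction.stabilizer (L ≃ₐ[k] L) ((x ^ n, y ^ n) : L × L))
    ?_ ?_ ?_ S hS ?_
  · simp only [pow_one] at h
    rwa [← od_eq] at h
  · rw [MulAction.index_stabilizer]
    exact (Set.ncard_pos (orbit_finite k _)).2 ⟨_, MulAction.mem_orbit_self _⟩ |>.ne'
  · intro m n σ hσ
    rw [mem_stab] at hσ ⊢
    rw [pow_mul, pow_mul, map_pow σ (x ^ m), map_pow σ (y ^ m), hσ.1, hσ.2]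
    exact ⟨rfl, rfl⟩
  · intro m n hmn σ hσ
    obtain ⟨h1, h2⟩ := Subgroup.mem_inf.1 hσ
    rw [mem_stab] at h1 h2 ⊢
    rw [pow_one, pow_one]
    exact ⟨fix_of_coprime k hx hmn h1.1 h2.1, fix_of_coprime k hy hmn h1.2 h2.2⟩
  · intro p hp hle
    apply hd p hp
    rw [od_eq, od_eq]
    congr 1
    refine le_antisymm (fun σ hσ => by simpa using hle hσ) fun σ hσ => ?_
    rw [mem_stab] at hσ ⊢
    rw [map_pow, map_pow, hσ.1, hσ.2]
    exact ⟨rfl, rfl⟩

/-- DR3. -/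
theorem od_pos {L : Type} [Field L] [NumberField L] (k : IntermediateField ℚ L) (z : L × L) :
    0 < od k z := by
  rw [od_eq']
  exact (Set.ncard_pos (orbit_finite k _)).2 ⟨_, MulAction.mem_orbit_self _⟩

/-- DR4. -/
theorem od_symm {L : Type} [Field L] [NumberField L] {ζ : L} {p : ℕ} (ψ : L ≃ₐ[ℚ] L)
    (hψ : ψ ζ = ζ ^ p) (x y : L) :
    od ℚ⟮ζ⟯ (ψ.symm x, ψ.symm y) = od ℚ⟮ζ⟯ (x, y) := by
  -- `ψ` maps `ℚ⟮ζ⟯` onto itself
  have hmap : ℚ⟮ζ⟯.map (ψ : L →ₐ[ℚ] L) = ℚ⟮ζ⟯ := by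
    have h1 : ℚ⟮ζ⟯.map (ψ : L →ₐ[ℚ] L) ≤ ℚ⟮ζ⟯ := by
      rw [IntermediateField.adjoin_map, Set.image_singleton, IntermediateField.adjoin_le_iff,
        Set.singleton_subset_iff]
      change ψ ζ ∈ ℚ⟮ζ⟯
      rw [hψ]
      exact pow_mem (IntermediateField.mem_adjoin_simple_self ℚ ζ) _
    refine IntermediateField.eq_of_le_of_finrank_eq h1 ?_
    exact ((ℚ⟮ζ⟯.equivMap (ψ : L →ₐ[ℚ] L)).toLinearEquiv.finrank_eq).symm
  have hmem : ∀ a ∈ ℚ⟮ζ⟯, ψ a ∈ ℚ⟮ζ⟯ := by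
    intro a ha
    rw [← hmap]
    exact ⟨a, ha, rfl⟩
  have hmem' : ∀ a ∈ ℚ⟮ζ⟯, ψ.symm a ∈ ℚ⟮ζ⟯ := by
    intro a ha
    rw [← hmap] at ha
    obtain ⟨b, hb, rfl⟩ := ha
    have h2 : ψ.symm ((ψ : L →ₐ[ℚ] L) b) = b := ψ.symm_apply_apply b
    exact h2.symm ▸ hb
  have hfix : ∀ (σ : L ≃ₐ[ℚ⟮ζ⟯] L) (a : L), a ∈ ℚ⟮ζ⟯ → σ a = a := fun σ a ha =>
    σ.commutes ⟨a, ha⟩
  -- conjugation
  have hconj : ∀ σ : L ≃ₐ[ℚ⟮ζ⟯] L, ∃ τ : L ≃ₐ[ℚ⟮ζ⟯] L, ∀ a, τ a = ψ (σ (ψ.symm a)) := by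
    intro σ
    refine ⟨AlgEquiv.ofRingEquiv (f := (ψ.symm.toRingEquiv.trans σ.toRingEquiv).trans
      ψ.toRingEquiv) fun a => ?_, fun a => rfl⟩
    change ψ (σ (ψ.symm (a : L))) = (a : L)
    rw [hfix σ _ (hmem' _ a.2), AlgEquiv.apply_symm_apply]
  have hconj' : ∀ σ : L ≃ₐ[ℚ⟮ζ⟯] L, ∃ τ : L ≃ₐ[ℚ⟮ζ⟯] L, ∀ a, τ a = ψ.symm (σ (ψ a)) := by
    intro σ
    refine ⟨AlgEquiv.ofRingEquiv (f := (ψ.toRingEquiv.trans σ.toRingEquiv).trans
      ψ.symm.toRingEquiv) fun a => ?_, fun a => rfl⟩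
    change ψ.symm (σ (ψ (a : L))) = (a : L)
    rw [hfix σ _ (hmem _ a.2), AlgEquiv.symm_apply_apply]
  have himg : MulAction.orbit (L ≃ₐ[ℚ⟮ζ⟯] L) ((ψ.symm x, ψ.symm y) : L × L) =
      (fun w : L × L => (ψ.symm w.1, ψ.symm w.2)) ''
        MulAction.orbit (L ≃ₐ[ℚ⟮ζ⟯] L) ((x, y) : L × L) := by
    ext w
    constructor
    · rintro ⟨σ, rfl⟩
      obtain ⟨τ, hτ⟩ := hconj σ
      refine ⟨_, ⟨τ, rfl⟩, ?_⟩
      change (ψ.symm (τ x), ψ.symm (τ y)) = (σ (ψ.symm x), σ (ψ.symm y))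
      rw [hτ, hτ, AlgEquiv.symm_apply_apply, AlgEquiv.symm_apply_apply]
    · rintro ⟨_, ⟨σ, rfl⟩, rfl⟩
      obtain ⟨τ, hτ⟩ := hconj' σ
      refine ⟨τ, ?_⟩
      change (τ (ψ.symm x), τ (ψ.symm y)) = (ψ.symm (σ x), ψ.symm (σ y))
      rw [hτ, hτ, AlgEquiv.apply_symm_apply, AlgEquiv.apply_symm_apply]
  rw [od_eq', od_eq', himg]
  refine Set.ncard_image_of_injective _ fun a b hab => ?_
  simp only [Prod.mk.injEq, EmbeddingLike.apply_eq_iff_eq] at hab
  exact Prod.ext hab.1 hab.2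

/-- DR5. -/
theorem od_monomial_le {L : Type} [Field L] [NumberField L] (k : IntermediateField ℚ L)
    (x y : L) (m1 m2 : ℤ) : od k (x ^ m1 * y ^ m2, 1) ≤ od k (x, y) := by
  have himg : MulAction.orbit (L ≃ₐ[k] L) ((x ^ m1 * y ^ m2, 1) : L × L) =
      (fun w : L × L => (w.1 ^ m1 * w.2 ^ m2, (1 : L))) ''
        MulAction.orbit (L ≃ₐ[k] L) ((x, y) : L × L) := by
    ext w
    constructor
    · rintro ⟨σ, rfl⟩
      refine ⟨_, ⟨σ, rfl⟩, ?_⟩
      change ((σ x) ^ m1 * (σ y) ^ m2, (1 : L)) = (σ (x ^ m1 * y ^ m2), σ 1)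
      rw [map_mul, map_zpow₀, map_zpow₀, map_one]
    · rintro ⟨_, ⟨σ, rfl⟩, rfl⟩
      refine ⟨σ, ?_⟩
      change (σ (x ^ m1 * y ^ m2), σ 1) = ((σ x) ^ m1 * (σ y) ^ m2, (1 : L))
      rw [map_mul, map_zpow₀, map_zpow₀, map_one]
  rw [od_eq', od_eq', himg]
  exact Set.ncard_image_le (orbit_finite k _)

/-- DR6. The number of conjugates is the degree. -/
theorem od_eq_finrank {L : Type} [Field L] [NumberField L] [IsGalois ℚ L]
    (k : IntermediateField ℚ L) (x y : L) :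
    od k (x, y) = finrank k (IntermediateField.adjoin k {x, y}) := by
  have : IsGalois k L := IsGalois.tower_top_of_isGalois ℚ k L
  rw [IntermediateField.finrank_eq_fixingSubgroup_index, od_eq]
  congr 1
  ext σ
  rw [mem_stab, IntermediateField.mem_fixingSubgroup_iff]
  constructor
  · rintro ⟨h1, h2⟩ a ha
    have h3 : IntermediateField.adjoin k {x, y} ≤
        IntermediateField.fixedField (Subgroup.zpowers σ) := by
      rw [IntermediateField.adjoin_le_iff]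
      intro b hb
      rw [SetLike.mem_coe, IntermediateField.mem_fixedField_iff]
      intro τ hτ
      obtain ⟨n, rfl⟩ := Subgroup.mem_zpowers_iff.1 hτ
      have h4 : σ ∈ MulAction.stabilizer (L ≃ₐ[k] L) b := by
        rw [MulAction.mem_stabilizer_iff]
        simp only [Set.mem_insert_iff, Set.mem_singleton_iff] at hb
        rcases hb with rfl | rfl
        · exact h1
        · exact h2
      exact MulAction.mem_stabilizer_iff.1 (zpow_mem h4 n)
    exact (IntermediateField.mem_fixedField_iff _ _).1 (h3 ha) σ (Subgroup.mem_zpowers σ)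
  · intro h
    exact ⟨h x (IntermediateField.subset_adjoin _ _ (by simp)),
      h y (IntermediateField.subset_adjoin _ _ (by simp))⟩

end field

end Pool.Agent.Leh2
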