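import Pool.Agent.Leh2.Defs

set_option autoImplicit false
set_option linter.unusedVariables false

namespace Pool.Agent.Leh2

open NumberField Polynomial IntermediateField

/-- integral elements of `ℚ(ζ)` are polynomials in `ζ` with integer coefficients -/
private theorem exists_poly_zeta {L : Type} [Field L] [NumberField L] {ζ : L} {N : ℕ}
    (hζ : IsPrimitiveRoot ζ N) (hN : 0 < N) (a : L) (ha : a ∈ ℚ⟮ζ⟯) (hai : IsIntegral ℤ a) :
    ∃ g : ℤ[X], a = aeval ζ g := by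
  have : NeZero N := ⟨hN.ne'⟩
  have hcyc := hζ.intermediateField_adjoin_isCyclotomicExtension ℚ
  have hgen : IsPrimitiveRoot (AdjoinSimple.gen ℚ ζ) N := by
    apply IsPrimitiveRoot.of_map_of_injective (f := algebraMap ℚ⟮ζ⟯ L)
    · rw [AdjoinSimple.algebraMap_gen]
      exact hζ
    · exact (algebraMap ℚ⟮ζ⟯ L).injective
  have hcl := IsCyclotomicExtension.Rat.isIntegralClosure_adjoin_singleton
    (hcycl := by
      convert hcyc
      all_goals rfl) hgen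
  have hai' : IsIntegral ℤ (⟨a, ha⟩ : ℚ⟮ζ⟯) := by
    rw [← isIntegral_algebraMap_iff (B := L) (algebraMap ℚ⟮ζ⟯ L).injective]
    exact hai
  obtain ⟨y, hy⟩ := hcl.isIntegral_iff.1 hai'
  have hy2 : (y : ℚ⟮ζ⟯) ∈ (aeval (R := ℤ) (AdjoinSimple.gen ℚ ζ)).range := by
    rw [← Algebra.adjoin_singleton_eq_range_aeval]
    exact y.2
  obtain ⟨g, hg⟩ := hy2
  refine ⟨g, ?_⟩
  have h1 : a = algebraMap ℚ⟮ζ⟯ L ⟨a, ha⟩ := rfl
  rw [h1, ← hy]
  show algebraMap ℚ⟮ζ⟯ L (y : ℚ⟮ζ⟯) = _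
  rw [← hg]
  show algebraMap ℚ⟮ζ⟯ L (aeval (AdjoinSimple.gen ℚ ζ) g) = _
  rw [← aeval_algebraMap_apply, AdjoinSimple.algebraMap_gen]

private theorem expand_congr {p : ℕ} (hp : p.Prime) (g : ℤ[X]) :
    ∃ h : ℤ[X], expand ℤ p g = g ^ p + C (p : ℤ) * h := by
  have := Fact.mk hp
  have h1 : C (p : ℤ) ∣ expand ℤ p g - g ^ p := by
    rw [C_dvd_iff_dvd_coeff]
    intro i
    have h2 : (expand ℤ p g - g ^ p).map (Int.castRingHom (ZMod p)) = 0 := by
      rw [Polynomial.map_sub, Polynomial.map_pow, map_expand, ZMod.expand_card, sub_self]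
    have h3 : ((expand ℤ p g - g ^ p).map (Int.castRingHom (ZMod p))).coeff i = 0 := by
      rw [h2, coeff_zero]
    rw [coeff_map] at h3
    rw [← ZMod.intCast_zmod_eq_zero_iff_dvd]
    exact h3
  obtain ⟨h, hh⟩ := h1
  exact ⟨h, by rw [← hh]; ring⟩

private theorem isIntegral_aeval {L : Type} [Field L] (x : L) (hx : IsIntegral ℤ x) (h : ℤ[X]) :
    IsIntegral ℤ (aeval x h) := by
  have h1 : aeval x h ∈ Algebra.adjoin ℤ {x} := aeval_mem_adjoin_singleton ℤ x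
  have h2 : Algebra.adjoin ℤ {x} ≤ integralClosure ℤ L :=
    Algebra.adjoin_le (Set.singleton_subset_iff.2 hx)
  exact h2 h1

private theorem frob_elem {L : Type} [Field L] [NumberField L] {ζ : L} {N : ℕ}
    (hζ : IsPrimitiveRoot ζ N) (hN : 0 < N) {p : ℕ} (hp : p.Prime)
    (ψ : L ≃ₐ[ℚ] L) (hψ : ψ ζ = ζ ^ p) (a : L) (ha : a ∈ ℚ⟮ζ⟯) (hai : IsIntegral ℤ a) :
    ∃ b : L, IsIntegral ℤ b ∧ ψ a = a ^ p + (p : L) * b := by
  obtain ⟨g, rfl⟩ := exists_poly_zeta hζ hN a ha hai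
  obtain ⟨h, hh⟩ := expand_congr hp g
  refine ⟨aeval ζ h, isIntegral_aeval ζ (hζ.isIntegral hN) h, ?_⟩
  have h1 : ψ (aeval ζ g) = aeval (ζ ^ p) g := by
    rw [← hψ]
    exact (Polynomial.aeval_algHom_apply ((ψ : L →ₐ[ℚ] L).restrictScalars ℤ) ζ g).symm
  rw [h1, ← expand_aeval, hh]
  simp

private theorem sum_pow_prime {L : Type} [Field L] {p : ℕ} (hp : p.Prime) {ι : Type}
    (s : Finset ι) (f : ι → L) (hf : ∀ i, IsIntegral ℤ (f i)) :
    ∃ r : L, IsIntegral ℤ r ∧ (∑ i ∈ s, f i) ^ p = ∑ i ∈ s, f i ^ p + (p : L) * r := by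
  classical
  induction s using Finset.induction_on with
  | empty => exact ⟨0, isIntegral_zero, by simp [hp.ne_zero]⟩
  | insert i s hi ih =>
    obtain ⟨r, hr, he⟩ := ih
    rw [Finset.sum_insert hi, Finset.sum_insert hi]
    have hS : IsIntegral ℤ (∑ j ∈ s, f j) := IsIntegral.sum _ fun j _ => hf j
    obtain ⟨t, ht⟩ := exists_add_pow_prime_eq hp (⟨f i, hf i⟩ : integralClosure ℤ L)
      ⟨∑ j ∈ s, f j, hS⟩
    have ht' := congrArg (fun z : integralClosure ℤ L => (z : L)) ht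
    simp only [MulMemClass.coe_mul, AddMemClass.coe_add, SubmonoidClass.coe_pow] at ht'
    refine ⟨r + f i * (∑ j ∈ s, f j) * t, hr.add (((hf i).mul hS).mul t.2), ?_⟩
    rw [ht', he]
    push_cast
    ring

/-- FR1. Frobenius congruence for polynomials with coefficients in the ring of integers
`ℤ[ζ]` of `ℚ(ζ)`. -/
theorem frob_int {L : Type} [Field L] [NumberField L] {ζ : L} {N : ℕ}
    (hζ : IsPrimitiveRoot ζ N) (hN : 0 < N) {p : ℕ} (hp : p.Prime) (hpN : ¬ p ∣ N)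
    (ψ : L ≃ₐ[ℚ] L) (hψ : ψ ζ = ζ ^ p) (f : L[X]) (hf : ∀ n, f.coeff n ∈ ℚ⟮ζ⟯)
    (hfi : ∀ n, IsIntegral ℤ (f.coeff n)) (x : L) (hx : IsIntegral ℤ x) :
    ∃ b : L, IsIntegral ℤ b ∧
      (f.map (ψ : L →+* L)).eval (x ^ p) = (f.eval x) ^ p + (p : L) * b := by
  choose b hb hb' using fun n => frob_elem hζ hN hp ψ hψ (f.coeff n) (hf n) (hfi n)
  obtain ⟨r, hr, hr'⟩ := sum_pow_prime hp (Finset.range (f.natDegree + 1))
    (fun n => f.coeff n * x ^ n) (fun n => (hfi n).mul (hx.pow n))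
  refine ⟨(∑ n ∈ Finset.range (f.natDegree + 1), b n * (x ^ p) ^ n) - r, ?_, ?_⟩
  · exact (IsIntegral.sum _ fun n _ => (hb n).mul ((hx.pow p).pow n)).sub hr
  · have h1 : (f.map (ψ : L →+* L)).natDegree < f.natDegree + 1 :=
      Nat.lt_succ_of_le natDegree_map_le
    rw [eval_eq_sum_range' h1, eval_eq_sum_range, hr', mul_sub, Finset.mul_sum]
    have h2 : ∀ n ∈ Finset.range (f.natDegree + 1),
        (f.map (ψ : L →+* L)).coeff n * (x ^ p) ^ n =
          (f.coeff n * x ^ n) ^ p + (p : L) * (b n * (x ^ p) ^ n) := by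
      intro n _
      rw [coeff_map]
      have h3 : (ψ : L →+* L) (f.coeff n) = ψ (f.coeff n) := rfl
      rw [h3, hb' n, mul_pow, ← pow_mul, ← pow_mul, mul_comm n p]
      ring
    rw [Finset.sum_congr rfl h2, Finset.sum_add_distrib]
    ring

private theorem le_one_of_integral {L : Type} [Field L] (w : AbsoluteValue L ℝ)
    (hw : IsNonarchimedean w) (x : L) (hx : IsIntegral ℤ x) : w x ≤ 1 := by
  by_contra hcon
  have h1 : 1 < w x := not_le.1 hcon
  obtain ⟨P, hP, hP0⟩ := hx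
  rw [eval₂_eq_sum_range, Finset.sum_range_succ] at hP0
  have hlead : P.coeff P.natDegree = 1 := hP
  rw [hlead, map_one, one_mul] at hP0
  rcases Nat.eq_zero_or_pos P.natDegree with h0 | h0
  · rw [h0] at hP0
    simp at hP0
  · have h2 : x ^ P.natDegree =
        -∑ i ∈ Finset.range P.natDegree, (algebraMap ℤ L) (P.coeff i) * x ^ i := by
      linear_combination hP0
    obtain ⟨i, hi, hi'⟩ := IsNonarchimedean.finset_image_add_of_nonempty hw
      (fun i => (algebraMap ℤ L) (P.coeff i) * x ^ i)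
      (Finset.nonempty_range_iff.2 h0.ne')
    have h3 : w x ^ P.natDegree ≤ w x ^ i := by
      rw [← map_pow, h2, map_neg_eq_map]
      refine hi'.trans ?_
      rw [map_mul, map_pow]
      have h4 : w ((algebraMap ℤ L) (P.coeff i)) ≤ 1 := by
        rw [eq_intCast]
        exact IsNonarchimedean.apply_intCast_le_one hw
      calc w ((algebraMap ℤ L) (P.coeff i)) * w x ^ i ≤ 1 * w x ^ i :=
            mul_le_mul_of_nonneg_right h4 (pow_nonneg (apply_nonneg _ _) _)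
        _ = w x ^ i := one_mul _
    have h5 : w x ^ i < w x ^ P.natDegree :=
      pow_lt_pow_right₀ h1 (Finset.mem_range.1 hi)
    exact absurd h3 (not_le.2 h5)

private theorem exists_den {K : Type} [Field K] [NumberField K] (v : AbsoluteValue K ℝ)
    (hv : IsNonarchimedean v) (c : K) (hc : v c ≤ 1) :
    ∃ s b : 𝓞 K, (s : K) * c = b ∧ v (s : K) = 1 := by
  have hle : ∀ x : 𝓞 K, v (x : K) ≤ 1 := fun x => le_one_of_integral v hv x x.isIntegral_coe
  obtain ⟨b0, s0, hs0, hcb⟩ : ∃ b0 s0 : 𝓞 K, s0 ≠ 0 ∧ (s0 : K) * c = b0 := by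
    obtain ⟨b, s, hs, h⟩ := IsFractionRing.div_surjective (A := 𝓞 K) c
    have hs0 : s ≠ 0 := nonZeroDivisors.ne_zero hs
    have hsK : (s : K) ≠ 0 := by
      intro h0
      exact hs0 (RingOfIntegers.ext h0)
    refine ⟨b, s, hs0, ?_⟩
    rw [← h]
    exact mul_div_cancel₀ _ hsK
  have hs0K : (s0 : K) ≠ 0 := by
    intro h0
    exact hs0 (RingOfIntegers.ext h0)
  have hdvd : Ideal.span {b0, s0} ∣ Ideal.span {s0} := by
    rw [Ideal.dvd_iff_le]
    apply Ideal.span_mono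
    simp
  obtain ⟨J, hJ⟩ := hdvd
  have key : ∀ j ∈ J, ∃ b : 𝓞 K, b0 * j = s0 * b := by
    intro j hj
    have h1 : b0 * j ∈ Ideal.span {s0} := by
      rw [hJ]
      exact Ideal.mul_mem_mul (Ideal.subset_span (by simp)) hj
    rw [Ideal.mem_span_singleton] at h1
    exact h1
  have key2 : ∀ j b : 𝓞 K, b0 * j = s0 * b → (j : K) * c = b := by
    intro j b h
    have h1 : (b0 : K) * j = s0 * b := by
      rw [← map_mul, h, map_mul]
    apply mul_left_cancel₀ hs0K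
    rw [← h1, ← hcb]
    ring
  by_contra hcon
  push Not at hcon
  have hj1 : ∀ j ∈ J, v (j : K) < 1 := by
    intro j hj
    obtain ⟨b, hb⟩ := key j hj
    exact lt_of_le_of_ne (hle j) (hcon j b (key2 j b hb))
  have hj2 : ∀ j ∈ J, ∀ b : 𝓞 K, b0 * j = s0 * b → v (b : K) < 1 := by
    intro j hj b hb
    rw [← key2 j b hb, map_mul]
    calc v (j : K) * v c ≤ v (j : K) * 1 := mul_le_mul_of_nonneg_left hc (apply_nonneg _ _)
      _ < 1 := by rw [mul_one]; exact hj1 j hj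
  have hlt : ∀ z ∈ Ideal.span {b0, s0} * J, v (z : K) < v (s0 : K) := by
    intro z hz
    refine Submodule.mul_induction_on hz ?_ ?_
    · intro m hm n hn
      obtain ⟨x, y, hxy⟩ := Ideal.mem_span_pair.1 hm
      obtain ⟨b, hb⟩ := key n hn
      have h1 : m * n = s0 * (x * b + y * n) := by
        rw [← hxy]
        linear_combination x * hb
      rw [h1]
      have h2 : v ((x * b + y * n : 𝓞 K) : K) < 1 := by
        push_cast
        refine lt_of_le_of_lt (hv _ _) (max_lt ?_ ?_)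
        · rw [map_mul]
          calc v (x : K) * v (b : K) ≤ 1 * v (b : K) :=
                mul_le_mul_of_nonneg_right (hle x) (apply_nonneg _ _)
            _ < 1 := by rw [one_mul]; exact hj2 n hn b hb
        · rw [map_mul]
          calc v (y : K) * v (n : K) ≤ 1 * v (n : K) :=
                mul_le_mul_of_nonneg_right (hle y) (apply_nonneg _ _)
            _ < 1 := by rw [one_mul]; exact hj1 n hn
      have h3 : ((s0 * (x * b + y * n) : 𝓞 K) : K) = (s0 : K) * ((x * b + y * n : 𝓞 K) : K) := by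
        push_cast
        rfl
      rw [h3, map_mul]
      exact mul_lt_of_lt_one_right (v.pos hs0K) h2
    · intro a b ha hb
      push_cast
      exact lt_of_le_of_lt (hv _ _) (max_lt ha hb)
  have h1 := hlt s0 (by rw [← hJ]; exact Ideal.mem_span_singleton_self s0)
  exact lt_irrefl _ h1

private theorem frob_step {L : Type} [Field L] [NumberField L] {ζ : L} {N : ℕ}
    (hζ : IsPrimitiveRoot ζ N) (hN : 0 < N) {p : ℕ} (hp : p.Prime)
    (ψ : L ≃ₐ[ℚ] L) (hψ : ψ ζ = ζ ^ p) (w : AbsoluteValue L ℝ) (hw : IsNonarchimedean w)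
    (hwp : w (p : L) < 1) (c : L) (hc : c ∈ ℚ⟮ζ⟯) (hc1 : w c ≤ 1) :
    ψ c ∈ ℚ⟮ζ⟯ ∧ w (ψ c) ≤ 1 := by
  constructor
  · have h1 : ψ c ∈ (ℚ⟮ζ⟯).map (ψ : L →ₐ[ℚ] L) := ⟨c, hc, rfl⟩
    rw [IntermediateField.adjoin_map, Set.image_singleton] at h1
    have h2 : ℚ⟮(ψ : L →ₐ[ℚ] L) ζ⟯ ≤ ℚ⟮ζ⟯ := by
      rw [IntermediateField.adjoin_simple_le_iff]
      show ψ ζ ∈ ℚ⟮ζ⟯
      rw [hψ]
      exact pow_mem (IntermediateField.mem_adjoin_simple_self ℚ ζ) p
    exact h2 h1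
  · obtain ⟨s, b, hsb, hs⟩ := exists_den (K := ℚ⟮ζ⟯)
      (w.comp (algebraMap ℚ⟮ζ⟯ L).injective) (fun x y => by
        have := hw (algebraMap ℚ⟮ζ⟯ L x) (algebraMap ℚ⟮ζ⟯ L y)
        rw [← map_add] at this
        exact this) ⟨c, hc⟩ hc1
    have hs' : w ((s : ℚ⟮ζ⟯) : L) = 1 := hs
    have hsb' : ((s : ℚ⟮ζ⟯) : L) * c = ((b : ℚ⟮ζ⟯) : L) := by
      have := congrArg (fun z : ℚ⟮ζ⟯ => (z : L)) hsb
      exact this
    have hint : ∀ z : 𝓞 ℚ⟮ζ⟯, IsIntegral ℤ ((z : ℚ⟮ζ⟯) : L) := by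
      intro z
      exact z.isIntegral_coe.algebraMap (B := L)
    obtain ⟨i, hi, hi'⟩ := frob_elem hζ hN hp ψ hψ _ (s : ℚ⟮ζ⟯).2 (hint s)
    have h1 : w (ψ ((s : ℚ⟮ζ⟯) : L)) = 1 := by
      rw [hi']
      have h2 : w (((s : ℚ⟮ζ⟯) : L) ^ p) = 1 := by
        rw [map_pow, hs', one_pow]
      have h3 : w ((p : L) * i) < 1 := by
        rw [map_mul]
        calc w (p : L) * w i ≤ w (p : L) * 1 :=
              mul_le_mul_of_nonneg_left (le_one_of_integral w hw i hi) (apply_nonneg _ _)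
          _ < 1 := by rw [mul_one]; exact hwp
      have h4 := IsNonarchimedean.add_eq_max_of_ne' w hw (fun a => (map_neg_eq_map w a).symm)
        (a := ((s : ℚ⟮ζ⟯) : L) ^ p) (b := (p : L) * i) (by rw [h2]; exact h3.ne')
      rw [h4, h2, max_eq_left h3.le]
    have h5 : w (ψ ((b : ℚ⟮ζ⟯) : L)) ≤ 1 := by
      apply le_one_of_integral w hw
      exact (hint b).map ((ψ : L →ₐ[ℚ] L).restrictScalars ℤ)
    rw [← hsb', map_mul, map_mul, h1, one_mul] at h5
    exact h5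

/-- FR2. The Frobenius automorphism preserves `w`-integrality on `ℚ(ζ)`. -/
theorem frob_val {L : Type} [Field L] [NumberField L] {ζ : L} {N : ℕ}
    (hζ : IsPrimitiveRoot ζ N) (hN : 0 < N) {p : ℕ} (hp : p.Prime) (hpN : ¬ p ∣ N)
    (ψ : L ≃ₐ[ℚ] L) (hψ : ψ ζ = ζ ^ p) (w : AbsoluteValue L ℝ) (hw : IsNonarchimedean w)
    (hwp : w (p : L) < 1) (c : L) (hc : c ∈ ℚ⟮ζ⟯) (hc1 : w c ≤ 1) :
    w (ψ c) ≤ 1 ∧ w (ψ.symm c) ≤ 1 := by
  have hstep := fun c hc hc1 => frob_step hζ hN hp ψ hψ w hw hwp c hc hc1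
  refine ⟨(hstep c hc hc1).2, ?_⟩
  have hiter : ∀ m : ℕ, (ψ ^ m) c ∈ ℚ⟮ζ⟯ ∧ w ((ψ ^ m) c) ≤ 1 := by
    intro m
    induction m with
    | zero => exact ⟨hc, hc1⟩
    | succ m ih =>
      have h1 : (ψ ^ (m + 1)) c = ψ ((ψ ^ m) c) := by
        rw [pow_succ']
        rfl
      rw [h1]
      exact hstep _ ih.1 ih.2
  have hfin : IsOfFinOrder ψ := isOfFinOrder_of_finite ψ
  have h1 : ψ ^ (orderOf ψ - 1) = ψ⁻¹ := by
    have h2 : ψ ^ (orderOf ψ - 1) * ψ = 1 := by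
      rw [← pow_succ, Nat.sub_add_cancel hfin.orderOf_pos, pow_orderOf_eq_one]
    exact eq_inv_of_mul_eq_one_left h2
  have h3 := (hiter (orderOf ψ - 1)).2
  rw [h1] at h3
  exact h3

end Pool.Agent.Leh2
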