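import Pool.Agent.Leh2.Defs

set_option autoImplicit false
set_option linter.unusedVariables false

namespace Pool.Agent.Leh2

open MvPolynomial

/-- the action of an automorphism on the coefficients -/
private noncomputable def gfm {k : Type} [Field k] (σ : AlgebraicClosure k ≃ₐ[k] AlgebraicClosure k) :
    MvPolynomial (Fin 2) (AlgebraicClosure k) ≃+* MvPolynomial (Fin 2) (AlgebraicClosure k) :=
  mapEquiv (Fin 2) σ.toRingEquiv

private theorem gfm_apply {k : Type} [Field k] (σ : AlgebraicClosure k ≃ₐ[k] AlgebraicClosure k)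
    (p : MvPolynomial (Fin 2) (AlgebraicClosure k)) :
    gfm σ p = map (σ : AlgebraicClosure k →+* AlgebraicClosure k) p := rfl

private theorem gfm_mul {k : Type} [Field k] (σ τ : AlgebraicClosure k ≃ₐ[k] AlgebraicClosure k)
    (p : MvPolynomial (Fin 2) (AlgebraicClosure k)) : gfm (σ * τ) p = gfm σ (gfm τ p) := by
  rw [gfm_apply, gfm_apply, gfm_apply, map_map]
  rfl

private theorem gfm_base {k : Type} [Field k] (σ : AlgebraicClosure k ≃ₐ[k] AlgebraicClosure k)
    (p : MvPolynomial (Fin 2) k) :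
    gfm σ (map (algebraMap k (AlgebraicClosure k)) p) = map (algebraMap k (AlgebraicClosure k)) p := by
  have h : (σ : AlgebraicClosure k →+* AlgebraicClosure k).comp (algebraMap k (AlgebraicClosure k)) =
      algebraMap k (AlgebraicClosure k) := RingHom.ext fun x => σ.commutes x
  rw [gfm_apply, map_map, h]

private theorem gf_descend {k : Type} [Field k] [CharZero k]
    {P : MvPolynomial (Fin 2) (AlgebraicClosure k)} (hP : ∀ σ, gfm σ P = P) :
    ∃ h : MvPolynomial (Fin 2) k, map (algebraMap k (AlgebraicClosure k)) h = P := by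
  have h1 : P ∈ Set.range (MvPolynomial.map (σ := Fin 2) (algebraMap k (AlgebraicClosure k))) := by
    rw [mem_range_map_iff_coeffs_subset]
    intro c hc
    rw [InfiniteGalois.mem_range_algebraMap_iff_fixed]
    intro σ
    simp only [coeffs, Finset.coe_image, Set.mem_image] at hc
    obtain ⟨m, -, rfl⟩ := hc
    have h2 := congrArg (coeff m) (hP σ)
    rw [gfm_apply, coeff_map] at h2
    exact h2
  exact h1

/-- GF. A geometric factor `f'` of an irreducible polynomial `f`: `f` is the product of the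
conjugates of `f'`, and `f'` is normalised. -/
theorem geometric_factor {k : Type} [Field k] [CharZero k] (f : MvPolynomial (Fin 2) k)
    (hf : Irreducible f) :
    ∃ (f' : MvPolynomial (Fin 2) (AlgebraicClosure k)) (C : Finset (MvPolynomial (Fin 2)
      (AlgebraicClosure k))) (u : AlgebraicClosure k), Irreducible f' ∧ u ≠ 0 ∧
      (∃ m, f'.coeff m = 1) ∧
      (∀ g, g ∈ C ↔ ∃ σ : AlgebraicClosure k ≃ₐ[k] AlgebraicClosure k,
        g = map (σ : AlgebraicClosure k →+* AlgebraicClosure k) f') ∧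
      map (algebraMap k (AlgebraicClosure k)) f = MvPolynomial.C u * ∏ g ∈ C, g := by
  classical
  have hinj : Function.Injective (MvPolynomial.map (σ := Fin 2) (algebraMap k (AlgebraicClosure k))) :=
    map_injective _ (algebraMap k (AlgebraicClosure k)).injective
  set F : MvPolynomial (Fin 2) (AlgebraicClosure k) := map (algebraMap k (AlgebraicClosure k)) f
    with hF
  have hF0 : F ≠ 0 := by
    intro h
    apply hf.ne_zero
    apply hinj
    rw [map_zero, ← h]
  have hFu : ¬ IsUnit F := by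
    intro h
    obtain ⟨r, hr, hr'⟩ := isUnit_iff_eq_C_of_isReduced.1 h
    apply hf.not_isUnit
    rw [isUnit_iff_eq_C_of_isReduced]
    refine ⟨f.coeff 0, ?_, ?_⟩
    · rw [isUnit_iff_ne_zero]
      intro h0
      have h1 := congrArg (coeff 0) hr'
      rw [hF, coeff_map, h0, map_zero, coeff_C, if_pos rfl] at h1
      exact hr.ne_zero h1.symm
    · apply hinj
      rw [← hF, hr', map_C]
      congr 1
      have h1 := congrArg (coeff 0) hr'
      rw [hF, coeff_map, coeff_C, if_pos rfl] at h1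
      exact h1.symm
  obtain ⟨f₀, hf₀, hf₀F⟩ := WfDvdMonoid.exists_irreducible_factor hFu hF0
  obtain ⟨m, hm⟩ : ∃ m, coeff m f₀ ≠ 0 := by
    by_contra hcon
    push Not at hcon
    exact hf₀.ne_zero (MvPolynomial.ext _ _ fun m => by rw [hcon m, coeff_zero])
  set f' : MvPolynomial (Fin 2) (AlgebraicClosure k) := MvPolynomial.C (coeff m f₀)⁻¹ * f₀ with hf'
  have hCu : IsUnit (MvPolynomial.C (σ := Fin 2) (coeff m f₀)⁻¹) :=
    (isUnit_iff_ne_zero.2 (inv_ne_zero hm)).map _
  have hass : Associated f₀ f' := by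
    rw [hf']
    exact (associated_unit_mul_left f₀ _ hCu).symm
  have hirr : Irreducible f' := hass.irreducible hf₀
  have hf'F : f' ∣ F := hass.symm.dvd.trans hf₀F
  have hcoeff : coeff m f' = 1 := by
    rw [hf', coeff_C_mul, inv_mul_cancel₀ hm]
  set s : Set (MvPolynomial (Fin 2) (AlgebraicClosure k)) :=
    {g | ∃ σ : AlgebraicClosure k ≃ₐ[k] AlgebraicClosure k, g = gfm σ f'} with hs
  have hsirr : ∀ g ∈ s, Irreducible g := by
    rintro g ⟨σ, rfl⟩
    exact (MulEquiv.irreducible_iff (gfm σ)).2 hirr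
  have hsdvd : ∀ g ∈ s, g ∣ F := by
    rintro g ⟨σ, rfl⟩
    have h1 := map_dvd (gfm σ) hf'F
    rwa [hF, gfm_base, ← hF] at h1
  have hscoeff : ∀ g ∈ s, coeff m g = 1 := by
    rintro g ⟨σ, rfl⟩
    rw [gfm_apply, coeff_map, hcoeff, map_one]
  have hsass : ∀ g ∈ s, ∀ g' ∈ s, Associated g g' → g = g' := by
    rintro g hg g' hg' ⟨v, hv⟩
    obtain ⟨r, hr, hr'⟩ := isUnit_iff_eq_C_of_isReduced.1 v.isUnit
    rw [hr', mul_comm] at hv
    have h1 := congrArg (coeff m) hv
    rw [coeff_C_mul, hscoeff g hg, hscoeff g' hg', mul_one] at h1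
    rw [h1, map_one, one_mul] at hv
    exact hv
  have hfin : s.Finite := by
    have hex : ∀ g : MvPolynomial (Fin 2) (AlgebraicClosure k),
        ∃ q, g ∈ s → q ∈ UniqueFactorizationMonoid.factors F ∧ Associated g q := by
      intro g
      by_cases hg : g ∈ s
      · obtain ⟨q, hq, hq'⟩ := UniqueFactorizationMonoid.exists_mem_factors_of_dvd hF0 (hsirr g hg)
          (hsdvd g hg)
        exact ⟨q, fun _ => ⟨hq, hq'⟩⟩
      · exact ⟨0, fun h => absurd h hg⟩
    choose q hq using hex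
    refine Set.Finite.of_injOn (f := q) (t := ((UniqueFactorizationMonoid.factors F).toFinset :
      Set (MvPolynomial (Fin 2) (AlgebraicClosure k)))) ?_ ?_ (Finset.finite_toSet _)
    · intro g hg
      exact Multiset.mem_toFinset.2 (hq g hg).1
    · intro g hg g' hg' h
      apply hsass g hg g' hg'
      refine (hq g hg).2.trans ?_
      rw [h]
      exact (hq g' hg').2.symm
  set C := hfin.toFinset with hC
  have hmem : ∀ g, g ∈ C ↔ ∃ σ : AlgebraicClosure k ≃ₐ[k] AlgebraicClosure k, g = gfm σ f' :=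
    fun g => hfin.mem_toFinset
  have hPF : (∏ g ∈ C, g) ∣ F := by
    apply Finset.prod_dvd_of_isRelPrime
    · intro g hg g' hg' hne
      have hg1 : g ∈ s := hfin.mem_toFinset.1 hg
      have hg2 : g' ∈ s := hfin.mem_toFinset.1 hg'
      change IsRelPrime g g'
      rw [(hsirr g hg1).isRelPrime_iff_not_dvd]
      intro hdvd
      exact hne (hsass g hg1 g' hg2 ((hsirr g hg1).associated_of_dvd (hsirr g' hg2) hdvd))
    · intro g hg
      exact hsdvd g (hfin.mem_toFinset.1 hg)
  have hPinv : ∀ σ, gfm σ (∏ g ∈ C, g) = ∏ g ∈ C, g := by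
    intro σ
    rw [map_prod]
    refine Finset.prod_bij (fun g _ => gfm σ g) ?_ ?_ ?_ ?_
    · intro g hg
      obtain ⟨τ, rfl⟩ := (hmem g).1 hg
      exact (hmem _).2 ⟨σ * τ, (gfm_mul σ τ f').symm⟩
    · intro g _ g' _ h
      exact (gfm σ).injective h
    · intro g hg
      obtain ⟨τ, rfl⟩ := (hmem g).1 hg
      refine ⟨gfm (σ⁻¹ * τ) f', (hmem _).2 ⟨σ⁻¹ * τ, rfl⟩, ?_⟩
      rw [← gfm_mul, mul_inv_cancel_left]
    · intro g _
      rfl
  obtain ⟨Q, hQ⟩ := hPF
  have hP0 : (∏ g ∈ C, g) ≠ 0 := by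
    intro h
    rw [h, zero_mul] at hQ
    exact hF0 hQ
  have hQinv : ∀ σ, gfm σ Q = Q := by
    intro σ
    have h1 := congrArg (gfm σ) hQ
    rw [hF, gfm_base, ← hF, map_mul, hPinv] at h1
    exact mul_left_cancel₀ hP0 (h1.symm.trans hQ)
  obtain ⟨h, hh⟩ := gf_descend hPinv
  obtain ⟨h', hh'⟩ := gf_descend hQinv
  have hfh : f = h * h' := by
    apply hinj
    rw [map_mul, hh, hh', ← hQ]
  have hhu : ¬ IsUnit h := by
    intro hu
    have h1 : IsUnit (∏ g ∈ C, g) := by
      rw [← hh]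
      exact hu.map _
    have h2 : f' ∣ ∏ g ∈ C, g := by
      apply Finset.dvd_prod_of_mem (fun g => g)
      refine (hmem f').2 ⟨1, ?_⟩
      rw [gfm_apply]
      exact (map_id f').symm
    exact hirr.not_isUnit (isUnit_of_dvd_unit h2 h1)
  have hh'u : IsUnit h' := (hf.isUnit_or_isUnit hfh).resolve_left hhu
  obtain ⟨r, hr, hr'⟩ := isUnit_iff_eq_C_of_isReduced.1 hh'u
  refine ⟨f', C, algebraMap k (AlgebraicClosure k) r, hirr, ?_, ⟨m, hcoeff⟩, hmem, ?_⟩
  · rw [Ne, map_eq_zero]
    exact hr.ne_zero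
  · rw [hQ, ← hh', hr', map_C, mul_comm]

end Pool.Agent.Leh2
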