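import Pool.Agent.Leh2.GeomF
import Pool.Agent.Leh2.Drop

set_option autoImplicit false
set_option linter.unusedVariables false

namespace Pool.Agent.Leh2

open MvPolynomial

section Scale

variable {K : Type} [Field K]

/-- the substitution `X i ↦ η i * X i` -/
private noncomputable def gsc (η : Fin 2 → K) : MvPolynomial (Fin 2) K →ₐ[K] MvPolynomial (Fin 2) K :=
  aeval fun i => MvPolynomial.C (η i) * X i

private theorem coeff_gsc (η : Fin 2 → K) (p : MvPolynomial (Fin 2) K) (m : Fin 2 →₀ ℕ) :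
    coeff m (gsc η p) = η 0 ^ m 0 * η 1 ^ m 1 * coeff m p := by
  classical
  induction p using MvPolynomial.induction_on' with
  | monomial u a =>
    have h1 : gsc η (monomial u a) = monomial u (a * (η 0 ^ u 0 * η 1 ^ u 1)) := by
      have h2 : gsc η (monomial u a) = MvPolynomial.C a *
          ((MvPolynomial.C (η 0) * X 0) ^ u 0 * (MvPolynomial.C (η 1) * X 1) ^ u 1) := by
        unfold gsc
        rw [aeval_monomial, Finsupp.prod_fintype _ _ (fun i => pow_zero _), Fin.prod_univ_two]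
        rfl
      rw [h2, monomial_eq, Finsupp.prod_fintype _ _ (fun i => pow_zero _), Fin.prod_univ_two,
        mul_pow, mul_pow, map_mul, map_mul, map_pow, map_pow]
      ring
    rw [h1, coeff_monomial, coeff_monomial]
    by_cases h : u = m
    · rw [if_pos h, if_pos h, h, mul_comm]
    · rw [if_neg h, if_neg h, mul_zero]
  | add p q hp hq => rw [map_add, coeff_add, coeff_add, hp, hq, mul_add]

private theorem gsc_gsc (η θ : Fin 2 → K) (p : MvPolynomial (Fin 2) K) :
    gsc η (gsc θ p) = gsc (fun i => η i * θ i) p := by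
  refine MvPolynomial.ext _ _ fun m => ?_
  rw [coeff_gsc, coeff_gsc, coeff_gsc, mul_pow, mul_pow]
  ring

private theorem gsc_one (p : MvPolynomial (Fin 2) K) : gsc (fun _ => 1) p = p := by
  refine MvPolynomial.ext _ _ fun m => ?_
  rw [coeff_gsc, one_pow, one_pow, one_mul, one_mul]

private theorem gsc_irreducible {η : Fin 2 → K} (hη : ∀ i, η i ≠ 0) {p : MvPolynomial (Fin 2) K}
    (hp : Irreducible p) : Irreducible (gsc η p) := by
  have h1 : ∀ p, gsc η (gsc (fun i => (η i)⁻¹) p) = p := by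
    intro p
    rw [gsc_gsc]
    have : (fun i => η i * (η i)⁻¹) = fun _ => (1 : K) := funext fun i => mul_inv_cancel₀ (hη i)
    rw [this, gsc_one]
  have h2 : ∀ p, gsc (fun i => (η i)⁻¹) (gsc η p) = p := by
    intro p
    rw [gsc_gsc]
    have : (fun i => (η i)⁻¹ * η i) = fun _ => (1 : K) := funext fun i => inv_mul_cancel₀ (hη i)
    rw [this, gsc_one]
  let e : MvPolynomial (Fin 2) K ≃ₐ[K] MvPolynomial (Fin 2) K :=
    AlgEquiv.ofAlgHom (gsc η) (gsc fun i => (η i)⁻¹) (AlgHom.ext h1) (AlgHom.ext h2)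
  exact (MulEquiv.irreducible_iff e).2 hp

private theorem support_gsc {η : Fin 2 → K} (hη : ∀ i, η i ≠ 0) (p : MvPolynomial (Fin 2) K) :
    (gsc η p).support = p.support := by
  ext m
  rw [mem_support_iff, mem_support_iff, coeff_gsc]
  have h : η 0 ^ m 0 * η 1 ^ m 1 ≠ 0 := mul_ne_zero (pow_ne_zero _ (hη 0)) (pow_ne_zero _ (hη 1))
  constructor
  · intro h1 h2
    exact h1 (by rw [h2, mul_zero])
  · intro h1
    exact mul_ne_zero h h1

private theorem gsc_powSub {η : Fin 2 → K} {q : ℕ} (hη : ∀ i, η i ^ q = 1)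
    (G : MvPolynomial (Fin 2) K) : gsc η (expand q G) = expand q G := by
  have h : (gsc η).comp (expand q) = expand (σ := Fin 2) (R := K) q := by
    apply MvPolynomial.algHom_ext
    intro i
    rw [AlgHom.comp_apply, expand_X, map_pow]
    unfold gsc
    rw [aeval_X, mul_pow, ← map_pow, hη, map_one, one_mul]
  exact DFunLike.congr_fun h G

private theorem degreeOf_of_support {p q : MvPolynomial (Fin 2) K} (h : p.support = q.support)
    (i : Fin 2) : p.degreeOf i = q.degreeOf i := by
  rw [degreeOf_eq_sup, degreeOf_eq_sup, h]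

private theorem degreeOf_expand_le (q : ℕ) (G : MvPolynomial (Fin 2) K) (i : Fin 2) :
    (expand q G).degreeOf i ≤ q * G.degreeOf i := by
  classical
  rw [degreeOf_eq_sup]
  apply Finset.sup_le
  intro m hm
  obtain ⟨u, hu, rfl⟩ := Finset.mem_image.1 (support_expand_subset G hm)
  change q * u i ≤ _
  apply Nat.mul_le_mul_left
  rw [degreeOf_eq_sup]
  exact Finset.le_sup (f := fun m : Fin 2 →₀ ℕ => m i) hu

/-- the support lies on a line of direction orthogonal to `(u, v)` -/
private def OnLine (u v n : ℤ) (p : MvPolynomial (Fin 2) K) : Prop :=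
  ∀ m ∈ p.support, u * (m 0 : ℤ) + v * (m 1 : ℤ) = n

private theorem OnLine.mul {u v n n' : ℤ} {p q : MvPolynomial (Fin 2) K} (hp : OnLine u v n p)
    (hq : OnLine u v n' q) : OnLine u v (n + n') (p * q) := by
  classical
  intro m hm
  obtain ⟨a, ha, b, hb, rfl⟩ := Finset.mem_add.1 (support_mul p q hm)
  have h1 := hp a ha
  have h2 := hq b hb
  simp only [Finsupp.coe_add, Pi.add_apply]
  push_cast
  linear_combination h1 + h2

private theorem onLine_C {u v : ℤ} (a : K) : OnLine u v 0 (MvPolynomial.C a : MvPolynomial (Fin 2) K) := by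
  classical
  intro m hm
  rw [mem_support_iff, coeff_C] at hm
  have : m = 0 := by
    by_contra h
    exact hm (if_neg fun h' => h h'.symm)
  rw [this]
  simp

private theorem onLine_prod {u v n : ℤ} (s : Finset (MvPolynomial (Fin 2) K))
    (h : ∀ p ∈ s, OnLine u v n p) : OnLine u v (s.card * n) (∏ p ∈ s, p) := by
  classical
  induction s using Finset.induction_on with
  | empty =>
    rw [Finset.prod_empty, Finset.card_empty, Nat.cast_zero, zero_mul, ← map_one (MvPolynomial.C)]
    exact onLine_C 1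
  | insert a s ha ih =>
    rw [Finset.prod_insert ha, Finset.card_insert_of_notMem ha]
    have h1 := (h a (Finset.mem_insert_self a s)).mul
      (ih fun p hp => h p (Finset.mem_insert_of_mem hp))
    have h2 : ((s.card + 1 : ℕ) : ℤ) * n = n + s.card * n := by push_cast; ring
    rw [h2]
    exact h1

end Scale

attribute [local instance] Units.mulDistribMulActionRight

/-- GP. The good primes lemma. -/
theorem good_primes {k : Type} [Field k] [CharZero k] (f : MvPolynomial (Fin 2) k)
    (hf : Irreducible f) (hcol : ¬ Collinear2 f) (S : Finset ℕ)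
    (hS : ∀ q ∈ S, q.Prime ∧ ∃ G : MvPolynomial (Fin 2) k, G ≠ 0 ∧ f ∣ powSub q G ∧
      (G.degreeOf 0 < q * f.degreeOf 0 ∨ G.degreeOf 1 < q * f.degreeOf 1)) :
    2 ^ S.card ≤ (2 * f.degreeOf 0 * f.degreeOf 1) ^ 2 := by
  classical
  obtain ⟨f', C, u, hf', hu, ⟨m₀, hm₀⟩, hC, hprod⟩ := geometric_factor f hf
  have hinjk := (algebraMap k (AlgebraicClosure k)).injective
  have hf'0 : f' ≠ 0 := hf'.ne_zero
  have hm₀s : m₀ ∈ f'.support := by rw [mem_support_iff, hm₀]; exact one_ne_zero
  -- the members of `C`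
  have hCsupp : ∀ g ∈ C, g.support = f'.support := by
    intro g hg
    obtain ⟨σ, rfl⟩ := (hC g).1 hg
    exact support_map_of_injective _ σ.injective
  have hCirr : ∀ g ∈ C, Irreducible g := by
    intro g hg
    obtain ⟨σ, rfl⟩ := (hC g).1 hg
    exact (MulEquiv.irreducible_iff (mapEquiv (Fin 2) σ.toRingEquiv)).2 hf'
  have hf'C : f' ∈ C := (hC f').2 ⟨1, (map_id f').symm⟩
  have hCpos : 0 < C.card := Finset.card_pos.2 ⟨f', hf'C⟩
  have hdeg : ∀ i, f.degreeOf i = C.card * f'.degreeOf i := by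
    intro i
    have h1 : (map (algebraMap k (AlgebraicClosure k)) f).support = f.support :=
      support_map_of_injective _ hinjk
    have h2 : f.degreeOf i = (map (algebraMap k (AlgebraicClosure k)) f).degreeOf i := by
      rw [degreeOf_eq_sup, degreeOf_eq_sup, h1]
    have h3 : (MvPolynomial.C u : MvPolynomial (Fin 2) (AlgebraicClosure k)) ≠ 0 := by
      rw [Ne, map_eq_zero_iff _ (C_injective _ _)]
      exact hu
    rw [h2, hprod, degreeOf_mul_eq h3 (Finset.prod_ne_zero_iff.2 fun g hg => (hCirr g hg).ne_zero),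
      degreeOf_C, zero_add, degreeOf_prod_eq _ _ fun g hg => (hCirr g hg).ne_zero,
      Finset.sum_congr rfl fun g hg => degreeOf_of_support (hCsupp g hg) i, Finset.sum_const,
      smul_eq_mul]
  -- three points of the support
  have hncol : ¬ Collinear2 f' := by
    rintro ⟨a, b, hab, h⟩
    apply hcol
    refine ⟨a, b, hab, ?_⟩
    have h1 : OnLine a b (a * (m₀ 0 : ℤ) + b * (m₀ 1 : ℤ)) f' := fun m hm => h m hm m₀ hm₀s
    have h2 : OnLine a b (0 + C.card * (a * (m₀ 0 : ℤ) + b * (m₀ 1 : ℤ)))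
        (map (algebraMap k (AlgebraicClosure k)) f) := by
      rw [hprod]
      refine (onLine_C u).mul (onLine_prod C fun g hg => ?_)
      intro m hm
      rw [hCsupp g hg] at hm
      exact h1 m hm
    intro m hm m' hm'
    rw [← support_map_of_injective f hinjk] at hm hm'
    rw [h2 m hm, h2 m' hm']
  obtain ⟨m₁, hm₁, hne⟩ : ∃ m₁ ∈ f'.support, m₁ ≠ m₀ := by
    by_contra hcon
    push Not at hcon
    apply hncol
    refine ⟨1, 0, Or.inl one_ne_zero, fun m hm m' hm' => ?_⟩
    rw [hcon m hm, hcon m' hm']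
  set a : ℤ := (m₁ 0 : ℤ) - m₀ 0 with ha
  set b : ℤ := (m₁ 1 : ℤ) - m₀ 1 with hb
  have hab : b ≠ 0 ∨ -a ≠ 0 := by
    by_contra hcon
    push Not at hcon
    apply hne
    ext i
    fin_cases i
    · have : (m₁ 0 : ℤ) = m₀ 0 := by omega
      exact_mod_cast this
    · have : (m₁ 1 : ℤ) = m₀ 1 := by omega
      exact_mod_cast this
  obtain ⟨m₂, hm₂, hδ⟩ : ∃ m₂ ∈ f'.support,
      b * (m₂ 0 : ℤ) + -a * (m₂ 1 : ℤ) ≠ b * (m₀ 0 : ℤ) + -a * (m₀ 1 : ℤ) := by
    by_contra hcon
    push Not at hcon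
    exact hncol ⟨b, -a, hab, fun m hm m' hm' => by rw [hcon m hm, hcon m' hm']⟩
  set a₂ : ℤ := (m₂ 0 : ℤ) - m₀ 0 with ha₂
  set b₂ : ℤ := (m₂ 1 : ℤ) - m₀ 1 with hb₂
  set δ : ℤ := a * b₂ - a₂ * b with hδdef
  have hδ0 : δ ≠ 0 := by
    intro h
    apply hδ
    rw [hδdef, ha₂, hb₂] at h
    linear_combination -h
  have hsup : ∀ m ∈ f'.support, ∀ i, m i ≤ f'.degreeOf i := by
    intro m hm i
    rw [degreeOf_eq_sup]
    exact Finset.le_sup (f := fun m : Fin 2 →₀ ℕ => m i) hm
  have hδle : δ.natAbs ≤ 2 * f'.degreeOf 0 * f'.degreeOf 1 := by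
    have e1 : |a| ≤ f'.degreeOf 0 := by
      have := hsup m₁ hm₁ 0
      have := hsup m₀ hm₀s 0
      rw [abs_le]
      omega
    have e2 : |a₂| ≤ f'.degreeOf 0 := by
      have := hsup m₂ hm₂ 0
      have := hsup m₀ hm₀s 0
      rw [abs_le]
      omega
    have e3 : |b| ≤ f'.degreeOf 1 := by
      have := hsup m₁ hm₁ 1
      have := hsup m₀ hm₀s 1
      rw [abs_le]
      omega
    have e4 : |b₂| ≤ f'.degreeOf 1 := by
      have := hsup m₂ hm₂ 1
      have := hsup m₀ hm₀s 1
      rw [abs_le]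
      omega
    have e5 : |δ| ≤ |a| * |b₂| + |a₂| * |b| := by
      rw [hδdef, ← abs_mul, ← abs_mul]
      exact abs_sub _ _
    have e6 : |a| * |b₂| ≤ f'.degreeOf 0 * f'.degreeOf 1 :=
      mul_le_mul e1 e4 (abs_nonneg _) (by positivity)
    have e7 : |a₂| * |b| ≤ f'.degreeOf 0 * f'.degreeOf 1 :=
      mul_le_mul e2 e3 (abs_nonneg _) (by positivity)
    zify
    linarith
  -- the tuple of coefficients
  let c : f'.support → (AlgebraicClosure k)ˣ := fun m =>
    Units.mk0 (coeff m.1 f') (mem_support_iff.1 m.2)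
  have hact : ∀ (σ : AlgebraicClosure k ≃ₐ[k] AlgebraicClosure k) (m : f'.support),
      (((σ • c) m : (AlgebraicClosure k)ˣ) : AlgebraicClosure k) = σ (coeff m.1 f') :=
    fun σ m => rfl
  let φ : MvPolynomial (Fin 2) (AlgebraicClosure k) → f'.support → (AlgebraicClosure k)ˣ :=
    fun g m => if h : coeff m.1 g ≠ 0 then Units.mk0 _ h else 1
  have hφ : ∀ σ : AlgebraicClosure k ≃ₐ[k] AlgebraicClosure k,
      φ (map (σ : AlgebraicClosure k →+* AlgebraicClosure k) f') = σ • c := by
    intro σ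
    funext m
    apply Units.ext
    rw [hact]
    have h1 : coeff m.1 (map (σ : AlgebraicClosure k →+* AlgebraicClosure k) f') =
        σ (coeff m.1 f') := coeff_map _ _ _
    have h2 : coeff m.1 (map (σ : AlgebraicClosure k →+* AlgebraicClosure k) f') ≠ 0 := by
      rw [h1, Ne, map_eq_zero]
      exact mem_support_iff.1 m.2
    change ((if h : coeff m.1 (map (σ : AlgebraicClosure k →+* AlgebraicClosure k) f') ≠ 0 then
      Units.mk0 _ h else 1 : (AlgebraicClosure k)ˣ) : AlgebraicClosure k) = _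
    rw [dif_pos h2]
    exact h1
  have hφinj : ∀ g ∈ C, ∀ g' ∈ C, φ g = φ g' → g = g' := by
    intro g hg g' hg' h
    have hs := hCsupp g hg
    have hs' := hCsupp g' hg'
    obtain ⟨σ, rfl⟩ := (hC g).1 hg
    obtain ⟨τ, rfl⟩ := (hC g').1 hg'
    rw [hφ, hφ] at h
    refine MvPolynomial.ext _ _ fun m => ?_
    by_cases hm : m ∈ f'.support
    · have h1 := congrArg (fun t : (AlgebraicClosure k)ˣ => (t : AlgebraicClosure k))
        (congrFun h ⟨m, hm⟩)
      rw [coeff_map, coeff_map]
      exact h1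
    · rw [notMem_support_iff.1 (hs ▸ hm), notMem_support_iff.1 (hs' ▸ hm)]
  have horb : MulAction.orbit (AlgebraicClosure k ≃ₐ[k] AlgebraicClosure k) c =
      ((C.image φ : Finset (f'.support → (AlgebraicClosure k)ˣ)) :
        Set (f'.support → (AlgebraicClosure k)ˣ)) := by
    ext t
    rw [Finset.coe_image, Set.mem_image, MulAction.mem_orbit_iff]
    constructor
    · rintro ⟨σ, rfl⟩
      exact ⟨_, (hC _).2 ⟨σ, rfl⟩, hφ σ⟩
    · rintro ⟨g, hg, rfl⟩
      obtain ⟨σ, rfl⟩ := (hC g).1 hg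
      exact ⟨σ, (hφ σ).symm⟩
  have hfin : (MulAction.orbit (AlgebraicClosure k ≃ₐ[k] AlgebraicClosure k) c).Finite := by
    rw [horb]
    exact Finset.finite_toSet _
  have hcard : Nat.card (MulAction.orbit (AlgebraicClosure k ≃ₐ[k] AlgebraicClosure k) c) =
      C.card := by
    rw [horb]
    rw [Nat.card_coe_set_eq, Set.ncard_coe_finset, Finset.card_image_of_injOn]
    intro g hg g' hg' h
    exact hφinj g hg g' hg' h
  -- all primes of `S` are bad
  set S₁ := S.filter fun q => ∃ σ : AlgebraicClosure k ≃ₐ[k] AlgebraicClosure k,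
    σ • c ^ q = c ^ q ∧ σ • c ≠ c with hS₁
  set S₂ := S.filter fun q : ℕ => (q : ℤ) ∣ δ with hS₂
  have hbad : S ⊆ S₁ ∪ S₂ := by
    intro q hq
    by_contra hcon
    rw [Finset.mem_union, not_or, hS₁, hS₂, Finset.mem_filter, Finset.mem_filter] at hcon
    obtain ⟨hcon1, hcon2⟩ := hcon
    obtain ⟨hqp, G, hG0, hGdvd, hGdeg⟩ := hS q hq
    have hq0 : 0 < q := hqp.pos
    have hnd : ¬ (q : ℤ) ∣ δ := fun h => hcon2 ⟨hq, h⟩
    have hfixc : ∀ σ : AlgebraicClosure k ≃ₐ[k] AlgebraicClosure k,
        σ • c ^ q = c ^ q → σ • c = c := by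
      intro σ h
      by_contra h'
      exact hcon1 ⟨hq, σ, h, h'⟩
    have : NeZero (q : AlgebraicClosure k) := ⟨Nat.cast_ne_zero.2 hq0.ne'⟩
    obtain ⟨ζ, hζ⟩ := HasEnoughRootsOfUnity.exists_primitiveRoot (AlgebraicClosure k) q
    set N := Polynomial.nthRootsFinset q (1 : AlgebraicClosure k) with hN
    have hNcard : N.card = q := hζ.card_nthRootsFinset
    have hNmem : ∀ x ∈ N, x ^ q = 1 := fun x hx => (Polynomial.mem_nthRootsFinset hq0 _).1 hx
    have hN0 : ∀ x ∈ N, x ≠ 0 := by
      intro x hx h0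
      have := hNmem x hx
      rw [h0, zero_pow hq0.ne'] at this
      exact zero_ne_one this
    set I := C ×ˢ (N ×ˢ N) with hI
    let t : MvPolynomial (Fin 2) (AlgebraicClosure k) × (AlgebraicClosure k × AlgebraicClosure k) →
        MvPolynomial (Fin 2) (AlgebraicClosure k) := fun z => gsc ![z.2.1, z.2.2] z.1
    have hI' : ∀ z ∈ I, z.1 ∈ C ∧ z.2.1 ∈ N ∧ z.2.2 ∈ N := by
      intro z hz
      rw [hI, Finset.mem_product, Finset.mem_product] at hz
      exact hz
    have hη0 : ∀ z ∈ I, ∀ i, (![z.2.1, z.2.2] : Fin 2 → AlgebraicClosure k) i ≠ 0 := by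
      intro z hz i
      fin_cases i
      · exact hN0 _ (hI' z hz).2.1
      · exact hN0 _ (hI' z hz).2.2
    have hηq : ∀ z ∈ I, ∀ i, (![z.2.1, z.2.2] : Fin 2 → AlgebraicClosure k) i ^ q = 1 := by
      intro z hz i
      fin_cases i
      · exact hNmem _ (hI' z hz).2.1
      · exact hNmem _ (hI' z hz).2.2
    have htirr : ∀ z ∈ I, Irreducible (t z) := fun z hz =>
      gsc_irreducible (hη0 z hz) (hCirr _ (hI' z hz).1)
    set H : MvPolynomial (Fin 2) (AlgebraicClosure k) :=
      expand q (map (algebraMap k (AlgebraicClosure k)) G) with hH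
    have hH0 : H ≠ 0 := by
      rw [hH, expand_ne_zero hq0]
      intro h
      apply hG0
      apply map_injective _ hinjk
      rw [h, map_zero]
    have hFH : map (algebraMap k (AlgebraicClosure k)) f ∣ H := by
      have h1 := map_dvd (map (σ := Fin 2) (algebraMap k (AlgebraicClosure k))) hGdvd
      have h2 : powSub q G = expand q G := rfl
      rwa [h2, map_expand] at h1
    have htdvd : ∀ z ∈ I, t z ∣ H := by
      intro z hz
      have h1 : z.1 ∣ H := by
        refine dvd_trans ?_ hFH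
        rw [hprod]
        exact dvd_mul_of_dvd_right (Finset.dvd_prod_of_mem (fun g => g) (hI' z hz).1) _
      have h2 := map_dvd (gsc ![z.2.1, z.2.2]) h1
      rwa [hH, gsc_powSub (hηq z hz), ← hH] at h2
    have htass : ∀ z ∈ I, ∀ z' ∈ I, Associated (t z) (t z') → z = z' := by
      rintro z hz z' hz' ⟨v, hv⟩
      obtain ⟨r, hr, hr'⟩ := isUnit_iff_eq_C_of_isReduced.1 v.isUnit
      obtain ⟨g, x, y⟩ := z
      obtain ⟨g', x', y'⟩ := z'
      obtain ⟨hg, hx, hy⟩ := hI' _ hz
      obtain ⟨hg', hx', hy'⟩ := hI' _ hz'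
      simp only at hg hx hy hg' hx' hy'
      have hx0 := hN0 x hx
      have hy0 := hN0 y hy
      have hx'0 := hN0 x' hx'
      have hy'0 := hN0 y' hy'
      have hxq := hNmem x hx
      have hyq := hNmem y hy
      have hx'q := hNmem x' hx'
      have hy'q := hNmem y' hy'
      rw [hr', mul_comm] at hv
      have hcoef : ∀ m, r * (x ^ m 0 * y ^ m 1 * coeff m g) = x' ^ m 0 * y' ^ m 1 * coeff m g' := by
        intro m
        have h1 := congrArg (coeff m) hv
        change coeff m (MvPolynomial.C r * gsc ![x, y] g) = coeff m (gsc ![x', y'] g') at h1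
        rw [coeff_C_mul, coeff_gsc, coeff_gsc] at h1
        exact h1
      obtain ⟨σ, rfl⟩ := (hC g).1 hg
      obtain ⟨τ, rfl⟩ := (hC g').1 hg'
      have hc1 : coeff m₀ (map (σ : AlgebraicClosure k →+* AlgebraicClosure k) f') = 1 := by
        rw [coeff_map, hm₀, map_one]
      have hc2 : coeff m₀ (map (τ : AlgebraicClosure k →+* AlgebraicClosure k) f') = 1 := by
        rw [coeff_map, hm₀, map_one]
      have hr0 := hcoef m₀
      rw [hc1, hc2, mul_one, mul_one] at hr0
      have hrq : r ^ q = 1 := by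
        have h1 := congrArg (· ^ q) hr0
        simp only [mul_pow, ← pow_mul] at h1
        rw [mul_comm (m₀ 0) q, mul_comm (m₀ 1) q, pow_mul, pow_mul, pow_mul, pow_mul, hxq, hyq,
          hx'q, hy'q] at h1
        simpa using h1
      have hστ : σ • c = τ • c := by
        have h1 : (τ⁻¹ * σ) • c = c := by
          apply hfixc
          rw [mul_smul, inv_smul_eq_iff, smul_pow', smul_pow']
          funext m
          apply Units.ext
          rw [Pi.pow_apply, Pi.pow_apply, Units.val_pow_eq_pow_val, Units.val_pow_eq_pow_val, hact,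
            hact]
          have h2 := congrArg (· ^ q) (hcoef m.1)
          simp only [mul_pow, ← pow_mul] at h2
          rw [mul_comm (m.1 0) q, mul_comm (m.1 1) q, pow_mul, pow_mul, pow_mul, pow_mul, hxq, hyq,
            hx'q, hy'q, hrq, coeff_map, coeff_map] at h2
          simpa using h2
        rw [mul_smul, inv_smul_eq_iff] at h1
        exact h1
      have hgg : map (σ : AlgebraicClosure k →+* AlgebraicClosure k) f' =
          map (τ : AlgebraicClosure k →+* AlgebraicClosure k) f' := by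
        apply hφinj _ hg _ hg'
        rw [hφ, hφ, hστ]
      -- the roots of unity
      set ρ : AlgebraicClosure k := x' / x with hρ
      set κ : AlgebraicClosure k := y' / y with hκ
      have hρ0 : ρ ≠ 0 := div_ne_zero hx'0 hx0
      have hκ0 : κ ≠ 0 := div_ne_zero hy'0 hy0
      have hρq : ρ ^ q = 1 := by rw [hρ, div_pow, hxq, hx'q, div_one]
      have hκq : κ ^ q = 1 := by rw [hκ, div_pow, hyq, hy'q, div_one]
      have hrm : ∀ m ∈ f'.support, ρ ^ m 0 * κ ^ m 1 = r := by
        intro m hm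
        have h1 := hcoef m
        rw [← hgg] at h1
        have h2 : coeff m (map (σ : AlgebraicClosure k →+* AlgebraicClosure k) f') ≠ 0 := by
          rw [← mem_support_iff, hCsupp _ hg]
          exact hm
        have h3 : r * (x ^ m 0 * y ^ m 1) = x' ^ m 0 * y' ^ m 1 := by
          apply mul_right_cancel₀ h2
          rw [← h1]
          ring
        rw [hρ, hκ, div_pow, div_pow, div_mul_div_comm, ← h3]
        exact mul_div_cancel_right₀ r (mul_ne_zero (pow_ne_zero _ hx0) (pow_ne_zero _ hy0))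
      have hz1 : ρ ^ a * κ ^ b = 1 := by
        have h1 := (hrm m₁ hm₁).trans (hrm m₀ hm₀s).symm
        rw [ha, hb, zpow_sub₀ hρ0, zpow_sub₀ hκ0, zpow_natCast, zpow_natCast, zpow_natCast,
          zpow_natCast, div_mul_div_comm, h1, div_self]
        exact mul_ne_zero (pow_ne_zero _ hρ0) (pow_ne_zero _ hκ0)
      have hz2 : ρ ^ a₂ * κ ^ b₂ = 1 := by
        have h1 := (hrm m₂ hm₂).trans (hrm m₀ hm₀s).symm
        rw [ha₂, hb₂, zpow_sub₀ hρ0, zpow_sub₀ hκ0, zpow_natCast, zpow_natCast, zpow_natCast,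
          zpow_natCast, div_mul_div_comm, h1, div_self]
        exact mul_ne_zero (pow_ne_zero _ hρ0) (pow_ne_zero _ hκ0)
      have hρδ : ρ ^ δ = 1 := by
        have h1 : ρ ^ δ = (ρ ^ a * κ ^ b) ^ b₂ * (ρ ^ a₂ * κ ^ b₂) ^ (-b) := by
          rw [mul_zpow, mul_zpow, ← zpow_mul, ← zpow_mul, ← zpow_mul, ← zpow_mul,
            mul_mul_mul_comm, ← zpow_add₀ hρ0, ← zpow_add₀ hκ0]
          have e1 : b * b₂ + b₂ * -b = 0 := by ring
          have e2 : a * b₂ + a₂ * -b = δ := by rw [hδdef]; ring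
          rw [e1, e2, zpow_zero, mul_one]
        rw [h1, hz1, hz2, one_zpow, one_zpow, mul_one]
      have hκδ : κ ^ δ = 1 := by
        have h1 : κ ^ δ = (ρ ^ a₂ * κ ^ b₂) ^ a * (ρ ^ a * κ ^ b) ^ (-a₂) := by
          rw [mul_zpow, mul_zpow, ← zpow_mul, ← zpow_mul, ← zpow_mul, ← zpow_mul,
            mul_mul_mul_comm, ← zpow_add₀ hρ0, ← zpow_add₀ hκ0]
          have e1 : a₂ * a + a * -a₂ = 0 := by ring
          have e2 : b₂ * a + b * -a₂ = δ := by rw [hδdef]; ring
          rw [e1, e2, zpow_zero, one_mul]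
        rw [h1, hz1, hz2, one_zpow, one_zpow, mul_one]
      have hcop : IsCoprime (q : ℤ) δ :=
        (Prime.coprime_iff_not_dvd (Nat.prime_iff_prime_int.1 hqp)).2 hnd
      obtain ⟨s, w, hsw⟩ := hcop
      have hone : ∀ e : AlgebraicClosure k, e ≠ 0 → e ^ q = 1 → e ^ δ = 1 → e = 1 := by
        intro e he h1 h2
        have h3 : e ^ (s * (q : ℤ) + w * δ) = 1 := by
          rw [zpow_add₀ he, mul_comm s, mul_comm w, zpow_mul, zpow_mul, h2, zpow_natCast, h1,
            one_zpow, one_zpow, mul_one]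
        rwa [hsw, zpow_one] at h3
      have hρ1 := hone ρ hρ0 hρq hρδ
      have hκ1 := hone κ hκ0 hκq hκδ
      have hxx : x = x' := ((div_eq_one_iff_eq hx0).1 hρ1).symm
      have hyy : y = y' := ((div_eq_one_iff_eq hy0).1 hκ1).symm
      rw [hgg, hxx, hyy]
    have hPdvd : (∏ z ∈ I, t z) ∣ H := by
      apply Finset.prod_dvd_of_isRelPrime
      · intro z hz z' hz' hne
        change IsRelPrime (t z) (t z')
        rw [(htirr z hz).isRelPrime_iff_not_dvd]
        intro hdvd
        exact hne (htass z hz z' hz' ((htirr z hz).associated_of_dvd (htirr z' hz') hdvd))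
      · exact htdvd
    obtain ⟨Q, hQ⟩ := hPdvd
    have hP0 : (∏ z ∈ I, t z) ≠ 0 := Finset.prod_ne_zero_iff.2 fun z hz => (htirr z hz).ne_zero
    have hQ0 : Q ≠ 0 := by
      rintro rfl
      rw [mul_zero] at hQ
      exact hH0 hQ
    have hle : ∀ i, q * f.degreeOf i ≤ G.degreeOf i := by
      intro i
      have h1 : (∏ z ∈ I, t z).degreeOf i = I.card * f'.degreeOf i := by
        rw [degreeOf_prod_eq _ _ fun z hz => (htirr z hz).ne_zero]
        rw [Finset.sum_congr rfl fun z hz => (degreeOf_of_support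
          ((support_gsc (hη0 z hz) z.1).trans (hCsupp z.1 (hI' z hz).1)) i), Finset.sum_const,
          smul_eq_mul]
      have h2 : H.degreeOf i ≤ q * G.degreeOf i := by
        refine (degreeOf_expand_le q _ i).trans ?_
        rw [degreeOf_eq_sup, support_map_of_injective _ hinjk, ← degreeOf_eq_sup]
      rw [hQ, degreeOf_mul_eq hP0 hQ0, h1] at h2
      have h3 : I.card = C.card * (q * q) := by
        rw [hI, Finset.card_product, Finset.card_product, hNcard]
      rw [h3] at h2
      have h4 : q * (q * f.degreeOf i) ≤ q * G.degreeOf i := by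
        rw [hdeg i]
        calc q * (q * (C.card * f'.degreeOf i)) = C.card * (q * q) * f'.degreeOf i := by ring
          _ ≤ _ := le_trans (Nat.le_add_right _ _) h2
      exact Nat.le_of_mul_le_mul_left h4 hq0
    rcases hGdeg with h | h
    · exact absurd (hle 0) (not_le.2 h)
    · exact absurd (hle 1) (not_le.2 h)
  -- counting
  have h1 : 2 ^ S₁.card ≤ C.card := by
    rw [← hcard]
    apply drop_gen c hfin S₁
    · intro q hq
      exact (hS q (Finset.mem_filter.1 hq).1).1
    · intro q hq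
      obtain ⟨σ, h1, h2⟩ := (Finset.mem_filter.1 hq).2
      exact ⟨σ, h1, h2⟩
  have h2 : 2 ^ S₂.card ≤ δ.natAbs := by
    have h3 : (∏ q ∈ S₂, q) ∣ δ.natAbs := by
      apply Finset.prod_primes_dvd
      · intro q hq
        exact (hS q (Finset.mem_filter.1 hq).1).1.prime
      · intro q hq
        exact Int.natCast_dvd.1 (Finset.mem_filter.1 hq).2
    have h4 : 2 ^ S₂.card ≤ ∏ q ∈ S₂, q := by
      rw [← Finset.prod_const]
      exact Finset.prod_le_prod' fun q hq => (hS q (Finset.mem_filter.1 hq).1).1.two_le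
    exact h4.trans (Nat.le_of_dvd (Int.natAbs_pos.2 hδ0) h3)
  have h3 : 2 ^ S.card ≤ C.card * (2 * f'.degreeOf 0 * f'.degreeOf 1) := by
    calc 2 ^ S.card ≤ 2 ^ (S₁.card + S₂.card) :=
          Nat.pow_le_pow_right (by norm_num) ((Finset.card_le_card hbad).trans
            (Finset.card_union_le _ _))
      _ = 2 ^ S₁.card * 2 ^ S₂.card := pow_add _ _ _
      _ ≤ C.card * (2 * f'.degreeOf 0 * f'.degreeOf 1) :=
          Nat.mul_le_mul h1 (h2.trans hδle)
  have h4 : C.card * (2 * f'.degreeOf 0 * f'.degreeOf 1) ≤ 2 * f.degreeOf 0 * f.degreeOf 1 := by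
    rw [hdeg 0, hdeg 1]
    calc C.card * (2 * f'.degreeOf 0 * f'.degreeOf 1) =
          2 * (C.card * f'.degreeOf 0) * (1 * f'.degreeOf 1) := by ring
      _ ≤ _ := Nat.mul_le_mul_left _ (Nat.mul_le_mul_right _ hCpos)
  have h5 := h3.trans h4
  have h6 : 1 ≤ 2 ^ S.card := Nat.one_le_two_pow
  calc 2 ^ S.card ≤ 2 * f.degreeOf 0 * f.degreeOf 1 := h5
    _ ≤ (2 * f.degreeOf 0 * f.degreeOf 1) ^ 2 := by nlinarith

end Pool.Agent.Leh2
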