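import Pool.Agent.Leh2.Two
import Pool.Agent.Leh2.HtExt

set_option autoImplicit false
set_option linter.unusedVariables false

namespace Pool.Agent.Leh2

open NumberField Height Module IntermediateField

/-- The Galois closure. -/
private theorem exists_galois (K : Type) [Field K] [NumberField K] :
    ∃ (L : Type) (_ : Field L) (_ : NumberField L) (_ : IsGalois ℚ L), Nonempty (Algebra K L) := by
  let Ω := AlgebraicClosure K
  have hΩ : Algebra.IsAlgebraic ℚ Ω := Algebra.IsAlgebraic.trans ℚ K Ω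
  have hcl : IsAlgClosure ℚ Ω := ⟨inferInstance, hΩ⟩
  have hn : Normal ℚ Ω := IsAlgClosure.normal ℚ Ω
  let L := IntermediateField.normalClosure ℚ K Ω
  have hfin : FiniteDimensional ℚ L := normalClosure.is_finiteDimensional ℚ K Ω
  have hnf : NumberField L := ⟨⟩
  have hnor : Normal ℚ L := normalClosure.normal ℚ K Ω
  have hgal : IsGalois ℚ L := ⟨⟩
  exact ⟨L, inferInstance, hnf, hgal, ⟨inferInstance⟩⟩

private theorem exists_root (K : Type) [Field K] [NumberField K] :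
    ∃ ζ : K, IsPrimitiveRoot ζ (NumberField.Units.torsionOrder K) := by
  obtain ⟨μ, hμ⟩ : ∃ μ : NumberField.Units.torsion K,
      orderOf μ = NumberField.Units.torsionOrder K :=
    IsCyclic.exists_ofOrder_eq_natCard
  rw [← IsPrimitiveRoot.iff_orderOf, ← IsPrimitiveRoot.coe_submonoidClass_iff,
    ← IsPrimitiveRoot.coe_units_iff] at hμ
  exact ⟨_, hμ.map_of_injective (FaithfulSMul.algebraMap_injective (𝓞 K) K)⟩

private theorem deg_cyc {L : Type} [Field L] [NumberField L] {ζ : L} {N : ℕ}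
    (hζ : IsPrimitiveRoot ζ N) (hN : 0 < N) : finrank ℚ ℚ⟮ζ⟯ = N.totient := by
  rw [IntermediateField.adjoin.finrank (hζ.isIntegral hN).tower_top,
    ← Polynomial.cyclotomic_eq_minpoly_rat hζ hN, Polynomial.natDegree_cyclotomic]

private theorem od_le {K L : Type} [Field K] [NumberField K] [Field L] [NumberField L]
    [IsGalois ℚ L] (φ : K →ₐ[ℚ] L) (z x y : K) :
    finrank ℚ ℚ⟮φ z⟯ * od ℚ⟮φ z⟯ (φ x, φ y) ≤ finrank ℚ K := by
  rw [od_eq_finrank]
  have h2 := finrank_mul_finrank ℚ ℚ⟮φ z⟯ (IntermediateField.adjoin ℚ⟮φ z⟯ {φ x, φ y})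
  rw [h2]
  have hKI : finrank ℚ φ.fieldRange = finrank ℚ K :=
    (AlgEquiv.ofInjectiveField φ).toLinearEquiv.finrank_eq.symm
  have hzK : ℚ⟮φ z⟯ ≤ φ.fieldRange := by
    rw [IntermediateField.adjoin_simple_le_iff]
    exact ⟨z, rfl⟩
  have hle : (IntermediateField.adjoin ℚ⟮φ z⟯ {φ x, φ y}).restrictScalars ℚ ≤ φ.fieldRange := by
    intro w hw
    rw [IntermediateField.mem_restrictScalars] at hw
    have h3 : IntermediateField.adjoin ℚ⟮φ z⟯ {φ x, φ y} ≤
        IntermediateField.extendScalars hzK := by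
      rw [IntermediateField.adjoin_le_iff]
      rintro w (rfl | rfl)
      · exact ⟨x, rfl⟩
      · exact ⟨y, rfl⟩
    exact h3 hw
  rw [← hKI]
  exact Submodule.finrank_mono (R := ℚ) (M := L)
    (s := ((IntermediateField.adjoin ℚ⟮φ z⟯ {φ x, φ y}).restrictScalars ℚ).toSubalgebra.toSubmodule)
    (t := φ.fieldRange.toSubalgebra.toSubmodule) hle

private theorem setup (K : Type) [Field K] [NumberField K] :
    ∃ (L : Type) (_ : Field L) (_ : NumberField L) (_ : IsGalois ℚ L) (_ : Algebra K L) (ζ : L),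
      IsPrimitiveRoot ζ (NumberField.Units.torsionOrder K) ∧
      ∀ x y : K, od ℚ⟮ζ⟯ (algebraMap K L x, algebraMap K L y) *
        (NumberField.Units.torsionOrder K).totient ≤ finrank ℚ K := by
  obtain ⟨L, _, _, _, ⟨alg⟩⟩ := exists_galois K
  obtain ⟨z, hz⟩ := exists_root K
  have hN0 : 0 < NumberField.Units.torsionOrder K := NumberField.Units.torsionOrder_pos K
  have hζ : IsPrimitiveRoot (algebraMap K L z) (NumberField.Units.torsionOrder K) :=
    hz.map_of_injective (algebraMap K L).injective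
  refine ⟨L, inferInstance, inferInstance, inferInstance, alg, algebraMap K L z, hζ, ?_⟩
  intro x y
  have h := od_le ((algebraMap K L).toRatAlgHom) z x y
  rw [mul_comm, ← deg_cyc hζ hN0]
  exact h

/-- The analytic part. -/
private theorem ana (ε : ℝ) (hε : 0 < ε) (Y0 : ℝ) (hY0 : 1 ≤ Y0) : ∃ C : ℝ, 0 < C ∧
    ∀ D N d : ℕ, 0 < N → 0 < d → d * N.totient ≤ D →
      (max Y0 (max (Real.log N ^ 2) ((d : ℝ) ^ (ε / 64)))) ^ 32 * (Nat.log 2 N + 1) ≤
        C * (D : ℝ) ^ ε := by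
  set δ : ℝ := ε / 256 with hδ
  have hδ0 : 0 < δ := by positivity
  -- constants
  set A : ℝ := 4 ^ δ / δ with hA
  have hA0 : 0 < A := by positivity
  refine ⟨(Y0 ^ 32 + A ^ 64 + 1) * (2 * A + 1), by positivity, ?_⟩
  intro D N d hN hd hdN
  have hφ : 0 < N.totient := Nat.totient_pos.2 hN
  have hD1 : 1 ≤ D := le_trans (Nat.mul_pos hd hφ) hdN
  have hD1' : (1 : ℝ) ≤ D := by exact_mod_cast hD1
  have hφD : N.totient ≤ D := le_trans (Nat.le_mul_of_pos_left _ hd) hdN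
  have hdD : d ≤ D := le_trans (Nat.le_mul_of_pos_right _ hφ) hdN
  have hN1 : (1 : ℝ) ≤ N := by exact_mod_cast hN
  -- `N ≤ 4 D ^ 2`
  have hlog2 : ((Nat.log 2 N : ℕ) : ℝ) + 1 ≤ 2 * Real.sqrt N := by
    have key : ∀ n : ℕ, (n + 1) ^ 2 ≤ 4 * 2 ^ n ∧ 2 * n + 3 ≤ 4 * 2 ^ n := by
      intro n
      induction n with
      | zero => norm_num
      | succ n ih =>
        have e : 4 * 2 ^ (n + 1) = 2 * (4 * 2 ^ n) := by ring
        constructor <;> rw [e] <;> nlinarith [ih.1, ih.2]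
    have h1 := (key (Nat.log 2 N)).1
    have h2 : 2 ^ Nat.log 2 N ≤ N := Nat.pow_log_le_self 2 hN.ne'
    have h3 : (Nat.log 2 N + 1) ^ 2 ≤ 4 * N := h1.trans (Nat.mul_le_mul_left 4 h2)
    have h4 : (((Nat.log 2 N : ℕ) : ℝ) + 1) ^ 2 ≤ 4 * N := by exact_mod_cast h3
    have h5 : Real.sqrt N * Real.sqrt N = N := Real.mul_self_sqrt (by positivity)
    have h6 : 0 ≤ Real.sqrt N := Real.sqrt_nonneg _
    by_contra hcon
    push Not at hcon
    nlinarith
  have hN4 : (N : ℝ) ≤ 4 * (D : ℝ) ^ 2 := by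
    have h1 := le_totient_mul N hN
    have h2 : (N : ℝ) ≤ N.totient * (Nat.log 2 N + 1) := by exact_mod_cast h1
    have h3 : (N : ℝ) ≤ D * (2 * Real.sqrt N) := by
      refine h2.trans (mul_le_mul (by exact_mod_cast hφD) hlog2 (by positivity) (by positivity))
    have h4 : Real.sqrt N * Real.sqrt N = N := Real.mul_self_sqrt (by positivity)
    have h5 : 0 < Real.sqrt N := Real.sqrt_pos.2 (by linarith)
    have h6 : Real.sqrt N ≤ 2 * D := by
      by_contra hcon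
      push Not at hcon
      nlinarith
    nlinarith
  have hlogN : Real.log N ≤ A * (D : ℝ) ^ (2 * δ) := by
    calc Real.log N ≤ (N : ℝ) ^ δ / δ := Real.log_le_rpow_div (by linarith) hδ0
      _ ≤ (4 * (D : ℝ) ^ 2) ^ δ / δ := by
          gcongr
      _ = A * (D : ℝ) ^ (2 * δ) := by
          rw [Real.mul_rpow (by norm_num) (by positivity), Real.rpow_mul (by positivity), hA]
          norm_cast
          ring
  have hlogN0 : 0 ≤ Real.log N := Real.log_nonneg hN1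
  have hDδ : (1 : ℝ) ≤ (D : ℝ) ^ (2 * δ) := Real.one_le_rpow hD1' (by positivity)
  have hl2 : ((Nat.log 2 N : ℕ) : ℝ) + 1 ≤ (2 * A + 1) * (D : ℝ) ^ (2 * δ) := by
    have h1 : ((Nat.log 2 N : ℕ) : ℝ) ≤ 2 * Real.log N := by
      have h2 : ((Nat.log 2 N : ℕ) : ℝ) ≤ Real.logb 2 N := by
        exact_mod_cast Real.natLog_le_logb N 2
      rw [Real.logb] at h2
      have h3 : (1 / 2 : ℝ) < Real.log 2 := by linarith [Real.log_two_gt_d9]
      refine h2.trans ?_
      rw [div_le_iff₀ (by linarith)]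
      nlinarith
    nlinarith
  have hY32 : (max Y0 (max (Real.log N ^ 2) ((d : ℝ) ^ (ε / 64)))) ^ 32 ≤
      (Y0 ^ 32 + A ^ 64 + 1) * (D : ℝ) ^ (ε / 2) := by
    have hDε : (1 : ℝ) ≤ (D : ℝ) ^ (ε / 2) := Real.one_le_rpow hD1' (by positivity)
    have ha : Y0 ^ 32 ≤ (Y0 ^ 32 + A ^ 64 + 1) * (D : ℝ) ^ (ε / 2) := by
      have : 0 ≤ Y0 ^ 32 := by positivity
      have : 0 ≤ A ^ 64 := by positivity
      nlinarith
    have hb : (Real.log N ^ 2) ^ 32 ≤ (Y0 ^ 32 + A ^ 64 + 1) * (D : ℝ) ^ (ε / 2) := by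
      have h1 : (Real.log N ^ 2) ^ 32 ≤ (A * (D : ℝ) ^ (2 * δ)) ^ 64 := by
        rw [← pow_mul]
        exact pow_le_pow_left₀ hlogN0 hlogN 64
      have h2 : (A * (D : ℝ) ^ (2 * δ)) ^ 64 = A ^ 64 * (D : ℝ) ^ (ε / 2) := by
        rw [mul_pow, ← Real.rpow_natCast ((D : ℝ) ^ (2 * δ)), ← Real.rpow_mul (by positivity)]
        congr 2
        rw [hδ]
        push_cast
        ring
      rw [h2] at h1
      have : 0 ≤ Y0 ^ 32 := by positivity
      nlinarith
    have hc : ((d : ℝ) ^ (ε / 64)) ^ 32 ≤ (Y0 ^ 32 + A ^ 64 + 1) * (D : ℝ) ^ (ε / 2) := by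
      have h1 : ((d : ℝ) ^ (ε / 64)) ^ 32 = (d : ℝ) ^ (ε / 2) := by
        rw [← Real.rpow_natCast, ← Real.rpow_mul (Nat.cast_nonneg d)]
        congr 1
        push_cast
        ring
      rw [h1]
      have h2 : (d : ℝ) ^ (ε / 2) ≤ (D : ℝ) ^ (ε / 2) :=
        Real.rpow_le_rpow (Nat.cast_nonneg d) (by exact_mod_cast hdD) (by positivity)
      have : 0 ≤ Y0 ^ 32 := by positivity
      have : 0 ≤ A ^ 64 := by positivity
      nlinarith
    rcases max_choice Y0 (max (Real.log N ^ 2) ((d : ℝ) ^ (ε / 64))) with h | h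
    · rw [h]
      exact ha
    · rw [h]
      rcases max_choice (Real.log N ^ 2) ((d : ℝ) ^ (ε / 64)) with h' | h'
      · rw [h']
        exact hb
      · rw [h']
        exact hc
  calc (max Y0 (max (Real.log N ^ 2) ((d : ℝ) ^ (ε / 64)))) ^ 32 * (Nat.log 2 N + 1)
      ≤ ((Y0 ^ 32 + A ^ 64 + 1) * (D : ℝ) ^ (ε / 2)) * ((2 * A + 1) * (D : ℝ) ^ (2 * δ)) :=
        mul_le_mul hY32 hl2 (by positivity) (by positivity)
    _ = (Y0 ^ 32 + A ^ 64 + 1) * (2 * A + 1) * (D : ℝ) ^ (ε / 2 + 2 * δ) := by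
        rw [Real.rpow_add (by linarith)]
        ring
    _ ≤ (Y0 ^ 32 + A ^ 64 + 1) * (2 * A + 1) * (D : ℝ) ^ ε := by
        refine mul_le_mul_of_nonneg_left ?_ (by positivity)
        refine Real.rpow_le_rpow_of_exponent_le hD1' ?_
        rw [hδ]
        linarith

private theorem Y_props (ε : ℝ) (hε : 0 < ε) (Y0 : ℝ) (hY0 : 1 ≤ Y0) (N d : ℕ) (hd : 0 < d) :
    Y0 ≤ max Y0 (max (Real.log N ^ 2) ((d : ℝ) ^ (ε / 64))) ∧
    Real.log N ^ 2 ≤ max Y0 (max (Real.log N ^ 2) ((d : ℝ) ^ (ε / 64))) ∧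
    (d : ℝ) ≤ (max Y0 (max (Real.log N ^ 2) ((d : ℝ) ^ (ε / 64)))) ^ (64 / ε) := by
  refine ⟨le_max_left _ _, le_trans (le_max_left _ _) (le_max_right _ _), ?_⟩
  have h1 : (d : ℝ) ^ (ε / 64) ≤ max Y0 (max (Real.log N ^ 2) ((d : ℝ) ^ (ε / 64))) :=
    le_trans (le_max_right _ _) (le_max_right _ _)
  have h2 : (0 : ℝ) ≤ d := Nat.cast_nonneg d
  calc (d : ℝ) = ((d : ℝ) ^ (ε / 64)) ^ (64 / ε) := by
        rw [← Real.rpow_mul h2]
        have : ε / 64 * (64 / ε) = 1 := by field_simp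
        rw [this, Real.rpow_one]
    _ ≤ _ := Real.rpow_le_rpow (Real.rpow_nonneg h2 _) h1 (by positivity)

/-- KF1. Dimension one. -/
theorem leh_one : ∀ ε : ℝ, 0 < ε → ∃ c : ℝ, 0 < c ∧ ∀ (K : Type) [Field K] [NumberField K]
    (a : K), a ≠ 0 → (∀ n : ℕ, 0 < n → a ^ n ≠ 1) →
    c * NumberField.Units.torsionOrder K * (finrank ℚ K : ℝ) ^ (-ε) ≤ logHeight₁ a := by
  intro ε hε
  obtain ⟨Y0, hY0, hcore⟩ := leh1_core (64 / ε) (by positivity)
  obtain ⟨C, hC, hana⟩ := ana ε hε Y0 hY0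
  refine ⟨1 / C, by positivity, ?_⟩
  intro K _ _ a ha0 hator
  obtain ⟨L, _, _, _, _, ζ, hζ, hod⟩ := setup K
  set N := NumberField.Units.torsionOrder K with hN
  have hN0 : 0 < N := NumberField.Units.torsionOrder_pos K
  set D := finrank ℚ K with hD
  have hD0 : (0 : ℝ) < D := by
    rw [hD]
    exact_mod_cast finrank_pos
  have hod1 := hod a 1
  rw [map_one] at hod1
  set d := od ℚ⟮ζ⟯ (algebraMap K L a, 1) with hd
  have hd0 : 0 < d := od_pos _ _
  set Y := max Y0 (max (Real.log N ^ 2) ((d : ℝ) ^ (ε / 64))) with hY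
  obtain ⟨hY1, hY2, hY3⟩ := Y_props ε hε Y0 hY0 N d hd0
  have hYone : 1 ≤ Y := hY0.trans hY1
  have h1 := hcore L ζ N hζ hN0 (algebraMap K L a) ((map_ne_zero _).2 ha0)
    (fun n hn h => hator n hn ((algebraMap K L).injective (by rw [map_pow, h, map_one])))
    Y hY1 hY2 hY3
  rw [nh_algebraMap] at h1
  have h2 := hana D N d hN0 hd0 hod1
  rw [← hY] at h2
  have h3 : Y ^ 3 ≤ Y ^ 32 := pow_le_pow_right₀ hYone (by norm_num)
  have h4 := le_totient_mul N hN0
  have h4' : (N : ℝ) ≤ N.totient * (Nat.log 2 N + 1) := by exact_mod_cast h4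
  have hod2 : (d : ℝ) * N.totient ≤ D := by exact_mod_cast hod1
  -- conclusion
  have hnh : logHeight₁ a = D * nh a := by
    unfold nh
    rw [← hD]
    field_simp
  have hnh0 : 0 ≤ nh a := by
    unfold nh
    exact div_nonneg (zero_le_logHeight₁ a) (Nat.cast_nonneg _)
  rw [hnh]
  have hYpos : 0 < Y := lt_of_lt_of_le one_pos hYone
  have hφ : (0 : ℝ) ≤ N.totient := Nat.cast_nonneg _
  -- `φ(N) ≤ D * Y ^ 32 * nh a`
  have h5 : (N.totient : ℝ) ≤ D * Y ^ 32 * nh a := by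
    calc (N.totient : ℝ) = N.totient * 1 := (mul_one _).symm
      _ ≤ N.totient * (d * Y ^ 3 * nh a) := mul_le_mul_of_nonneg_left h1 hφ
      _ = (d * N.totient) * (Y ^ 3 * nh a) := by ring
      _ ≤ D * (Y ^ 32 * nh a) := by
          apply mul_le_mul hod2 _ (by positivity) hD0.le
          exact mul_le_mul_of_nonneg_right h3 hnh0
      _ = D * Y ^ 32 * nh a := by ring
  have hDε : (0 : ℝ) < (D : ℝ) ^ ε := Real.rpow_pos_of_pos hD0 ε
  have h6 : (N : ℝ) ≤ (C * (D : ℝ) ^ ε) * (D * nh a) := by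
    calc (N : ℝ) ≤ N.totient * (Nat.log 2 N + 1) := h4'
      _ ≤ (D * Y ^ 32 * nh a) * (Nat.log 2 N + 1) :=
          mul_le_mul_of_nonneg_right h5 (by positivity)
      _ = (Y ^ 32 * (Nat.log 2 N + 1)) * (D * nh a) := by ring
      _ ≤ (C * (D : ℝ) ^ ε) * (D * nh a) := mul_le_mul_of_nonneg_right h2 (by positivity)
  rw [Real.rpow_neg hD0.le]
  calc 1 / C * (N : ℝ) * ((D : ℝ) ^ ε)⁻¹ = (N : ℝ) / (C * (D : ℝ) ^ ε) := by
        field_simp
    _ ≤ D * nh a := by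
        rw [div_le_iff₀ (by positivity)]
        linarith

/-- KF2. Dimension two. -/
theorem leh_two : ∀ ε : ℝ, 0 < ε → ∃ c : ℝ, 0 < c ∧ ∀ (K : Type) [Field K] [NumberField K]
    (a b : K), a ≠ 0 → b ≠ 0 → (∀ m n : ℤ, a ^ m * b ^ n = 1 → m = 0 ∧ n = 0) →
    c * NumberField.Units.torsionOrder K * (finrank ℚ K : ℝ) ^ (1 - ε) ≤
      logHeight₁ a * logHeight₁ b := by
  intro ε hε
  obtain ⟨Y0, hY0, hcore⟩ := leh2_core (64 / ε) (by positivity)
  obtain ⟨C, hC, hana⟩ := ana ε hε Y0 hY0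
  refine ⟨1 / C, by positivity, ?_⟩
  intro K _ _ a b ha0 hb0 hind
  obtain ⟨L, _, _, _, _, ζ, hζ, hod⟩ := setup K
  set N := NumberField.Units.torsionOrder K with hN
  have hN0 : 0 < N := NumberField.Units.torsionOrder_pos K
  set D := finrank ℚ K with hD
  have hD0 : (0 : ℝ) < D := by
    rw [hD]
    exact_mod_cast finrank_pos
  have hod1 := hod a b
  set d := od ℚ⟮ζ⟯ (algebraMap K L a, algebraMap K L b) with hd
  have hd0 : 0 < d := od_pos _ _
  set Y := max Y0 (max (Real.log N ^ 2) ((d : ℝ) ^ (ε / 64))) with hY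
  obtain ⟨hY1, hY2, hY3⟩ := Y_props ε hε Y0 hY0 N d hd0
  have hYone : 1 ≤ Y := hY0.trans hY1
  have hMI : MI2 (algebraMap K L a) (algebraMap K L b) := by
    refine ⟨(map_ne_zero _).2 ha0, (map_ne_zero _).2 hb0, fun m n h => hind m n ?_⟩
    apply (algebraMap K L).injective
    rw [map_mul, map_zpow₀, map_zpow₀, h, map_one]
  have h1 := hcore L ζ N hζ hN0 _ _ hMI Y hY1 hY2 hY3
  rw [nh_algebraMap, nh_algebraMap] at h1
  have h2 := hana D N d hN0 hd0 hod1
  rw [← hY] at h2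
  have h4 := le_totient_mul N hN0
  have h4' : (N : ℝ) ≤ N.totient * (Nat.log 2 N + 1) := by exact_mod_cast h4
  have hod2 : (d : ℝ) * N.totient ≤ D := by exact_mod_cast hod1
  have hnh : ∀ a : K, logHeight₁ a = D * nh a := by
    intro a
    unfold nh
    rw [← hD]
    field_simp
  have hnh0 : ∀ a : K, 0 ≤ nh a := by
    intro a
    unfold nh
    exact div_nonneg (zero_le_logHeight₁ a) (Nat.cast_nonneg _)
  rw [hnh, hnh]
  have hYpos : 0 < Y := lt_of_lt_of_le one_pos hYone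
  have hφ : (0 : ℝ) ≤ N.totient := Nat.cast_nonneg _
  have hab : 0 ≤ nh a * nh b := mul_nonneg (hnh0 a) (hnh0 b)
  have h5 : (N.totient : ℝ) ≤ D * Y ^ 32 * (nh a * nh b) := by
    calc (N.totient : ℝ) = N.totient * 1 := (mul_one _).symm
      _ ≤ N.totient * (d * Y ^ 32 * (nh a * nh b)) := mul_le_mul_of_nonneg_left h1 hφ
      _ = (d * N.totient) * (Y ^ 32 * (nh a * nh b)) := by ring
      _ ≤ D * (Y ^ 32 * (nh a * nh b)) :=
          mul_le_mul_of_nonneg_right hod2 (by positivity)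
      _ = D * Y ^ 32 * (nh a * nh b) := by ring
  have hDε : (0 : ℝ) < (D : ℝ) ^ ε := Real.rpow_pos_of_pos hD0 ε
  have h6 : (N : ℝ) ≤ (C * (D : ℝ) ^ ε) * (D * (nh a * nh b)) := by
    calc (N : ℝ) ≤ N.totient * (Nat.log 2 N + 1) := h4'
      _ ≤ (D * Y ^ 32 * (nh a * nh b)) * (Nat.log 2 N + 1) :=
          mul_le_mul_of_nonneg_right h5 (by positivity)
      _ = (Y ^ 32 * (Nat.log 2 N + 1)) * (D * (nh a * nh b)) := by ring
      _ ≤ (C * (D : ℝ) ^ ε) * (D * (nh a * nh b)) :=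
          mul_le_mul_of_nonneg_right h2 (by positivity)
  rw [Real.rpow_sub hD0, Real.rpow_one]
  calc 1 / C * (N : ℝ) * ((D : ℝ) / (D : ℝ) ^ ε) = (N : ℝ) * D / (C * (D : ℝ) ^ ε) := by
        field_simp
    _ ≤ D * nh a * (D * nh b) := by
        rw [div_le_iff₀ (by positivity)]
        nlinarith

end Pool.Agent.Leh2
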