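import Pool.Agent.Leh2.Defs

set_option autoImplicit false
set_option linter.unusedVariables false

namespace Pool.Agent.Leh2

private theorem pr_two_pow_card (N : ℕ) (hN : 0 < N) : 2 ^ N.primeFactors.card ≤ N := by
  have h1 : 2 ^ N.primeFactors.card ≤ ∏ p ∈ N.primeFactors, p := by
    refine Finset.pow_card_le_prod _ _ _ ?_
    intro p hp
    exact (Nat.prime_of_mem_primeFactors hp).two_le
  exact h1.trans (Nat.le_of_dvd hN (Nat.prod_primeFactors_dvd N))

private theorem pr_prod_le (S : Finset ℕ) (hS : ∀ p ∈ S, 2 ≤ p) :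
    ∏ p ∈ S, p ≤ (∏ p ∈ S, (p - 1)) * (S.card + 1) := by
  induction S using Finset.induction_on_max with
  | empty => simp
  | insert a s ha ih =>
    have hna : a ∉ s := fun h => lt_irrefl _ (ha a h)
    have h1 := ih (fun p hp => hS p (Finset.mem_insert_of_mem hp))
    rw [Finset.prod_insert hna, Finset.prod_insert hna, Finset.card_insert_of_notMem hna]
    have hcard : s.card + 2 ≤ a := by
      have h2 : s ⊆ Finset.Ico 2 a := by
        intro p hp
        rw [Finset.mem_Ico]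
        exact ⟨hS p (Finset.mem_insert_of_mem hp), ha p hp⟩
      have h3 := Finset.card_le_card h2
      rw [Nat.card_Ico] at h3
      have h4 := hS a (Finset.mem_insert_self _ _)
      omega
    have h5 : a * (s.card + 1) ≤ (a - 1) * (s.card + 1 + 1) := by
      obtain ⟨t, rfl⟩ : ∃ t, a = t + 1 := ⟨a - 1, by omega⟩
      rw [Nat.add_sub_cancel]
      nlinarith
    calc a * ∏ p ∈ s, p ≤ a * ((∏ p ∈ s, (p - 1)) * (s.card + 1)) := Nat.mul_le_mul_left _ h1
      _ = (∏ p ∈ s, (p - 1)) * (a * (s.card + 1)) := by ring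
      _ ≤ (∏ p ∈ s, (p - 1)) * ((a - 1) * (s.card + 1 + 1)) := Nat.mul_le_mul_left _ h5
      _ = (a - 1) * (∏ p ∈ s, (p - 1)) * (s.card + 1 + 1) := by ring

/-- PR1. Many primes. -/
theorem many_primes (r : ℕ) (hr : 2 ≤ r) : ∃ Y0 : ℝ, ∀ Y : ℝ, Y0 ≤ Y → ∀ N : ℕ, 0 < N →
    Real.log N ^ 2 ≤ Y → ∀ B : Finset ℕ, (B.card : ℝ) ≤ Y →
    ∃ Λ : Finset ℕ, (∀ p ∈ Λ, p.Prime ∧ ¬ p ∣ N ∧ p ∉ B ∧ Y ≤ p ∧ (p : ℝ) ≤ Y ^ r) ∧
      Y ^ (r - 1) ≤ (Λ.card : ℝ) := by
  classical
  have hlog2 : 0 < Real.log 2 := Real.log_pos (by norm_num)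
  have hr0 : (0 : ℝ) < r := by
    have : 0 < r := by omega
    exact_mod_cast this
  have e1 : ∀ᶠ Y : ℝ in Filter.atTop, ‖Real.log Y‖ ≤ (Real.log 2 / (24 * r)) * ‖Y‖ :=
    Real.isLittleO_log_id_atTop.bound (by positivity)
  have e2 : ∀ᶠ x : ℝ in Filter.atTop, ‖Real.log x‖ ≤ (Real.log 2 / 8) * ‖x‖ :=
    Real.isLittleO_log_id_atTop.bound (by positivity)
  have t2 : Filter.Tendsto (fun Y : ℝ => Y ^ r + 2) Filter.atTop Filter.atTop :=
    Filter.tendsto_atTop_add_const_right _ _ (Filter.tendsto_pow_atTop (by omega))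
  have e3 := t2.eventually e2
  obtain ⟨Y0, hY0⟩ := Filter.eventually_atTop.mp (e1.and (e3.and (Filter.eventually_ge_atTop 4)))
  refine ⟨Y0, fun Y hY N hN hNY B hB => ?_⟩
  obtain ⟨h1, h2, h4⟩ := hY0 Y hY
  have hY1 : 1 ≤ Y := by linarith
  have hYpos : 0 < Y := by linarith
  set x : ℝ := Y ^ r with hx
  have hxY : Y ^ (r - 1) * Y = x := by
    rw [hx, ← pow_succ]
    congr 1
    omega
  have hYr : Y ≤ Y ^ (r - 1) := by
    have := pow_le_pow_right₀ hY1 (show 1 ≤ r - 1 by omega)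
    rwa [pow_one] at this
  have hx4 : 4 * Y ≤ x := by
    rw [← hxY]
    nlinarith
  have hx1 : 1 < x := by linarith
  have hlx : Real.log x = r * Real.log Y := by
    rw [hx, Real.log_pow]
  have hlY : 0 ≤ Real.log Y := Real.log_nonneg hY1
  rw [Real.norm_of_nonneg hlY, Real.norm_of_nonneg hYpos.le] at h1
  rw [Real.norm_of_nonneg (Real.log_nonneg (by linarith)), Real.norm_of_nonneg (by linarith)] at h2
  have hpi := Chebyshev.pi_ge' hx1
  have hlxpos : 0 < Real.log x := Real.log_pos hx1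
  have hmain : 6 * Y ^ (r - 1) ≤ (Nat.primeCounting ⌊x⌋₊ : ℝ) := by
    refine le_trans ?_ hpi
    rw [le_div_iff₀ hlxpos, hlx]
    have h5 : 6 * Y ^ (r - 1) * (r * Real.log Y) ≤ Real.log 2 / 4 * x := by
      calc 6 * Y ^ (r - 1) * (r * Real.log Y)
          ≤ 6 * Y ^ (r - 1) * (r * (Real.log 2 / (24 * r) * Y)) := by gcongr
        _ = Real.log 2 / 4 * (Y ^ (r - 1) * Y) := by
          field_simp
          ring
        _ = Real.log 2 / 4 * x := by rw [hxY]
    have h6 : Real.log (x + 2) ≤ Real.log 2 / 4 * x := by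
      have : Real.log 2 / 8 * (x + 2) ≤ Real.log 2 / 4 * x := by nlinarith
      linarith
    have h7 : Real.log 2 ≤ Real.log 2 / 4 * x := by nlinarith
    nlinarith
  set n := ⌊x⌋₊ with hn
  let P : Finset ℕ := (Finset.range (n + 1)).filter Nat.Prime
  have hP : P.card = Nat.primeCounting n := by
    rw [Nat.primeCounting, Nat.primeCounting', Nat.count_eq_card_filter_range]
  let S1 : Finset ℕ := Finset.range (⌈Y⌉₊)
  let Λ : Finset ℕ := P \ (N.primeFactors ∪ B ∪ S1)
  have hcard : P.card ≤ Λ.card + (N.primeFactors.card + B.card + S1.card) := by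
    have h8 := Finset.le_card_sdiff (N.primeFactors ∪ B ∪ S1) P
    have h9 := Finset.card_union_le (N.primeFactors ∪ B) S1
    have h10 := Finset.card_union_le N.primeFactors B
    have h11 : (P \ (N.primeFactors ∪ B ∪ S1)).card = Λ.card := rfl
    omega
  have hS1 : (S1.card : ℝ) ≤ Y + 1 := by
    rw [Finset.card_range]
    exact (Nat.ceil_lt_add_one hYpos.le).le
  have hNf : (N.primeFactors.card : ℝ) ≤ 2 * Y := by
    have h8 := pr_two_pow_card N hN
    have h9 : (N.primeFactors.card : ℝ) * Real.log 2 ≤ Real.log N := by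
      rw [← Real.log_pow]
      apply Real.log_le_log (by positivity)
      exact_mod_cast h8
    have h10 : Real.log N ≤ Y := by
      nlinarith
    have h11 : 1 / 2 < Real.log 2 := by linarith [Real.log_two_gt_d9]
    have h12 : (0 : ℝ) ≤ N.primeFactors.card := Nat.cast_nonneg _
    nlinarith
  refine ⟨Λ, ?_, ?_⟩
  · intro p hp
    simp only [Λ, P, S1, Finset.mem_sdiff, Finset.mem_filter, Finset.mem_range,
      Finset.mem_union, not_or, not_lt] at hp
    obtain ⟨⟨hp1, hp2⟩, ⟨hp3, hp4⟩, hp5⟩ := hp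
    refine ⟨hp2, ?_, hp4, ?_, ?_⟩
    · intro h
      exact hp3 (Nat.mem_primeFactors.mpr ⟨hp2, h, hN.ne'⟩)
    · exact (Nat.le_ceil Y).trans (by exact_mod_cast hp5)
    · have h8 : p ≤ n := by omega
      exact (Nat.le_floor_iff (by linarith)).mp h8
  · have h8 : (P.card : ℝ) ≤ Λ.card + (N.primeFactors.card + B.card + S1.card) := by
      exact_mod_cast hcard
    rw [hP] at h8
    nlinarith

/-- PR2. -/
theorem le_totient_mul (N : ℕ) (hN : 0 < N) : N ≤ N.totient * (Nat.log 2 N + 1) := by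
  have h1 := Nat.totient_mul_prod_primeFactors N
  have h2 := pr_prod_le N.primeFactors (fun p hp => (Nat.prime_of_mem_primeFactors hp).two_le)
  have h3 : 0 < ∏ p ∈ N.primeFactors, (p - 1) := by
    refine Finset.prod_pos fun p hp => ?_
    have := (Nat.prime_of_mem_primeFactors hp).two_le
    omega
  have h4 : N.primeFactors.card ≤ Nat.log 2 N :=
    Nat.le_log_of_pow_le (by norm_num) (pr_two_pow_card N hN)
  apply Nat.le_of_mul_le_mul_right _ h3
  rw [← h1]
  calc N.totient * ∏ p ∈ N.primeFactors, p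
      ≤ N.totient * ((∏ p ∈ N.primeFactors, (p - 1)) * (N.primeFactors.card + 1)) :=
        Nat.mul_le_mul_left _ h2
    _ ≤ N.totient * ((∏ p ∈ N.primeFactors, (p - 1)) * (Nat.log 2 N + 1)) := by gcongr
    _ = N.totient * (Nat.log 2 N + 1) * ∏ p ∈ N.primeFactors, (p - 1) := by ring

end Pool.Agent.Leh2
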