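import Pool.Agent.Leh2.Drop

set_option autoImplicit false
set_option linter.unusedVariables false

namespace Pool.Agent.Leh2

open MvPolynomial Module

/-- The exponent vector. -/
private noncomputable def ex {L1 L2 : ℕ} (i : Fin L1 × Fin L2) : Fin 2 →₀ ℕ :=
  Finsupp.single 0 (i.1 : ℕ) + Finsupp.single 1 (i.2 : ℕ)

private theorem ex_zero {L1 L2 : ℕ} (i : Fin L1 × Fin L2) : ex i 0 = (i.1 : ℕ) := by
  simp [ex]

private theorem ex_one {L1 L2 : ℕ} (i : Fin L1 × Fin L2) : ex i 1 = (i.2 : ℕ) := by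
  simp [ex]

private theorem ex_inj {L1 L2 : ℕ} {i j : Fin L1 × Fin L2} (h : ex i = ex j) : i = j := by
  have h0 := DFunLike.congr_fun h 0
  have h1 := DFunLike.congr_fun h 1
  rw [ex_zero, ex_zero] at h0
  rw [ex_one, ex_one] at h1
  exact Prod.ext (Fin.ext h0) (Fin.ext h1)

private theorem toPoly_eq {K : Type} [Field K] {L1 L2 : ℕ} (c : Fin L1 × Fin L2 → K) :
    toPoly c = ∑ i, monomial (ex i) (c i) := by
  unfold toPoly
  refine Finset.sum_congr rfl fun i _ => ?_
  rw [C_mul_X_pow_eq_monomial, X_pow_eq_monomial, monomial_mul, mul_one]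
  rfl

private theorem coeff_toPoly {K : Type} [Field K] {L1 L2 : ℕ} (c : Fin L1 × Fin L2 → K)
    (i : Fin L1 × Fin L2) : coeff (ex i) (toPoly c) = c i := by
  classical
  rw [toPoly_eq, coeff_sum, Finset.sum_eq_single i]
  · rw [coeff_monomial, if_pos rfl]
  · intro j _ hj
    rw [coeff_monomial, if_neg fun h => hj (ex_inj h)]
  · intro h
    exact absurd (Finset.mem_univ i) h

private theorem support_toPoly {K : Type} [Field K] {L1 L2 : ℕ} (c : Fin L1 × Fin L2 → K)
    (m : Fin 2 →₀ ℕ) (hm : m ∈ (toPoly c).support) : m 0 < L1 ∧ m 1 < L2 := by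
  classical
  rw [toPoly_eq, MvPolynomial.mem_support_iff, coeff_sum] at hm
  obtain ⟨i, _, hi⟩ := Finset.exists_ne_zero_of_sum_ne_zero hm
  rw [coeff_monomial] at hi
  have h1 : ex i = m := by
    by_contra h
    rw [if_neg h] at hi
    exact hi rfl
  rw [← h1, ex_zero, ex_one]
  exact ⟨i.1.2, i.2.2⟩

/-- VM1. -/
theorem aeval_toPoly {K M : Type} [Field K] [Field M] [Algebra K M] {L1 L2 : ℕ}
    (c : Fin L1 × Fin L2 → K) (x y : M) :
    aeval ![x, y] (toPoly c) = ev (fun i => algebraMap K M (c i)) 0 0 x y := by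
  unfold toPoly ev
  rw [map_sum]
  refine Finset.sum_congr rfl fun i _ => ?_
  simp

/-- VM2. -/
theorem toPoly_degreeOf {K : Type} [Field K] {L1 L2 : ℕ} (c : Fin L1 × Fin L2 → K)
    (hc : c ≠ 0) : toPoly c ≠ 0 ∧ (toPoly c).degreeOf 0 < L1 ∧ (toPoly c).degreeOf 1 < L2 := by
  obtain ⟨i, hi⟩ := Function.ne_iff.1 hc
  have hL1 : 0 < L1 := lt_of_le_of_lt (Nat.zero_le _) i.1.2
  have hL2 : 0 < L2 := lt_of_le_of_lt (Nat.zero_le _) i.2.2
  refine ⟨?_, ?_, ?_⟩
  · intro h
    apply hi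
    rw [← coeff_toPoly c i, h, coeff_zero]
    rfl
  · rw [degreeOf_lt_iff hL1]
    exact fun m hm => (support_toPoly c m hm).1
  · rw [degreeOf_lt_iff hL2]
    exact fun m hm => (support_toPoly c m hm).2

/-- The coefficients in the box. -/
private noncomputable def cf (K : Type) [Field K] (L1 L2 : ℕ) :
    MvPolynomial (Fin 2) K →ₗ[K] (Fin L1 × Fin L2 → K) :=
  LinearMap.pi fun i => lcoeff K (ex i)

private theorem cf_apply {K : Type} [Field K] {L1 L2 : ℕ} (F : MvPolynomial (Fin 2) K)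
    (i : Fin L1 × Fin L2) : cf K L1 L2 F i = coeff (ex i) F := rfl

private theorem toPoly_cf {K : Type} [Field K] {L1 L2 : ℕ} (F : MvPolynomial (Fin 2) K)
    (h : ∀ m ∈ F.support, m 0 < L1 ∧ m 1 < L2) : toPoly (cf K L1 L2 F) = F := by
  classical
  ext m
  by_cases hm : m 0 < L1 ∧ m 1 < L2
  · have h1 : ex ((⟨m 0, hm.1⟩, ⟨m 1, hm.2⟩) : Fin L1 × Fin L2) = m := by
      ext j
      fin_cases j
      · exact ex_zero _
      · exact ex_one _
    rw [← h1, coeff_toPoly, cf_apply]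
  · rw [MvPolynomial.notMem_support_iff.1 fun h2 => hm (h m h2),
      MvPolynomial.notMem_support_iff.1 fun h2 => hm (support_toPoly _ m h2)]

/-- VM3. -/
theorem exists_toPoly {K : Type} [Field K] {L1 L2 : ℕ} (F : MvPolynomial (Fin 2) K)
    (h : ∀ m ∈ F.support, m 0 < L1 ∧ m 1 < L2) : ∃ c : Fin L1 × Fin L2 → K, toPoly c = F :=
  ⟨_, toPoly_cf F h⟩

private theorem theta0 {K : Type} [Field K] {L1 L2 : ℕ} (c : Fin L1 × Fin L2 → K) :
    X 0 * pderiv 0 (toPoly c) = toPoly (fun i => c i * ((i.1 : ℕ) : K)) := by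
  rw [toPoly_eq, toPoly_eq, map_sum, Finset.mul_sum]
  refine Finset.sum_congr rfl fun i _ => ?_
  rw [X_mul_pderiv_monomial, ex_zero, nsmul_eq_mul, mul_comm (c i), ← nsmul_eq_mul,
    ← nsmul_eq_mul, map_nsmul]

private theorem theta1 {K : Type} [Field K] {L1 L2 : ℕ} (c : Fin L1 × Fin L2 → K) :
    X 1 * pderiv 1 (toPoly c) = toPoly (fun i => c i * ((i.2 : ℕ) : K)) := by
  rw [toPoly_eq, toPoly_eq, map_sum, Finset.mul_sum]
  refine Finset.sum_congr rfl fun i _ => ?_
  rw [X_mul_pderiv_monomial, ex_one, nsmul_eq_mul, mul_comm (c i), ← nsmul_eq_mul,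
    ← nsmul_eq_mul, map_nsmul]

private theorem dvd_theta {K : Type} [Field K] (f F : MvPolynomial (Fin 2) K) (j : Fin 2) (s : ℕ)
    (h : f ^ s ∣ F) : f ^ (s - 1) ∣ X j * pderiv j F := by
  obtain ⟨g, rfl⟩ := h
  rw [Derivation.leibniz, Derivation.leibniz_pow]
  simp only [smul_eq_mul, nsmul_eq_mul]
  refine Dvd.dvd.mul_left (dvd_add ?_ ?_) _
  · exact (pow_dvd_pow f (Nat.sub_le s 1)).mul_right _
  · exact Dvd.dvd.mul_left (Dvd.dvd.mul_left (dvd_mul_right _ _) _) _

private theorem dvd_weights {K : Type} [Field K] {L1 L2 : ℕ} (f : MvPolynomial (Fin 2) K)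
    (T : ℕ) (c : Fin L1 × Fin L2 → K) (h : f ^ T ∣ toPoly c) (a b : ℕ) :
    f ^ (T - a - b) ∣ toPoly (fun i => c i * ((i.1 : ℕ) : K) ^ a * ((i.2 : ℕ) : K) ^ b) := by
  have h1 : f ^ (T - a) ∣ toPoly (fun i => c i * ((i.1 : ℕ) : K) ^ a) := by
    induction a with
    | zero => simpa using h
    | succ a ih =>
      have h2 := dvd_theta f _ 0 _ ih
      rw [theta0] at h2
      have e1 : T - (a + 1) = T - a - 1 := by omega
      rw [e1]
      convert h2 using 3
      rw [pow_succ]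
      ring
  induction b with
  | zero => simpa using h1
  | succ b ih =>
    have h2 := dvd_theta f _ 1 _ ih
    rw [theta1] at h2
    have e1 : T - a - (b + 1) = T - a - b - 1 := by omega
    rw [e1]
    convert h2 using 3
    rw [pow_succ]
    ring

/-- VM4. Multiples of `f ^ T` vanish to order `T` at the zeros of `f`. -/
theorem mem_VT_of_dvd {L : Type} [Field L] [NumberField L] (k : IntermediateField ℚ L)
    {L1 L2 : ℕ} (T : ℕ) (x y : L) (c : Fin L1 × Fin L2 → k) (f : MvPolynomial (Fin 2) k)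
    (hf : aeval ![x, y] f = 0) (h : f ^ T ∣ toPoly c) : c ∈ VT k L1 L2 T x y := by
  intro a b hab
  have h1 := dvd_weights f T c h a b
  have h2 : f ∣ toPoly (fun i => c i * ((i.1 : ℕ) : k) ^ a * ((i.2 : ℕ) : k) ^ b) := by
    refine dvd_trans (dvd_pow_self f ?_) h1
    omega
  obtain ⟨g, hg⟩ := h2
  have h3 := congrArg (aeval ![x, y]) hg
  rw [map_mul, hf, zero_mul, aeval_toPoly] at h3
  rw [← h3]
  unfold ev
  refine Finset.sum_congr rfl fun i _ => ?_
  simp only [map_mul, map_pow, map_natCast, pow_zero, mul_one]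
  rfl

/-- VM5. -/
theorem codim_VT_le {L : Type} [Field L] [NumberField L] (k : IntermediateField ℚ L)
    (L1 L2 T : ℕ) (x y : L) (f : MvPolynomial (Fin 2) k) (hf0 : f ≠ 0)
    (hf : aeval ![x, y] f = 0) (h1 : T * f.degreeOf 0 ≤ L1) (h2 : T * f.degreeOf 1 ≤ L2) :
    (L1 * L2 : ℝ) - finrank k (VT k L1 L2 T x y) ≤
      T * (f.degreeOf 1 * L1 + f.degreeOf 0 * L2) := by
  set M1 := L1 - T * f.degreeOf 0 with hM1
  set M2 := L2 - T * f.degreeOf 1 with hM2
  have hfT : f ^ T ≠ 0 := pow_ne_zero _ hf0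
  have hdeg : ∀ j, (f ^ T).degreeOf j = T * f.degreeOf j := by
    intro j
    exact degreeOf_pow_eq j f T hf0
  -- products lie in the box
  have hbox : ∀ q : Fin M1 × Fin M2 → k, ∀ m ∈ (f ^ T * toPoly q).support,
      m 0 < L1 ∧ m 1 < L2 := by
    intro q m hm
    by_cases hq : q = 0
    · rw [hq] at hm
      have : toPoly (0 : Fin M1 × Fin M2 → k) = 0 := by
        rw [toPoly_eq]
        simp
      rw [this, mul_zero] at hm
      simp at hm
    · obtain ⟨h3, h4, h5⟩ := toPoly_degreeOf q hq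
      have h6 : (f ^ T * toPoly q).degreeOf 0 < L1 := by
        rw [degreeOf_mul_eq hfT h3, hdeg]
        omega
      have h7 : (f ^ T * toPoly q).degreeOf 1 < L2 := by
        rw [degreeOf_mul_eq hfT h3, hdeg]
        omega
      exact ⟨lt_of_le_of_lt (monomial_le_degreeOf 0 hm) h6,
        lt_of_le_of_lt (monomial_le_degreeOf 1 hm) h7⟩
  let g0 : (Fin M1 × Fin M2 → k) →ₗ[k] MvPolynomial (Fin 2) k :=
    { toFun := fun q => f ^ T * toPoly q
      map_add' := by
        intro q r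
        rw [← mul_add]
        congr 1
        rw [toPoly_eq, toPoly_eq, toPoly_eq, ← Finset.sum_add_distrib]
        refine Finset.sum_congr rfl fun i _ => ?_
        rw [Pi.add_apply, map_add]
      map_smul' := by
        intro r q
        rw [RingHom.id_apply, ← mul_smul_comm]
        congr 1
        rw [toPoly_eq, toPoly_eq, Finset.smul_sum]
        refine Finset.sum_congr rfl fun i _ => ?_
        rw [Pi.smul_apply, map_smul] }
  let g1 : (Fin M1 × Fin M2 → k) →ₗ[k] (Fin L1 × Fin L2 → k) := cf k L1 L2 ∘ₗ g0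
  have hg1 : ∀ q, toPoly (g1 q) = f ^ T * toPoly q := fun q => toPoly_cf _ (hbox q)
  have hmem : ∀ q, g1 q ∈ VT k L1 L2 T x y := by
    intro q
    exact mem_VT_of_dvd k T x y _ f hf (by rw [hg1]; exact dvd_mul_right _ _)
  have hinj : Function.Injective (g1.codRestrict (VT k L1 L2 T x y) hmem) := by
    rw [← LinearMap.ker_eq_bot, LinearMap.ker_eq_bot']
    intro q hq
    have h3 : g1 q = 0 := congrArg Subtype.val hq
    have h4 := hg1 q
    rw [h3] at h4
    have h5 : toPoly (0 : Fin L1 × Fin L2 → k) = 0 := by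
      rw [toPoly_eq]
      simp
    rw [h5] at h4
    have h6 := (mul_eq_zero.1 h4.symm).resolve_left hfT
    by_contra hq0
    exact (toPoly_degreeOf q hq0).1 h6
  have hrank := LinearMap.finrank_le_finrank_of_injective hinj
  rw [Module.finrank_fintype_fun_eq_card, Fintype.card_prod, Fintype.card_fin,
    Fintype.card_fin] at hrank
  have h3 : ((M1 * M2 : ℕ) : ℝ) ≤ finrank k (VT k L1 L2 T x y) := by exact_mod_cast hrank
  have h4 : (M1 : ℝ) = L1 - T * f.degreeOf 0 := by
    rw [hM1, Nat.cast_sub h1]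
    push_cast
    ring
  have h5 : (M2 : ℝ) = L2 - T * f.degreeOf 1 := by
    rw [hM2, Nat.cast_sub h2]
    push_cast
    ring
  rw [Nat.cast_mul, h4, h5] at h3
  have h6 : (0 : ℝ) ≤ (T * f.degreeOf 0 : ℝ) * (T * f.degreeOf 1 : ℝ) := by positivity
  nlinarith

/-- VM6. -/
theorem codim_VT_le_od {L : Type} [Field L] [NumberField L] [IsGalois ℚ L]
    (k : IntermediateField ℚ L) (L1 L2 T : ℕ) (x y : L) :
    (L1 * L2 : ℝ) - finrank k (VT k L1 L2 T x y) ≤ (T : ℝ) ^ 2 * od k (x, y) := by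
  set M := IntermediateField.adjoin k {x, y} with hM
  have hx : x ∈ M := IntermediateField.subset_adjoin k _ (by simp)
  have hy : y ∈ M := IntermediateField.subset_adjoin k _ (by simp)
  let x' : M := ⟨x, hx⟩
  let y' : M := ⟨y, hy⟩
  let w : Fin T × Fin T → (Fin L1 × Fin L2) → M := fun ab i =>
    if (ab.1 : ℕ) + ab.2 < T then
      ((i.1 : ℕ) : M) ^ (ab.1 : ℕ) * ((i.2 : ℕ) : M) ^ (ab.2 : ℕ) * x' ^ (i.1 : ℕ) *
        y' ^ (i.2 : ℕ) else 0
  let Φ : (Fin L1 × Fin L2 → k) →ₗ[k] (Fin T × Fin T → M) :=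
    LinearMap.pi fun ab => ∑ i, (LinearMap.proj i : (Fin L1 × Fin L2 → k) →ₗ[k] k).smulRight
      (w ab i)
  have hΦ : ∀ (c : Fin L1 × Fin L2 → k) ab, Φ c ab = ∑ i, c i • w ab i := by
    intro c ab
    simp [Φ]
  have hker : LinearMap.ker Φ ≤ VT k L1 L2 T x y := by
    intro c hc a b hab
    have h1 := congrFun (LinearMap.mem_ker.1 hc) (⟨a, by omega⟩, ⟨b, by omega⟩)
    rw [hΦ] at h1
    have h2 := congrArg (algebraMap M L) h1
    rw [map_sum] at h2
    rw [Pi.zero_apply, map_zero] at h2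
    rw [← h2]
    unfold ev
    refine Finset.sum_congr rfl fun i _ => ?_
    simp only [w, hab, if_true, Algebra.smul_def, map_mul, map_pow, map_natCast]
    change (c i : L) * _ * _ * _ * _ = (c i : L) * (_ * _ * x ^ (i.1 : ℕ) * y ^ (i.2 : ℕ))
    ring
  have h1 := Submodule.finrank_mono hker
  have h2 := LinearMap.finrank_range_add_finrank_ker Φ
  have h3 := Submodule.finrank_le (LinearMap.range Φ)
  rw [Module.finrank_pi_fintype] at h3
  rw [Module.finrank_fintype_fun_eq_card, Fintype.card_prod, Fintype.card_fin,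
    Fintype.card_fin] at h2
  simp only [Finset.sum_const, Finset.card_univ, Fintype.card_prod, Fintype.card_fin,
    smul_eq_mul] at h3
  rw [od_eq_finrank]
  have h4 : L1 * L2 ≤ T * T * finrank k M + finrank k (VT k L1 L2 T x y) := by omega
  have h5 : ((L1 * L2 : ℕ) : ℝ) ≤ ((T * T * finrank k M + finrank k (VT k L1 L2 T x y) : ℕ) : ℝ) := by
    exact_mod_cast h4
  push_cast at h5
  have h6 : (T : ℝ) ^ 2 = T * T := by ring
  rw [h6]
  linarith

end Pool.Agent.Leh2
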