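import Pool.Agent.Leh2.DL
import Pool.Agent.Leh2.Drop
import Pool.Agent.Leh2.Primes
import Pool.Agent.Leh2.VTm

set_option autoImplicit false
set_option linter.unusedVariables false

namespace Pool.Agent.Leh2

open NumberField IntermediateField Module

section poly

open Polynomial

/-- the polynomial in one variable -/
private noncomputable def pol {L : Type} [Field L] {L1 : ℕ} (c : Fin L1 × Fin 1 → L) : L[X] :=
  ∑ i : Fin L1, C (c (i, 0)) * X ^ (i.1 : ℕ)

private theorem ev_one {L : Type} [Field L] {L1 : ℕ} (c : Fin L1 × Fin 1 → L) (a : ℕ) (z : L) :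
    ev c a 0 z 1 = ∑ i : Fin L1, c (i, 0) * ((i.1 : ℕ) : L) ^ a * z ^ (i.1 : ℕ) := by
  unfold ev
  rw [Fintype.sum_prod_type]
  refine Finset.sum_congr rfl fun i _ => ?_
  simp

private theorem pol_eval {L : Type} [Field L] {L1 : ℕ} (c : Fin L1 × Fin 1 → L) (z : L) :
    (pol c).eval z = ev c 0 0 z 1 := by
  rw [ev_one]
  unfold pol
  rw [eval_finsetSum]
  refine Finset.sum_congr rfl fun i _ => ?_
  simp

private theorem pol_coeff {L : Type} [Field L] {L1 : ℕ} (c : Fin L1 × Fin 1 → L) (i : Fin L1) :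
    (pol c).coeff i = c (i, 0) := by
  unfold pol
  rw [finsetSum_coeff, Finset.sum_eq_single i]
  · simp
  · intro j _ hj
    rw [coeff_C_mul, coeff_X_pow, if_neg, mul_zero]
    intro h
    exact hj (Fin.ext h.symm)
  · intro h
    exact absurd (Finset.mem_univ _) h

private theorem pol_ne {L : Type} [Field L] {L1 : ℕ} {c : Fin L1 × Fin 1 → L} (hc : c ≠ 0) :
    pol c ≠ 0 := by
  intro h
  apply hc
  funext i
  have h1 := pol_coeff c i.1
  rw [h, coeff_zero] at h1
  have h2 : i = (i.1, 0) := Prod.ext rfl (Subsingleton.elim _ _)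
  rw [h2, ← h1]
  rfl

private theorem pol_deg {L : Type} [Field L] {L1 : ℕ} {c : Fin L1 × Fin 1 → L} (hc : c ≠ 0) :
    (pol c).natDegree < L1 := by
  rw [natDegree_lt_iff_degree_lt (pol_ne hc)]
  exact degree_sum_fin_lt _

private theorem le_mult {L : Type} [Field L] [CharZero L] {L1 : ℕ} (c : Fin L1 × Fin 1 → L)
    (z : L) (hz : z ≠ 0) (T : ℕ) (h : ∀ a < T, ev c a 0 z 1 = 0) (hF : pol c ≠ 0) :
    T ≤ (pol c).rootMultiplicity z := by
  rcases T with _ | n
  · exact Nat.zero_le _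
  refine Nat.succ_le_of_lt (lt_rootMultiplicity_of_isRoot_iterate_derivative hF fun m hm => ?_)
  have h1 : z ^ m * (derivative^[m] (pol c)).eval z =
      ∑ i : Fin L1, c (i, 0) * ((i.1.descFactorial m : ℕ) : L) * z ^ (i.1 : ℕ) := by
    unfold pol
    rw [iterate_derivative_sum, eval_finsetSum, Finset.mul_sum]
    refine Finset.sum_congr rfl fun i _ => ?_
    rw [iterate_derivative_C_mul, iterate_derivative_X_pow_eq_natCast_mul, eval_mul, eval_C,
      eval_mul, eval_natCast, eval_pow, eval_X]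
    by_cases hi : m ≤ i.1
    · have : z ^ (i.1 : ℕ) = z ^ m * z ^ (i.1 - m) := by
        rw [← pow_add]
        congr 1
        omega
      rw [this]
      ring
    · rw [Nat.descFactorial_of_lt (by omega)]
      simp
  have h2 : ∑ i : Fin L1, c (i, 0) * ((i.1.descFactorial m : ℕ) : L) * z ^ (i.1 : ℕ) = 0 := by
    have h3 : ∀ i : Fin L1, ((i.1.descFactorial m : ℕ) : L) =
        ∑ a ∈ Finset.range (m + 1), (descPochhammer L m).coeff a * ((i.1 : ℕ) : L) ^ a := by
      intro i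
      rw [← descPochhammer_eval_eq_descFactorial, eval_eq_sum_range' (n := m + 1)]
      rw [descPochhammer_natDegree]
      omega
    calc ∑ i : Fin L1, c (i, 0) * ((i.1.descFactorial m : ℕ) : L) * z ^ (i.1 : ℕ)
        = ∑ i : Fin L1, ∑ a ∈ Finset.range (m + 1), (descPochhammer L m).coeff a *
          (c (i, 0) * ((i.1 : ℕ) : L) ^ a * z ^ (i.1 : ℕ)) := by
          refine Finset.sum_congr rfl fun i _ => ?_
          rw [h3, Finset.mul_sum, Finset.sum_mul]
          refine Finset.sum_congr rfl fun a _ => ?_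
          ring
      _ = ∑ a ∈ Finset.range (m + 1), (descPochhammer L m).coeff a * ev c a 0 z 1 := by
          rw [Finset.sum_comm]
          refine Finset.sum_congr rfl fun a _ => ?_
          rw [ev_one, Finset.mul_sum]
      _ = 0 := by
          refine Finset.sum_eq_zero fun a ha => ?_
          rw [Finset.mem_range] at ha
          rw [h a (by omega), mul_zero]
  rw [h2] at h1
  exact (mul_eq_zero.1 h1).resolve_left (pow_ne_zero _ hz)

/-- too many zeros -/
private theorem too_many {L : Type} [Field L] [CharZero L] {L1 : ℕ} (c : Fin L1 × Fin 1 → L)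
    (O : Finset L) (T d : ℕ) (hO : O.card = d) (hO' : ∀ z ∈ O, T ≤ (pol c).rootMultiplicity z)
    (Λ : Finset ℕ) (P : ℕ → Finset L) (hP : ∀ p ∈ Λ, (P p).card = d)
    (hP' : ∀ p ∈ Λ, ∀ z ∈ P p, (pol c).eval z = 0) (hd1 : ∀ p ∈ Λ, Disjoint O (P p))
    (hd2 : ∀ p ∈ Λ, ∀ q ∈ Λ, p ≠ q → Disjoint (P p) (P q)) (hL : L1 ≤ d * (T + Λ.card)) :
    c = 0 := by
  classical
  by_contra hc
  have hF := pol_ne hc
  have hdeg := pol_deg hc
  have h1 : ∀ U : Finset L, ∑ z ∈ U, (pol c).rootMultiplicity z ≤ (pol c).natDegree := by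
    intro U
    refine le_trans ?_ (card_roots' (pol c))
    rw [← Multiset.toFinset_sum_count_eq]
    calc ∑ z ∈ U, (pol c).rootMultiplicity z
        = ∑ z ∈ U, (pol c).roots.count z := by simp only [count_roots]
      _ = ∑ z ∈ U.filter (· ∈ (pol c).roots.toFinset), (pol c).roots.count z := by
          rw [Finset.sum_filter]
          refine Finset.sum_congr rfl fun z _ => ?_
          split_ifs with h
          · rfl
          · rw [Multiset.mem_toFinset] at h
            exact Multiset.count_eq_zero.2 h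
      _ ≤ _ := by
          refine Finset.sum_le_sum_of_subset ?_
          intro z hz
          exact (Finset.mem_filter.1 hz).2
  have h2 := h1 (O ∪ Λ.biUnion P)
  have hdis : Disjoint O (Λ.biUnion P) := by
    rw [Finset.disjoint_biUnion_right]
    exact hd1
  rw [Finset.sum_union hdis, Finset.sum_biUnion (fun p hp q hq h => hd2 p hp q hq h)] at h2
  have h3 : d * T ≤ ∑ z ∈ O, (pol c).rootMultiplicity z := by
    rw [← hO, ← smul_eq_mul]
    exact Finset.card_nsmul_le_sum _ _ _ hO'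
  have h4 : Λ.card * d ≤ ∑ p ∈ Λ, ∑ z ∈ P p, (pol c).rootMultiplicity z := by
    rw [← smul_eq_mul]
    refine Finset.card_nsmul_le_sum _ _ _ fun p hp => ?_
    rw [← hP p hp, Finset.card_eq_sum_ones]
    refine Finset.sum_le_sum fun z hz => ?_
    exact (rootMultiplicity_pos hF).2 (hP' p hp z hz)
  have h5 : d * (T + Λ.card) = d * T + Λ.card * d := by ring
  omega

end poly

section orb

variable {L : Type} [Field L] [NumberField L]

open scoped Classical in
/-- the conjugates -/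
private noncomputable def orb (k : IntermediateField ℚ L) (z : L) : Finset L :=
  (Finset.univ : Finset (L ≃ₐ[k] L)).image fun σ => σ z

private theorem mem_orb {k : IntermediateField ℚ L} {z w : L} :
    w ∈ orb k z ↔ ∃ σ : L ≃ₐ[k] L, σ z = w := by
  simp [orb]

private theorem card_orb (k : IntermediateField ℚ L) (z : L) : (orb k z).card = od k (z, 1) := by
  unfold od
  have h1 : (MulAction.orbit (L ≃ₐ[k] L) ((z, 1) : L × L)) =
      (fun w : L => ((w, 1) : L × L)) '' (orb k z : Set L) := by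
    ext w
    constructor
    · rintro ⟨σ, rfl⟩
      refine ⟨σ z, mem_orb.2 ⟨σ, rfl⟩, ?_⟩
      refine Prod.ext rfl ?_
      exact (map_one σ).symm
    · rintro ⟨v, hv, rfl⟩
      obtain ⟨σ, rfl⟩ := mem_orb.1 hv
      refine ⟨σ, ?_⟩
      refine Prod.ext rfl ?_
      exact map_one σ
  rw [Nat.card_coe_set_eq, h1, Set.ncard_image_of_injective, Set.ncard_coe_finset]
  intro a b h
  exact congrArg Prod.fst h

private theorem nh_orb {k : IntermediateField ℚ L} {z w : L} (h : w ∈ orb k z) : nh w = nh z := by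
  obtain ⟨σ, rfl⟩ := mem_orb.1 h
  exact nh_algEquiv (σ.restrictScalars ℚ) z

private theorem nh_pow (x : L) (n : ℕ) : nh (x ^ n) = n * nh x := by
  unfold nh
  rw [Height.logHeight₁_pow, mul_div_assoc]

/-- the conjugates of zeros -/
private theorem ev_conj {k : IntermediateField ℚ L} {L1 : ℕ} (c : Fin L1 × Fin 1 → k) (a : ℕ)
    (z : L) (σ : L ≃ₐ[k] L) (h : ev (fun i => (c i : L)) a 0 z 1 = 0) :
    ev (fun i => (c i : L)) a 0 (σ z) 1 = 0 := by
  have h1 := congrArg σ h
  rw [ev_one, map_sum, map_zero] at h1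
  rw [ev_one, ← h1]
  refine Finset.sum_congr rfl fun i _ => ?_
  rw [map_mul, map_mul, map_pow, map_pow, map_natCast]
  congr 2
  exact (σ.commutes (c (i, 0))).symm

end orb

private theorem exists_psi {L : Type} [Field L] [NumberField L] [IsGalois ℚ L] {ζ : L} {N : ℕ}
    (hζ : IsPrimitiveRoot ζ N) (hN : 0 < N) {p : ℕ} (hp : p.Coprime N) :
    ∃ ψ : L ≃ₐ[ℚ] L, ψ ζ = ζ ^ p := by
  have h1 : (Polynomial.aeval (ζ ^ p)) (minpoly ℚ ζ) = 0 := by
    rw [← Polynomial.cyclotomic_eq_minpoly_rat hζ hN,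
      Polynomial.cyclotomic_eq_minpoly_rat (hζ.pow_of_coprime p hp) hN]
    exact minpoly.aeval _ _
  exact minpoly.exists_algEquiv_of_root' (Algebra.IsAlgebraic.isAlgebraic ζ) h1

private theorem exists_log (κ : ℝ) : ∃ Y1 : ℝ, ∀ Y, Y1 ≤ Y → κ * Real.log Y ≤ Real.log 2 * Y := by
  have h1 := Real.isLittleO_log_id_atTop
  have h2 : (0 : ℝ) < Real.log 2 / (|κ| + 1) := by positivity
  have h3 := (Asymptotics.isLittleO_iff.1 h1) h2
  obtain ⟨Y1, hY1⟩ := Filter.eventually_atTop.1 h3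
  refine ⟨max Y1 1, fun Y hY => ?_⟩
  have h4 := hY1 Y (le_trans (le_max_left _ _) hY)
  have h5 : (1 : ℝ) ≤ Y := le_trans (le_max_right _ _) hY
  simp only [Real.norm_eq_abs, id] at h4
  rw [abs_of_nonneg (Real.log_nonneg h5), abs_of_nonneg (by linarith : (0 : ℝ) ≤ Y)] at h4
  have h6 : 0 ≤ Real.log Y := Real.log_nonneg h5
  calc κ * Real.log Y ≤ (|κ| + 1) * Real.log Y := by
        apply mul_le_mul_of_nonneg_right _ h6
        have := le_abs_self κ
        linarith
    _ ≤ (|κ| + 1) * (Real.log 2 / (|κ| + 1) * Y) := by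
        apply mul_le_mul_of_nonneg_left h4
        positivity
    _ = Real.log 2 * Y := by
        have : |κ| + 1 ≠ 0 := by positivity
        field_simp

/-- L1. Lehmer with an epsilon loss, relative to `ℚ(ζ)`, dimension one. -/
theorem leh1_core (κ : ℝ) (hκ : 0 ≤ κ) : ∃ Y0 : ℝ, 1 ≤ Y0 ∧ ∀ (L : Type) [Field L]
    [NumberField L] [IsGalois ℚ L] (ζ : L) (N : ℕ), IsPrimitiveRoot ζ N → 0 < N →
    ∀ x : L, x ≠ 0 → (∀ n : ℕ, 0 < n → x ^ n ≠ 1) → ∀ Y : ℝ, Y0 ≤ Y → Real.log N ^ 2 ≤ Y →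
    (od ℚ⟮ζ⟯ (x, 1) : ℝ) ≤ Y ^ κ → 1 ≤ od ℚ⟮ζ⟯ (x, 1) * Y ^ 3 * nh x := by
  obtain ⟨Y1, hY1⟩ := exists_log κ
  obtain ⟨Y2, hY2⟩ := many_primes 2 le_rfl
  set κ' : ℝ := κ + 1 with hκ'
  set T : ℕ := ⌈2 * κ' + 2⌉₊ with hT
  set l0 : ℕ := ⌈(2 * κ' + 2) * (T : ℝ) ^ 2⌉₊ + 1 with hl0
  refine ⟨max (max Y1 Y2) (max 3 (T + l0)), le_trans (by norm_num) (le_trans (le_max_left (3 : ℝ) (T + l0))
    (le_max_right _ _)), ?_⟩
  intro L _ _ _ ζ N hζ hN x hx hx1 Y hY hNY hod
  have hYY1 : Y1 ≤ Y := le_trans (le_trans (le_max_left _ _) (le_max_left _ _)) hY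
  have hYY2 : Y2 ≤ Y := le_trans (le_trans (le_max_right _ _) (le_max_left _ _)) hY
  have hY3 : (3 : ℝ) ≤ Y := le_trans (le_trans (le_max_left _ _) (le_max_right _ _)) hY
  have hYT : (T + l0 : ℝ) ≤ Y := le_trans (le_trans (le_max_right _ _) (le_max_right _ _)) hY
  by_contra hcon
  rw [not_le] at hcon
  set k := ℚ⟮ζ⟯ with hk
  set d := od k (x, 1) with hd
  have hd0 : 0 < d := od_pos k (x, 1)
  have hY0 : (0 : ℝ) < Y := by linarith
  have hlogY : 1 ≤ Real.log Y := by
    rw [Real.le_log_iff_exp_le hY0]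
    have := Real.exp_one_lt_d9
    linarith
  have hnh : 0 < nh x := nh_pos x hx hx1
  -- the primes where the orbit drops
  set B : Finset ℕ := (Finset.range (⌊Y ^ 2⌋₊ + 1)).filter
    (fun p => p.Prime ∧ od k (x ^ p, 1) ≠ d) with hB
  have hBcard : (B.card : ℝ) ≤ Y := by
    have h1 : 2 ^ B.card ≤ od k (x, 1) := by
      refine drop k x 1 hx one_ne_zero B (fun p hp => (Finset.mem_filter.1 hp).2.1) fun p hp => ?_
      rw [one_pow]
      exact (Finset.mem_filter.1 hp).2.2
    have h2 : (2 : ℝ) ^ B.card ≤ Y ^ κ := by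
      refine le_trans ?_ hod
      exact_mod_cast h1
    have h3 : (B.card : ℝ) * Real.log 2 ≤ κ * Real.log Y := by
      have h4 := Real.log_le_log (by positivity) h2
      rwa [Real.log_pow, Real.log_rpow hY0] at h4
    have h4 := hY1 Y hYY1
    have h5 : 0 < Real.log 2 := Real.log_pos (by norm_num)
    nlinarith
  obtain ⟨Λ', hΛ', hΛc⟩ := hY2 Y hYY2 N hN hNY B hBcard
  have hl0Λ : l0 ≤ Λ'.card := by
    have h1 : (l0 : ℝ) ≤ Λ'.card := by
      refine le_trans ?_ hΛc
      rw [show 2 - 1 = 1 by norm_num, pow_one]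
      have : (0 : ℝ) ≤ T := Nat.cast_nonneg _
      linarith
    exact_mod_cast h1
  obtain ⟨Λ, hΛsub, hΛcard⟩ := Finset.exists_subset_card_eq hl0Λ
  have hΛ : ∀ p ∈ Λ, p.Prime ∧ ¬ p ∣ N ∧ p ∉ B ∧ Y ≤ p ∧ (p : ℝ) ≤ Y ^ 2 :=
    fun p hp => hΛ' p (hΛsub hp)
  -- automorphisms
  have hex : ∀ p : ℕ, ∃ ψ : L ≃ₐ[ℚ] L, p ∈ Λ → ψ ζ = ζ ^ p := by
    intro p
    by_cases hp : p ∈ Λ
    · obtain ⟨h1, h2, -⟩ := hΛ p hp
      obtain ⟨ψ, hψ⟩ := exists_psi hζ hN ((Nat.Prime.coprime_iff_not_dvd h1).2 h2)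
      exact ⟨ψ, fun _ => hψ⟩
    · exact ⟨AlgEquiv.refl, fun h => absurd h hp⟩
  choose ψ hψ using hex
  have hodp : ∀ p ∈ Λ, od k (x ^ p, 1) = d := by
    intro p hp
    obtain ⟨h1, -, h2, -, h3⟩ := hΛ p hp
    by_contra h4
    apply h2
    rw [hB, Finset.mem_filter, Finset.mem_range, Nat.lt_succ_iff]
    exact ⟨Nat.le_floor h3, h1, h4⟩
  -- the point
  have hnh1 : nh (1 : L) = 0 := by
    unfold nh
    rw [Height.logHeight₁_one, zero_div]
  have hT1 : 2 * κ' + 2 ≤ T := Nat.le_ceil _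
  have hL1pos : 0 < d * (T + l0) := Nat.mul_pos hd0 (by omega)
  have key := det_lemma hζ hN x 1 hx one_ne_zero (d * (T + l0)) 1 T hL1pos one_pos κ' Y
    (by linarith) hlogY hT1 (by
      have h1 : ((d * (T + l0) : ℕ) : ℝ) * ((1 : ℕ) : ℝ) ≤ Y ^ κ * Y := by
        push_cast
        rw [mul_one]
        exact mul_le_mul hod hYT (by positivity) (by positivity)
      have h2 := Real.log_le_log (by
        have : (0 : ℝ) < ((d * (T + l0) : ℕ) : ℝ) := by exact_mod_cast hL1pos
        simpa using this) h1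
      have h3 : Real.log (Y ^ κ * Y) = κ * Real.log Y + Real.log Y := by
        rw [Real.log_mul (by positivity) (by positivity), Real.log_rpow hY0]
      rw [h3] at h2
      refine le_trans h2 (le_of_eq ?_)
      rw [hκ']
      ring) Λ ψ (by
      intro p hp
      obtain ⟨h1, h2, -, h3, h4⟩ := hΛ p hp
      refine ⟨h1, h2, h3, hψ p hp, ?_⟩
      rw [hnh1, mul_zero, add_zero]
      push_cast
      have h5 : (p : ℝ) * ((d : ℝ) * (T + l0) * nh x) ≤ Y ^ 2 * ((d : ℝ) * Y * nh x) := by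
        apply mul_le_mul h4 _ (by positivity) (by positivity)
        apply mul_le_mul_of_nonneg_right _ hnh.le
        exact mul_le_mul_of_nonneg_left hYT (Nat.cast_nonneg _)
      have h6 : Y ^ 2 * ((d : ℝ) * Y * nh x) = d * Y ^ 3 * nh x := by ring
      linarith) (by first | assumption | positivity | linarith)
  -- there are no nonzero polynomials
  have hVP : VP k (d * (T + l0)) 1 T x 1 Λ ψ = ⊥ := by
    rw [eq_bot_iff]
    intro c hc
    obtain ⟨hc1, hc2⟩ := hc
    rw [Submodule.mem_bot]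
    set c' : Fin (d * (T + l0)) × Fin 1 → L := fun i => (c i : L) with hc'
    have hzero : c' = 0 → c = 0 := by
      intro h
      funext i
      have := congrFun h i
      exact Subtype.ext this
    by_cases hcz : c' = 0
    · exact hzero hcz
    refine hzero (too_many c' (orb k x) T d (card_orb k x) ?_ Λ
      (fun p => orb k ((ψ p).symm (x ^ p))) ?_ ?_ ?_ ?_ ?_)
    · intro z hz
      obtain ⟨σ, rfl⟩ := mem_orb.1 hz
      refine le_mult c' (σ x) (by simpa using hx) T (fun a ha => ?_) (pol_ne hcz)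
      exact ev_conj c a x σ (hc1 a 0 (by omega))
    · intro p hp
      rw [card_orb, ← hodp p hp]
      have h1 := od_symm (ψ p) (hψ p hp) (x ^ p) 1
      rwa [map_one] at h1
    · intro p hp z hz
      obtain ⟨σ, rfl⟩ := mem_orb.1 hz
      rw [pol_eval]
      refine ev_conj c 0 _ σ ?_
      have h1 := hc2 p hp
      rwa [one_pow, map_one] at h1
    · intro p hp
      rw [Finset.disjoint_left]
      intro z hz hz'
      have h1 := nh_orb hz
      have h2 := nh_orb hz'
      rw [h1, nh_algEquiv, nh_pow] at h2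
      have h3 : (2 : ℝ) ≤ p := by exact_mod_cast (hΛ p hp).1.two_le
      nlinarith
    · intro p hp q hq hpq
      rw [Finset.disjoint_left]
      intro z hz hz'
      have h1 := nh_orb hz
      have h2 := nh_orb hz'
      rw [nh_algEquiv, nh_pow] at h1 h2
      rw [h1] at h2
      have h3 := mul_right_cancel₀ hnh.ne' h2
      exact hpq (by exact_mod_cast h3)
    · rw [hΛcard]
  rw [hVP, finrank_bot] at key
  have h6 := codim_VT_le_od k (d * (T + l0)) 1 T x 1
  have h7 : (0 : ℝ) < 2 * κ' + 2 := by positivity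
  have h8 : ((d * (T + l0) : ℕ) : ℝ) * ((1 : ℕ) : ℝ) ≤ (2 * κ' + 2) * ((T : ℝ) ^ 2 * d) := by
    have h9 := mul_le_mul_of_nonneg_left h6 h7.le
    simp only [Nat.cast_zero, sub_zero] at key
    exact le_trans key h9
  have h10 : (l0 : ℝ) ≥ (2 * κ' + 2) * (T : ℝ) ^ 2 + 1 := by
    rw [hl0]
    push_cast
    have := Nat.le_ceil ((2 * κ' + 2) * (T : ℝ) ^ 2)
    linarith
  push_cast at h8
  have h11 : (0 : ℝ) < d := by exact_mod_cast hd0
  have h12 : (0 : ℝ) ≤ T := Nat.cast_nonneg _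
  have h13 : (d : ℝ) * (T + l0) * 1 ≤ d * ((2 * κ' + 2) * (T : ℝ) ^ 2) := by
    refine le_trans h8 (le_of_eq ?_)
    ring
  rw [mul_one] at h13
  have h14 := le_of_mul_le_mul_left h13 h11
  linarith

end Pool.Agent.Leh2
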