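import Pool.Agent.Leh2.Defs

set_option autoImplicit false
set_option linter.unusedVariables false

namespace Pool.Agent.Leh2

open NumberField Polynomial

/-- The choice of a generator modulo `P` whose order relation is exact modulo `P ^ 2`. -/
private theorem mono_theta1 (L : Type) [Field L] [NumberField L] (P : Ideal (𝓞 L)) [hPm : P.IsMaximal]
    (hP : P ≠ ⊥) (m : ℕ) (hm2 : 2 ≤ m) (hmP : (m : 𝓞 L) ∈ P)
    (hpow : ∀ b : 𝓞 L, b ∉ P → b ^ (m - 1) - 1 ∈ P) (t0 : 𝓞 L) (ht0 : t0 ∉ P) :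
    ∃ t1 : 𝓞 L, t1 - t0 ∈ P ∧ t1 ^ (m - 1) - 1 ∉ P ^ 2 := by
  by_cases h : t0 ^ (m - 1) - 1 ∈ P ^ 2
  · obtain ⟨π, hπ1, hπ2⟩ := Ideal.exists_mem_pow_notMem_pow_succ P hP hPm.ne_top 1
    rw [pow_one] at hπ1
    refine ⟨t0 + π, by rwa [add_sub_cancel_left], fun h2 => hπ2 ?_⟩
    obtain ⟨k, hk⟩ := Polynomial.powAddExpansion t0 π (m - 1)
    have hπsq : π ^ 2 ∈ P ^ 2 := Ideal.pow_mem_pow hπ1 2
    have h3 : ((m - 1 : ℕ) : 𝓞 L) * t0 ^ (m - 1 - 1) * π ∈ P ^ 2 := by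
      have e : ((m - 1 : ℕ) : 𝓞 L) * t0 ^ (m - 1 - 1) * π =
          ((t0 + π) ^ (m - 1) - 1) - (t0 ^ (m - 1) - 1) - k * π ^ 2 := by
        rw [hk]
        ring
      rw [e]
      exact Ideal.sub_mem _ (Ideal.sub_mem _ h2 h) (Ideal.mul_mem_left _ _ hπsq)
    have h4 : ((m - 1 : ℕ) : 𝓞 L) * t0 ^ (m - 1) * π ∈ P ^ 2 := by
      have e : t0 ^ (m - 1) = t0 ^ (m - 1 - 1) * t0 := by
        rw [← pow_succ]
        congr 1
        omega
      have e2 : ((m - 1 : ℕ) : 𝓞 L) * t0 ^ (m - 1) * π =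
          t0 * (((m - 1 : ℕ) : 𝓞 L) * t0 ^ (m - 1 - 1) * π) := by
        rw [e]
        ring
      rw [e2]
      exact Ideal.mul_mem_left _ _ h3
    have h5 : (m : 𝓞 L) * π ∈ P ^ 2 := by
      rw [sq]
      exact Ideal.mul_mem_mul hmP hπ1
    have h6 : (m : 𝓞 L) = ((m - 1 : ℕ) : 𝓞 L) + 1 := by
      have : m = (m - 1) + 1 := by omega
      conv_lhs => rw [this]
      push_cast
      ring
    have h7 : π = (m : 𝓞 L) * π - ((m - 1 : ℕ) : 𝓞 L) * t0 ^ (m - 1) * π +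
        ((m - 1 : ℕ) : 𝓞 L) * π * (t0 ^ (m - 1) - 1) := by
      rw [h6]
      ring
    rw [h7]
    exact Ideal.add_mem _ (Ideal.sub_mem _ h5 h4) (Ideal.mul_mem_left _ _ h)
  · exact ⟨t0, by simp, h⟩

/-- MONO. The local ring of a prime `P` of `𝓞 L` is a localisation of `ℤ[θ]`. -/
theorem exists_monogenic (L : Type) [Field L] [NumberField L] (P : Ideal (𝓞 L)) [P.IsPrime]
    (hP : P ≠ ⊥) :
    ∃ θ : 𝓞 L, ∀ b : 𝓞 L, ∃ A S : ℤ[X], aeval θ S ∉ P ∧ b * aeval θ S = aeval θ A := by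
  classical
  have hPm : P.IsMaximal := Ideal.IsPrime.isMaximal ‹P.IsPrime› hP
  let _ : Field (𝓞 L ⧸ P) := Ideal.Quotient.field P
  have hfin : Finite (𝓞 L ⧸ P) := Ideal.finiteQuotientOfFreeOfNeBot P hP
  let _ : Fintype (𝓞 L ⧸ P) := Fintype.ofFinite _
  set m : ℕ := Fintype.card (𝓞 L ⧸ P) with hm
  have hm2 : 2 ≤ m := Fintype.one_lt_card
  have hmP : (m : 𝓞 L) ∈ P := by
    rw [← Ideal.Quotient.eq_zero_iff_mem, map_natCast, hm]
    exact FiniteField.cast_card_eq_zero _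
  have hpow : ∀ b : 𝓞 L, b ∉ P → b ^ (m - 1) - 1 ∈ P := by
    intro b hb
    rw [← Ideal.Quotient.eq_zero_iff_mem, map_sub, map_pow, map_one, sub_eq_zero]
    exact FiniteField.pow_card_sub_one_eq_one _ fun h => hb (Ideal.Quotient.eq_zero_iff_mem.1 h)
  -- a generator of the multiplicative group
  obtain ⟨g, hg⟩ := IsCyclic.exists_generator (α := (𝓞 L ⧸ P)ˣ)
  obtain ⟨t0, ht0⟩ := Ideal.Quotient.mk_surjective (g : 𝓞 L ⧸ P)
  have ht0P : t0 ∉ P := by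
    rw [← Ideal.Quotient.eq_zero_iff_mem, ht0]
    exact g.ne_zero
  obtain ⟨t1, ht1, ht1'⟩ := mono_theta1 L P hP m hm2 hmP hpow t0 ht0P
  -- the other primes which contain `m`
  have hm0 : (Ideal.span {(m : 𝓞 L)} : Ideal (𝓞 L)) ≠ 0 := by
    rw [Ideal.zero_eq_bot, Ne, Ideal.span_singleton_eq_bot]
    have : m ≠ 0 := by omega
    exact_mod_cast this
  have hPirr : Irreducible P := (Ideal.prime_of_isPrime hP ‹P.IsPrime›).irreducible
  obtain ⟨J, hJ, hPJ⟩ := (FiniteMultiplicity.of_not_isUnit hPirr.not_isUnit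
    hm0).exists_eq_pow_mul_and_not_dvd
  set e := multiplicity P (Ideal.span {(m : 𝓞 L)}) with he
  have hJP : ¬ J ≤ P := fun h => hPJ (Ideal.dvd_iff_le.2 h)
  have hsup : P ⊔ J = ⊤ := by
    by_contra hne
    have h1 : P = P ⊔ J := hPm.eq_of_le hne le_sup_left
    exact hJP (le_of_le_of_eq le_sup_right h1.symm)
  have hcop : IsCoprime (P ^ 2) J := (Ideal.isCoprime_iff_sup_eq.2 hsup).pow_left
  obtain ⟨a, ha, c, hc, hac⟩ := Ideal.isCoprime_iff_exists.1 hcop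
  set θ : 𝓞 L := c * t1 with hθ
  have hθ1 : θ - t1 ∈ P ^ 2 := by
    have e1 : θ - t1 = -(t1 * a) := by
      rw [hθ]
      linear_combination t1 * hac
    rw [e1]
    exact (Ideal.neg_mem_iff _).2 (Ideal.mul_mem_left _ _ ha)
  have hθP : Ideal.Quotient.mk P θ = g := by
    have h1 : θ - t0 ∈ P := by
      have h2 : θ - t0 = (θ - t1) + (t1 - t0) := by ring
      rw [h2]
      exact Ideal.add_mem _ (Ideal.pow_le_self two_ne_zero hθ1) ht1
    rw [← ht0]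
    exact Ideal.Quotient.eq.2 h1
  have hθnP : θ ∉ P := by
    rw [← Ideal.Quotient.eq_zero_iff_mem, hθP]
    exact g.ne_zero
  have hvP : θ ^ (m - 1) - 1 ∈ P := hpow θ hθnP
  have hvP2 : θ ^ (m - 1) - 1 ∉ P ^ 2 := by
    intro h
    apply ht1'
    have h2 : θ ^ (m - 1) - t1 ^ (m - 1) ∈ P ^ 2 := by
      obtain ⟨k, hk⟩ := sub_dvd_pow_sub_pow θ t1 (m - 1)
      rw [hk]
      exact Ideal.mul_mem_right _ _ hθ1
    have h3 : t1 ^ (m - 1) - 1 = (θ ^ (m - 1) - 1) - (θ ^ (m - 1) - t1 ^ (m - 1)) := by ring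
    rw [h3]
    exact Ideal.sub_mem _ h h2
  -- the ideal generated by `m` and `θ ^ (m - 1) - 1` is `P`
  set I : Ideal (𝓞 L) := Ideal.span {(m : 𝓞 L), θ ^ (m - 1) - 1} with hI
  have hIP : I ≤ P := by
    rw [hI, Ideal.span_le]
    rintro x (rfl | rfl)
    · exact hmP
    · exact hvP
  have hIQ : ∀ Q : Ideal (𝓞 L), Q.IsMaximal → I ≤ Q → Q = P := by
    intro Q hQ hIQ
    have hQp := hQ.isPrime
    have hmQ : (m : 𝓞 L) ∈ Q := hIQ (Ideal.subset_span (by simp))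
    have hvQ : θ ^ (m - 1) - 1 ∈ Q := hIQ (Ideal.subset_span (by simp))
    have h1 : P ^ e * J ≤ Q := by
      rw [← hJ, Ideal.span_singleton_le_iff_mem]
      exact hmQ
    rcases (hQp.mul_le).1 h1 with h2 | h2
    · have h3 : P ≤ Q := hQp.le_of_pow_le h2
      exact (hPm.eq_of_le hQ.ne_top h3).symm
    · exfalso
      have h3 : θ ∈ Q := h2 (Ideal.mul_mem_right _ _ hc)
      have h4 : θ ^ (m - 1) ∈ Q := Ideal.pow_mem_of_mem _ h3 _ (by omega)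
      apply hQ.ne_top
      rw [Ideal.eq_top_iff_one]
      have h5 : (1 : 𝓞 L) = θ ^ (m - 1) - (θ ^ (m - 1) - 1) := by ring
      rw [h5]
      exact Ideal.sub_mem _ h4 hvQ
  have hIeq : I = P := by
    obtain ⟨K, hK⟩ := Ideal.dvd_iff_le.2 hIP
    have hKtop : K = ⊤ := by
      by_contra hne
      obtain ⟨Q, hQ, hKQ⟩ := Ideal.exists_le_maximal K hne
      have h1 : I ≤ Q := by
        rw [hK]
        exact le_trans (Ideal.mul_le.2 fun a _ b hb => Ideal.mul_mem_left _ a hb) hKQ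
      have h2 := hIQ Q hQ h1
      rw [h2] at hKQ
      apply hvP2
      have h3 : I ≤ P ^ 2 := by
        rw [hK, sq]
        exact Ideal.mul_mono_right hKQ
      exact h3 (Ideal.subset_span (by simp))
    rw [hK, hKtop, Ideal.mul_top]
  -- Nakayama
  set C : Subalgebra ℤ (𝓞 L) := Algebra.adjoin ℤ {θ} with hC
  have hθC : θ ∈ C := Algebra.subset_adjoin (by simp)
  have hvC : θ ^ (m - 1) - 1 ∈ C := C.sub_mem (C.pow_mem hθC _) C.one_mem
  have hmC : (m : 𝓞 L) ∈ C := natCast_mem C m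
  have hdec : ∀ b : 𝓞 L, ∃ x ∈ C, b - x ∈ P := by
    intro b
    by_cases hb : b ∈ P
    · exact ⟨0, C.zero_mem, by simpa using hb⟩
    · have hb' : Ideal.Quotient.mk P b ≠ 0 := fun h => hb (Ideal.Quotient.eq_zero_iff_mem.1 h)
      have h1 := hg (Units.mk0 _ hb')
      rw [← mem_powers_iff_mem_zpowers] at h1
      obtain ⟨n, hn⟩ := h1
      refine ⟨θ ^ n, C.pow_mem hθC n, ?_⟩
      rw [← Ideal.Quotient.eq, map_pow, hθP]
      have h2 := congrArg Units.val hn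
      simp only [Units.val_mk0] at h2
      rw [← h2]
      rfl
  let q : Ideal C := P.comap (algebraMap C (𝓞 L))
  let R : Submodule C (𝓞 L) := LinearMap.range (Algebra.linearMap C (𝓞 L))
  have hmem : ∀ x : 𝓞 L, x ∈ R ↔ x ∈ C := by
    intro x
    constructor
    · rintro ⟨y, rfl⟩
      exact y.2
    · intro hx
      exact ⟨⟨x, hx⟩, rfl⟩
  have hfg : (⊤ : Submodule C (𝓞 L ⧸ R)).FG := by
    have h1 : Module.Finite C (𝓞 L) := Module.Finite.of_restrictScalars_finite ℤ C (𝓞 L)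
    have h2 : Module.Finite C (𝓞 L ⧸ R) := inferInstance
    exact h2.fg_top
  have hle : (⊤ : Submodule C (𝓞 L ⧸ R)) ≤ q • (⊤ : Submodule C (𝓞 L ⧸ R)) := by
    intro y _
    obtain ⟨b, rfl⟩ := Submodule.Quotient.mk_surjective R y
    obtain ⟨x, hx, hbx⟩ := hdec b
    rw [← hIeq, hI, Ideal.mem_span_pair] at hbx
    obtain ⟨u, w, huw⟩ := hbx
    have h1 : b = x + ((⟨(m : 𝓞 L), hmC⟩ : C) • u + (⟨θ ^ (m - 1) - 1, hvC⟩ : C) • w) := by
      have e1 : (⟨(m : 𝓞 L), hmC⟩ : C) • u = (m : 𝓞 L) * u := rfl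
      have e2 : (⟨θ ^ (m - 1) - 1, hvC⟩ : C) • w = (θ ^ (m - 1) - 1) * w := rfl
      rw [e1, e2]
      linear_combination -huw
    have h2 : (Submodule.Quotient.mk b : 𝓞 L ⧸ R) = (⟨(m : 𝓞 L), hmC⟩ : C) •
        (Submodule.Quotient.mk u : 𝓞 L ⧸ R) + (⟨θ ^ (m - 1) - 1, hvC⟩ : C) •
        (Submodule.Quotient.mk w : 𝓞 L ⧸ R) := by
      conv_lhs => rw [h1]
      rw [Submodule.Quotient.mk_add, Submodule.Quotient.mk_add, Submodule.Quotient.mk_smul,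
        Submodule.Quotient.mk_smul, (Submodule.Quotient.mk_eq_zero R).2 ((hmem x).2 hx), zero_add]
    rw [h2]
    refine Submodule.add_mem _ ?_ ?_
    · exact Submodule.smul_mem_smul (show (⟨(m : 𝓞 L), hmC⟩ : C) ∈ q from hmP) trivial
    · exact Submodule.smul_mem_smul (show (⟨θ ^ (m - 1) - 1, hvC⟩ : C) ∈ q from hvP) trivial
  obtain ⟨r, hr1, hr2⟩ := Submodule.exists_sub_one_mem_and_smul_eq_zero_of_fg_of_le_smul q
    (⊤ : Submodule C (𝓞 L ⧸ R)) hfg hle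
  have hrP : (r : 𝓞 L) ∉ P := by
    intro h
    apply hPm.ne_top
    rw [Ideal.eq_top_iff_one]
    have h1 : ((r : 𝓞 L) - 1) ∈ P := hr1
    have h2 : (1 : 𝓞 L) = (r : 𝓞 L) - ((r : 𝓞 L) - 1) := by ring
    rw [h2]
    exact Ideal.sub_mem _ h h1
  have hpoly : ∀ x ∈ C, ∃ A : ℤ[X], aeval θ A = x := by
    intro x hx
    rw [hC, Algebra.adjoin_singleton_eq_range_aeval] at hx
    obtain ⟨A, hA⟩ := hx
    exact ⟨A, hA⟩
  obtain ⟨S, hS⟩ := hpoly (r : 𝓞 L) r.2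
  refine ⟨θ, fun b => ?_⟩
  have h1 := hr2 (Submodule.Quotient.mk b) trivial
  rw [← Submodule.Quotient.mk_smul, Submodule.Quotient.mk_eq_zero, hmem] at h1
  obtain ⟨A, hA⟩ := hpoly _ h1
  refine ⟨A, S, by rwa [hS], ?_⟩
  rw [hA, hS]
  show b * (r : 𝓞 L) = (r : 𝓞 L) * b
  ring

end Pool.Agent.Leh2
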