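import Pool.Agent.Leh2.Defs
import Pool.Agent.CITNF.Basic

set_option autoImplicit false
set_option linter.unusedVariables false

namespace Pool.Agent.Leh2

open NumberField Height Module

private lemma exists_support {L : Type} [Field L] [NumberField L] (X : Finset L) :
    ∃ W : Finset (FinitePlace L), ∀ x ∈ X, x ≠ 0 → ∀ w : FinitePlace L, w ∉ W → w x = 1 := by
  classical
  induction X using Finset.induction_on with
  | empty => exact ⟨∅, by simp⟩
  | insert a X ha ih =>
    obtain ⟨W, hW⟩ := ih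
    by_cases h0 : a = 0
    · refine ⟨W, fun x hx hx0 w hw => ?_⟩
      rcases Finset.mem_insert.1 hx with h | h
      · exact absurd (h.trans h0) hx0
      · exact hW x h hx0 w hw
    · have hf : (Function.mulSupport fun w : FinitePlace L => w a).Finite :=
        FinitePlace.hasFiniteMulSupport h0
      refine ⟨W ∪ hf.toFinset, fun x hx hx0 w hw => ?_⟩
      rw [Finset.mem_union, not_or] at hw
      rcases Finset.mem_insert.1 hx with h | h
      · have h2 := hw.2
        rw [Set.Finite.mem_toFinset, Function.mem_mulSupport, not_not] at h2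
        rw [h]
        exact h2
      · exact hW x h hx0 w hw.1

private lemma log_pf {L : Type} [Field L] [NumberField L] (x : L) (hx : x ≠ 0)
    (W : Finset (FinitePlace L)) (hW : ∀ w : FinitePlace L, w ∉ W → w x = 1) :
    ∑ v : InfinitePlace L, (v.mult : ℝ) * Real.log (v x) + ∑ w ∈ W, Real.log (w x) = 0 := by
  have h := NumberField.prod_abs_eq_one hx
  have h1 : ∏ᶠ w : FinitePlace L, w x = ∏ w ∈ W, w x := by
    apply finprod_eq_prod_of_mulSupport_subset
    intro w hw
    by_contra hcon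
    exact hw (hW w hcon)
  rw [h1] at h
  have hv : ∀ v : InfinitePlace L, v x ≠ 0 := fun v => by
    simpa using hx
  have hw : ∀ w : FinitePlace L, w x ≠ 0 := fun w => by
    simpa using hx
  have h2 := congrArg Real.log h
  rw [Real.log_one, Real.log_mul (Finset.prod_ne_zero_iff.2 fun v _ => pow_ne_zero _ (hv v))
    (Finset.prod_ne_zero_iff.2 fun w _ => hw w), Real.log_prod (fun v _ => pow_ne_zero _ (hv v)),
    Real.log_prod (fun w _ => hw w)] at h2
  simpa [Real.log_pow] using h2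

private lemma lh_eq {L : Type} [Field L] [NumberField L] (x : L)
    (W : Finset (FinitePlace L)) (hW : ∀ w : FinitePlace L, w ∉ W → w x ≤ 1) :
    logHeight₁ x = ∑ v : InfinitePlace L, (v.mult : ℝ) * Real.log (max 1 (v x)) +
      ∑ w ∈ W, Real.log (max 1 (w x)) := by
  rw [NumberField.logHeight₁_eq]
  congr 1
  · refine Finset.sum_congr rfl fun v _ => ?_
    rw [Real.posLog_eq_log_max_one (apply_nonneg v x)]
  · rw [finsum_eq_sum_of_support_subset (s := W)]
    · refine Finset.sum_congr rfl fun w _ => ?_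
      rw [Real.posLog_eq_log_max_one (apply_nonneg w x)]
    · intro w hw
      by_contra hcon
      apply hw
      show Real.posLog (w x) = 0
      rw [Real.posLog_eq_log_max_one (apply_nonneg w x), max_eq_left (hW w hcon), Real.log_one]

private lemma log_pm {ι : Type} (s : Finset ι) (a : ι → ℝ) (m : ι → ℕ) :
    Real.log (∏ i ∈ s, max 1 (a i) ^ m i) = ∑ i ∈ s, (m i : ℝ) * Real.log (max 1 (a i)) := by
  rw [Real.log_prod]
  · refine Finset.sum_congr rfl fun i _ => ?_
    rw [Real.log_pow]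
  · intro i _
    exact pow_ne_zero _ (lt_of_lt_of_le one_pos (le_max_left _ _)).ne'

private lemma pm_pos {ι : Type} (s : Finset ι) (a : ι → ℝ) (m : ι → ℕ) :
    0 < ∏ i ∈ s, max 1 (a i) ^ m i :=
  Finset.prod_pos fun i _ => pow_pos (lt_of_lt_of_le one_pos (le_max_left _ _)) _

/-- PG1. Product formula with a gain at the primes of `Λ`. -/
theorem product_gain {L : Type} [Field L] [NumberField L] (Δ : L) (hΔ : Δ ≠ 0) (A : ℝ)
    (hA : 1 ≤ A) {ι : Type} (s : Finset ι) (u : ι → L) (m : ι → ℕ) (Λ : Finset ℕ)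
    (hΛ : ∀ p ∈ Λ, p.Prime) (t : ℕ → ℕ)
    (hinf : ∀ v : InfinitePlace L, v Δ ≤ A * ∏ i ∈ s, max 1 (v (u i)) ^ m i)
    (hfin : ∀ w : FinitePlace L,
      w Δ ≤ (∏ i ∈ s, max 1 (w (u i)) ^ m i) * ∏ p ∈ Λ, w (p : L) ^ t p) :
    (finrank ℚ L : ℝ) * ∑ p ∈ Λ, (t p : ℝ) * Real.log p ≤
      finrank ℚ L * Real.log A + ∑ i ∈ s, (m i : ℝ) * logHeight₁ (u i) := by
  classical
  obtain ⟨W, hW⟩ := exists_support (insert Δ (s.image u ∪ Λ.image (fun p : ℕ => (p : L))))
  have hWΔ : ∀ w : FinitePlace L, w ∉ W → w Δ = 1 := hW Δ (Finset.mem_insert_self _ _) hΔ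
  have hWu : ∀ i ∈ s, ∀ w : FinitePlace L, w ∉ W → w (u i) ≤ 1 := by
    intro i hi w hw
    by_cases h0 : u i = 0
    · rw [h0, map_zero]
      exact zero_le_one
    · exact (hW (u i) (Finset.mem_insert_of_mem (Finset.mem_union_left _
        (Finset.mem_image_of_mem u hi))) h0 w hw).le
  have hp0 : ∀ p ∈ Λ, (p : L) ≠ 0 := fun p hp => by exact_mod_cast (hΛ p hp).ne_zero
  have hWp : ∀ p ∈ Λ, ∀ w : FinitePlace L, w ∉ W → w (p : L) = 1 := by
    intro p hp w hw
    exact hW (p : L) (Finset.mem_insert_of_mem (Finset.mem_union_right _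
      (Finset.mem_image_of_mem (fun p : ℕ => (p : L)) hp))) (hp0 p hp) w hw
  have e0 := log_pf Δ hΔ W hWΔ
  have ep : ∀ p ∈ Λ, ∑ w ∈ W, Real.log (w (p : L)) = -((finrank ℚ L : ℝ) * Real.log p) := by
    intro p hp
    have h := log_pf (p : L) (hp0 p hp) W (hWp p hp)
    have h2 : ∑ v : InfinitePlace L, (v.mult : ℝ) * Real.log (v (p : L)) =
        (finrank ℚ L : ℝ) * Real.log p := by
      have h3 : ∀ v : InfinitePlace L, v (p : L) = p := fun v => by
        simp
      simp only [h3]
      rw [← Finset.sum_mul, ← InfinitePlace.sum_mult_eq (K := L)]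
      push_cast
      rfl
    linarith
  have eh : ∀ i ∈ s, logHeight₁ (u i) =
      ∑ v : InfinitePlace L, (v.mult : ℝ) * Real.log (max 1 (v (u i))) +
      ∑ w ∈ W, Real.log (max 1 (w (u i))) := fun i hi => lh_eq (u i) W (hWu i hi)
  -- infinite places
  have hi1 : ∀ v : InfinitePlace L, (v.mult : ℝ) * Real.log (v Δ) ≤
      (v.mult : ℝ) * Real.log A +
        ∑ i ∈ s, (m i : ℝ) * ((v.mult : ℝ) * Real.log (max 1 (v (u i)))) := by
    intro v
    have hpos : 0 < v Δ := lt_of_le_of_ne (apply_nonneg v Δ) (Ne.symm (by simpa using hΔ))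
    have h1 := Real.log_le_log hpos (hinf v)
    rw [Real.log_mul (by linarith) (pm_pos s _ m).ne', log_pm] at h1
    have h2 : (0 : ℝ) ≤ v.mult := by positivity
    have h3 := mul_le_mul_of_nonneg_left h1 h2
    refine h3.trans (le_of_eq ?_)
    rw [mul_add, Finset.mul_sum]
    congr 1
    refine Finset.sum_congr rfl fun i _ => ?_
    ring
  have hi2 := Finset.sum_le_sum (fun (v : InfinitePlace L) (_ : v ∈ Finset.univ) => hi1 v)
  rw [Finset.sum_add_distrib, ← Finset.sum_mul, Finset.sum_comm] at hi2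
  have hd : (∑ v : InfinitePlace L, (v.mult : ℝ)) = (finrank ℚ L : ℝ) := by
    rw [← InfinitePlace.sum_mult_eq (K := L)]
    push_cast
    rfl
  rw [hd] at hi2
  simp only [← Finset.mul_sum] at hi2
  -- finite places
  have hf1 : ∀ w ∈ W, Real.log (w Δ) ≤
      ∑ i ∈ s, (m i : ℝ) * Real.log (max 1 (w (u i))) +
        ∑ p ∈ Λ, (t p : ℝ) * Real.log (w (p : L)) := by
    intro w _
    have hpos : 0 < w Δ := lt_of_le_of_ne (apply_nonneg w Δ) (Ne.symm (by simpa using hΔ))
    have hwp : ∀ p ∈ Λ, w (p : L) ^ t p ≠ 0 := fun p hp => pow_ne_zero _ (by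
      have := hp0 p hp
      simpa using this)
    have h1 := Real.log_le_log hpos (hfin w)
    rw [Real.log_mul (pm_pos s _ m).ne' (Finset.prod_ne_zero_iff.2 hwp), log_pm,
      Real.log_prod hwp] at h1
    simpa only [Real.log_pow] using h1
  have hf2 := Finset.sum_le_sum hf1
  rw [Finset.sum_add_distrib, Finset.sum_comm (s := W) (t := s),
    Finset.sum_comm (s := W) (t := Λ)] at hf2
  simp only [← Finset.mul_sum] at hf2
  have hf3 : ∑ p ∈ Λ, (t p : ℝ) * ∑ w ∈ W, Real.log (w (p : L)) =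
      -((finrank ℚ L : ℝ) * ∑ p ∈ Λ, (t p : ℝ) * Real.log p) := by
    rw [Finset.mul_sum, ← Finset.sum_neg_distrib]
    refine Finset.sum_congr rfl fun p hp => ?_
    rw [ep p hp]
    ring
  rw [hf3] at hf2
  have hh : ∑ i ∈ s, (m i : ℝ) * logHeight₁ (u i) =
      ∑ i ∈ s, (m i : ℝ) * ∑ v : InfinitePlace L, (v.mult : ℝ) * Real.log (max 1 (v (u i))) +
      ∑ i ∈ s, (m i : ℝ) * ∑ w ∈ W, Real.log (max 1 (w (u i))) := by
    rw [← Finset.sum_add_distrib]
    refine Finset.sum_congr rfl fun i hi => ?_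
    rw [eh i hi]
    ring
  rw [hh]
  linarith

private lemma absNorm_map_equiv' {L : Type} [Field L] [NumberField L] (e : 𝓞 L ≃+* 𝓞 L)
    (I : Ideal (𝓞 L)) : Ideal.absNorm (I.map e) = Ideal.absNorm I := by
  rw [Ideal.absNorm_apply, Ideal.absNorm_apply, Submodule.cardQuot_apply, Submodule.cardQuot_apply]
  exact (Nat.card_congr (Ideal.quotientEquiv I (I.map e) e rfl).toEquiv).symm

private lemma mult_smul' {L : Type} [Field L] [NumberField L] (σ : L ≃ₐ[ℚ] L)
    (v : InfinitePlace L) : (σ • v).mult = v.mult := by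
  unfold InfinitePlace.mult
  by_cases h : v.IsReal
  · have h' : (σ • v).IsReal := InfinitePlace.isReal_smul_iff.2 h
    rw [if_pos h, if_pos h']
  · have h' : ¬ (σ • v).IsReal := fun h1 => h (InfinitePlace.isReal_smul_iff.1 h1)
    rw [if_neg h, if_neg h']

private lemma mulHeight_pair {L : Type} [Field L] [NumberField L] (σ : L ≃ₐ[ℚ] L)
    (a b : 𝓞 L) (hb : b ≠ 0) :
    mulHeight ![σ (a : L), σ (b : L)] = mulHeight ![(a : L), (b : L)] := by
  set e : 𝓞 L ≃+* 𝓞 L := RingOfIntegers.mapRingEquiv (σ : L ≃+* L) with he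
  have hea : ((e a : 𝓞 L) : L) = σ (a : L) := rfl
  have heb : ((e b : 𝓞 L) : L) = σ (b : L) := rfl
  rw [← hea, ← heb]
  have h1 : (![((e a : 𝓞 L) : L), ((e b : 𝓞 L) : L)] : Fin 2 → L) ≠ 0 := by
    intro h
    have := congrFun h 1
    simp at this
    exact hb this
  have h2 : (![(a : L), (b : L)] : Fin 2 → L) ≠ 0 := by
    intro h
    have := congrFun h 1
    simp at this
    exact hb this
  have h1' : (![e a, e b] : Fin 2 → 𝓞 L) ≠ 0 := by
    intro h
    have := congrFun h 1
    simp at this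
    exact hb this
  have h2' : (![a, b] : Fin 2 → 𝓞 L) ≠ 0 := by
    intro h
    have := congrFun h 1
    simp at this
    exact hb this
  rw [NumberField.mulHeight_eq h1, NumberField.mulHeight_eq h2]
  congr 1
  · -- infinite places
    rw [← Equiv.prod_comp (MulAction.toPerm σ : Equiv.Perm (InfinitePlace L))]
    refine Finset.prod_congr rfl fun v _ => ?_
    have hm : ((MulAction.toPerm σ : Equiv.Perm (InfinitePlace L)) v).mult = v.mult :=
      mult_smul' σ v
    rw [hm]
    congr 1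
    refine iSup_congr fun i => ?_
    show (σ • v) _ = v _
    rw [InfinitePlace.smul_apply]
    congr 1
    fin_cases i
    · show σ.symm (σ (a : L)) = a
      simp
    · show σ.symm (σ (b : L)) = b
      simp
  · have k1 := NumberField.absNorm_mul_finprod_finitePlace_eq_one h1'
    have k2 := NumberField.absNorm_mul_finprod_finitePlace_eq_one h2'
    have hs : Ideal.span (Set.range (![e a, e b] : Fin 2 → 𝓞 L)) =
        (Ideal.span (Set.range (![a, b] : Fin 2 → 𝓞 L))).map e := by
      rw [Ideal.map_span]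
      congr 1
      rw [← Set.range_comp]
      congr 1
      funext i
      fin_cases i <;> rfl
    rw [hs, absNorm_map_equiv'] at k1
    have c1 : (∏ᶠ v : FinitePlace L, ⨆ i, v ((![e a, e b] : Fin 2 → 𝓞 L) i : L)) =
        ∏ᶠ v : FinitePlace L, ⨆ i, v ((![((e a : 𝓞 L) : L), ((e b : 𝓞 L) : L)] : Fin 2 → L) i) := by
      refine finprod_congr fun v => iSup_congr fun i => ?_
      fin_cases i <;> rfl
    have c2 : (∏ᶠ v : FinitePlace L, ⨆ i, v ((![a, b] : Fin 2 → 𝓞 L) i : L)) =
        ∏ᶠ v : FinitePlace L, ⨆ i, v ((![(a : L), (b : L)] : Fin 2 → L) i) := by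
      refine finprod_congr fun v => iSup_congr fun i => ?_
      fin_cases i <;> rfl
    rw [c1] at k1
    rw [c2] at k2
    have hN : (Ideal.absNorm (Ideal.span (Set.range (![a, b] : Fin 2 → 𝓞 L))) : ℝ) ≠ 0 := by
      intro h
      rw [h, zero_mul] at k2
      exact zero_ne_one k2
    exact mul_left_cancel₀ hN (k1.trans k2.symm)

/-- PG2. -/
theorem nh_algEquiv {L : Type} [Field L] [NumberField L] (σ : L ≃ₐ[ℚ] L) (x : L) :
    nh (σ x) = nh x := by
  unfold nh
  congr 1
  obtain ⟨a, b, hb, hx⟩ := IsFractionRing.div_surjective (A := 𝓞 L) x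
  have hb0 : b ≠ 0 := nonZeroDivisors.ne_zero hb
  have hx' : x = (a : L) / (b : L) := hx.symm
  have hxσ : σ x = σ (a : L) / σ (b : L) := by rw [hx', map_div₀]
  have hbL : (b : L) ≠ 0 := by
    intro h
    exact hb0 (by exact_mod_cast h)
  rw [Height.logHeight₁_eq_log_mulHeight₁, Height.logHeight₁_eq_log_mulHeight₁]
  congr 1
  rw [hxσ, hx', Height.mulHeight₁_div_eq_mulHeight, Height.mulHeight₁_div_eq_mulHeight]
  exact mulHeight_pair σ a b hb0

/-- PG3. -/
theorem nh_pos {L : Type} [Field L] [NumberField L] (x : L) (hx : x ≠ 0)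
    (h : ∀ n : ℕ, 0 < n → x ^ n ≠ 1) : 0 < nh x := by
  unfold nh
  refine div_pos (lt_of_le_of_ne (zero_le_logHeight₁ x) ?_) (by exact_mod_cast finrank_pos)
  intro h0
  obtain ⟨m, hm, h1⟩ := Pool.Agent.CITNF.torsion_of_height_zero x hx h0.symm
  exact h m hm h1

end Pool.Agent.Leh2
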