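import Pool.Agent.Leh2.Bez

set_option autoImplicit false
set_option linter.unusedVariables false

namespace Pool.Agent.Leh2

open MvPolynomial Module

/-- `toPoly` as a linear map. -/
private noncomputable def pzL {k : Type} [Field k] (L1 L2 : ℕ) :
    (Fin L1 × Fin L2 → k) →ₗ[k] MvPolynomial (Fin 2) k where
  toFun := toPoly
  map_add' := by
    intro c d
    simp only [toPoly, Pi.add_apply, C_add, add_mul, Finset.sum_add_distrib]
  map_smul' := by
    intro r c
    simp only [toPoly, Pi.smul_apply, smul_eq_mul, C_mul, RingHom.id_apply, Finset.smul_sum]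
    refine Finset.sum_congr rfl fun i _ => ?_
    rw [MvPolynomial.smul_eq_C_mul]
    ring

private theorem pz_coeff {k : Type} [Field k] {L1 L2 : ℕ} (c : Fin L1 × Fin L2 → k)
    (m : Fin 2 →₀ ℕ) : coeff m (toPoly c) =
      ∑ i, if i.1.val = m 0 ∧ i.2.val = m 1 then c i else 0 := by
  classical
  rw [toPoly, coeff_sum]
  refine Finset.sum_congr rfl fun i _ => ?_
  have h1 : (C (c i) * X 0 ^ (i.1 : ℕ) * X 1 ^ (i.2 : ℕ) : MvPolynomial (Fin 2) k) =
      monomial (Finsupp.single 0 i.1.val + Finsupp.single 1 i.2.val) (c i) := by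
    rw [C_mul_X_pow_eq_monomial, X_pow_eq_monomial, monomial_mul, mul_one]
  rw [h1, coeff_monomial]
  congr 1
  rw [eq_iff_iff]
  constructor
  · intro h
    rw [← h]
    simp
  · rintro ⟨h2, h3⟩
    ext t
    fin_cases t
    · simpa using h2
    · simpa using h3

private theorem pz_coeff_ne {k : Type} [Field k] {L1 L2 : ℕ} (c : Fin L1 × Fin L2 → k)
    (m : Fin 2 →₀ ℕ) (h : coeff m (toPoly c) ≠ 0) : m 0 < L1 ∧ m 1 < L2 := by
  rw [pz_coeff] at h
  obtain ⟨i, _, hi⟩ := Finset.exists_ne_zero_of_sum_ne_zero h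
  by_cases h1 : i.1.val = m 0 ∧ i.2.val = m 1
  · exact ⟨h1.1 ▸ i.1.isLt, h1.2 ▸ i.2.isLt⟩
  · rw [if_neg h1] at hi
    exact absurd rfl hi

private theorem pz_inj {k : Type} [Field k] {L1 L2 : ℕ} :
    Function.Injective (pzL (k := k) L1 L2) := by
  classical
  rw [← LinearMap.ker_eq_bot, LinearMap.ker_eq_bot']
  intro c hc
  have hc' : toPoly c = 0 := hc
  ext i
  have h1 := pz_coeff c (Finsupp.single 0 i.1.val + Finsupp.single 1 i.2.val)
  rw [hc', coeff_zero, Finset.sum_eq_single i] at h1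
  · simpa using h1.symm
  · intro j _ hj
    rw [if_neg]
    rintro ⟨h2, h3⟩
    apply hj
    simp at h2 h3
    exact Prod.ext (Fin.ext h2) (Fin.ext h3)
  · intro h
    exact absurd (Finset.mem_univ _) h

/-- A finite-dimensionality bound. -/
private theorem pz_finrank {k : Type} [Field k] (A B : ℕ)
    (W : Submodule k (MvPolynomial (Fin 2) k))
    (hW : ∀ F ∈ W, ∀ m ∈ F.support, m 0 < A ∧ m 1 < B) :
    FiniteDimensional k W ∧ finrank k W ≤ A * B := by
  let φ : W →ₗ[k] (Fin A × Fin B → k) :=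
    { toFun := fun F i => coeff (Finsupp.single 0 i.1.val + Finsupp.single 1 i.2.val)
        (F : MvPolynomial (Fin 2) k)
      map_add' := by
        intro F G
        ext i
        simp
      map_smul' := by
        intro r F
        ext i
        simp }
  have hφ : Function.Injective φ := by
    rw [← LinearMap.ker_eq_bot, LinearMap.ker_eq_bot']
    intro F hF
    apply Subtype.ext
    by_contra hne
    rw [Submodule.coe_zero] at hne
    obtain ⟨m, hm⟩ := MvPolynomial.ne_zero_iff.mp hne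
    obtain ⟨h1, h2⟩ := hW F F.2 m (mem_support_iff.mpr hm)
    apply hm
    have h3 := congrFun hF (⟨m 0, h1⟩, ⟨m 1, h2⟩)
    have h4 : coeff (Finsupp.single 0 (m 0) + Finsupp.single 1 (m 1))
        (F : MvPolynomial (Fin 2) k) = 0 := h3
    have h5 : Finsupp.single 0 (m 0) + Finsupp.single 1 (m 1) = m := by
      ext t
      fin_cases t <;> simp
    rwa [h5] at h4
  refine ⟨FiniteDimensional.of_injective φ hφ, ?_⟩
  refine (LinearMap.finrank_le_finrank_of_injective hφ).trans ?_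
  rw [finrank_fintype_fun_eq_card, Fintype.card_prod, Fintype.card_fin, Fintype.card_fin]

/-- A maximal common divisor. -/
private theorem pz_gcd {k : Type} [Field k] (M : Submodule k (MvPolynomial (Fin 2) k))
    (hM : M ≠ ⊥) : ∃ G : MvPolynomial (Fin 2) k, G ≠ 0 ∧ (∀ F ∈ M, G ∣ F) ∧
      ∀ G', (∀ F ∈ M, G' ∣ F) → G'.totalDegree ≤ G.totalDegree := by
  obtain ⟨F0, hF0, hF0'⟩ := Submodule.exists_mem_ne_zero_of_ne_bot hM
  let T : Set ℕ := {n | ∃ G : MvPolynomial (Fin 2) k, (∀ F ∈ M, G ∣ F) ∧ G.totalDegree = n}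
  have hbd : ∀ G : MvPolynomial (Fin 2) k, G ∣ F0 → G.totalDegree ≤ F0.totalDegree := by
    rintro G ⟨H, rfl⟩
    have h1 : G ≠ 0 := left_ne_zero_of_mul hF0'
    have h2 : H ≠ 0 := right_ne_zero_of_mul hF0'
    rw [totalDegree_mul_of_isDomain h1 h2]
    omega
  have hT1 : T.Nonempty := ⟨_, 1, fun F _ => one_dvd F, rfl⟩
  have hT2 : BddAbove T := by
    refine ⟨F0.totalDegree, ?_⟩
    rintro n ⟨G, hG, rfl⟩
    exact hbd G (hG F0 hF0)
  obtain ⟨G, hG1, hG2⟩ := Nat.sSup_mem hT1 hT2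
  refine ⟨G, ?_, hG1, ?_⟩
  · rintro rfl
    exact hF0' (zero_dvd_iff.mp (hG1 F0 hF0))
  · intro G' hG'
    rw [hG2]
    exact le_csSup hT2 ⟨G', hG', rfl⟩

private theorem pz_totalDegree_pos {k : Type} [Field k] (π : MvPolynomial (Fin 2) k)
    (h0 : π ≠ 0) (h1 : ¬ IsUnit π) : 0 < π.totalDegree := by
  rw [Nat.pos_iff_ne_zero]
  intro h
  rw [totalDegree_eq_zero_iff_eq_C] at h
  apply h1
  rw [h]
  apply IsUnit.map
  rw [isUnit_iff_ne_zero]
  intro h2
  rw [h2, C_0] at h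
  exact h0 h

/-- Two relatively prime elements. -/
private theorem pz_coprime {k : Type} [Field k] [Infinite k]
    (W : Submodule k (MvPolynomial (Fin 2) k)) (hW : W ≠ ⊥)
    (hπ : ∀ π : MvPolynomial (Fin 2) k, Irreducible π → ∃ F ∈ W, ¬ π ∣ F) :
    ∃ F1 ∈ W, ∃ F2 ∈ W, IsRelPrime F1 F2 := by
  classical
  obtain ⟨F1, hF1, hF1'⟩ := Submodule.exists_mem_ne_zero_of_ne_bot hW
  refine ⟨F1, hF1, ?_⟩
  let P : Multiset (MvPolynomial (Fin 2) k) := UniqueFactorizationMonoid.factors F1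
  let sub : MvPolynomial (Fin 2) k → Submodule k W := fun π =>
    ((Ideal.span {π}).restrictScalars k).comap W.subtype
  let s : Finset (Submodule k W) := P.toFinset.image sub
  have hs : (⊤ : Submodule k W) ∉ s := by
    intro h
    obtain ⟨π, hπP, hπ'⟩ := Finset.mem_image.mp h
    rw [Multiset.mem_toFinset] at hπP
    obtain ⟨F, hF, hnd⟩ := hπ π (UniqueFactorizationMonoid.irreducible_of_factor π hπP)
    have h1 : (⟨F, hF⟩ : W) ∈ sub π := by
      rw [hπ']
      trivial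
    apply hnd
    have h2 : F ∈ Ideal.span {π} := h1
    rwa [Ideal.mem_span_singleton] at h2
  have h1 := Subspace.biUnion_ne_univ_of_top_notMem hs
  rw [Set.ne_univ_iff_exists_notMem] at h1
  obtain ⟨F2, hF2⟩ := h1
  refine ⟨F2, F2.2, ?_⟩
  intro d hd1 hd2
  by_contra hdu
  have hd0 : d ≠ 0 := by
    rintro rfl
    exact hF1' (zero_dvd_iff.mp hd1)
  obtain ⟨π', hπ'i, hπ'd⟩ := WfDvdMonoid.exists_irreducible_factor hdu hd0
  obtain ⟨π, hπP, hass⟩ := UniqueFactorizationMonoid.exists_mem_factors_of_dvd hF1' hπ'i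
    (hπ'd.trans hd1)
  apply hF2
  rw [Set.mem_iUnion₂]
  refine ⟨sub π, Finset.mem_image_of_mem _ (Multiset.mem_toFinset.mpr hπP), ?_⟩
  have h2 : (F2 : MvPolynomial (Fin 2) k) ∈ Ideal.span {π} := by
    rw [Ideal.mem_span_singleton]
    exact hass.symm.dvd.trans (hπ'd.trans hd2)
  exact h2

/-- PZ. The gcd of a large space of polynomials. -/
theorem plane_zero {k : Type} [Field k] [Infinite k] {L1 L2 : ℕ}
    (V : Submodule k (Fin L1 × Fin L2 → k)) (R : ℝ) (hR : (L1 * L2 : ℝ) - finrank k V ≤ R)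
    (hV : V ≠ ⊥) :
    ∃ G : MvPolynomial (Fin 2) k, G ≠ 0 ∧
      (G.degreeOf 0 * L2 + G.degreeOf 1 * L1 : ℝ) ≤ 2 * R ∧
      ∀ (L : Type) [Field L] [Algebra k L] (S : Finset (Fin 2 → L)),
        (∀ s ∈ S, (∀ c ∈ V, aeval s (toPoly c) = 0) ∧ aeval s G ≠ 0) →
        S.card ≤ 2 * L1 * L2 := by
  classical
  set M : Submodule k (MvPolynomial (Fin 2) k) := V.map (pzL L1 L2) with hMdef
  have hM : M ≠ ⊥ := by
    intro h
    apply hV
    rw [Submodule.eq_bot_iff]
    intro c hc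
    have h1 : pzL L1 L2 c ∈ M := ⟨c, hc, rfl⟩
    rw [h, Submodule.mem_bot] at h1
    exact pz_inj (h1.trans (map_zero _).symm)
  have hMd : ∀ F ∈ M, ∀ m ∈ F.support, m 0 < L1 ∧ m 1 < L2 := by
    rintro F ⟨c, hc, rfl⟩ m hm
    exact pz_coeff_ne c m (mem_support_iff.mp hm)
  obtain ⟨G, hG0, hG1, hG2⟩ := pz_gcd M hM
  set g1 := G.degreeOf 0 with hg1
  set g2 := G.degreeOf 1 with hg2
  set W : Submodule k (MvPolynomial (Fin 2) k) := M.comap (LinearMap.mulLeft k G) with hWdef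
  have hWmem : ∀ F, F ∈ W ↔ G * F ∈ M := fun F => Iff.rfl
  have hWW : ∀ F ∈ M, ∃ F' ∈ W, F = G * F' := by
    intro F hF
    obtain ⟨F', hF'⟩ := hG1 F hF
    exact ⟨F', by rw [hWmem, ← hF']; exact hF, hF'⟩
  have hdeg : ∀ F ∈ W, F ≠ 0 → g1 + F.degreeOf 0 < L1 ∧ g2 + F.degreeOf 1 < L2 := by
    intro F hF hF0
    have hGF : G * F ≠ 0 := mul_ne_zero hG0 hF0
    have hne : (G * F).support.Nonempty := by
      rw [Finset.nonempty_iff_ne_empty, Ne, MvPolynomial.support_eq_empty]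
      exact hGF
    have key : ∀ i : Fin 2, ∃ m ∈ (G * F).support, G.degreeOf i + F.degreeOf i = m i := by
      intro i
      obtain ⟨m, hm, hm'⟩ := Finset.exists_mem_eq_sup (G * F).support hne (fun m => m i)
      refine ⟨m, hm, ?_⟩
      rw [← degreeOf_mul_eq hG0 hF0, degreeOf_eq_sup i (G * F), hm']
    obtain ⟨m, hm, h1⟩ := key 0
    obtain ⟨m', hm', h2⟩ := key 1
    have h3 := hMd (G * F) hF m hm
    have h4 := hMd (G * F) hF m' hm'
    constructor
    · rw [hg1, h1]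
      exact h3.1
    · rw [hg2, h2]
      exact h4.2
  have hWne : W ≠ ⊥ := by
    obtain ⟨F, hF, hF0⟩ := Submodule.exists_mem_ne_zero_of_ne_bot hM
    obtain ⟨F', hF', rfl⟩ := hWW F hF
    intro h
    rw [h, Submodule.mem_bot] at hF'
    rw [hF', mul_zero] at hF0
    exact hF0 rfl
  obtain ⟨F0, hF0, hF0'⟩ := Submodule.exists_mem_ne_zero_of_ne_bot hWne
  have hgL := hdeg F0 hF0 hF0'
  have hg1L : g1 < L1 := by omega
  have hg2L : g2 < L2 := by omega
  -- dimensions
  have hWfin := pz_finrank (L1 - g1) (L2 - g2) W (by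
    intro F hF m hm
    have hF0 : F ≠ 0 := by
      rintro rfl
      simp at hm
    have h1 := hdeg F hF hF0
    have h2 := monomial_le_degreeOf 0 hm
    have h3 := monomial_le_degreeOf 1 hm
    omega)
  have hdimV : finrank k V = finrank k M :=
    (LinearEquiv.finrank_eq (Submodule.equivMapOfInjective (pzL L1 L2) pz_inj V))
  have hdimM : finrank k M ≤ finrank k W := by
    have h1 : M = W.map (LinearMap.mulLeft k G) := by
      apply le_antisymm
      · intro F hF
        obtain ⟨F', hF', rfl⟩ := hWW F hF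
        exact ⟨F', hF', rfl⟩
      · rintro F ⟨F', hF', rfl⟩
        exact hF'
    have := hWfin.1
    rw [h1]
    exact Submodule.finrank_map_le _ _
  have hdim : (finrank k V : ℝ) ≤ (L1 - g1) * (L2 - g2) := by
    have h1 : finrank k V ≤ (L1 - g1) * (L2 - g2) := by
      rw [hdimV]
      exact hdimM.trans hWfin.2
    have h2 : (finrank k V : ℝ) ≤ (((L1 - g1) * (L2 - g2) : ℕ) : ℝ) := by exact_mod_cast h1
    rw [Nat.cast_mul, Nat.cast_sub hg1L.le, Nat.cast_sub hg2L.le] at h2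
    exact h2
  -- relatively prime elements
  obtain ⟨F1, hF1, F2, hF2, hrel⟩ := pz_coprime W hWne (by
    intro π hπ
    by_contra hcon
    push Not at hcon
    have h1 := hG2 (G * π) (by
      intro F hF
      obtain ⟨F', hF', rfl⟩ := hWW F hF
      exact mul_dvd_mul_left G (hcon F' hF'))
    rw [totalDegree_mul_of_isDomain hG0 hπ.ne_zero] at h1
    have h2 := pz_totalDegree_pos π hπ.ne_zero hπ.not_isUnit
    omega)
  refine ⟨G, hG0, ?_, ?_⟩
  · have h1 : (g1 : ℝ) < L1 := by exact_mod_cast hg1L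
    have h2 : (g2 : ℝ) < L2 := by exact_mod_cast hg2L
    have h3 : (0 : ℝ) ≤ g1 := Nat.cast_nonneg _
    have h4 : (0 : ℝ) ≤ g2 := Nat.cast_nonneg _
    have h5 : (g1 : ℝ) * g2 ≤ g1 * L2 := mul_le_mul_of_nonneg_left h2.le h3
    have h6 : (g1 : ℝ) * g2 ≤ g2 * L1 := by
      rw [mul_comm]
      exact mul_le_mul_of_nonneg_left h1.le h4
    nlinarith
  · intro L _ _ S hS
    have hdegle : ∀ F ∈ W, F.degreeOf 0 ≤ L1 ∧ F.degreeOf 1 ≤ L2 := by
      intro F hF
      rcases eq_or_ne F 0 with rfl | h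
      · simp
      · have := hdeg F hF h
        omega
    have hz : ∀ s ∈ S, ∀ F ∈ W, aeval s F = 0 := by
      intro s hs F hF
      obtain ⟨c, hc, hcF⟩ := (hWmem F).mp hF
      have h1 := (hS s hs).1 c hc
      have h2 : toPoly c = G * F := hcF
      rw [h2, map_mul, mul_eq_zero] at h1
      rcases h1 with h1 | h1
      · exact absurd h1 (hS s hs).2
      · exact h1
    have h1 := bezout F1 F2 hrel L1 L2 L1 L2 (hdegle F1 hF1).1 (hdegle F1 hF1).2
      (hdegle F2 hF2).1 (hdegle F2 hF2).2 S (fun s hs => ⟨hz s hs F1 hF1, hz s hs F2 hF2⟩)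
    calc S.card ≤ L1 * L2 + L2 * L1 := h1
      _ = 2 * L1 * L2 := by ring

end Pool.Agent.Leh2
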