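import Pool.Agent.Leh2.DL
import Pool.Agent.Leh2.Drop
import Pool.Agent.Leh2.Primes
import Pool.Agent.Leh2.VTm
import Pool.Agent.Leh2.PZ

set_option autoImplicit false
set_option linter.unusedVariables false

namespace Pool.Agent.Leh2

open NumberField IntermediateField Module MvPolynomial

/-- the Frobenius automorphisms -/
private theorem exists_frob {L : Type} [Field L] [NumberField L] [IsGalois ℚ L] {ζ : L} {N : ℕ}
    (hζ : IsPrimitiveRoot ζ N) (hN : 0 < N) {p : ℕ} (hp : p.Prime) (hpN : ¬ p ∣ N) :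
    ∃ ψ : L ≃ₐ[ℚ] L, ψ ζ = ζ ^ p := by
  have h1 : IsPrimitiveRoot (ζ ^ p) N := hζ.pow_of_prime hp hpN
  have h2 : IsConjRoot ℚ ζ (ζ ^ p) := by
    rw [IsConjRoot, ← Polynomial.cyclotomic_eq_minpoly_rat hζ hN,
      ← Polynomial.cyclotomic_eq_minpoly_rat h1 hN]
  obtain ⟨σ, hσ⟩ := isConjRoot_iff_exists_algEquiv.1 h2
  refine ⟨σ.symm, ?_⟩
  rw [AlgEquiv.symm_apply_eq]
  exact hσ.symm

/-- powers with different prime exponents are not conjugate -/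
private theorem eq_of_conj {L : Type} [Field L] [NumberField L] {x : L} (hx0 : x ≠ 0)
    (hx : ∀ n : ℕ, 0 < n → x ^ n ≠ 1) {p q : ℕ} (hp : 0 < p) (hq : 0 < q) (g : L ≃ₐ[ℚ] L)
    (h : g (x ^ p) = x ^ q) : p = q := by
  have h1 : ∀ j : ℕ, ((g ^ j) x) ^ p ^ j = x ^ q ^ j := by
    intro j
    induction j with
    | zero => simp
    | succ j ih =>
      have h2 : (g ^ (j + 1)) x = g ((g ^ j) x) := by
        rw [pow_succ']
        rfl
      rw [h2, pow_succ, pow_mul, ← map_pow, ih, map_pow, ← pow_mul, mul_comm (q ^ j) p, pow_mul,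
        ← map_pow, h, ← pow_mul, pow_succ' q j]
  have h2 : 0 < orderOf g := orderOf_pos g
  have h3 := h1 (orderOf g)
  rw [pow_orderOf_eq_one] at h3
  have h4 : x ^ p ^ orderOf g = x ^ q ^ orderOf g := h3
  have h5 : p ^ orderOf g = q ^ orderOf g := by
    by_contra hne
    rcases lt_or_gt_of_ne hne with hlt | hlt
    · refine hx (q ^ orderOf g - p ^ orderOf g) (by omega) ?_
      have h6 : x ^ p ^ orderOf g * x ^ (q ^ orderOf g - p ^ orderOf g) =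
          x ^ p ^ orderOf g * 1 := by
        rw [← pow_add, Nat.add_sub_cancel' hlt.le, mul_one, h4]
      exact mul_left_cancel₀ (pow_ne_zero _ hx0) h6
    · refine hx (p ^ orderOf g - q ^ orderOf g) (by omega) ?_
      have h6 : x ^ q ^ orderOf g * x ^ (p ^ orderOf g - q ^ orderOf g) =
          x ^ q ^ orderOf g * 1 := by
        rw [← pow_add, Nat.add_sub_cancel' hlt.le, mul_one, h4]
      exact mul_left_cancel₀ (pow_ne_zero _ hx0) h6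
  exact Nat.pow_left_injective h2.ne' h5

private theorem MI2.not_root {L : Type} [Field L] {x y : L} (h : MI2 x y) (n : ℕ) (hn : 0 < n) :
    x ^ n ≠ 1 := by
  intro h1
  have h2 := (h.2.2 n 0 (by rw [zpow_zero, mul_one, zpow_natCast, h1])).1
  omega

/-- the set of all conjugates of the points -/
private theorem card_points {L : Type} [Field L] [NumberField L] {k : IntermediateField ℚ L}
    {x y : L} (h : MI2 x y) {L1 L2 : ℕ} (V : Submodule k (Fin L1 × Fin L2 → k))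
    (G : MvPolynomial (Fin 2) k) (B : ℕ)
    (hB : ∀ S : Finset (Fin 2 → L),
      (∀ s ∈ S, (∀ c ∈ V, aeval s (toPoly c) = 0) ∧ aeval s G ≠ 0) → S.card ≤ B)
    (Λ : Finset ℕ) (hΛ : ∀ p ∈ Λ, 0 < p) (ψ : ℕ → (L ≃ₐ[ℚ] L)) (d : ℕ)
    (hd : ∀ p ∈ Λ, od k ((ψ p).symm (x ^ p), (ψ p).symm (y ^ p)) = d)
    (hV : ∀ p ∈ Λ, ∀ c ∈ V, aeval ![(ψ p).symm (x ^ p), (ψ p).symm (y ^ p)] (toPoly c) = 0)
    (hG : ∀ p ∈ Λ, aeval ![(ψ p).symm (x ^ p), (ψ p).symm (y ^ p)] G ≠ 0) :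
    Λ.card * d ≤ B := by
  classical
  set e : L × L → (Fin 2 → L) := fun z => ![z.1, z.2] with he
  have hinj : Function.Injective e := by
    rintro ⟨a, b⟩ ⟨a', b'⟩ hab
    have h1 := congrFun hab 0
    have h2 := congrFun hab 1
    simp only [he, Matrix.cons_val_zero, Matrix.cons_val_one] at h1 h2
    rw [h1, h2]
  set z : ℕ → L × L := fun p => ((ψ p).symm (x ^ p), (ψ p).symm (y ^ p)) with hz
  set O : ℕ → Finset (Fin 2 → L) := fun p =>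
    (Finset.univ : Finset (L ≃ₐ[k] L)).image fun σ => e (σ • z p) with hO
  have hcard : ∀ p ∈ Λ, (O p).card = d := by
    intro p hp
    have h1 : (O p).card = ((Finset.univ : Finset (L ≃ₐ[k] L)).image fun σ => σ • z p).card := by
      rw [← Finset.card_image_of_injective _ hinj, Finset.image_image]
      rfl
    have h2 : MulAction.orbit (L ≃ₐ[k] L) (z p) =
        (((Finset.univ : Finset (L ≃ₐ[k] L)).image fun σ => σ • z p : Finset (L × L)) :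
          Set (L × L)) := by
      ext s
      simp only [Finset.coe_image, Finset.coe_univ, Set.image_univ]
      rfl
    rw [← hd p hp, od, Nat.card_coe_set_eq, h1, ← Set.ncard_coe_finset, ← h2]
  have hdisj : (Λ : Set ℕ).PairwiseDisjoint O := by
    intro p hp q hq hpq
    rw [Function.onFun, Finset.disjoint_left]
    intro s hs hs'
    simp only [hO, Finset.mem_image, Finset.mem_univ, true_and] at hs hs'
    obtain ⟨σ, rfl⟩ := hs
    obtain ⟨τ, hτ⟩ := hs'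
    have h1 := congrArg Prod.fst (hinj hτ)
    have h2 : τ ((ψ q).symm (x ^ q)) = σ ((ψ p).symm (x ^ p)) := h1
    apply hpq
    refine eq_of_conj h.1 h.not_root (hΛ p hp) (hΛ q hq)
      (((ψ p).symm.trans (σ.restrictScalars ℚ)).trans
        ((τ.restrictScalars ℚ).symm.trans (ψ q))) ?_
    change (ψ q) ((τ.restrictScalars ℚ).symm (σ ((ψ p).symm (x ^ p)))) = x ^ q
    rw [← h2]
    have h3 : (τ.restrictScalars ℚ).symm (τ ((ψ q).symm (x ^ q))) = (ψ q).symm (x ^ q) :=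
      (τ.restrictScalars ℚ).symm_apply_apply _
    rw [h3]
    exact (ψ q).apply_symm_apply _
  have h1 : (Λ.biUnion O).card = Λ.card * d := by
    rw [Finset.card_biUnion hdisj, Finset.sum_congr rfl hcard, Finset.sum_const, smul_eq_mul]
  rw [← h1]
  refine hB _ fun s hs => ?_
  rw [Finset.mem_biUnion] at hs
  obtain ⟨p, hp, hs⟩ := hs
  simp only [hO, Finset.mem_image, Finset.mem_univ, true_and] at hs
  obtain ⟨σ, rfl⟩ := hs
  have h2 : ∀ F : MvPolynomial (Fin 2) k, aeval (e (σ • z p)) F =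
      σ (aeval ![(ψ p).symm (x ^ p), (ψ p).symm (y ^ p)] F) := by
    intro F
    have h3 : e (σ • z p) = fun i => σ (![(ψ p).symm (x ^ p), (ψ p).symm (y ^ p)] i) := by
      funext i
      fin_cases i
      · rfl
      · rfl
    rw [h3]
    exact (MvPolynomial.comp_aeval_apply _ (σ : L →ₐ[k] L) F).symm
  refine ⟨fun c hc => ?_, ?_⟩
  · rw [h2, hV p hp c hc, map_zero]
  · rw [h2, Ne, EmbeddingLike.map_eq_zero_iff]
    exact hG p hp

/-- SA. -/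
theorem stage_a (κ : ℝ) (hκ : 0 ≤ κ) : ∃ Y0 : ℝ, 1 ≤ Y0 ∧ ∀ (L : Type) [Field L]
    [NumberField L] [IsGalois ℚ L] (ζ : L) (N : ℕ), IsPrimitiveRoot ζ N → 0 < N →
    ∀ x y : L, MI2 x y → ∀ Y : ℝ, Y0 ≤ Y → Real.log N ^ 2 ≤ Y →
    (od ℚ⟮ζ⟯ (x, y) : ℝ) ≤ Y ^ κ → ∀ a1 a2 : ℝ, 1 ≤ a1 → 1 ≤ a2 →
    a1 * a2 = od ℚ⟮ζ⟯ (x, y) → a1 * nh x * Y ^ 10 ≤ 1 → a2 * nh y * Y ^ 10 ≤ 1 →
    ∃ (p : ℕ) (ψ : L ≃ₐ[ℚ] L), p.Prime ∧ (p : ℝ) ≤ Y ^ 6 ∧ ψ ζ = ζ ^ p ∧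
      od ℚ⟮ζ⟯ (x ^ p, y ^ p) = od ℚ⟮ζ⟯ (x, y) ∧
      ∃ G : MvPolynomial (Fin 2) ℚ⟮ζ⟯, G ≠ 0 ∧
        aeval ![ψ.symm (x ^ p), ψ.symm (y ^ p)] G = 0 ∧
        (G.degreeOf 0 : ℝ) * Y ^ 2 ≤ 2 * a1 ∧ (G.degreeOf 1 : ℝ) * Y ^ 2 ≤ 2 * a2 := by
  classical
  set A1 : ℝ := 2 * (κ + 5) + 2 with hA1
  have hA12 : 12 ≤ A1 := by rw [hA1]; linarith
  set T : ℕ := ⌈A1⌉₊ with hT
  have hTA : A1 ≤ T := Nat.le_ceil _
  have hT1 : (1 : ℝ) ≤ T := by linarith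
  obtain ⟨Yp, hYp⟩ := many_primes 6 (by norm_num)
  set M : ℝ := 8 * A1 ^ 2 * (T : ℝ) ^ 4 with hM
  have hM0 : 0 ≤ M := by positivity
  have hlog2 : 0 < Real.log 2 := Real.log_pos one_lt_two
  refine ⟨max (max Yp (M + 1)) (max ((2 * κ / Real.log 2) ^ 2) 3),
    le_trans (by norm_num) ((le_max_right _ _).trans (le_max_right _ _)), ?_⟩
  intro L _ _ _ ζ N hζ hN x y hxy Y hY hlogN hdY a1 a2 ha1 ha2 ha hx1 hy1
  have hY1 : Yp ≤ Y := ((le_max_left _ _).trans (le_max_left _ _)).trans hY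
  have hY2 : M + 1 ≤ Y := ((le_max_right _ _).trans (le_max_left _ _)).trans hY
  have hY3 : (2 * κ / Real.log 2) ^ 2 ≤ Y := ((le_max_left _ _).trans (le_max_right _ _)).trans hY
  have hY4 : 3 ≤ Y := ((le_max_right _ _).trans (le_max_right _ _)).trans hY
  have hY0 : 0 < Y := by linarith
  have hlogY : 1 ≤ Real.log Y := by
    rw [Real.le_log_iff_exp_le hY0]
    linarith [Real.exp_one_lt_d9]
  set d : ℕ := od ℚ⟮ζ⟯ (x, y) with hd
  have hd1 : 0 < d := od_pos _ _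
  have hd1' : (1 : ℝ) ≤ d := by exact_mod_cast hd1
  set c' : ℝ := A1 * (T : ℝ) ^ 2 * Y ^ 2 with hc'
  have hT2 : 1 ≤ (T : ℝ) ^ 2 := one_le_pow₀ hT1
  have hYY : 1 ≤ Y ^ 2 := one_le_pow₀ (by linarith)
  have hAT : 1 ≤ A1 * (T : ℝ) ^ 2 := one_le_mul_of_one_le_of_one_le (by linarith) hT2
  have hc1 : 1 ≤ c' := one_le_mul_of_one_le_of_one_le hAT hYY
  have hc0 : 0 < c' := by linarith
  have hL : ∀ a : ℝ, 1 ≤ a → 0 < ⌈c' * a⌉₊ ∧ c' * a ≤ (⌈c' * a⌉₊ : ℝ) ∧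
      (⌈c' * a⌉₊ : ℝ) ≤ 2 * (c' * a) := by
    intro a h
    have h1 : 1 ≤ c' * a := one_le_mul_of_one_le_of_one_le hc1 h
    refine ⟨Nat.ceil_pos.2 (by linarith), Nat.le_ceil _, ?_⟩
    have := (Nat.ceil_lt_add_one (by linarith : 0 ≤ c' * a)).le
    linarith
  obtain ⟨hL1, hL1a, hL1b⟩ := hL a1 ha1
  obtain ⟨hL2, hL2a, hL2b⟩ := hL a2 ha2
  set L1 := ⌈c' * a1⌉₊ with hL1def
  set L2 := ⌈c' * a2⌉₊ with hL2def
  have hL1r : (0 : ℝ) < L1 := by exact_mod_cast hL1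
  have hL2r : (0 : ℝ) < L2 := by exact_mod_cast hL2
  have hLL : (L1 : ℝ) * L2 ≤ 4 * c' ^ 2 * d := by
    refine (mul_le_mul hL1b hL2b hL2r.le (by positivity)).trans (le_of_eq ?_)
    rw [← ha]
    ring
  have hLL' : c' ^ 2 * d ≤ (L1 : ℝ) * L2 := by
    refine le_trans (le_of_eq ?_) (mul_le_mul hL1a hL2a (by positivity) hL1r.le)
    rw [← ha]
    ring
  have hc'2 : 4 * c' ^ 2 ≤ Y ^ 5 := by
    have h1 : 4 * c' ^ 2 = (4 * A1 ^ 2 * (T : ℝ) ^ 4) * Y ^ 4 := by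
      rw [hc']
      ring
    have h2 : 4 * A1 ^ 2 * (T : ℝ) ^ 4 ≤ Y := by
      have : 0 ≤ 4 * A1 ^ 2 * (T : ℝ) ^ 4 := by positivity
      rw [hM] at hY2
      linarith
    rw [h1, show (Y ^ 5 : ℝ) = Y * Y ^ 4 by ring]
    exact mul_le_mul_of_nonneg_right h2 (by positivity)
  have hlogLL : Real.log (L1 * L2) ≤ (κ + 5) * Real.log Y := by
    have h1 : (L1 : ℝ) * L2 ≤ Y ^ (κ + 5) := by
      refine hLL.trans ((mul_le_mul hc'2 hdY (by positivity) (by positivity)).trans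
        (le_of_eq ?_))
      rw [Real.rpow_add hY0, mul_comm]
      norm_num
    refine (Real.log_le_log (by positivity) h1).trans (le_of_eq ?_)
    rw [Real.log_rpow hY0]
  have hnhx : 0 ≤ nh x := div_nonneg (Height.zero_le_logHeight₁ _) (Nat.cast_nonneg _)
  have hnhy : 0 ≤ nh y := div_nonneg (Height.zero_le_logHeight₁ _) (Nat.cast_nonneg _)
  -- the bad primes
  set Bd : Finset ℕ := (Finset.range (⌊Y ^ 6⌋₊ + 1)).filter fun p => p.Prime ∧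
    od ℚ⟮ζ⟯ (x ^ p, y ^ p) ≠ od ℚ⟮ζ⟯ (x, y) with hBd
  have hBcard : (Bd.card : ℝ) ≤ Y := by
    have h1 := drop ℚ⟮ζ⟯ x y hxy.1 hxy.2.1 Bd (fun p hp => (Finset.mem_filter.1 hp).2.1)
      fun p hp => (Finset.mem_filter.1 hp).2.2
    have h2 : (2 : ℝ) ^ Bd.card ≤ Y ^ κ := by
      refine le_trans ?_ hdY
      exact_mod_cast h1
    have h3 := Real.log_le_log (by positivity) h2
    rw [Real.log_pow, Real.log_rpow hY0] at h3
    have h4 : κ * Real.log Y ≤ Y * Real.log 2 := by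
      have h5 : Real.log Y ≤ 2 * Real.sqrt Y := by
        have h6 := Real.log_le_sub_one_of_pos (Real.sqrt_pos.2 hY0)
        rw [Real.log_sqrt hY0.le] at h6
        linarith
      have h7 : 2 * κ / Real.log 2 ≤ Real.sqrt Y := by
        refine Real.le_sqrt_of_sq_le hY3
      have h8 : 2 * κ ≤ Real.sqrt Y * Real.log 2 := by
        rwa [div_le_iff₀ hlog2] at h7
      have h9 : Real.sqrt Y * Real.sqrt Y = Y := Real.mul_self_sqrt hY0.le
      have h10 := Real.sqrt_nonneg Y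
      calc κ * Real.log Y ≤ κ * (2 * Real.sqrt Y) := mul_le_mul_of_nonneg_left h5 hκ
        _ = (2 * κ) * Real.sqrt Y := by ring
        _ ≤ (Real.sqrt Y * Real.log 2) * Real.sqrt Y := mul_le_mul_of_nonneg_right h8 h10
        _ = Y * Real.log 2 := by
          rw [mul_right_comm, h9]
    have h5 : (Bd.card : ℝ) * Real.log 2 ≤ Y * Real.log 2 := h3.trans h4
    exact le_of_mul_le_mul_right h5 hlog2
  obtain ⟨Λ, hΛ, hΛcard⟩ := hYp Y hY1 N hN hlogN Bd hBcard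
  have hod : ∀ p ∈ Λ, od ℚ⟮ζ⟯ (x ^ p, y ^ p) = d := by
    intro p hp
    obtain ⟨h1, _, h3, _, h5⟩ := hΛ p hp
    by_contra hne
    apply h3
    rw [hBd, Finset.mem_filter, Finset.mem_range]
    refine ⟨?_, h1, hne⟩
    exact Nat.lt_succ_of_le (Nat.le_floor h5)
  have hψex : ∀ p : ℕ, ∃ ψ : L ≃ₐ[ℚ] L, p ∈ Λ → ψ ζ = ζ ^ p := by
    intro p
    by_cases hp : p ∈ Λ
    · obtain ⟨ψ, hψ⟩ := exists_frob hζ hN (hΛ p hp).1 (hΛ p hp).2.1
      exact ⟨ψ, fun _ => hψ⟩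
    · exact ⟨AlgEquiv.refl, fun h => absurd h hp⟩
  choose ψ hψ using hψex
  have hsmall : ∀ p ∈ Λ, (p : ℝ) * (L1 * nh x + L2 * nh y) ≤ 1 := by
    intro p hp
    obtain ⟨_, _, _, _, h5⟩ := hΛ p hp
    have h6 : (L1 : ℝ) * nh x * Y ^ 10 ≤ 2 * c' := by
      calc (L1 : ℝ) * nh x * Y ^ 10 ≤ 2 * (c' * a1) * nh x * Y ^ 10 := by gcongr
        _ = 2 * c' * (a1 * nh x * Y ^ 10) := by ring
        _ ≤ 2 * c' * 1 := mul_le_mul_of_nonneg_left hx1 (by positivity)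
        _ = 2 * c' := mul_one _
    have h7 : (L2 : ℝ) * nh y * Y ^ 10 ≤ 2 * c' := by
      calc (L2 : ℝ) * nh y * Y ^ 10 ≤ 2 * (c' * a2) * nh y * Y ^ 10 := by gcongr
        _ = 2 * c' * (a2 * nh y * Y ^ 10) := by ring
        _ ≤ 2 * c' * 1 := mul_le_mul_of_nonneg_left hy1 (by positivity)
        _ = 2 * c' := mul_one _
    have h8 : (p : ℝ) * (L1 * nh x + L2 * nh y) ≤ Y ^ 6 * (L1 * nh x + L2 * nh y) :=
      mul_le_mul_of_nonneg_right h5 (by positivity)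
    refine h8.trans ?_
    have h9 : Y ^ 6 * (L1 * nh x + L2 * nh y) * Y ^ 4 ≤ 4 * c' := by
      calc Y ^ 6 * (L1 * nh x + L2 * nh y) * Y ^ 4 =
          L1 * nh x * Y ^ 10 + L2 * nh y * Y ^ 10 := by ring
        _ ≤ 4 * c' := by linarith
    have h10 : 4 * c' ≤ Y ^ 4 := by
      have h11 : 4 * (A1 * (T : ℝ) ^ 2) ≤ Y := by
        have h12 : A1 * (T : ℝ) ^ 2 ≤ (A1 * (T : ℝ) ^ 2) ^ 2 := by nlinarith
        have h13 : M = 8 * (A1 * (T : ℝ) ^ 2) ^ 2 := by rw [hM]; ring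
        nlinarith
      calc 4 * c' = 4 * (A1 * (T : ℝ) ^ 2) * Y ^ 2 := by rw [hc']; ring
        _ ≤ Y * Y ^ 2 := mul_le_mul_of_nonneg_right h11 (by positivity)
        _ ≤ Y * Y ^ 2 * Y := le_mul_of_one_le_right (by positivity) (by linarith)
        _ = Y ^ 4 := by ring
    have h11 : Y ^ 6 * (L1 * nh x + L2 * nh y) * Y ^ 4 ≤ 1 * Y ^ 4 := by
      rw [one_mul]
      exact h9.trans h10
    exact le_of_mul_le_mul_right h11 (by positivity)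
  have hdet := det_lemma hζ hN x y hxy.1 hxy.2.1 L1 L2 T hL1 hL2 (κ + 5) Y (by linarith) hlogY
    hTA hlogLL Λ ψ (fun p hp => ⟨(hΛ p hp).1, (hΛ p hp).2.1, (hΛ p hp).2.2.2.1, hψ p hp,
      hsmall p hp⟩) (by first | assumption | positivity | linarith)
  have hVT := codim_VT_le_od ℚ⟮ζ⟯ L1 L2 T x y
  have hR : (L1 * L2 : ℝ) - finrank ℚ⟮ζ⟯ (VP ℚ⟮ζ⟯ L1 L2 T x y Λ ψ) ≤
      A1 * ((T : ℝ) ^ 2 * d) := by
    refine hdet.trans ?_
    rw [← hA1]
    exact mul_le_mul_of_nonneg_left hVT (by linarith)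
  have hne : VP ℚ⟮ζ⟯ L1 L2 T x y Λ ψ ≠ ⊥ := by
    intro h0
    rw [h0, finrank_bot, Nat.cast_zero, sub_zero] at hR
    have h1 := hLL'.trans hR
    have h2 : A1 * ((T : ℝ) ^ 2 * d) < c' ^ 2 * d := by
      have h3 : A1 * (T : ℝ) ^ 2 < c' ^ 2 := by
        have h4 : A1 * (T : ℝ) ^ 2 < c' := by
          rw [hc']
          nlinarith
        nlinarith
      calc A1 * ((T : ℝ) ^ 2 * d) = (A1 * (T : ℝ) ^ 2) * d := by ring
        _ < c' ^ 2 * d := mul_lt_mul_of_pos_right h3 (by linarith)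
    linarith
  have : Infinite ℚ⟮ζ⟯ := CharZero.infinite _
  obtain ⟨G, hG0, hGdeg, hGS⟩ := plane_zero (VP ℚ⟮ζ⟯ L1 L2 T x y Λ ψ)
    (A1 * ((T : ℝ) ^ 2 * d)) hR hne
  by_cases hex : ∃ p ∈ Λ, aeval ![(ψ p).symm (x ^ p), (ψ p).symm (y ^ p)] G = 0
  · obtain ⟨p, hp, hGp⟩ := hex
    refine ⟨p, ψ p, (hΛ p hp).1, (hΛ p hp).2.2.2.2, hψ p hp, hod p hp, G, hG0, hGp, ?_, ?_⟩
    · have h1 : (G.degreeOf 0 : ℝ) * L2 ≤ 2 * (A1 * ((T : ℝ) ^ 2 * d)) := by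
        have : 0 ≤ (G.degreeOf 1 : ℝ) * L1 := by positivity
        linarith
      have h2 : (G.degreeOf 0 : ℝ) * (c' * a2) ≤ 2 * (A1 * ((T : ℝ) ^ 2 * d)) :=
        (mul_le_mul_of_nonneg_left hL2a (Nat.cast_nonneg _)).trans h1
      rw [← ha, hc'] at h2
      have h3 : 0 < A1 * (T : ℝ) ^ 2 * a2 := by positivity
      refine le_of_mul_le_mul_right ?_ h3
      calc (G.degreeOf 0 : ℝ) * Y ^ 2 * (A1 * (T : ℝ) ^ 2 * a2) =
          (G.degreeOf 0 : ℝ) * (A1 * (T : ℝ) ^ 2 * Y ^ 2 * a2) := by ring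
        _ ≤ 2 * (A1 * ((T : ℝ) ^ 2 * (a1 * a2))) := h2
        _ = 2 * a1 * (A1 * (T : ℝ) ^ 2 * a2) := by ring
    · have h1 : (G.degreeOf 1 : ℝ) * L1 ≤ 2 * (A1 * ((T : ℝ) ^ 2 * d)) := by
        have : 0 ≤ (G.degreeOf 0 : ℝ) * L2 := by positivity
        linarith
      have h2 : (G.degreeOf 1 : ℝ) * (c' * a1) ≤ 2 * (A1 * ((T : ℝ) ^ 2 * d)) :=
        (mul_le_mul_of_nonneg_left hL1a (Nat.cast_nonneg _)).trans h1
      rw [← ha, hc'] at h2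
      have h3 : 0 < A1 * (T : ℝ) ^ 2 * a1 := by positivity
      refine le_of_mul_le_mul_right ?_ h3
      calc (G.degreeOf 1 : ℝ) * Y ^ 2 * (A1 * (T : ℝ) ^ 2 * a1) =
          (G.degreeOf 1 : ℝ) * (A1 * (T : ℝ) ^ 2 * Y ^ 2 * a1) := by ring
        _ ≤ 2 * (A1 * ((T : ℝ) ^ 2 * (a1 * a2))) := h2
        _ = 2 * a2 * (A1 * (T : ℝ) ^ 2 * a1) := by ring
  · exfalso
    push Not at hex
    have h1 := card_points hxy (VP ℚ⟮ζ⟯ L1 L2 T x y Λ ψ) G (2 * L1 * L2) (hGS L) Λ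
      (fun p hp => (hΛ p hp).1.pos) ψ d (fun p hp => by
        rw [od_symm (ψ p) (hψ p hp), hod p hp]) (fun p hp c hc => by
        rw [aeval_toPoly]
        exact hc.2 p hp) hex
    have h2 : (Λ.card : ℝ) * d ≤ 2 * (L1 * L2) := by
      have : ((Λ.card * d : ℕ) : ℝ) ≤ ((2 * L1 * L2 : ℕ) : ℝ) := by exact_mod_cast h1
      push_cast at this
      linarith
    have h3 : Y ^ 5 * d ≤ 8 * c' ^ 2 * d := by
      have h4 : Y ^ 5 * d ≤ (Λ.card : ℝ) * d :=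
        mul_le_mul_of_nonneg_right hΛcard (by linarith)
      linarith
    have h4 : Y ^ 5 ≤ 8 * c' ^ 2 := le_of_mul_le_mul_right h3 (by linarith)
    have h5 : 8 * c' ^ 2 = M * Y ^ 4 := by
      rw [hc', hM]
      ring
    rw [h5, show (Y ^ 5 : ℝ) = Y * Y ^ 4 by ring] at h4
    have h6 : Y ≤ M := le_of_mul_le_mul_right h4 (by positivity)
    linarith

end Pool.Agent.Leh2
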