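import Pool.Agent.Leh2.Leh1
import Pool.Agent.Leh2.PZ
import Pool.Agent.Leh2.Good
import Pool.Agent.Leh2.Coll
import Pool.Agent.Leh2.DL
import Pool.Agent.Leh2.Drop
import Pool.Agent.Leh2.Primes
import Pool.Agent.Leh2.VTm
import Pool.Agent.Leh2.Bez

set_option autoImplicit false
set_option linter.unusedVariables false

namespace Pool.Agent.Leh2

open NumberField IntermediateField Module MvPolynomial

section helpers

/-- heights of monomials -/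
theorem sb_nh_monomial {L : Type} [Field L] [NumberField L] (x y : L) (m n : ℤ) :
    nh (x ^ m * y ^ n) ≤ m.natAbs * nh x + n.natAbs * nh y := by
  unfold nh
  rw [mul_div_assoc', mul_div_assoc', ← add_div]
  refine div_le_div_of_nonneg_right ?_ (Nat.cast_nonneg _)
  refine (Height.logHeight₁_mul_le _ _).trans (le_of_eq ?_)
  rw [Height.logHeight₁_zpow, Height.logHeight₁_zpow]

theorem sb_nh_nonneg {L : Type} [Field L] [NumberField L] (x : L) : 0 ≤ nh x :=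
  div_nonneg (Height.zero_le_logHeight₁ x) (Nat.cast_nonneg _)

/-- the conjugates of a point -/
theorem sb_conj_set {L : Type} [Field L] [NumberField L] (k : IntermediateField ℚ L) (a b : L) :
    ∃ S : Finset (Fin 2 → L), S.card = od k (a, b) ∧
      ∀ s ∈ S, ∃ σ : L ≃ₐ[k] L, s = ![σ a, σ b] := by
  classical
  have hfin : (MulAction.orbit (L ≃ₐ[k] L) (a, b)).Finite :=
    Set.finite_range (fun σ : L ≃ₐ[k] L => σ • ((a, b) : L × L))
  refine ⟨hfin.toFinset.image fun z => ![z.1, z.2], ?_, ?_⟩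
  · rw [Finset.card_image_of_injective]
    · unfold od
      rw [Nat.card_eq_card_finite_toFinset hfin]
    · intro z z' h
      exact Prod.ext (congrFun h 0) (congrFun h 1)
  · intro s hs
    obtain ⟨z, hz, rfl⟩ := Finset.mem_image.1 hs
    obtain ⟨σ, rfl⟩ := (Set.Finite.mem_toFinset hfin).1 hz
    exact ⟨σ, rfl⟩

theorem sb_aeval_conj {L : Type} [Field L] [NumberField L] (k : IntermediateField ℚ L)
    (σ : L ≃ₐ[k] L) (a b : L) (F : MvPolynomial (Fin 2) k) :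
    aeval ![σ a, σ b] F = σ (aeval ![a, b] F) := by
  have h := MvPolynomial.comp_aeval_apply (φ := (σ : L →ₐ[k] L)) ![a, b] F
  have e : (fun i => (σ : L →ₐ[k] L) (![a, b] i)) = ![σ a, σ b] := by
    funext i
    fin_cases i <;> rfl
  rw [e] at h
  exact h.symm

/-- the Frobenius automorphism -/
theorem sb_exists_aut {L : Type} [Field L] [NumberField L] [IsGalois ℚ L] {ζ : L} {N : ℕ}
    (hζ : IsPrimitiveRoot ζ N) (hN : 0 < N) {q : ℕ} (hq : q.Prime) (hqN : ¬ q ∣ N) :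
    ∃ ψ : L ≃ₐ[ℚ] L, ψ ζ = ζ ^ q := by
  have hc : q.Coprime N := (Nat.Prime.coprime_iff_not_dvd hq).2 hqN
  have hζq : IsPrimitiveRoot (ζ ^ q) N := hζ.pow_of_coprime q hc
  have h1 : minpoly ℚ ζ = minpoly ℚ (ζ ^ q) := by
    rw [← Polynomial.cyclotomic_eq_minpoly_rat hζ hN, ← Polynomial.cyclotomic_eq_minpoly_rat hζq hN]
  have h2 : (Polynomial.aeval (ζ ^ q)) (minpoly ℚ ζ) = 0 := by
    rw [h1]
    exact minpoly.aeval _ _
  exact minpoly.exists_algEquiv_of_root' (Algebra.IsAlgebraic.isAlgebraic ζ) h2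

theorem sb_mem {L : Type} [Field L] [NumberField L] {ζ : L} {q : ℕ} (ψ : L ≃ₐ[ℚ] L)
    (hψ : ψ ζ = ζ ^ q) (c : L) (hc : c ∈ ℚ⟮ζ⟯) : ψ c ∈ ℚ⟮ζ⟯ := by
  have h1 : ψ c ∈ (ℚ⟮ζ⟯).map (ψ : L →ₐ[ℚ] L) := ⟨c, hc, rfl⟩
  rw [IntermediateField.adjoin_map, Set.image_singleton] at h1
  have h2 : (IntermediateField.adjoin ℚ {(ψ : L →ₐ[ℚ] L) ζ}) ≤ ℚ⟮ζ⟯ := by
    rw [IntermediateField.adjoin_simple_le_iff]
    show ψ ζ ∈ ℚ⟮ζ⟯
    rw [hψ]
    exact pow_mem (IntermediateField.mem_adjoin_simple_self ℚ ζ) q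
  exact h2 h1

/-- the restriction of the Frobenius automorphism -/
def sbφ {L : Type} [Field L] [NumberField L] {ζ : L} {q : ℕ} (ψ : L ≃ₐ[ℚ] L)
    (hψ : ψ ζ = ζ ^ q) : ℚ⟮ζ⟯ →+* ℚ⟮ζ⟯ where
  toFun c := ⟨ψ c, sb_mem ψ hψ c c.2⟩
  map_one' := Subtype.ext (map_one ψ)
  map_mul' a b := Subtype.ext (map_mul ψ _ _)
  map_zero' := Subtype.ext (map_zero ψ)
  map_add' a b := Subtype.ext (map_add ψ _ _)

theorem sb_aeval_map {L : Type} [Field L] [NumberField L] {ζ : L} {q : ℕ} (ψ : L ≃ₐ[ℚ] L)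
    (hψ : ψ ζ = ζ ^ q) (a b : L) (F : MvPolynomial (Fin 2) ℚ⟮ζ⟯) :
    aeval ![ψ a, ψ b] (map (sbφ ψ hψ) F) = ψ (aeval ![a, b] F) := by
  have h1 := MvPolynomial.eval₂_comp_left (ψ : L →+* L) (algebraMap ℚ⟮ζ⟯ L) ![a, b] F
  have h2 : (ψ : L →+* L) (eval₂ (algebraMap ℚ⟮ζ⟯ L) ![a, b] F) = ψ (aeval ![a, b] F) := rfl
  rw [← h2, h1, aeval_def, eval₂_map]
  congr 1
  funext i
  fin_cases i <;> rfl

theorem sb_degreeOf_map {K : Type} [Field K] (φ : K →+* K) (F : MvPolynomial (Fin 2) K)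
    (i : Fin 2) : (map φ F).degreeOf i = F.degreeOf i := by
  rw [degreeOf_eq_sup, degreeOf_eq_sup, support_map_of_injective _ φ.injective]

theorem sb_exists_factor {K M : Type} [Field K] [Field M] [Algebra K M]
    (G : MvPolynomial (Fin 2) K) (hG : G ≠ 0) (v : Fin 2 → M) (h : aeval v G = 0) :
    ∃ f : MvPolynomial (Fin 2) K, Irreducible f ∧ f ∣ G ∧ aeval v f = 0 := by
  obtain ⟨s, hs, hsG⟩ := UniqueFactorizationMonoid.exists_prime_factors G hG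
  obtain ⟨u, hu⟩ := hsG
  have h1 : aeval v s.prod = 0 := by
    rw [← hu, map_mul] at h
    rcases mul_eq_zero.1 h with h1 | h1
    · exact h1
    · exact absurd h1 (u.isUnit.map (aeval v : MvPolynomial (Fin 2) K →ₐ[K] M)).ne_zero
  rw [map_multiset_prod, Multiset.prod_eq_zero_iff] at h1
  obtain ⟨f, hf, hf0⟩ := Multiset.mem_map.1 h1
  exact ⟨f, (hs f hf).irreducible, (Multiset.dvd_prod hf).trans (hu ▸ dvd_mul_right _ _), hf0⟩

theorem sb_degreeOf_le {K : Type} [Field K] {f G : MvPolynomial (Fin 2) K} (hG : G ≠ 0)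
    (h : f ∣ G) (i : Fin 2) : f.degreeOf i ≤ G.degreeOf i := by
  obtain ⟨g, rfl⟩ := h
  rw [degreeOf_mul_eq (left_ne_zero_of_mul hG) (right_ne_zero_of_mul hG)]
  exact Nat.le_add_right _ _

end helpers

/-- SB1. -/
theorem stage_b_coll (κ : ℝ) (hκ : 0 ≤ κ) : ∃ Y0 : ℝ, 1 ≤ Y0 ∧ ∀ (L : Type) [Field L]
    [NumberField L] [IsGalois ℚ L] (ζ : L) (N : ℕ), IsPrimitiveRoot ζ N → 0 < N →
    ∀ x y : L, MI2 x y → ∀ Y : ℝ, Y0 ≤ Y → Real.log N ^ 2 ≤ Y →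
    (od ℚ⟮ζ⟯ (x, y) : ℝ) ≤ Y ^ κ → ∀ a1 a2 : ℝ, 0 < a1 → 0 < a2 →
    a1 * a2 = od ℚ⟮ζ⟯ (x, y) → a1 * nh x * Y ^ 9 ≤ 1 → a2 * nh y * Y ^ 9 ≤ 1 →
    ∀ f : MvPolynomial (Fin 2) ℚ⟮ζ⟯, Irreducible f → Collinear2 f → aeval ![x, y] f = 0 →
      (f.degreeOf 0 : ℝ) * Y ^ 2 ≤ 2 * a1 → (f.degreeOf 1 : ℝ) * Y ^ 2 ≤ 2 * a2 → False := by
  obtain ⟨Y1, hY1, H⟩ := leh1_core κ hκ
  refine ⟨max Y1 2, hY1.trans (le_max_left _ _), ?_⟩
  intro L _ _ _ ζ N hζ hN x y hxy Y hY hNY hod a1 a2 ha1 ha2 had h1 h2 f hf hcol hfx hf1 hf2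
  obtain ⟨hx, hy, hmi⟩ := hxy
  have hYY1 : Y1 ≤ Y := (le_max_left _ _).trans hY
  have hY2 : 2 ≤ Y := (le_max_right _ _).trans hY
  have hY0 : 0 < Y := by linarith
  obtain ⟨m1, m2, hm, hm1, hm2⟩ := collinear_case ℚ⟮ζ⟯ f hf.ne_zero hcol x y hx hy hfx
  set α : L := x ^ m1 * y ^ m2 with hα
  have hα0 : α ≠ 0 := mul_ne_zero (zpow_ne_zero _ hx) (zpow_ne_zero _ hy)
  have hαn : ∀ n : ℕ, 0 < n → α ^ n ≠ 1 := by
    intro n hn h
    rw [hα, mul_pow, ← zpow_natCast, ← zpow_natCast, ← zpow_mul, ← zpow_mul] at h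
    obtain ⟨e1, e2⟩ := hmi _ _ h
    have hn' : (n : ℤ) ≠ 0 := by exact_mod_cast hn.ne'
    rcases hm with hm | hm
    · exact hm ((mul_eq_zero.1 e1).resolve_right hn')
    · exact hm ((mul_eq_zero.1 e2).resolve_right hn')
  have hod1 : (od ℚ⟮ζ⟯ (α, 1) : ℝ) ≤ Y ^ κ := by
    refine le_trans ?_ hod
    exact_mod_cast od_monomial_le ℚ⟮ζ⟯ x y m1 m2
  have h3 := H L ζ N hζ hN α hα0 hαn Y hYY1 hNY hod1
  -- the height of `α`
  set e : ℝ := (od ℚ⟮ζ⟯ (α, 1) : ℝ) with he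
  have he0 : 0 ≤ e := Nat.cast_nonneg _
  have e1 : e * m1.natAbs ≤ (f.degreeOf 0 : ℝ) := by
    rw [he]
    exact_mod_cast hm1
  have e2 : e * m2.natAbs ≤ (f.degreeOf 1 : ℝ) := by
    rw [he]
    exact_mod_cast hm2
  have e3 : e * nh α ≤ (f.degreeOf 0 : ℝ) * nh x + (f.degreeOf 1 : ℝ) * nh y := by
    calc e * nh α ≤ e * (m1.natAbs * nh x + m2.natAbs * nh y) :=
          mul_le_mul_of_nonneg_left (sb_nh_monomial x y m1 m2) he0
      _ = (e * m1.natAbs) * nh x + (e * m2.natAbs) * nh y := by ring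
      _ ≤ _ := add_le_add (mul_le_mul_of_nonneg_right e1 (sb_nh_nonneg x))
          (mul_le_mul_of_nonneg_right e2 (sb_nh_nonneg y))
  have e4 : (f.degreeOf 0 : ℝ) * nh x * Y ^ 11 ≤ 2 := by
    calc (f.degreeOf 0 : ℝ) * nh x * Y ^ 11 = ((f.degreeOf 0 : ℝ) * Y ^ 2) * (nh x * Y ^ 9) := by
          ring
      _ ≤ (2 * a1) * (nh x * Y ^ 9) := mul_le_mul_of_nonneg_right hf1
          (mul_nonneg (sb_nh_nonneg x) (by positivity))
      _ = 2 * (a1 * nh x * Y ^ 9) := by ring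
      _ ≤ 2 * 1 := by linarith
      _ = 2 := by norm_num
  have e5 : (f.degreeOf 1 : ℝ) * nh y * Y ^ 11 ≤ 2 := by
    calc (f.degreeOf 1 : ℝ) * nh y * Y ^ 11 = ((f.degreeOf 1 : ℝ) * Y ^ 2) * (nh y * Y ^ 9) := by
          ring
      _ ≤ (2 * a2) * (nh y * Y ^ 9) := mul_le_mul_of_nonneg_right hf2
          (mul_nonneg (sb_nh_nonneg y) (by positivity))
      _ = 2 * (a2 * nh y * Y ^ 9) := by ring
      _ ≤ 2 * 1 := by linarith
      _ = 2 := by norm_num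
  have e6 : e * nh α * Y ^ 11 ≤ 4 := by
    have := mul_le_mul_of_nonneg_right e3 (by positivity : (0 : ℝ) ≤ Y ^ 11)
    nlinarith
  have e7 : Y ^ 8 ≤ e * nh α * Y ^ 11 := by
    have := mul_le_mul_of_nonneg_right h3 (by positivity : (0 : ℝ) ≤ Y ^ 8)
    calc Y ^ 8 = 1 * Y ^ 8 := (one_mul _).symm
      _ ≤ (e * Y ^ 3 * nh α) * Y ^ 8 := this
      _ = e * nh α * Y ^ 11 := by ring
  have e8 : (2 : ℝ) ^ 8 ≤ Y ^ 8 := pow_le_pow_left₀ (by norm_num) hY2 8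
  norm_num at e8
  linarith

/-- logarithms are small -/
theorem sb_log (c : ℝ) (hc : 0 ≤ c) (Y : ℝ) (hY : (4 * c) ^ 2 ≤ Y) (hY1 : 1 ≤ Y) :
    c * (Real.log Y / Real.log 2) ≤ Y := by
  have h0 : 0 < Y := by linarith
  have h1 : Real.log Y = 2 * Real.log (Real.sqrt Y) := by
    rw [Real.log_sqrt h0.le]
    ring
  have h2 : Real.log (Real.sqrt Y) ≤ Real.sqrt Y := by
    have := Real.log_le_sub_one_of_pos (Real.sqrt_pos.2 h0)
    linarith
  have h3 : (1 : ℝ) / 2 ≤ Real.log 2 := by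
    have := Real.log_two_gt_d9
    linarith
  have h4 : 4 * c ≤ Real.sqrt Y := Real.le_sqrt_of_sq_le hY
  have h5 : Real.log Y / Real.log 2 ≤ 4 * Real.sqrt Y := by
    rw [div_le_iff₀ (by linarith)]
    have h6 : 0 ≤ Real.sqrt Y := Real.sqrt_nonneg _
    nlinarith
  calc c * (Real.log Y / Real.log 2) ≤ c * (4 * Real.sqrt Y) :=
        mul_le_mul_of_nonneg_left h5 hc
    _ = (4 * c) * Real.sqrt Y := by ring
    _ ≤ Real.sqrt Y * Real.sqrt Y := mul_le_mul_of_nonneg_right h4 (Real.sqrt_nonneg _)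
    _ = Y := Real.mul_self_sqrt h0.le

/-- SB2. -/
theorem stage_b (κ : ℝ) (hκ : 0 ≤ κ) : ∃ Y0 : ℝ, 1 ≤ Y0 ∧ ∀ (L : Type) [Field L]
    [NumberField L] [IsGalois ℚ L] (ζ : L) (N : ℕ), IsPrimitiveRoot ζ N → 0 < N →
    ∀ x y : L, MI2 x y → ∀ Y : ℝ, Y0 ≤ Y → Real.log N ^ 2 ≤ Y →
    (od ℚ⟮ζ⟯ (x, y) : ℝ) ≤ Y ^ κ → ∀ a1 a2 : ℝ, 0 < a1 → 0 < a2 →
    a1 * a2 = od ℚ⟮ζ⟯ (x, y) → a1 * nh x * Y ^ 9 ≤ 1 → a2 * nh y * Y ^ 9 ≤ 1 →
    ∀ G : MvPolynomial (Fin 2) ℚ⟮ζ⟯, G ≠ 0 → aeval ![x, y] G = 0 →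
      (G.degreeOf 0 : ℝ) * Y ^ 2 ≤ 2 * a1 → (G.degreeOf 1 : ℝ) * Y ^ 2 ≤ 2 * a2 → False := by
  classical
  obtain ⟨Y1, hY1, H1⟩ := stage_b_coll κ hκ
  obtain ⟨Y2, H2⟩ := many_primes 2 le_rfl
  -- constants
  obtain ⟨A, hA⟩ : ∃ A : ℝ, A = 2 * (κ + 1) + 2 := ⟨_, rfl⟩
  obtain ⟨T, hT⟩ : ∃ T : ℕ, T = ⌈A⌉₊ := ⟨_, rfl⟩
  obtain ⟨C, hC⟩ : ∃ C : ℝ, C = 16 * A := ⟨_, rfl⟩
  have hA4 : 4 ≤ A := by rw [hA]; linarith
  have hAT : A ≤ T := by rw [hT]; exact Nat.le_ceil A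
  have hT4 : (4 : ℝ) ≤ T := hA4.trans hAT
  have hTpos : (0 : ℝ) < T := by linarith
  have hC64 : 64 ≤ C := by rw [hC]; linarith
  have hC1 : 1 ≤ C := by linarith
  have hCT : 1 ≤ C * T := by nlinarith
  obtain ⟨K, hK⟩ : ∃ K : ℝ, K = 32 * C ^ 2 * T ^ 2 + 64 * A * T + 8 * C * T + 3 := ⟨_, rfl⟩
  refine ⟨max (max Y1 Y2) (max K ((4 * (3 * κ)) ^ 2)), ?_, ?_⟩
  · exact hY1.trans ((le_max_left _ _).trans (le_max_left _ _))
  intro L _ _ _ ζ N hζ hN x y hxy Y hY hNY hod a1 a2 ha1 ha2 had hh1 hh2 G hG hGx hG1 hG2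
  have hYY1 : Y1 ≤ Y := ((le_max_left _ _).trans (le_max_left _ _)).trans hY
  have hYY2 : Y2 ≤ Y := ((le_max_right _ _).trans (le_max_left _ _)).trans hY
  have hYK : K ≤ Y := ((le_max_left _ _).trans (le_max_right _ _)).trans hY
  have hYκ : (4 * (3 * κ)) ^ 2 ≤ Y := ((le_max_right _ _).trans (le_max_right _ _)).trans hY
  have t1 : 0 ≤ 32 * C ^ 2 * (T : ℝ) ^ 2 := by positivity
  have t2 : 0 ≤ 64 * A * (T : ℝ) := by positivity
  have t3 : 0 ≤ 8 * C * (T : ℝ) := by positivity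
  have hY3 : 3 ≤ Y := by rw [hK] at hYK; linarith
  have hYa : 32 * C ^ 2 * (T : ℝ) ^ 2 < Y := by rw [hK] at hYK; linarith
  have hYb : 64 * A * (T : ℝ) < Y := by rw [hK] at hYK; linarith
  have hYc : 8 * C * (T : ℝ) < Y := by rw [hK] at hYK; linarith
  have hY0 : 0 < Y := by linarith
  have hY1' : 1 ≤ Y := by linarith
  obtain ⟨f, hf, hfG, hfx⟩ := sb_exists_factor G hG ![x, y] hGx
  have hfG1 := sb_degreeOf_le hG hfG 0
  have hfG2 := sb_degreeOf_le hG hfG 1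
  have hf1' : (f.degreeOf 0 : ℝ) * Y ^ 2 ≤ 2 * a1 := by
    refine le_trans ?_ hG1
    exact mul_le_mul_of_nonneg_right (by exact_mod_cast hfG1) (by positivity)
  have hf2' : (f.degreeOf 1 : ℝ) * Y ^ 2 ≤ 2 * a2 := by
    refine le_trans ?_ hG2
    exact mul_le_mul_of_nonneg_right (by exact_mod_cast hfG2) (by positivity)
  by_cases hcol : Collinear2 f
  · exact H1 L ζ N hζ hN x y hxy Y hYY1 hNY hod a1 a2 ha1 ha2 had hh1 hh2 f hf hcol hfx hf1' hf2'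
  obtain ⟨hfp1, hfp2⟩ := degreeOf_pos_of_not_collinear f hcol
  obtain ⟨hx, hy, hmi⟩ := hxy
  -- `w`
  obtain ⟨f1, hf1d⟩ : ∃ f1 : ℝ, f1 = (f.degreeOf 0 : ℝ) := ⟨_, rfl⟩
  obtain ⟨f2, hf2d⟩ : ∃ f2 : ℝ, f2 = (f.degreeOf 1 : ℝ) := ⟨_, rfl⟩
  rw [← hf1d] at hf1'
  rw [← hf2d] at hf2'
  have hf1p : 1 ≤ f1 := by rw [hf1d]; exact_mod_cast hfp1
  have hf2p : 1 ≤ f2 := by rw [hf2d]; exact_mod_cast hfp2
  obtain ⟨w, hw⟩ : ∃ w : ℝ, w = max (f1 / a1) (f2 / a2) := ⟨_, rfl⟩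
  have hw1 : f1 ≤ w * a1 := by
    rw [← div_le_iff₀ ha1, hw]
    exact le_max_left _ _
  have hw2 : f2 ≤ w * a2 := by
    rw [← div_le_iff₀ ha2, hw]
    exact le_max_right _ _
  have hwY : w * Y ^ 2 ≤ 2 := by
    have e1 : f1 / a1 * Y ^ 2 ≤ 2 := by
      rw [div_mul_eq_mul_div, div_le_iff₀ ha1]
      exact hf1'
    have e2 : f2 / a2 * Y ^ 2 ≤ 2 := by
      rw [div_mul_eq_mul_div, div_le_iff₀ ha2]
      exact hf2'
    rw [hw]
    rcases max_choice (f1 / a1) (f2 / a2) with h | h <;> rw [h] <;> assumption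
  have hwpos : 0 < w := by
    rw [hw]
    exact lt_of_lt_of_le (div_pos (by linarith) ha1) (le_max_left _ _)
  have hweq : f1 = w * a1 ∨ f2 = w * a2 := by
    rcases max_choice (f1 / a1) (f2 / a2) with h | h
    · left
      rw [hw, h, div_mul_cancel₀ _ ha1.ne']
    · right
      rw [hw, h, div_mul_cancel₀ _ ha2.ne']
  have hw2Y : w ^ 2 * Y ^ 4 ≤ 4 := by
    calc w ^ 2 * Y ^ 4 = (w * Y ^ 2) ^ 2 := by ring
      _ ≤ 2 ^ 2 := pow_le_pow_left₀ (by positivity) hwY 2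
      _ = 4 := by norm_num
  -- `d`
  obtain ⟨D, hD⟩ : ∃ D : ℝ, D = a1 * a2 := ⟨_, rfl⟩
  have hDpos : 0 < D := by rw [hD]; positivity
  have hDod : D = (od ℚ⟮ζ⟯ (x, y) : ℝ) := by rw [hD, had]
  have hDκ : D ≤ Y ^ κ := by rw [hDod]; exact hod
  -- `L1`, `L2`
  obtain ⟨L1, hL1⟩ : ∃ L1 : ℕ, L1 = ⌈C * T * (w * a1)⌉₊ := ⟨_, rfl⟩
  obtain ⟨L2, hL2⟩ : ∃ L2 : ℕ, L2 = ⌈C * T * (w * a2)⌉₊ := ⟨_, rfl⟩
  have hwa1 : 1 ≤ w * a1 := hf1p.trans hw1
  have hwa2 : 1 ≤ w * a2 := hf2p.trans hw2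
  have hL1l : C * T * (w * a1) ≤ L1 := by rw [hL1]; exact Nat.le_ceil _
  have hL2l : C * T * (w * a2) ≤ L2 := by rw [hL2]; exact Nat.le_ceil _
  have hCTw1 : 1 ≤ C * T * (w * a1) := one_le_mul_of_one_le_of_one_le hCT hwa1
  have hCTw2 : 1 ≤ C * T * (w * a2) := one_le_mul_of_one_le_of_one_le hCT hwa2
  have hL1u : (L1 : ℝ) ≤ 2 * (C * T * (w * a1)) := by
    have : (L1 : ℝ) < C * T * (w * a1) + 1 := by
      rw [hL1]
      exact Nat.ceil_lt_add_one (by linarith)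
    linarith
  have hL2u : (L2 : ℝ) ≤ 2 * (C * T * (w * a2)) := by
    have : (L2 : ℝ) < C * T * (w * a2) + 1 := by
      rw [hL2]
      exact Nat.ceil_lt_add_one (by linarith)
    linarith
  have hL1p : (0 : ℝ) < L1 := by linarith
  have hL2p : (0 : ℝ) < L2 := by linarith
  have hL1n : 0 < L1 := by exact_mod_cast hL1p
  have hL2n : 0 < L2 := by exact_mod_cast hL2p
  have hLLu : (L1 : ℝ) * L2 ≤ 4 * C ^ 2 * T ^ 2 * w ^ 2 * D := by
    calc (L1 : ℝ) * L2 ≤ (2 * (C * T * (w * a1))) * (2 * (C * T * (w * a2))) :=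
          mul_le_mul hL1u hL2u hL2p.le (by linarith)
      _ = _ := by rw [hD]; ring
  have hLLl : C ^ 2 * T ^ 2 * w ^ 2 * D ≤ (L1 : ℝ) * L2 := by
    calc C ^ 2 * T ^ 2 * w ^ 2 * D = (C * T * (w * a1)) * (C * T * (w * a2)) := by
          rw [hD]; ring
      _ ≤ _ := mul_le_mul hL1l hL2l (by linarith) hL1p.le
  -- the bad primes
  let B1 : Finset ℕ := (Finset.range (⌊Y ^ 2⌋₊ + 1)).filter fun p => p.Prime ∧
    od ℚ⟮ζ⟯ (x ^ p, y ^ p) ≠ od ℚ⟮ζ⟯ (x, y)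
  let B2 : Finset ℕ := (Finset.range (⌊Y ^ 2⌋₊ + 1)).filter fun p => p.Prime ∧
    ∃ G : MvPolynomial (Fin 2) ℚ⟮ζ⟯, G ≠ 0 ∧ f ∣ powSub p G ∧
      (G.degreeOf 0 < p * f.degreeOf 0 ∨ G.degreeOf 1 < p * f.degreeOf 1)
  have hB1 : 2 ^ B1.card ≤ od ℚ⟮ζ⟯ (x, y) :=
    drop ℚ⟮ζ⟯ x y hx hy B1 (fun p hp => (Finset.mem_filter.1 hp).2.1)
      (fun p hp => (Finset.mem_filter.1 hp).2.2)
  have hB2 : 2 ^ B2.card ≤ (2 * f.degreeOf 0 * f.degreeOf 1) ^ 2 :=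
    good_primes f hf hcol B2 (fun q hq => (Finset.mem_filter.1 hq).2)
  have hY4 : 81 ≤ Y ^ 4 := by
    have := pow_le_pow_left₀ (by norm_num : (0 : ℝ) ≤ 3) hY3 4
    norm_num at this
    exact this
  have hwD : 2 * w ^ 2 * D ≤ D := by
    have e1 : 81 * w ^ 2 ≤ 4 := by
      have := mul_le_mul_of_nonneg_left hY4 (sq_nonneg w)
      linarith
    have e2 : 2 * w ^ 2 ≤ 1 := by linarith
    calc 2 * w ^ 2 * D ≤ 1 * D := mul_le_mul_of_nonneg_right e2 hDpos.le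
      _ = D := one_mul D
  have hB1r : (2 : ℝ) ^ B1.card ≤ D := by
    rw [hDod]
    exact_mod_cast hB1
  have hB2r : (2 : ℝ) ^ B2.card ≤ D ^ 2 := by
    have e1 : (2 : ℝ) ^ B2.card ≤ (2 * f1 * f2) ^ 2 := by
      rw [hf1d, hf2d]
      exact_mod_cast hB2
    have e2 : 2 * f1 * f2 ≤ 2 * w ^ 2 * D := by
      calc 2 * f1 * f2 = 2 * (f1 * f2) := by ring
        _ ≤ 2 * ((w * a1) * (w * a2)) := mul_le_mul_of_nonneg_left
            (mul_le_mul hw1 hw2 (zero_le_one.trans hf2p) (zero_le_one.trans hwa1)) zero_le_two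
        _ = 2 * w ^ 2 * D := by rw [hD]; ring
    exact e1.trans (pow_le_pow_left₀ (by positivity) (e2.trans hwD) 2)
  have hBcard : (((B1 ∪ B2).card : ℕ) : ℝ) ≤ Y := by
    have e1 : (2 : ℝ) ^ (B1.card + B2.card) ≤ Y ^ (3 * κ) := by
      have e2 : D ^ 3 ≤ Y ^ (3 * κ) := by
        have e3 : D ^ 3 ≤ (Y ^ κ) ^ 3 := pow_le_pow_left₀ hDpos.le hDκ 3
        have e4 : (Y ^ κ) ^ 3 = Y ^ (3 * κ) := by
          rw [← Real.rpow_natCast, ← Real.rpow_mul hY0.le, mul_comm]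
          norm_num
        rwa [e4] at e3
      calc (2 : ℝ) ^ (B1.card + B2.card) = 2 ^ B1.card * 2 ^ B2.card := pow_add _ _ _
        _ ≤ D * D ^ 2 := mul_le_mul hB1r hB2r (by positivity) hDpos.le
        _ = D ^ 3 := by ring
        _ ≤ _ := e2
    have e2 := Real.log_le_log (by positivity) e1
    rw [Real.log_pow, Real.log_rpow hY0] at e2
    have e3 : (0 : ℝ) < Real.log 2 := Real.log_pos (by norm_num)
    have e4 : (((B1.card + B2.card : ℕ)) : ℝ) ≤ (3 * κ) * (Real.log Y / Real.log 2) := by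
      rw [← mul_div_assoc, le_div_iff₀ e3]
      exact e2
    refine le_trans ?_ (e4.trans (sb_log (3 * κ) (by linarith) Y hYκ hY1'))
    exact_mod_cast Finset.card_union_le B1 B2
  obtain ⟨Λ, hΛ, hΛc⟩ := H2 Y hYY2 N hN hNY (B1 ∪ B2) hBcard
  have hΛn : Λ.Nonempty := by
    rw [Finset.nonempty_iff_ne_empty]
    rintro rfl
    norm_num at hΛc
    linarith
  obtain ⟨q, hqΛ⟩ := hΛn
  obtain ⟨hq, hqN, hqB, hqY, hqY2⟩ := hΛ q hqΛ
  have hqr : q ∈ Finset.range (⌊Y ^ 2⌋₊ + 1) :=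
    Finset.mem_range.2 (Nat.lt_succ_of_le (Nat.le_floor (by exact_mod_cast hqY2)))
  have hqY2' : (q : ℝ) ≤ Y ^ 2 := by exact_mod_cast hqY2
  have hqod : od ℚ⟮ζ⟯ (x ^ q, y ^ q) = od ℚ⟮ζ⟯ (x, y) := by
    by_contra h
    exact hqB (Finset.mem_union_left _ (Finset.mem_filter.2 ⟨hqr, hq, h⟩))
  have hqgood : ∀ G : MvPolynomial (Fin 2) ℚ⟮ζ⟯, G ≠ 0 → f ∣ powSub q G →
      q * f.degreeOf 0 ≤ G.degreeOf 0 ∧ q * f.degreeOf 1 ≤ G.degreeOf 1 := by
    intro G hG0 hd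
    by_contra h
    apply hqB
    refine Finset.mem_union_right _ (Finset.mem_filter.2 ⟨hqr, hq, G, hG0, hd, ?_⟩)
    by_contra h2
    push Not at h2
    exact h h2
  obtain ⟨ψ, hψ⟩ := sb_exists_aut hζ hN hq hqN
  have hq0 : (0 : ℝ) < q := by exact_mod_cast hq.pos
  -- the determinant lemma
  have hP : 1 ≤ Real.log Y := by
    rw [Real.le_log_iff_exp_le hY0]
    have := Real.exp_one_lt_d9
    linarith
  have hM : Real.log ((L1 : ℝ) * L2) ≤ (κ + 1) * Real.log Y := by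
    rw [← Real.log_rpow hY0]
    refine Real.log_le_log (by positivity) ?_
    rw [Real.rpow_add hY0, Real.rpow_one]
    have hYk0 : 0 < Y ^ κ := Real.rpow_pos_of_pos hY0 κ
    have e1 : (L1 : ℝ) * L2 * Y ^ 4 ≤ 16 * C ^ 2 * T ^ 2 * D := by
      calc (L1 : ℝ) * L2 * Y ^ 4 ≤ (4 * C ^ 2 * T ^ 2 * w ^ 2 * D) * Y ^ 4 :=
            mul_le_mul_of_nonneg_right hLLu (by positivity)
        _ = (4 * C ^ 2 * T ^ 2 * D) * (w ^ 2 * Y ^ 4) := by ring
        _ ≤ (4 * C ^ 2 * T ^ 2 * D) * 4 := mul_le_mul_of_nonneg_left hw2Y (by positivity)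
        _ = _ := by ring
    have e2 : 16 * C ^ 2 * (T : ℝ) ^ 2 * D ≤ Y * Y ^ κ := by
      have : 16 * C ^ 2 * (T : ℝ) ^ 2 ≤ Y := by linarith only [t1, hYa]
      exact mul_le_mul this hDκ hDpos.le hY0.le
    have e3 : Y * Y ^ κ ≤ (Y ^ κ * Y) * Y ^ 4 := by
      have : (1 : ℝ) ≤ Y ^ 4 := one_le_pow₀ hY1'
      have h0 : 0 ≤ Y ^ κ * Y := by positivity
      calc Y * Y ^ κ = (Y ^ κ * Y) * 1 := by ring
        _ ≤ (Y ^ κ * Y) * Y ^ 4 := mul_le_mul_of_nonneg_left this h0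
    exact le_of_mul_le_mul_right (e1.trans (e2.trans e3)) (by positivity)
  have hqh : (q : ℝ) * (L1 * nh x + L2 * nh y) ≤ 1 := by
    have nx := sb_nh_nonneg x
    have ny := sb_nh_nonneg y
    have e1 : (q : ℝ) * (L1 * nh x) * Y ^ 9 ≤ 4 * (C * T) := by
      calc (q : ℝ) * (L1 * nh x) * Y ^ 9
          ≤ Y ^ 2 * ((2 * (C * T * (w * a1))) * nh x) * Y ^ 9 := by
            refine mul_le_mul_of_nonneg_right ?_ (by positivity)
            exact mul_le_mul hqY2' (mul_le_mul_of_nonneg_right hL1u nx)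
              (mul_nonneg hL1p.le nx) (by positivity)
        _ = (2 * (C * T)) * (w * Y ^ 2) * (a1 * nh x * Y ^ 9) := by ring
        _ ≤ (2 * (C * T)) * 2 * 1 := by
            refine mul_le_mul ?_ hh1 (by positivity) (by positivity)
            exact mul_le_mul_of_nonneg_left hwY (by positivity)
        _ = _ := by ring
    have e2 : (q : ℝ) * (L2 * nh y) * Y ^ 9 ≤ 4 * (C * T) := by
      calc (q : ℝ) * (L2 * nh y) * Y ^ 9
          ≤ Y ^ 2 * ((2 * (C * T * (w * a2))) * nh y) * Y ^ 9 := by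
            refine mul_le_mul_of_nonneg_right ?_ (by positivity)
            exact mul_le_mul hqY2' (mul_le_mul_of_nonneg_right hL2u ny)
              (mul_nonneg hL2p.le ny) (by positivity)
        _ = (2 * (C * T)) * (w * Y ^ 2) * (a2 * nh y * Y ^ 9) := by ring
        _ ≤ (2 * (C * T)) * 2 * 1 := by
            refine mul_le_mul ?_ hh2 (by positivity) (by positivity)
            exact mul_le_mul_of_nonneg_left hwY (by positivity)
        _ = _ := by ring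
    have e3 : 8 * (C * T) ≤ Y ^ 9 := by
      have h9 : Y ≤ Y ^ 9 := le_self_pow₀ hY1' (by norm_num)
      linarith only [h9, hYc]
    have e4 : (q : ℝ) * (L1 * nh x + L2 * nh y) * Y ^ 9 ≤ 1 * Y ^ 9 := by
      calc (q : ℝ) * (L1 * nh x + L2 * nh y) * Y ^ 9
          = (q : ℝ) * (L1 * nh x) * Y ^ 9 + (q : ℝ) * (L2 * nh y) * Y ^ 9 := by ring
        _ ≤ 1 * Y ^ 9 := by linarith
    exact le_of_mul_le_mul_right e4 (by positivity)
  have hDL := det_lemma hζ hN x y hx hy L1 L2 T hL1n hL2n (κ + 1) Y (by linarith) hP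
    (by rw [← hA]; exact hAT) hM {q} (fun _ => ψ) (by
      intro p hp
      rw [Finset.mem_singleton] at hp
      subst hp
      exact ⟨hq, hqN, hqY, hψ, hqh⟩) (by first | assumption | positivity | linarith)
  rw [← hA] at hDL
  have hfL1 : T * f.degreeOf 0 ≤ L1 := by
    have e1 : (T : ℝ) * f1 ≤ L1 := by
      refine le_trans ?_ hL1l
      calc (T : ℝ) * f1 ≤ (C * T) * (w * a1) := by
            exact mul_le_mul (le_mul_of_one_le_left hTpos.le hC1) hw1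
              (zero_le_one.trans hf1p) (by positivity)
        _ = _ := rfl
    rw [hf1d] at e1
    exact_mod_cast e1
  have hfL2 : T * f.degreeOf 1 ≤ L2 := by
    have e1 : (T : ℝ) * f2 ≤ L2 := by
      refine le_trans ?_ hL2l
      calc (T : ℝ) * f2 ≤ (C * T) * (w * a2) := by
            exact mul_le_mul (le_mul_of_one_le_left hTpos.le hC1) hw2
              (zero_le_one.trans hf2p) (by positivity)
        _ = _ := rfl
    rw [hf2d] at e1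
    exact_mod_cast e1
  have hVM := codim_VT_le ℚ⟮ζ⟯ L1 L2 T x y f hf.ne_zero hfx hfL1 hfL2
  rw [← hf1d, ← hf2d] at hVM
  obtain ⟨R, hR⟩ : ∃ R : ℝ, R = 4 * A * C * T ^ 2 * w ^ 2 * D := ⟨_, rfl⟩
  have hRpos : 0 < R := by rw [hR]; positivity
  have h4R : 4 * R ≤ (L1 : ℝ) * L2 := by
    refine le_trans (le_of_eq ?_) hLLl
    rw [hR, hC]
    ring
  have hcodim : (L1 * L2 : ℝ) - finrank ℚ⟮ζ⟯ (VP ℚ⟮ζ⟯ L1 L2 T x y {q} (fun _ => ψ)) ≤ R := by
    refine hDL.trans ?_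
    have e1 : f2 * L1 ≤ 2 * (C * T) * w ^ 2 * D := by
      calc f2 * L1 ≤ (w * a2) * (2 * (C * T * (w * a1))) :=
            mul_le_mul hw2 hL1u hL1p.le (by linarith)
        _ = _ := by rw [hD]; ring
    have e2 : f1 * L2 ≤ 2 * (C * T) * w ^ 2 * D := by
      calc f1 * L2 ≤ (w * a1) * (2 * (C * T * (w * a2))) :=
            mul_le_mul hw1 hL2u hL2p.le (by linarith)
        _ = _ := by rw [hD]; ring
    calc A * ((L1 * L2 : ℝ) - finrank ℚ⟮ζ⟯ (VT ℚ⟮ζ⟯ L1 L2 T x y))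
        ≤ A * (T * (f2 * L1 + f1 * L2)) := mul_le_mul_of_nonneg_left hVM (by linarith)
      _ ≤ A * (T * (2 * (C * T) * w ^ 2 * D + 2 * (C * T) * w ^ 2 * D)) := by
          refine mul_le_mul_of_nonneg_left ?_ (by linarith)
          exact mul_le_mul_of_nonneg_left (add_le_add e1 e2) hTpos.le
      _ = R := by rw [hR]; ring
  have hVne : VP ℚ⟮ζ⟯ L1 L2 T x y {q} (fun _ => ψ) ≠ ⊥ := by
    intro h
    rw [h, finrank_bot] at hcodim
    norm_num at hcodim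
    linarith
  have hinf : Infinite ℚ⟮ζ⟯ := CharZero.infinite _
  obtain ⟨G', hG'0, hG'deg, hG'S⟩ := plane_zero (VP ℚ⟮ζ⟯ L1 L2 T x y {q} (fun _ => ψ)) R
    hcodim hVne
  obtain ⟨g1, hg1⟩ : ∃ g1 : ℝ, g1 = (G'.degreeOf 0 : ℝ) := ⟨_, rfl⟩
  obtain ⟨g2, hg2⟩ : ∃ g2 : ℝ, g2 = (G'.degreeOf 1 : ℝ) := ⟨_, rfl⟩
  rw [← hg1, ← hg2] at hG'deg
  have hg10 : 0 ≤ g1 := by rw [hg1]; positivity
  have hg20 : 0 ≤ g2 := by rw [hg2]; positivity
  have hg1u : g1 ≤ 8 * A * T * (w * a1) := by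
    have e1 : g1 * (C * T * (w * a2)) ≤ (8 * A * T * (w * a1)) * (C * T * (w * a2)) := by
      calc g1 * (C * T * (w * a2)) ≤ g1 * L2 := mul_le_mul_of_nonneg_left hL2l hg10
        _ ≤ 2 * R := by
            have : 0 ≤ g2 * L1 := mul_nonneg hg20 hL1p.le
            linarith
        _ = _ := by rw [hR, hD]; ring
    exact le_of_mul_le_mul_right e1 (by linarith)
  have hg2u : g2 ≤ 8 * A * T * (w * a2) := by
    have e1 : g2 * (C * T * (w * a1)) ≤ (8 * A * T * (w * a2)) * (C * T * (w * a1)) := by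
      calc g2 * (C * T * (w * a1)) ≤ g2 * L1 := mul_le_mul_of_nonneg_left hL1l hg20
        _ ≤ 2 * R := by
            have : 0 ≤ g1 * L2 := mul_nonneg hg10 hL2p.le
            linarith
        _ = _ := by rw [hR, hD]; ring
    exact le_of_mul_le_mul_right e1 (by linarith)
  -- `G'` vanishes at the twisted point
  have hG's : aeval ![ψ.symm (x ^ q), ψ.symm (y ^ q)] G' = 0 := by
    by_contra hne
    obtain ⟨S, hS, hSc⟩ := sb_conj_set ℚ⟮ζ⟯ (ψ.symm (x ^ q)) (ψ.symm (y ^ q))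
    have e1 := hG'S L S (by
      intro s hs
      obtain ⟨σ, rfl⟩ := hSc s hs
      refine ⟨fun c hc => ?_, ?_⟩
      · rw [sb_aeval_conj, aeval_toPoly]
        have e2 := hc.2 q (Finset.mem_singleton_self q)
        have e3 : ev (fun i => algebraMap ℚ⟮ζ⟯ L (c i)) 0 0 (ψ.symm (x ^ q)) (ψ.symm (y ^ q))
          = 0 := e2
        rw [e3, map_zero]
      · rw [sb_aeval_conj]
        intro h
        apply hne
        rwa [map_eq_zero] at h)
    rw [hS, od_symm ψ hψ (x ^ q) (y ^ q), hqod] at e1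
    have e2 : D ≤ 2 * (L1 * L2) := by
      rw [hDod]
      have : ((od ℚ⟮ζ⟯ (x, y) : ℕ) : ℝ) ≤ ((2 * L1 * L2 : ℕ) : ℝ) := Nat.cast_le.2 e1
      push_cast at this
      linarith
    have e3 : D * Y ^ 4 ≤ 32 * C ^ 2 * T ^ 2 * D := by
      calc D * Y ^ 4 ≤ (2 * (L1 * L2)) * Y ^ 4 := mul_le_mul_of_nonneg_right e2 (by positivity)
        _ ≤ (2 * (4 * C ^ 2 * T ^ 2 * w ^ 2 * D)) * Y ^ 4 :=
            mul_le_mul_of_nonneg_right (by linarith) (by positivity)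
        _ = (8 * C ^ 2 * T ^ 2 * D) * (w ^ 2 * Y ^ 4) := by ring
        _ ≤ (8 * C ^ 2 * T ^ 2 * D) * 4 := mul_le_mul_of_nonneg_left hw2Y (by positivity)
        _ = _ := by ring
    have e4 : 32 * C ^ 2 * T ^ 2 * D < D * Y ^ 4 := by
      have h4 : Y ≤ Y ^ 4 := le_self_pow₀ hY1' (by norm_num)
      calc 32 * C ^ 2 * T ^ 2 * D < Y * D := mul_lt_mul_of_pos_right hYa hDpos
        _ ≤ Y ^ 4 * D := mul_le_mul_of_nonneg_right h4 hDpos.le
        _ = _ := mul_comm _ _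
    linarith
  -- the polynomial `H`
  obtain ⟨G'', hG''⟩ : ∃ G'', G'' = map (sbφ ψ hψ) G' := ⟨_, rfl⟩
  have hG''0 : G'' ≠ 0 := by
    rw [hG'']
    intro h
    exact hG'0 (map_injective _ (sbφ ψ hψ).injective (by rw [h, map_zero]))
  have hG''x : aeval ![x ^ q, y ^ q] G'' = 0 := by
    have e1 := sb_aeval_map ψ hψ (ψ.symm (x ^ q)) (ψ.symm (y ^ q)) G'
    rw [AlgEquiv.apply_symm_apply, AlgEquiv.apply_symm_apply, hG's, map_zero] at e1
    rw [hG'']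
    exact e1
  have hHx : aeval ![x, y] (powSub q G'') = 0 := by
    rw [aeval_powSub]
    exact hG''x
  have hd1 : G''.degreeOf 0 = G'.degreeOf 0 := by rw [hG'']; exact sb_degreeOf_map _ _ _
  have hd2 : G''.degreeOf 1 = G'.degreeOf 1 := by rw [hG'']; exact sb_degreeOf_map _ _ _
  by_cases hdvd : f ∣ powSub q G''
  · obtain ⟨e1, e2⟩ := hqgood G'' hG''0 hdvd
    rw [hd1] at e1
    rw [hd2] at e2
    have e1' : (q : ℝ) * f1 ≤ g1 := by
      rw [hf1d, hg1]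
      exact_mod_cast e1
    have e2' : (q : ℝ) * f2 ≤ g2 := by
      rw [hf2d, hg2]
      exact_mod_cast e2
    have e3 : 8 * A * (T : ℝ) < q := by
      linarith only [t2, hYb, hqY]
    rcases hweq with h | h
    · have e4 : (q : ℝ) * f1 ≤ 8 * A * T * f1 := by
        rw [← h] at hg1u
        exact e1'.trans hg1u
      have e5 := le_of_mul_le_mul_right e4 (by linarith)
      linarith
    · have e4 : (q : ℝ) * f2 ≤ 8 * A * T * f2 := by
        rw [← h] at hg2u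
        exact e2'.trans hg2u
      have e5 := le_of_mul_le_mul_right e4 (by linarith)
      linarith
  · have hrel : IsRelPrime f (powSub q G'') := hf.isRelPrime_iff_not_dvd.2 hdvd
    obtain ⟨hp1, hp2⟩ := degreeOf_powSub q hq.pos G''
    obtain ⟨S, hS, hSc⟩ := sb_conj_set ℚ⟮ζ⟯ x y
    have e1 := bezout f (powSub q G'') hrel (f.degreeOf 0) (f.degreeOf 1) (q * G'.degreeOf 0)
      (q * G'.degreeOf 1) le_rfl le_rfl (by rw [hp1, hd1]) (by rw [hp2, hd2]) S (by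
        intro s hs
        obtain ⟨σ, rfl⟩ := hSc s hs
        rw [sb_aeval_conj, sb_aeval_conj, hfx, hHx, map_zero]
        exact ⟨rfl, rfl⟩)
    rw [hS] at e1
    have e2 : D ≤ f1 * (q * g2) + f2 * (q * g1) := by
      rw [hDod, hf1d, hf2d, hg1, hg2]
      exact_mod_cast e1
    have e3 : D ≤ 16 * A * T * (q * (w ^ 2 * D)) := by
      refine e2.trans ?_
      have e4 : f1 * (q * g2) ≤ (w * a1) * (q * (8 * A * T * (w * a2))) :=
        mul_le_mul hw1 (mul_le_mul_of_nonneg_left hg2u hq0.le) (mul_nonneg hq0.le hg20)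
          (by linarith)
      have e5 : f2 * (q * g1) ≤ (w * a2) * (q * (8 * A * T * (w * a1))) :=
        mul_le_mul hw2 (mul_le_mul_of_nonneg_left hg1u hq0.le) (mul_nonneg hq0.le hg10)
          (by linarith)
      calc f1 * (q * g2) + f2 * (q * g1) ≤ (w * a1) * (q * (8 * A * T * (w * a2))) +
          (w * a2) * (q * (8 * A * T * (w * a1))) := add_le_add e4 e5
        _ = _ := by rw [hD]; ring
    have e6 : D * Y ^ 2 ≤ 64 * A * T * D := by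
      calc D * Y ^ 2 ≤ (16 * A * T * (q * (w ^ 2 * D))) * Y ^ 2 :=
            mul_le_mul_of_nonneg_right e3 (by positivity)
        _ ≤ (16 * A * T * (Y ^ 2 * (w ^ 2 * D))) * Y ^ 2 := by
            refine mul_le_mul_of_nonneg_right ?_ (by positivity)
            refine mul_le_mul_of_nonneg_left ?_ (by positivity)
            exact mul_le_mul_of_nonneg_right hqY2' (by positivity)
        _ = (16 * A * T * D) * (w ^ 2 * Y ^ 4) := by ring
        _ ≤ (16 * A * T * D) * 4 := mul_le_mul_of_nonneg_left hw2Y (by positivity)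
        _ = _ := by ring
    have e7 : 64 * A * T * D < D * Y ^ 2 := by
      have h4 : Y ≤ Y ^ 2 := le_self_pow₀ hY1' (by norm_num)
      calc 64 * A * T * D < Y * D := mul_lt_mul_of_pos_right hYb hDpos
        _ ≤ Y ^ 2 * D := mul_le_mul_of_nonneg_right h4 hDpos.le
        _ = _ := mul_comm _ _
    linarith

end Pool.Agent.Leh2
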