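import Pool.Agent.Leh2.Mono
import Pool.Agent.Leh2.Frob

set_option autoImplicit false
set_option linter.unusedVariables false

namespace Pool.Agent.Leh2

open NumberField Polynomial IntermediateField

/-- Divided derivatives. -/
noncomputable def hs {L : Type} [Field L] (L1 L2 : ℕ) (c : ℕ → ℕ → L) (a b : ℕ) (x y : L) : L :=
  ∑ i ∈ Finset.range L1, ∑ j ∈ Finset.range L2,
    c i j * (i.choose a : L) * (j.choose b : L) * x ^ (i - a) * y ^ (j - b)

/-- One variable Taylor formula, homogeneous version. -/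
private theorem tay1 {R : Type} [CommRing R] (x S u : R) (i a E : ℕ) (hi : i < E) :
    (i.choose a : R) * (x * S + u) ^ (i - a) * S ^ (E - (i - a)) =
      ∑ a' ∈ Finset.range E, ((a + a').choose a : R) * (i.choose (a + a') : R) *
        x ^ (i - (a + a')) * u ^ a' * S ^ (E - a') := by
  by_cases hai : a ≤ i
  · rw [add_comm (x * S) u, add_pow, Finset.mul_sum, Finset.sum_mul]
    have hsub : Finset.range (i - a + 1) ⊆ Finset.range E := by
      intro m hm
      rw [Finset.mem_range] at *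
      omega
    rw [← Finset.sum_subset hsub (f := fun a' => ((a + a').choose a : R) *
      (i.choose (a + a') : R) * x ^ (i - (a + a')) * u ^ a' * S ^ (E - a'))]
    · refine Finset.sum_congr rfl fun m hm => ?_
      rw [Finset.mem_range] at hm
      have hch : (i.choose a : R) * ((i - a).choose m : R) =
          ((a + m).choose a : R) * (i.choose (a + m) : R) := by
        have h := Nat.choose_mul (n := i) (k := a + m) (s := a) (Nat.le_add_right a m)
        rw [Nat.add_sub_cancel_left] at h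
        rw [← Nat.cast_mul, ← Nat.cast_mul, ← h, mul_comm]
      have e1 : i - (a + m) = i - a - m := by omega
      have e2 : E - m = (i - a - m) + (E - (i - a)) := by omega
      rw [e1, e2, pow_add S, mul_pow, ← hch]
      ring
    · intro m hm hm2
      rw [Finset.mem_range] at hm hm2
      have : i.choose (a + m) = 0 := Nat.choose_eq_zero_of_lt (by omega)
      simp [this]
  · have h0 : i.choose a = 0 := Nat.choose_eq_zero_of_lt (by omega)
    rw [h0, Nat.cast_zero, zero_mul, zero_mul]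
    symm
    refine Finset.sum_eq_zero fun m hm => ?_
    have : i.choose (a + m) = 0 := Nat.choose_eq_zero_of_lt (by omega)
    simp [this]

/-- The numbers `hs` over a commutative ring. -/
private noncomputable def hr {R : Type} [CommRing R] (L1 L2 : ℕ) (c : ℕ → ℕ → R) (a b : ℕ)
    (x y : R) : R :=
  ∑ i ∈ Finset.range L1, ∑ j ∈ Finset.range L2,
    c i j * (i.choose a : R) * (j.choose b : R) * x ^ (i - a) * y ^ (j - b)

/-- Two variable Taylor formula, homogeneous version. -/
private theorem tay2 {R : Type} [CommRing R] (L1 L2 : ℕ) (c : ℕ → ℕ → R) (x y S u v : R)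
    (a b : ℕ) :
    ∑ i ∈ Finset.range L1, ∑ j ∈ Finset.range L2, c i j *
      ((i.choose a : R) * (x * S + u) ^ (i - a) * S ^ (L1 - (i - a))) *
      ((j.choose b : R) * (y * S + v) ^ (j - b) * S ^ (L2 - (j - b))) =
    ∑ a' ∈ Finset.range L1, ∑ b' ∈ Finset.range L2,
      ((a + a').choose a : R) * ((b + b').choose b : R) * hr L1 L2 c (a + a') (b + b') x y *
        (u ^ a' * S ^ (L1 - a')) * (v ^ b' * S ^ (L2 - b')) := by
  have h1 : ∀ i ∈ Finset.range L1, ∀ j ∈ Finset.range L2, c i j *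
      ((i.choose a : R) * (x * S + u) ^ (i - a) * S ^ (L1 - (i - a))) *
      ((j.choose b : R) * (y * S + v) ^ (j - b) * S ^ (L2 - (j - b))) =
      ∑ a' ∈ Finset.range L1, ∑ b' ∈ Finset.range L2, c i j *
      (((a + a').choose a : R) * (i.choose (a + a') : R) *
        x ^ (i - (a + a')) * u ^ a' * S ^ (L1 - a')) *
      (((b + b').choose b : R) * (j.choose (b + b') : R) *
        y ^ (j - (b + b')) * v ^ b' * S ^ (L2 - b')) := by
    intro i hi j hj
    rw [tay1 x S u i a L1 (Finset.mem_range.1 hi), tay1 y S v j b L2 (Finset.mem_range.1 hj),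
      mul_assoc, Finset.sum_mul_sum, Finset.mul_sum]
    refine Finset.sum_congr rfl fun a' _ => ?_
    rw [Finset.mul_sum]
    refine Finset.sum_congr rfl fun b' _ => ?_
    ring
  rw [Finset.sum_congr rfl fun i hi => Finset.sum_congr rfl fun j hj => h1 i hi j hj]
  have h2 : ∀ a' ∈ Finset.range L1, ∀ b' ∈ Finset.range L2,
      ((a + a').choose a : R) * ((b + b').choose b : R) * hr L1 L2 c (a + a') (b + b') x y *
        (u ^ a' * S ^ (L1 - a')) * (v ^ b' * S ^ (L2 - b')) =
      ∑ i ∈ Finset.range L1, ∑ j ∈ Finset.range L2, c i j *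
      (((a + a').choose a : R) * (i.choose (a + a') : R) *
        x ^ (i - (a + a')) * u ^ a' * S ^ (L1 - a')) *
      (((b + b').choose b : R) * (j.choose (b + b') : R) *
        y ^ (j - (b + b')) * v ^ b' * S ^ (L2 - b')) := by
    intro a' _ b' _
    rw [hr, Finset.mul_sum, Finset.sum_mul, Finset.sum_mul]
    refine Finset.sum_congr rfl fun i _ => ?_
    rw [Finset.mul_sum, Finset.sum_mul, Finset.sum_mul]
    refine Finset.sum_congr rfl fun j _ => ?_
    ring
  rw [Finset.sum_congr rfl fun a' ha => Finset.sum_congr rfl fun b' hb => h2 a' ha b' hb]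
  rw [show (∑ i ∈ Finset.range L1, ∑ j ∈ Finset.range L2, ∑ a' ∈ Finset.range L1,
      ∑ b' ∈ Finset.range L2, c i j * (((a + a').choose a : R) * (i.choose (a + a') : R) *
        x ^ (i - (a + a')) * u ^ a' * S ^ (L1 - a')) *
      (((b + b').choose b : R) * (j.choose (b + b') : R) *
        y ^ (j - (b + b')) * v ^ b' * S ^ (L2 - b'))) =
      ∑ i ∈ Finset.range L1, ∑ a' ∈ Finset.range L1, ∑ j ∈ Finset.range L2,
      ∑ b' ∈ Finset.range L2, c i j * (((a + a').choose a : R) * (i.choose (a + a') : R) *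
        x ^ (i - (a + a')) * u ^ a' * S ^ (L1 - a')) *
      (((b + b').choose b : R) * (j.choose (b + b') : R) *
        y ^ (j - (b + b')) * v ^ b' * S ^ (L2 - b')) from
      Finset.sum_congr rfl fun i _ => Finset.sum_comm]
  rw [Finset.sum_comm]
  refine Finset.sum_congr rfl fun a' _ => ?_
  rw [show (∑ i ∈ Finset.range L1, ∑ j ∈ Finset.range L2,
      ∑ b' ∈ Finset.range L2, c i j * (((a + a').choose a : R) * (i.choose (a + a') : R) *
        x ^ (i - (a + a')) * u ^ a' * S ^ (L1 - a')) *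
      (((b + b').choose b : R) * (j.choose (b + b') : R) *
        y ^ (j - (b + b')) * v ^ b' * S ^ (L2 - b'))) =
      ∑ i ∈ Finset.range L1, ∑ b' ∈ Finset.range L2, ∑ j ∈ Finset.range L2, c i j *
      (((a + a').choose a : R) * (i.choose (a + a') : R) *
        x ^ (i - (a + a')) * u ^ a' * S ^ (L1 - a')) *
      (((b + b').choose b : R) * (j.choose (b + b') : R) *
        y ^ (j - (b + b')) * v ^ b' * S ^ (L2 - b')) from
      Finset.sum_congr rfl fun i _ => Finset.sum_comm]
  rw [Finset.sum_comm]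

/-- Ultrametric inequality for finite sums. -/
private theorem na_sum {L : Type} [Field L] (w : AbsoluteValue L ℝ) (hw : IsNonarchimedean w)
    {ι : Type*} (s : Finset ι) (f : ι → L) (B : ℝ) (hB : 0 ≤ B) (h : ∀ i ∈ s, w (f i) ≤ B) :
    w (∑ i ∈ s, f i) ≤ B := by
  classical
  induction s using Finset.induction_on with
  | empty => simpa using hB
  | insert i s hi ih =>
    rw [Finset.sum_insert hi]
    refine (hw _ _).trans (max_le (h i (Finset.mem_insert_self i s)) (ih fun j hj => ?_))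
    exact h j (Finset.mem_insert_of_mem hj)

private theorem na_nat {L : Type} [Field L] (w : AbsoluteValue L ℝ) (hw : IsNonarchimedean w)
    (n : ℕ) : w (n : L) ≤ 1 := by
  induction n with
  | zero => simp
  | succ n ih =>
    rw [Nat.cast_succ]
    exact (hw _ _).trans (max_le ih (by simp))

private theorem na_int {L : Type} [Field L] (w : AbsoluteValue L ℝ) (hw : IsNonarchimedean w)
    (n : ℤ) : w (n : L) ≤ 1 := by
  rcases Int.eq_nat_or_neg n with ⟨m, rfl | rfl⟩
  · rw [Int.cast_natCast]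
    exact na_nat w hw m
  · rw [Int.cast_neg, Int.cast_natCast, AbsoluteValue.map_neg]
    exact na_nat w hw m

/-- The elements of `k` with `w ≤ 1`. -/
private noncomputable def W {L : Type} [Field L] [NumberField L] (k : IntermediateField ℚ L)
    (w : AbsoluteValue L ℝ) (hw : IsNonarchimedean w) : Subring L where
  carrier := {c | c ∈ k ∧ w c ≤ 1}
  mul_mem' := by
    intro a b ha hb
    refine ⟨mul_mem ha.1 hb.1, ?_⟩
    rw [w.map_mul]
    exact mul_le_one₀ ha.2 (w.nonneg _) hb.2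
  one_mem' := ⟨one_mem _, by simp⟩
  add_mem' := by
    intro a b ha hb
    exact ⟨add_mem ha.1 hb.1, (hw _ _).trans (max_le ha.2 hb.2)⟩
  zero_mem' := ⟨zero_mem _, by simp⟩
  neg_mem' := by
    intro a ha
    refine ⟨neg_mem ha.1, ?_⟩
    rw [AbsoluteValue.map_neg]
    exact ha.2

/-- Integral elements have `w ≤ 1`. -/
private theorem na_integral {L : Type} [Field L] (w : AbsoluteValue L ℝ)
    (hw : IsNonarchimedean w) (x : L) (hx : IsIntegral ℤ x) : w x ≤ 1 := by
  obtain ⟨f, hf, hfx⟩ := hx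
  by_contra hcon
  push Not at hcon
  rw [eval₂_eq_sum_range, Finset.sum_range_succ, hf.coeff_natDegree] at hfx
  have h1 : x ^ f.natDegree = - ∑ i ∈ Finset.range f.natDegree,
      (algebraMap ℤ L) (f.coeff i) * x ^ i := by
    rw [map_one, one_mul] at hfx
    linear_combination hfx
  have h2 : w (x ^ f.natDegree) ≤ w x ^ (f.natDegree - 1) := by
    rw [h1, AbsoluteValue.map_neg]
    refine na_sum w hw _ _ _ (pow_nonneg (w.nonneg _) _) fun i hi => ?_
    rw [Finset.mem_range] at hi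
    rw [w.map_mul, map_pow]
    calc w ((algebraMap ℤ L) (f.coeff i)) * w x ^ i ≤ 1 * w x ^ i := by
          refine mul_le_mul_of_nonneg_right ?_ (pow_nonneg (w.nonneg _) _)
          simpa using na_int w hw (f.coeff i)
      _ = w x ^ i := one_mul _
      _ ≤ w x ^ (f.natDegree - 1) := pow_le_pow_right₀ hcon.le (by omega)
  rw [map_pow] at h2
  rcases Nat.eq_zero_or_pos f.natDegree with h0 | h0
  · rw [h0] at h1
    simp at h1
  · exact absurd h2 (not_le.2 (pow_lt_pow_right₀ hcon (by omega)))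

/-- Key lemma: `p`-adic gain for polynomials in one variable. -/
private theorem key {L : Type} [Field L] [NumberField L] {ζ : L} {N : ℕ}
    (hζ : IsPrimitiveRoot ζ N) (hN : 0 < N) {p : ℕ} (hp : p.Prime) (hpN : ¬ p ∣ N)
    (ψ : L ≃ₐ[ℚ] L) (hψ : ψ ζ = ζ ^ p) (w : AbsoluteValue L ℝ) (hw : IsNonarchimedean w)
    (hwp : w (p : L) < 1) (θ : L) (hθ : IsIntegral ℤ θ) (T : ℕ) :
    ∀ H : L[X], (∀ n, H.coeff n ∈ W ℚ⟮ζ⟯ w hw) → (X - C θ) ^ T ∣ H →
      w ((H.map (ψ : L →+* L)).eval (θ ^ p)) ≤ w (p : L) ^ T := by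
  have hθp : w (θ ^ p) ≤ 1 := na_integral w hw _ (hθ.pow p)
  induction T with
  | zero =>
    intro H hH _
    rw [pow_zero, eval_eq_sum_range]
    refine na_sum w hw _ _ _ zero_le_one fun i _ => ?_
    rw [w.map_mul, coeff_map, map_pow]
    refine mul_le_one₀ ?_ (pow_nonneg (w.nonneg _) _) (pow_le_one₀ (w.nonneg _) hθp)
    exact (frob_val hζ hN hp hpN ψ hψ w hw hwp (H.coeff i) (hH i).1 (hH i).2).1
  | succ T ih =>
    intro H hH hdv
    have hθk : IsIntegral ℚ⟮ζ⟯ θ := hθ.tower_top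
    set g0 : ℚ⟮ζ⟯[X] := minpoly ℚ⟮ζ⟯ θ with hg0
    have hg0m : g0.Monic := minpoly.monic hθk
    set f : L[X] := g0.map (algebraMap ℚ⟮ζ⟯ L) with hf
    have hfm : f.Monic := hg0m.map _
    have hfk : ∀ n, f.coeff n ∈ ℚ⟮ζ⟯ := by
      intro n
      rw [hf, coeff_map]
      exact (g0.coeff n).2
    have hfint : ∀ n, IsIntegral ℤ (f.coeff n) := by
      intro n
      refine isIntegral_coeff_of_dvd (minpoly ℤ θ) f (minpoly.monic hθ) hfm ?_ n
      have h1 : g0 ∣ (minpoly ℤ θ).map (algebraMap ℤ ℚ⟮ζ⟯) := by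
        refine minpoly.dvd _ _ ?_
        rw [aeval_map_algebraMap, minpoly.aeval]
      have h2 := Polynomial.map_dvd (algebraMap ℚ⟮ζ⟯ L) h1
      rw [Polynomial.map_map, RingHom.ext_int
        ((algebraMap ℚ⟮ζ⟯ L).comp (algebraMap ℤ ℚ⟮ζ⟯)) (algebraMap ℤ L)] at h2
      exact h2
    have hfW : ∀ n, f.coeff n ∈ W ℚ⟮ζ⟯ w hw := fun n =>
      ⟨hfk n, na_integral w hw _ (hfint n)⟩
    -- the polynomial over `k`
    have hHl : H ∈ lifts (algebraMap ℚ⟮ζ⟯ L) := by
      rw [lifts_iff_coeff_lifts]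
      intro n
      exact ⟨⟨H.coeff n, (hH n).1⟩, rfl⟩
    obtain ⟨H0, hH0⟩ := hHl
    have hroot : H.eval θ = 0 := by
      have h1 : (X - C θ) ∣ H := (dvd_pow_self _ (Nat.succ_ne_zero T)).trans hdv
      exact dvd_iff_isRoot.1 h1
    have hdiv : f ∣ H := by
      have h1 : g0 ∣ H0 := by
        refine minpoly.dvd _ _ ?_
        rw [← hroot, ← hH0, coe_mapRingHom, eval_map_algebraMap]
      have h2 := Polynomial.map_dvd (algebraMap ℚ⟮ζ⟯ L) h1
      rw [← hH0]
      exact h2
    set G : L[X] := H /ₘ f with hG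
    have hHG : H = f * G := by
      have h1 := modByMonic_add_div H f
      rw [(modByMonic_eq_zero_iff_dvd hfm).2 hdiv, zero_add] at h1
      exact h1.symm
    have hGW : ∀ n, G.coeff n ∈ W ℚ⟮ζ⟯ w hw := by
      have hc1 : (↑H.coeffs : Set L) ⊆ W ℚ⟮ζ⟯ w hw := by
        intro z hz
        rw [Finset.mem_coe, mem_coeffs_iff] at hz
        obtain ⟨n, _, rfl⟩ := hz
        exact hH n
      have hc2 : (↑f.coeffs : Set L) ⊆ W ℚ⟮ζ⟯ w hw := by
        intro z hz
        rw [Finset.mem_coe, mem_coeffs_iff] at hz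
        obtain ⟨n, _, rfl⟩ := hz
        exact hfW n
      have hm : (f.toSubring (W ℚ⟮ζ⟯ w hw) hc2).Monic := (monic_toSubring f _ hc2).2 hfm
      have h1 : G = (H.toSubring (W ℚ⟮ζ⟯ w hw) hc1 /ₘ f.toSubring (W ℚ⟮ζ⟯ w hw) hc2).map
          (Subring.subtype _) := by
        rw [Polynomial.map_divByMonic _ hm, map_toSubring, map_toSubring]
      intro n
      rw [h1, coeff_map]
      exact Subtype.mem _
    -- simple root
    have hsep : g0.Separable := (minpoly.irreducible hθk).separable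
    have hfroot : f.eval θ = 0 := by
      rw [hf, eval_map_algebraMap, hg0, minpoly.aeval]
    obtain ⟨g, hg⟩ : (X - C θ) ∣ f := dvd_iff_isRoot.2 hfroot
    have hgθ : ¬ (X - C θ) ∣ g := by
      intro hcon
      obtain ⟨g', hg'⟩ := hcon
      have h1 : (derivative f).eval θ ≠ 0 := by
        have := hsep.map (f := algebraMap ℚ⟮ζ⟯ L)
        exact this.eval₂_derivative_ne_zero (RingHom.id L) (x := θ) (by
          rw [eval₂_id]; exact hfroot) |> fun h => by rwa [eval₂_id] at h
      apply h1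
      rw [hg, hg']
      simp
    have hG2 : (X - C θ) ^ T ∣ G := by
      rw [hHG, hg, pow_succ, mul_comm _ (X - C θ), mul_assoc] at hdv
      have h1 := (mul_dvd_mul_iff_left (X_sub_C_ne_zero θ)).1 hdv
      exact (prime_X_sub_C θ).pow_dvd_of_dvd_mul_left T hgθ h1
    have h2 := ih G hGW hG2
    obtain ⟨b, hb, hfb⟩ := frob_int hζ hN hp hpN ψ hψ f hfk hfint θ hθ
    rw [hfroot, zero_pow hp.ne_zero, zero_add] at hfb
    rw [hHG, Polynomial.map_mul, eval_mul, hfb, w.map_mul, w.map_mul, pow_succ,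
      mul_comm (w (p : L) ^ T)]
    have hb1 := na_integral w hw b hb
    refine mul_le_mul ?_ h2 (w.nonneg _) (w.nonneg _)
    calc w (p : L) * w b ≤ w (p : L) * 1 := mul_le_mul_of_nonneg_left hb1 (w.nonneg _)
      _ = w (p : L) := mul_one _

/-- The prime of `w`. -/
private noncomputable def PP {L : Type} [Field L] [NumberField L] (w : AbsoluteValue L ℝ)
    (hw : IsNonarchimedean w) : Ideal (𝓞 L) where
  carrier := {b | w (algebraMap (𝓞 L) L b) < 1}
  add_mem' := by
    intro a b ha hb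
    rw [Set.mem_ofPred_eq, map_add]
    exact (hw _ _).trans_lt (max_lt ha hb)
  zero_mem' := by simp
  smul_mem' := by
    intro a b hb
    rw [Set.mem_ofPred_eq, smul_eq_mul, map_mul, w.map_mul]
    have h1 : w (algebraMap (𝓞 L) L a) ≤ 1 := na_integral w hw _ (RingOfIntegers.isIntegral_coe a)
    calc w (algebraMap (𝓞 L) L a) * w (algebraMap (𝓞 L) L b)
        ≤ 1 * w (algebraMap (𝓞 L) L b) := mul_le_mul_of_nonneg_right h1 (w.nonneg _)
      _ = w (algebraMap (𝓞 L) L b) := one_mul _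
      _ < 1 := hb

private theorem mem_PP {L : Type} [Field L] [NumberField L] (w : AbsoluteValue L ℝ)
    (hw : IsNonarchimedean w) (b : 𝓞 L) : b ∈ PP w hw ↔ w (algebraMap (𝓞 L) L b) < 1 := Iff.rfl

private theorem not_mem_PP {L : Type} [Field L] [NumberField L] (w : AbsoluteValue L ℝ)
    (hw : IsNonarchimedean w) (b : 𝓞 L) : b ∉ PP w hw ↔ w (algebraMap (𝓞 L) L b) = 1 := by
  rw [mem_PP, not_lt]
  have h1 : w (algebraMap (𝓞 L) L b) ≤ 1 := na_integral w hw _ (RingOfIntegers.isIntegral_coe b)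
  exact ⟨fun h => le_antisymm h1 h, fun h => h.ge⟩

private theorem PP_prime {L : Type} [Field L] [NumberField L] (w : AbsoluteValue L ℝ)
    (hw : IsNonarchimedean w) : (PP w hw).IsPrime := by
  rw [Ideal.isPrime_iff]
  refine ⟨?_, ?_⟩
  · rw [Ideal.ne_top_iff_one, not_mem_PP]
    simp
  · intro a b hab
    by_contra hcon
    push Not at hcon
    obtain ⟨h1, h2⟩ := hcon
    rw [not_mem_PP] at h1 h2
    rw [mem_PP, map_mul, w.map_mul, h1, h2] at hab
    norm_num at hab

private theorem frac1 {L : Type} [Field L] [NumberField L] (w : AbsoluteValue L ℝ)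
    (hw : IsNonarchimedean w) (hb : PP w hw ≠ ⊥) (x : L) (hx : w x ≤ 1) :
    ∃ n d : 𝓞 L, d ∉ PP w hw ∧ x * algebraMap (𝓞 L) L d = algebraMap (𝓞 L) L n := by
  obtain ⟨n, d, h⟩ := IsDedekindDomain.HeightOneSpectrum.exists_primeCompl_mul_eq_or_mul_eq
    (⟨PP w hw, PP_prime w hw, hb⟩ : IsDedekindDomain.HeightOneSpectrum (𝓞 L)) x
  have hd : (d : 𝓞 L) ∉ PP w hw := d.2
  rcases h with h | h
  · exact ⟨n, d, hd, h⟩
  · refine ⟨d, n, ?_, h⟩
    rw [not_mem_PP] at hd ⊢
    have h1 : w (algebraMap (𝓞 L) L n) ≤ 1 :=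
      na_integral w hw _ (RingOfIntegers.isIntegral_coe n)
    have h2 : w x * w (algebraMap (𝓞 L) L n) = 1 := by rw [← w.map_mul, h, hd]
    have h3 := w.nonneg (algebraMap (𝓞 L) L n)
    have h4 := w.nonneg x
    nlinarith

/-- The elements `θ`, `A(θ)/S(θ)`, `B(θ)/S(θ)`. -/
private theorem frac2 {L : Type} [Field L] [NumberField L] (w : AbsoluteValue L ℝ)
    (hw : IsNonarchimedean w) (hb : PP w hw ≠ ⊥) (x y : L) (hx : w x ≤ 1) (hy : w y ≤ 1) :
    ∃ θ : L, IsIntegral ℤ θ ∧ ∃ A B S : ℤ[X], w (aeval θ S) = 1 ∧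
      aeval θ A = x * aeval θ S ∧ aeval θ B = y * aeval θ S := by
  obtain ⟨θ, hθ⟩ := @exists_monogenic L _ _ (PP w hw) (PP_prime w hw) hb
  have key1 : ∀ x : L, w x ≤ 1 → ∃ A S : ℤ[X], w (aeval (algebraMap (𝓞 L) L θ) S) = 1 ∧
      aeval (algebraMap (𝓞 L) L θ) A = x * aeval (algebraMap (𝓞 L) L θ) S := by
    intro x hx
    obtain ⟨n, d, hd, hnd⟩ := frac1 w hw hb x hx
    obtain ⟨A1, S1, hS1, hA1⟩ := hθ d
    obtain ⟨A2, S2, hS2, hA2⟩ := hθ n
    rw [not_mem_PP] at hd hS1 hS2
    have hA1' := congrArg (algebraMap (𝓞 L) L) hA1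
    have hA2' := congrArg (algebraMap (𝓞 L) L) hA2
    rw [map_mul, ← aeval_algebraMap_apply, ← aeval_algebraMap_apply] at hA1' hA2'
    rw [← aeval_algebraMap_apply] at hS1 hS2
    refine ⟨A2 * S1, A1 * S2, ?_, ?_⟩
    · rw [map_mul, ← hA1', w.map_mul, w.map_mul, hd, hS1, hS2]
      norm_num
    · rw [map_mul, map_mul, ← hA1', ← hA2', ← hnd]
      ring
  obtain ⟨A, S, hS, hA⟩ := key1 x hx
  obtain ⟨B, S', hS', hB⟩ := key1 y hy
  refine ⟨algebraMap (𝓞 L) L θ, RingOfIntegers.isIntegral_coe θ, A * S', B * S, S * S', ?_,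
    ?_, ?_⟩
  · rw [map_mul, w.map_mul, hS, hS', one_mul]
  · rw [map_mul, map_mul, hA]
    ring
  · rw [map_mul, map_mul, hB]
    ring

private theorem hr_map {R R' : Type} [CommRing R] [CommRing R'] (φ : R →+* R') (L1 L2 : ℕ)
    (c : ℕ → ℕ → R) (a b : ℕ) (x y : R) :
    hr L1 L2 (fun i j => φ (c i j)) a b (φ x) (φ y) = φ (hr L1 L2 c a b x y) := by
  simp only [hr, map_sum, map_mul, map_pow, map_natCast]

/-- TINT. The `p`-adic gain for a polynomial which vanishes to order `T` at a `w`-integral point. -/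
theorem t_int {L : Type} [Field L] [NumberField L] {ζ : L} {N : ℕ}
    (hζ : IsPrimitiveRoot ζ N) (hN : 0 < N) {p : ℕ} (hp : p.Prime) (hpN : ¬ p ∣ N)
    (ψ : L ≃ₐ[ℚ] L) (hψ : ψ ζ = ζ ^ p) (w : AbsoluteValue L ℝ) (hw : IsNonarchimedean w)
    (hwp : w (p : L) < 1) (L1 L2 T : ℕ) (c : ℕ → ℕ → L) (hck : ∀ i j, c i j ∈ ℚ⟮ζ⟯)
    (hcw : ∀ i j, w (c i j) ≤ 1) (x y : L) (hx : w x ≤ 1) (hy : w y ≤ 1)
    (hT : ∀ a b, a + b < T → hs L1 L2 c a b x y = 0) :
    w (hs L1 L2 (fun i j => ψ (c i j)) 0 0 (x ^ p) (y ^ p)) ≤ w (p : L) ^ T := by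
  have hb : PP w hw ≠ ⊥ := by
    intro h
    have h1 : (p : 𝓞 L) ∈ PP w hw := by
      rw [mem_PP, map_natCast]
      exact hwp
    rw [h, Ideal.mem_bot] at h1
    exact hp.ne_zero (by exact_mod_cast h1)
  obtain ⟨θ, hθ, A, B, S, hS, hA, hB⟩ := frac2 w hw hb x y hx hy
  -- Frobenius for integer polynomials
  have hfr : ∀ f : ℤ[X], ∃ b : L, IsIntegral ℤ b ∧
      aeval (θ ^ p) f = (aeval θ f) ^ p + (p : L) * b := by
    intro f
    obtain ⟨b, hb1, hb2⟩ := frob_int hζ hN hp hpN ψ hψ (f.map (algebraMap ℤ L))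
      (fun n => by
        rw [coeff_map, eq_intCast]
        exact intCast_mem _ _)
      (fun n => by
        rw [coeff_map]
        exact isIntegral_algebraMap) θ hθ
    refine ⟨b, hb1, ?_⟩
    rw [Polynomial.map_map, RingHom.ext_int ((ψ : L →+* L).comp (algebraMap ℤ L))
      (algebraMap ℤ L), eval_map_algebraMap, eval_map_algebraMap] at hb2
    exact hb2
  have hwp0 : 0 ≤ w (p : L) := w.nonneg _
  have hint : ∀ f : ℤ[X], IsIntegral ℤ (aeval θ f) := fun f => by
    rw [aeval_def]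
    exact IsIntegral.of_mem_of_fg (Algebra.adjoin ℤ {θ}) hθ.fg_adjoin_singleton _
      (by rw [← aeval_def]; exact aeval_mem_adjoin_singleton ℤ θ)
  have hpm : ∀ b : L, IsIntegral ℤ b → w ((p : L) * b) ≤ w (p : L) := by
    intro b hb
    rw [w.map_mul]
    calc w (p : L) * w b ≤ w (p : L) * 1 :=
          mul_le_mul_of_nonneg_left (na_integral w hw b hb) hwp0
      _ = w (p : L) := mul_one _
  obtain ⟨bS, hbS, heS⟩ := hfr S
  obtain ⟨bA, hbA, heA⟩ := hfr A
  obtain ⟨bB, hbB, heB⟩ := hfr B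
  set s' : L := aeval (θ ^ p) S with hs'
  set a' : L := aeval (θ ^ p) A with ha'
  set b' : L := aeval (θ ^ p) B with hb'
  set s : L := aeval θ S with hsd
  have hws' : w s' = 1 := by
    have h1 : s ^ p = s' - (p : L) * bS := by rw [heS]; ring
    have h2 : w (s ^ p) = 1 := by rw [map_pow, hS, one_pow]
    have h4 : w s' ≤ 1 := by
      rw [heS]
      exact (hw _ _).trans (max_le h2.le ((hpm bS hbS).trans hwp.le))
    refine le_antisymm h4 ?_
    by_contra hlt
    push Not at hlt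
    rw [h1, sub_eq_add_neg] at h2
    have h3 := hw s' (-((p : L) * bS))
    rw [h2, AbsoluteValue.map_neg] at h3
    exact absurd h3 (not_le.2 (max_lt hlt ((hpm bS hbS).trans_lt hwp)))
  have hs0 : s' ≠ 0 := by
    intro h
    rw [h, w.map_zero] at hws'
    norm_num at hws'
  have hcl : ∀ (z e e' g : L), IsIntegral ℤ g → w z ≤ 1 → e = z * s →
      e' = e ^ p + (p : L) * g → w (z ^ p - e' / s') ≤ w (p : L) := by
    intro z e e' g hg hz he he'
    have h1 : (z ^ p - e' / s') * s' = (p : L) * (z ^ p * bS - g) := by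
      rw [sub_mul, div_mul_cancel₀ _ hs0, he', he, heS]
      ring
    have h2 : w (z ^ p - e' / s') = w ((p : L) * (z ^ p * bS - g)) := by
      rw [← h1, w.map_mul, hws', mul_one]
    rw [h2, w.map_mul]
    have h3 : w (z ^ p * bS - g) ≤ 1 := by
      rw [sub_eq_add_neg]
      refine (hw _ _).trans (max_le ?_ ?_)
      · rw [w.map_mul, map_pow]
        exact mul_le_one₀ (pow_le_one₀ (w.nonneg _) hz) (w.nonneg _) (na_integral w hw _ hbS)
      · rw [AbsoluteValue.map_neg]
        exact na_integral w hw _ hg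
    calc w (p : L) * w (z ^ p * bS - g) ≤ w (p : L) * 1 := mul_le_mul_of_nonneg_left h3 hwp0
      _ = w (p : L) := mul_one _
  have hρ1 : w (x ^ p - a' / s') ≤ w (p : L) := hcl x _ a' bA hbA hx hA heA
  have hρ2 : w (y ^ p - b' / s') ≤ w (p : L) := hcl y _ b' bB hbB hy hB heB
  -- Step 1
  have step1 : ∀ a b, w (hr L1 L2 (fun i j => ψ (c i j)) a b (a' / s') (b' / s')) ≤
      w (p : L) ^ (T - (a + b)) := by
    intro a b
    set SL : L[X] := S.map (algebraMap ℤ L) with hSL
    set AL : L[X] := A.map (algebraMap ℤ L) with hAL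
    set BL : L[X] := B.map (algebraMap ℤ L) with hBL
    set H : L[X] := ∑ i ∈ Finset.range L1, ∑ j ∈ Finset.range L2, C (c i j) *
      ((i.choose a : L[X]) * AL ^ (i - a) * SL ^ (L1 - (i - a))) *
      ((j.choose b : L[X]) * BL ^ (j - b) * SL ^ (L2 - (j - b))) with hH
    have hHt : H = ∑ a'' ∈ Finset.range L1, ∑ b'' ∈ Finset.range L2,
        ((a + a'').choose a : L[X]) * ((b + b'').choose b : L[X]) *
        C (hr L1 L2 c (a + a'') (b + b'') x y) *
        ((AL - C x * SL) ^ a'' * SL ^ (L1 - a'')) *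
        ((BL - C y * SL) ^ b'' * SL ^ (L2 - b'')) := by
      have h1 := tay2 L1 L2 (fun i j => C (c i j)) (C x) (C y) SL (AL - C x * SL)
        (BL - C y * SL) a b
      rw [add_sub_cancel, add_sub_cancel] at h1
      rw [hH, h1]
      refine Finset.sum_congr rfl fun a'' _ => Finset.sum_congr rfl fun b'' _ => ?_
      rw [hr_map (C : L →+* L[X])]
    have hdvd : (X - C θ) ^ (T - (a + b)) ∣ H := by
      rw [hHt]
      refine Finset.dvd_sum fun a'' _ => Finset.dvd_sum fun b'' _ => ?_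
      by_cases hlt : (a + a'') + (b + b'') < T
      · have h0 : hr L1 L2 c (a + a'') (b + b'') x y = 0 := hT _ _ hlt
        rw [h0, C_0, mul_zero, zero_mul, zero_mul]
        exact dvd_zero _
      · have hu : (X - C θ) ∣ AL - C x * SL := by
          rw [dvd_iff_isRoot, IsRoot, eval_sub, eval_mul, eval_C, hAL, hSL,
            eval_map_algebraMap, eval_map_algebraMap, hA]
          exact sub_self _
        have hv : (X - C θ) ∣ BL - C y * SL := by
          rw [dvd_iff_isRoot, IsRoot, eval_sub, eval_mul, eval_C, hBL, hSL,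
            eval_map_algebraMap, eval_map_algebraMap, hB]
          exact sub_self _
        have h2 : (X - C θ) ^ (T - (a + b)) ∣ (X - C θ) ^ a'' * (X - C θ) ^ b'' := by
          rw [← pow_add]
          exact pow_dvd_pow _ (by omega)
        refine h2.trans ?_
        refine mul_dvd_mul (Dvd.dvd.mul_left ?_ _) ?_
        · exact (pow_dvd_pow_of_dvd hu a'').trans (dvd_mul_right _ _)
        · exact (pow_dvd_pow_of_dvd hv b'').trans (dvd_mul_right _ _)
    have hHW : ∀ n, H.coeff n ∈ W ℚ⟮ζ⟯ w hw := by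
      have hZ : ∀ f : ℤ[X], f.map (algebraMap ℤ L) ∈
          lifts (Subring.subtype (W ℚ⟮ζ⟯ w hw)) := by
        intro f
        rw [lifts_iff_coeff_lifts]
        intro n
        rw [coeff_map, eq_intCast]
        exact ⟨((f.coeff n : ℤ) : W ℚ⟮ζ⟯ w hw), by simp⟩
      have hHl : H ∈ lifts (Subring.subtype (W ℚ⟮ζ⟯ w hw)) := by
        rw [hH]
        refine sum_mem fun i _ => sum_mem fun j _ => ?_
        refine mul_mem (mul_mem ?_ (mul_mem (mul_mem (natCast_mem _ _) (pow_mem (hZ A) _))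
          (pow_mem (hZ S) _))) (mul_mem (mul_mem (natCast_mem _ _) (pow_mem (hZ B) _))
          (pow_mem (hZ S) _))
        exact C_mem_lifts (Subring.subtype (W ℚ⟮ζ⟯ w hw)) ⟨c i j, hck i j, hcw i j⟩
      rw [lifts_iff_coeff_lifts] at hHl
      intro n
      obtain ⟨z, hz⟩ := hHl n
      rw [← hz]
      exact z.2
    have hk := key hζ hN hp hpN ψ hψ w hw hwp θ hθ (T - (a + b)) H hHW hdvd
    have hev : (H.map (ψ : L →+* L)).eval (θ ^ p) = s' ^ (L1 + L2) *
        hr L1 L2 (fun i j => ψ (c i j)) a b (a' / s') (b' / s') := by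
      have hm : ∀ f : ℤ[X], ((f.map (algebraMap ℤ L)).map (ψ : L →+* L)).eval (θ ^ p) =
          aeval (θ ^ p) f := by
        intro f
        rw [Polynomial.map_map, RingHom.ext_int ((ψ : L →+* L).comp (algebraMap ℤ L))
          (algebraMap ℤ L), eval_map_algebraMap]
      rw [hH, hr]
      simp only [Polynomial.map_sum, Polynomial.map_mul, Polynomial.map_pow, map_C,
        Polynomial.map_natCast, eval_finsetSum, eval_mul, eval_pow, eval_C, eval_natCast,
        hSL, hAL, hBL, hm, Finset.mul_sum]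
      refine Finset.sum_congr rfl fun i hi => Finset.sum_congr rfl fun j hj => ?_
      rw [Finset.mem_range] at hi hj
      have e1 : s' ^ L1 = s' ^ (i - a) * s' ^ (L1 - (i - a)) := by
        rw [← pow_add]
        congr 1
        omega
      have e2 : s' ^ L2 = s' ^ (j - b) * s' ^ (L2 - (j - b)) := by
        rw [← pow_add]
        congr 1
        omega
      have e3 : a' = s' * (a' / s') := by field_simp
      have e4 : b' = s' * (b' / s') := by field_simp
      rw [← ha', ← hb', ← hs', pow_add, e1, e2]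
      nth_rewrite 1 [e3]
      nth_rewrite 1 [e4]
      rw [mul_pow, mul_pow]
      simp only [RingHom.coe_coe]
      ring
    rw [hev, w.map_mul, map_pow, hws', one_pow, one_mul] at hk
    exact hk
  -- Step 2
  have h1 := tay2 L1 L2 (fun i j => ψ (c i j)) (a' / s') (b' / s') 1 (x ^ p - a' / s')
    (y ^ p - b' / s') 0 0
  rw [mul_one, mul_one, add_sub_cancel, add_sub_cancel] at h1
  have h2 : hs L1 L2 (fun i j => ψ (c i j)) 0 0 (x ^ p) (y ^ p) =
      ∑ i ∈ Finset.range L1, ∑ j ∈ Finset.range L2, ψ (c i j) *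
      ((i.choose 0 : L) * (x ^ p) ^ (i - 0) * 1 ^ (L1 - (i - 0))) *
      ((j.choose 0 : L) * (y ^ p) ^ (j - 0) * 1 ^ (L2 - (j - 0))) := by
    rw [Pool.Agent.Leh2.hs]
    refine Finset.sum_congr rfl fun i _ => Finset.sum_congr rfl fun j _ => ?_
    rw [one_pow, one_pow]
    ring
  rw [h2, h1]
  refine na_sum w hw _ _ _ (pow_nonneg hwp0 _) fun a _ => ?_
  refine na_sum w hw _ _ _ (pow_nonneg hwp0 _) fun b _ => ?_
  rw [zero_add, zero_add, Nat.choose_zero_right, Nat.choose_zero_right, Nat.cast_one, one_mul,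
    one_mul, one_pow, one_pow, mul_one, mul_one, w.map_mul, w.map_mul, map_pow, map_pow]
  have h3 := step1 a b
  have h4 : w (x ^ p - a' / s') ^ a ≤ w (p : L) ^ a := pow_le_pow_left₀ (w.nonneg _) hρ1 a
  have h5 : w (y ^ p - b' / s') ^ b ≤ w (p : L) ^ b := pow_le_pow_left₀ (w.nonneg _) hρ2 b
  calc w (hr L1 L2 (fun i j => ψ (c i j)) a b (a' / s') (b' / s')) *
        w (x ^ p - a' / s') ^ a * w (y ^ p - b' / s') ^ b
      ≤ w (p : L) ^ (T - (a + b)) * w (p : L) ^ a * w (p : L) ^ b := by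
        refine mul_le_mul (mul_le_mul h3 h4 (pow_nonneg (w.nonneg _) _) (pow_nonneg hwp0 _)) h5
          (pow_nonneg (w.nonneg _) _) (mul_nonneg (pow_nonneg hwp0 _) (pow_nonneg hwp0 _))
    _ = w (p : L) ^ (T - (a + b) + a + b) := by rw [pow_add, pow_add]
    _ ≤ w (p : L) ^ T := pow_le_pow_of_le_one hwp0 hwp.le (by omega)

end Pool.Agent.Leh2
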