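import Pool.Agent.Leh2.StageA
import Pool.Agent.Leh2.StageB

set_option autoImplicit false

namespace Pool.Agent.Leh2

open NumberField IntermediateField Module

private theorem mi2_nt {L : Type} [Field L] {x y : L} (h : MI2 x y) :
    (∀ n : ℕ, 0 < n → x ^ n ≠ 1) ∧ (∀ n : ℕ, 0 < n → y ^ n ≠ 1) := by
  constructor
  · intro n hn h1
    have := (h.2.2 n 0 (by simpa using h1)).1
    omega
  · intro n hn h1
    have := (h.2.2 0 n (by simpa using h1)).2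
    omega

private theorem mi2_pow {L : Type} [Field L] [NumberField L] {x y : L} (h : MI2 x y)
    {p : ℕ} (hp : 0 < p) (ψ : L ≃ₐ[ℚ] L) : MI2 (ψ.symm (x ^ p)) (ψ.symm (y ^ p)) := by
  refine ⟨?_, ?_, ?_⟩
  · intro h1
    exact h.1 (pow_eq_zero_iff (by omega) |>.1 ((map_eq_zero ψ.symm).1 h1))
  · intro h1
    exact h.2.1 (pow_eq_zero_iff (by omega) |>.1 ((map_eq_zero ψ.symm).1 h1))
  · intro a b hab
    rw [← map_zpow₀, ← map_zpow₀, ← map_mul, map_eq_one_iff _ ψ.symm.injective] at hab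
    rw [← zpow_natCast, ← zpow_natCast, ← zpow_mul, ← zpow_mul] at hab
    obtain ⟨h1, h2⟩ := h.2.2 _ _ hab
    have hp' : (p : ℤ) ≠ 0 := by exact_mod_cast hp.ne'
    exact ⟨(mul_eq_zero.1 h1).resolve_left hp', (mul_eq_zero.1 h2).resolve_left hp'⟩

private theorem nh_pow {L : Type} [Field L] [NumberField L] (x : L) (p : ℕ) :
    nh (x ^ p) = p * nh x := by
  rw [nh, nh, Height.logHeight₁_pow, mul_div_assoc]

/-- TW. Lehmer with an epsilon loss, relative to `ℚ(ζ)`, dimension two. -/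
theorem leh2_core (κ : ℝ) (hκ : 0 ≤ κ) : ∃ Y0 : ℝ, 1 ≤ Y0 ∧ ∀ (L : Type) [Field L]
    [NumberField L] [IsGalois ℚ L] (ζ : L) (N : ℕ), IsPrimitiveRoot ζ N → 0 < N →
    ∀ x y : L, MI2 x y → ∀ Y : ℝ, Y0 ≤ Y → Real.log N ^ 2 ≤ Y →
    (od ℚ⟮ζ⟯ (x, y) : ℝ) ≤ Y ^ κ → 1 ≤ od ℚ⟮ζ⟯ (x, y) * Y ^ 32 * (nh x * nh y) := by
  obtain ⟨Y1, hY1, H1⟩ := leh1_core κ hκ
  obtain ⟨Y2, hY2, H2⟩ := stage_a κ hκ
  obtain ⟨Y3, hY3, H3⟩ := stage_b κ hκ
  refine ⟨max Y1 (max Y2 Y3), le_max_of_le_left hY1, ?_⟩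
  intro L _ _ _ ζ N hζ hN x y hxy Y hY hNY hd
  have hY1' : Y1 ≤ Y := (le_max_left _ _).trans hY
  have hY2' : Y2 ≤ Y := ((le_max_left _ _).trans (le_max_right _ _)).trans hY
  have hY3' : Y3 ≤ Y := ((le_max_right _ _).trans (le_max_right _ _)).trans hY
  have hYone : 1 ≤ Y := hY1.trans hY1'
  have hYpos : 0 < Y := by linarith
  by_contra hcon
  push Not at hcon
  set d : ℕ := od ℚ⟮ζ⟯ (x, y) with hd_def
  have hdpos : 0 < d := od_pos _ _
  have hdR : (0 : ℝ) < d := by exact_mod_cast hdpos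
  obtain ⟨hxn, hyn⟩ := mi2_nt hxy
  have hx0 : 0 < nh x := nh_pos x hxy.1 hxn
  have hy0 : 0 < nh y := nh_pos y hxy.2.1 hyn
  have hodx : od ℚ⟮ζ⟯ (x, 1) ≤ d := by
    have := od_monomial_le ℚ⟮ζ⟯ x y 1 0
    simpa using this
  have hody : od ℚ⟮ζ⟯ (y, 1) ≤ d := by
    have := od_monomial_le ℚ⟮ζ⟯ x y 0 1
    simpa using this
  have hodxR : (od ℚ⟮ζ⟯ (x, 1) : ℝ) ≤ d := by exact_mod_cast hodx
  have hodyR : (od ℚ⟮ζ⟯ (y, 1) : ℝ) ≤ d := by exact_mod_cast hody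
  have hx1 : 1 ≤ d * Y ^ 3 * nh x := by
    refine (H1 L ζ N hζ hN x hxy.1 hxn Y hY1' hNY (hodxR.trans hd)).trans ?_
    gcongr
  have hy1 : 1 ≤ d * Y ^ 3 * nh y := by
    refine (H1 L ζ N hζ hN y hxy.2.1 hyn Y hY1' hNY (hodyR.trans hd)).trans ?_
    gcongr
  set S : ℝ := Real.sqrt (d * (nh x * nh y)) with hS
  have hSpos : 0 < S := Real.sqrt_pos.2 (by positivity)
  have hSS : S * S = d * (nh x * nh y) := Real.mul_self_sqrt (by positivity)
  have hSY : S * Y ^ 16 < 1 := by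
    have h1 : (S * Y ^ 16) * (S * Y ^ 16) < 1 * 1 := by
      calc (S * Y ^ 16) * (S * Y ^ 16) = (S * S) * Y ^ 32 := by ring
        _ = d * Y ^ 32 * (nh x * nh y) := by rw [hSS]; ring
        _ < 1 * 1 := by linarith
    by_contra h2
    push Not at h2
    nlinarith
  have ha12 : S / nh x * (S / nh y) = d := by
    rw [div_mul_div_comm, hSS]
    field_simp
  have ha1x : S / nh x * nh x = S := div_mul_cancel₀ _ hx0.ne'
  have ha2y : S / nh y * nh y = S := div_mul_cancel₀ _ hy0.ne'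
  have hY316 : Y ^ 3 ≤ Y ^ 16 := pow_le_pow_right₀ hYone (by norm_num)
  have hY1016 : Y ^ 10 ≤ Y ^ 16 := pow_le_pow_right₀ hYone (by norm_num)
  have ha1 : 1 ≤ S / nh x := by
    have e : S / nh x = d * nh y / S := by
      rw [div_eq_div_iff hx0.ne' hSpos.ne', hSS]
      ring
    rw [e, le_div_iff₀ hSpos, one_mul]
    have h3 : S * Y ^ 3 ≤ 1 := (mul_le_mul_of_nonneg_left hY316 hSpos.le).trans hSY.le
    have h4 : S * Y ^ 3 ≤ d * nh y * Y ^ 3 := h3.trans (hy1.trans (le_of_eq (by ring)))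
    exact le_of_mul_le_mul_right h4 (by positivity)
  have ha2 : 1 ≤ S / nh y := by
    have e : S / nh y = d * nh x / S := by
      rw [div_eq_div_iff hy0.ne' hSpos.ne', hSS]
      ring
    rw [e, le_div_iff₀ hSpos, one_mul]
    have h3 : S * Y ^ 3 ≤ 1 := (mul_le_mul_of_nonneg_left hY316 hSpos.le).trans hSY.le
    have h4 : S * Y ^ 3 ≤ d * nh x * Y ^ 3 := h3.trans (hx1.trans (le_of_eq (by ring)))
    exact le_of_mul_le_mul_right h4 (by positivity)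
  have hS10 : S * Y ^ 10 ≤ 1 := (mul_le_mul_of_nonneg_left hY1016 hSpos.le).trans hSY.le
  obtain ⟨p, ψ, hp, hpY, hψ, hodp, G, hG0, hG, hG1, hG2⟩ :=
    H2 L ζ N hζ hN x y hxy Y hY2' hNY hd (S / nh x) (S / nh y) ha1 ha2 ha12
      (by rw [ha1x]; exact hS10) (by rw [ha2y]; exact hS10)
  have hod' : od ℚ⟮ζ⟯ (ψ.symm (x ^ p), ψ.symm (y ^ p)) = d := by
    rw [od_symm ψ hψ, hodp]
  have hnx : nh (ψ.symm (x ^ p)) = p * nh x := by rw [nh_algEquiv, nh_pow]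
  have hny : nh (ψ.symm (y ^ p)) = p * nh y := by rw [nh_algEquiv, nh_pow]
  have hfin : (p : ℝ) * S * Y ^ 9 ≤ 1 := by
    calc (p : ℝ) * S * Y ^ 9 ≤ Y ^ 6 * S * Y ^ 9 := by gcongr
      _ = S * Y ^ 15 := by ring
      _ ≤ S * Y ^ 16 := by
          apply mul_le_mul_of_nonneg_left _ hSpos.le
          exact pow_le_pow_right₀ hYone (by norm_num)
      _ ≤ 1 := hSY.le
  refine H3 L ζ N hζ hN _ _ (mi2_pow hxy hp.pos ψ) Y hY3' hNY (by rw [hod']; exact hd)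
    (S / nh x) (S / nh y) (by positivity) (by positivity) (by rw [hod']; exact ha12) ?_ ?_ G hG0 hG
    hG1 hG2
  · rw [hnx]
    calc S / nh x * (p * nh x) * Y ^ 9 = p * (S / nh x * nh x) * Y ^ 9 := by ring
      _ ≤ 1 := by rw [ha1x]; exact hfin
  · rw [hny]
    calc S / nh y * (p * nh y) * Y ^ 9 = p * (S / nh y * nh y) * Y ^ 9 := by ring
      _ ≤ 1 := by rw [ha2y]; exact hfin

end Pool.Agent.Leh2
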